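import Mathlib

set_option autoImplicit false

/-! # The counterexample to Rosenthal's question: definitions (helper50, paper proof = note 2558) -/

namespace Pool.CE

open Filter Topology Set

/-! ## 1. Step systems and resolvents -/

section Gen

variable {S : Type}

/-- the generator `A` -/
noncomputable def Aop (steps : S → List S) (φ : S → ℝ) (z : S) : ℝ :=
  (1 / 2) * ((steps z).map (fun w => φ z - φ w)).sum

/-- `G = (1 + V A)⁻¹` (continuity of `G` is for the product topology of `S → ℝ`) -/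
def IsG (steps : S → List S) (V : ℝ) (G : (S → ℝ) →L[ℝ] (S → ℝ)) : Prop :=
  ∀ (φ : S → ℝ) (z : S), G φ z + V * Aop steps (G φ) z = φ z

end Gen

/-! ## 2. Towers, coherent sequences, families of operators -/

/-- a tower of finite retractions -/
structure Tow (S : Type) where
  tr : ℕ → S → S
  tr_tr : ∀ m n z, tr m (tr n z) = tr (min m n) z
  tr_fin : ∀ n, (Set.range (tr n)).Finite
  tr_ev : ∀ z, ∃ n, tr n z = z

variable {S : Type}

/-- coherent sequences -/
def Coh (T : Tow S) (y : ℕ → S) : Prop := ∀ n m, n ≤ m → T.tr n (y m) = y n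

/-- uniform limits of cylinder functions -/
def IsE (T : Tow S) (φ : S → ℝ) : Prop :=
  (∃ M, ∀ z, |φ z| ≤ M) ∧ ∀ ε > 0, ∃ n₀, ∀ n ≥ n₀, ∀ z, |φ z - φ (T.tr n z)| ≤ ε

theorem Tow.tr_ev' (T : Tow S) (z : S) : ∃ n₀, ∀ n ≥ n₀, T.tr n z = z := by
  obtain ⟨n₀, h⟩ := T.tr_ev z
  refine ⟨n₀, fun n hn => ?_⟩
  conv_lhs => rw [← h]
  rw [T.tr_tr, min_eq_right hn, h]

theorem IsE.add {T : Tow S} {φ ψ : S → ℝ} (h1 : IsE T φ) (h2 : IsE T ψ) : IsE T (φ + ψ) := by
  obtain ⟨⟨M, hM⟩, h1⟩ := h1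
  obtain ⟨⟨N, hN⟩, h2⟩ := h2
  refine ⟨⟨M + N, fun z => (abs_add_le _ _).trans (add_le_add (hM z) (hN z))⟩, fun ε hε => ?_⟩
  obtain ⟨n₁, h1⟩ := h1 (ε / 2) (by positivity)
  obtain ⟨n₂, h2⟩ := h2 (ε / 2) (by positivity)
  refine ⟨max n₁ n₂, fun n hn z => ?_⟩
  have e1 := h1 n (le_trans (le_max_left _ _) hn) z
  have e2 := h2 n (le_trans (le_max_right _ _) hn) z
  have : (φ + ψ) z - (φ + ψ) (T.tr n z) = (φ z - φ (T.tr n z)) + (ψ z - ψ (T.tr n z)) := by
    simp only [Pi.add_apply]; ring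
  rw [this]
  exact (abs_add_le _ _).trans (by linarith)

theorem IsE.smul {T : Tow S} {φ : S → ℝ} (c : ℝ) (h1 : IsE T φ) : IsE T (c • φ) := by
  obtain ⟨⟨M, hM⟩, h1⟩ := h1
  refine ⟨⟨|c| * M, fun z => ?_⟩, fun ε hε => ?_⟩
  · simp only [Pi.smul_apply, smul_eq_mul, abs_mul]
    exact mul_le_mul_of_nonneg_left (hM z) (abs_nonneg _)
  · obtain ⟨n₁, h1⟩ := h1 (ε / (|c| + 1)) (by positivity)
    refine ⟨n₁, fun n hn z => ?_⟩
    have e1 := h1 n hn z
    simp only [Pi.smul_apply, smul_eq_mul, ← mul_sub, abs_mul]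
    calc |c| * |φ z - φ (T.tr n z)| ≤ (|c| + 1) * (ε / (|c| + 1)) := by gcongr; linarith
      _ = ε := by field_simp

theorem IsE.zero {T : Tow S} : IsE T (0 : S → ℝ) :=
  ⟨⟨0, fun z => by simp⟩, fun ε hε => ⟨0, fun n _ z => by simpa using hε.le⟩⟩

/-- the space of uniform limits of cylinder functions (sup norm implicit) -/
def Esub (T : Tow S) : Submodule ℝ (S → ℝ) where
  carrier := {φ | IsE T φ}
  add_mem' := fun h1 h2 => h1.add h2
  zero_mem' := IsE.zero
  smul_mem' := fun c _ h => h.smul c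

/-- the abstract data for the projection -/
structure Fam (S : Type) extends Tow S where
  x : ℕ → (S → ℝ) →L[ℝ] (S → ℝ)
  x_comm : ∀ p q, x p * x q = x q * x p
  x_res : ∀ p r, x p * (1 - x (p + r)) = ((1 / 2 : ℝ) ^ r) • ((1 - x p) * x (p + r))
  x_tr : ∀ p n (φ : S → ℝ), x p (fun z => φ (tr n z)) = fun z => x p φ (tr n z)
  x_le : ∀ p (φ : S → ℝ) M, (∀ z, |φ z| ≤ M) → ∀ z, |x p φ z| ≤ M
  x_lim : ∀ (φ : S → ℝ) z, Tendsto (fun p => x p φ z) atTop (𝓝 (φ z))
  tail : ∀ p (y : ℕ → S), Coh toTow y → ∀ ε > 0, ∃ n₀, ∀ n ≥ n₀, ∀ m, ∀ φ : S → ℝ,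
    (∀ z, |φ z| ≤ 1) → |x p (fun z => φ z - φ (tr n z)) (y m)| ≤ ε

/-- `f_p` -/
noncomputable def Fam.f (F : Fam S) : ℕ → (S → ℝ) →L[ℝ] (S → ℝ)
  | 0 => F.x 0
  | p + 1 => F.x (p + 1) - F.x p

/-- `rho_p` -/
noncomputable def Fam.rho (F : Fam S) : ℕ → (S → ℝ) →L[ℝ] (S → ℝ)
  | 0 => (3 : ℝ) • F.x 0 - (2 : ℝ) • (F.x 0 * F.x 0)
  | p + 1 => (3 : ℝ) • (F.x (p + 1) + F.x p) -
      (2 : ℝ) • (F.x (p + 1) * F.x (p + 1) + F.x (p + 1) * F.x p + F.x p * F.x p)

/-- the matrix entries of the projection -/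
noncomputable def Fam.T (F : Fam S) (q p : ℕ) : (S → ℝ) →L[ℝ] (S → ℝ) := F.f q * F.rho p

/-- the distance of `p` and `q` -/
def dd (q p : ℕ) : ℕ := (q - p) + (p - q)

/-- the big tower: one point compactification of `ℕ × S` -/
def Tow.big (T : Tow S) : Tow (Option (ℕ × S)) where
  tr := fun n s => s.bind fun qz => if qz.1 < n then some (qz.1, T.tr n qz.2) else none
  tr_tr := by
    intro m n z
    rcases z with _ | ⟨q, z⟩
    · rfl
    · simp only [Option.bind_some]
      by_cases h : q < n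
      · simp only [h, if_true, Option.bind_some]
        by_cases h' : q < m
        · have : q < min m n := lt_min h' h
          simp only [h', this, if_true, T.tr_tr]
        · have : ¬ q < min m n := fun h'' => h' (lt_of_lt_of_le h'' (min_le_left _ _))
          simp only [h', this, if_false]
      · have : ¬ q < min m n := fun h'' => h (lt_of_lt_of_le h'' (min_le_right _ _))
        simp only [h, this, if_false, Option.bind_none]
  tr_fin := by
    intro n
    have hf : (({none} : Set (Option (ℕ × S))) ∪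
        (fun qz : ℕ × S => some qz) '' ((Set.Iio n) ×ˢ (Set.range (T.tr n)))).Finite :=
      (Set.finite_singleton _).union (((Set.finite_Iio n).prod (T.tr_fin n)).image _)
    refine hf.subset ?_
    rintro _ ⟨z, rfl⟩
    rcases z with _ | ⟨q, z⟩
    · exact Or.inl rfl
    · simp only [Option.bind_some]
      by_cases h : q < n
      · simp only [h, if_true]
        exact Or.inr ⟨(q, T.tr n z), ⟨h, ⟨z, rfl⟩⟩, rfl⟩
      · simp only [h, if_false]
        exact Or.inl rfl
  tr_ev := by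
    intro z
    rcases z with _ | ⟨q, z⟩
    · exact ⟨0, rfl⟩
    · obtain ⟨n₀, h⟩ := T.tr_ev' z
      refine ⟨max n₀ (q + 1), ?_⟩
      simp only [Option.bind_some]
      rw [if_pos (by omega), h _ (le_max_left _ _)]

/-- the projection on functions on `Option (ℕ × S)` -/
noncomputable def Fam.Pf (F : Fam S) (Φ : Option (ℕ × S) → ℝ) : Option (ℕ × S) → ℝ
  | none => 0
  | some (q, z) => ∑' p, F.T q p (fun w => Φ (some (p, w)) - Φ none) z

/-- the embedding `j` -/
noncomputable def Fam.jf (F : Fam S) (φ : S → ℝ) : Option (ℕ × S) → ℝ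
  | none => 0
  | some (q, z) => F.f q φ z

/-! ## 3. Programs -/

/-- programs -/
inductive Prog : Type
  | nil : Prog
  | leaf (k : ℕ) : Prog
  | avg (κ l : ℕ) (c : Fin (2 ^ l) → Prog) : Prog

namespace Prog

/-- `k` is an event time of the program -/
def Ev : Prog → ℕ → Prop
  | nil, _ => False
  | leaf k, m => m = k
  | avg κ _ c, m => m = κ ∨ ∃ j, Ev (c j) m

/-- valid programs -/
def Valid : Prog → Prop
  | nil => True
  | leaf _ => True
  | avg κ l c => l ≤ 4 ^ (κ + 1) ∧ (∀ j, Valid (c j)) ∧ (∀ j k, Ev (c j) k → κ < k) ∧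
      (∀ i j, i < j → ∀ a b, Ev (c i) a → Ev (c j) b → a < b)

/-- truncation: keep the events with time `< n` -/
def tr (n : ℕ) : Prog → Prog
  | nil => nil
  | leaf k => if k < n then leaf k else nil
  | avg κ l c => if κ < n then avg κ l (fun j => tr n (c j)) else nil

/-- deletion of the leaves outside `E` -/
noncomputable def restr (E : Set ℕ) : Prog → Prog
  | nil => nil
  | leaf k => open Classical in if k ∈ E then leaf k else nil
  | avg κ l c => avg κ l (fun j => restr E (c j))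

/-- the two steps at the top node: keep the children with index of parity `ξ` -/
def half (κ : ℕ) (ξ : Fin 2) : (l : ℕ) → (Fin (2 ^ l) → Prog) → Prog
  | 0, _ => nil
  | l + 1, c => avg κ l (fun j => c ⟨2 * j.1 + ξ.1, by
      have h1 := j.2
      have h2 := ξ.2
      rw [pow_succ]
      omega⟩)

/-- the list of all `T_v^ξ z` -/
def steps : Prog → List Prog
  | nil => []
  | leaf _ => []
  | avg κ l c => half κ 0 l c :: half κ 1 l c ::
      (List.finRange (2 ^ l)).flatMap fun j =>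
        (steps (c j)).map fun w => avg κ l (Function.update c j w)

/-- the rank -/
def rank : Prog → ℕ
  | nil => 0
  | leaf _ => 0
  | avg _ l c => l + 1 + ∑ j, rank (c j)

end Prog

/-- `Γ_κ(l)` -/
noncomputable def Gam (κ l : ℕ) : ℝ := 1 + (l : ℝ) / 4 ^ (κ + 1)

/-- the function `w_a` -/
noncomputable def wt (a : ℕ → ℝ) : Prog → ℝ
  | Prog.nil => 0
  | Prog.leaf k => a k
  | Prog.avg κ l c => Gam κ l / 2 ^ l * ∑ j, wt a (c j)

/-- the function `s_a` -/
noncomputable def sg (a : ℕ → ℝ) : Prog → ℝ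
  | Prog.nil => 0
  | Prog.leaf _ => 0
  | Prog.avg κ l c => Gam κ l / 2 ^ l * ∑ j, (sg a (c j) + (1 / 2) ^ l * wt a (c j))

/-- good programs: all levels are large -/
def Good : Prog → Prop
  | Prog.nil => True
  | Prog.leaf _ => True
  | Prog.avg κ l c => κ + 2 ≤ l ∧ ∀ j, Good (c j)

/-- `z` contains the event `κ` below exactly `d` averages -/
def InD (κ : ℕ) : ℕ → Prog → Prop
  | _, Prog.nil => False
  | d, Prog.leaf k => k = κ ∧ d = 0
  | d, Prog.avg κ' _ c => (κ' = κ ∧ d = 0) ∨ ∃ d', d = d' + 1 ∧ ∃ j, InD κ d' (c j)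

/-- all events of `z` with time `≥ n` are at or below the average with marker `κ` -/
def Below (κ n : ℕ) : Prog → Prop
  | Prog.nil => True
  | Prog.leaf k => k < n
  | Prog.avg κ' _ c => κ' = κ ∨ (κ' < n ∧ ∀ j, Below κ n (c j))

end Pool.CE
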