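import Mathlib
import Pool.Agent.Work.MP_052a41_ce.Defs

set_option autoImplicit false

/-! # Basic facts on programs (proved): validity is preserved, the types `VP`, `stepsV`, `trV` -/

namespace Pool.CE

namespace Prog

theorem ev_tr (n : ℕ) (z : Prog) (k : ℕ) : Ev (tr n z) k → Ev z k ∧ k < n := by
  induction z with
  | nil => intro h; exact h.elim
  | leaf m =>
    intro h
    unfold tr at h
    split_ifs at h with h'
    · exact ⟨h, by rw [show k = m from h]; exact h'⟩
    · exact h.elim
  | avg κ l c ih =>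
    intro h
    unfold tr at h
    split_ifs at h with h'
    · rcases h with h | ⟨j, h⟩
      · exact ⟨Or.inl h, h ▸ h'⟩
      · exact ⟨Or.inr ⟨j, (ih j h).1⟩, (ih j h).2⟩
    · exact h.elim

theorem ev_tr_of (n : ℕ) (z : Prog) (hz : Valid z) (k : ℕ) (h : Ev z k) (hk : k < n) :
    Ev (tr n z) k := by
  induction z with
  | nil => exact h.elim
  | leaf m =>
    have : k = m := h
    subst this
    unfold tr
    rw [if_pos hk]
    exact h
  | avg κ l c ih =>
    unfold tr
    rcases h with h | ⟨j, h⟩
    · rw [if_pos (h ▸ hk)]; exact Or.inl h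
    · have h1 := hz.2.2.1 j k h
      rw [if_pos (h1.trans hk)]
      exact Or.inr ⟨j, ih j (hz.2.1 j) h⟩

theorem valid_tr (n : ℕ) (z : Prog) (hz : Valid z) : Valid (tr n z) := by
  induction z with
  | nil => exact trivial
  | leaf m => unfold tr; split_ifs <;> exact trivial
  | avg κ l c ih =>
    unfold tr
    split_ifs with h'
    · exact ⟨hz.1, fun j => ih j (hz.2.1 j), fun j k h => hz.2.2.1 j k (ev_tr _ _ _ h).1,
        fun i j hij a b ha hb => hz.2.2.2 i j hij a b (ev_tr _ _ _ ha).1 (ev_tr _ _ _ hb).1⟩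
    · exact trivial

theorem tr_tr (m n : ℕ) (z : Prog) : tr m (tr n z) = tr (min m n) z := by
  induction z with
  | nil => rfl
  | leaf k =>
    by_cases h1 : k < n
    · by_cases h2 : k < m
      · simp [tr, h1, h2]
      · simp [tr, h1, h2]
    · simp [tr, h1]
  | avg κ l c ih =>
    by_cases h1 : κ < n
    · by_cases h2 : κ < m
      · simp [tr, h1, h2, ih]
      · simp [tr, h1, h2]
    · simp [tr, h1]

theorem ev_half (κ : ℕ) (ξ : Fin 2) (l : ℕ) (c : Fin (2 ^ l) → Prog) (k : ℕ)
    (h : Ev (half κ ξ l c) k) : k = κ ∨ ∃ j, Ev (c j) k := by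
  cases l with
  | zero => exact h.elim
  | succ l =>
    rcases h with h | ⟨j, h⟩
    · exact Or.inl h
    · exact Or.inr ⟨_, h⟩

theorem valid_half (κ : ℕ) (ξ : Fin 2) (l : ℕ) (c : Fin (2 ^ l) → Prog)
    (h : Valid (avg κ l c)) : Valid (half κ ξ l c) := by
  cases l with
  | zero => exact trivial
  | succ l =>
    refine ⟨(Nat.le_succ l).trans h.1, fun j => h.2.1 _, fun j k hk => h.2.2.1 _ k hk,
      fun i j hij a b ha hb => h.2.2.2 _ _ ?_ a b ha hb⟩
    have : i.1 < j.1 := hij
    show 2 * i.1 + ξ.1 < 2 * j.1 + ξ.1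
    omega

theorem mem_steps_avg {κ l : ℕ} {c : Fin (2 ^ l) → Prog} {w : Prog} :
    w ∈ steps (avg κ l c) ↔ w = half κ 0 l c ∨ w = half κ 1 l c ∨
      ∃ j, ∃ w' ∈ steps (c j), w = avg κ l (Function.update c j w') := by
  simp only [steps, List.mem_cons, List.mem_flatMap, List.mem_finRange, true_and, List.mem_map]
  refine or_congr_right (or_congr_right ?_)
  constructor
  · rintro ⟨j, w', h1, h2⟩; exact ⟨j, w', h1, h2.symm⟩
  · rintro ⟨j, w', h1, h2⟩; exact ⟨j, w', h1, h2.symm⟩

theorem valid_steps (z : Prog) (hz : Valid z) (w : Prog) (hw : w ∈ steps z) :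
    Valid w ∧ ∀ k, Ev w k → Ev z k := by
  induction z generalizing w with
  | nil => simp [steps] at hw
  | leaf m => simp [steps] at hw
  | avg κ l c ih =>
    rw [mem_steps_avg] at hw
    rcases hw with h | h | ⟨j, w', hw', h⟩
    · subst h; exact ⟨valid_half _ _ _ _ hz, fun k hk => ev_half _ _ _ _ _ hk⟩
    · subst h; exact ⟨valid_half _ _ _ _ hz, fun k hk => ev_half _ _ _ _ _ hk⟩
    · subst h
      obtain ⟨h1, h2⟩ := ih j (hz.2.1 j) w' hw'
      have key : ∀ i k, Ev (Function.update c j w' i) k → Ev (c i) k := by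
        intro i k hk
        by_cases hi : i = j
        · subst hi; rw [Function.update_self] at hk; exact h2 k hk
        · rwa [Function.update_of_ne hi] at hk
      refine ⟨⟨hz.1, fun i => ?_, fun i k hk => hz.2.2.1 i k (key i k hk),
        fun i i' hii a b ha hb => hz.2.2.2 i i' hii a b (key _ _ ha) (key _ _ hb)⟩, ?_⟩
      · by_cases hi : i = j
        · subst hi; rw [Function.update_self]; exact h1
        · rw [Function.update_of_ne hi]; exact hz.2.1 i
      · rintro k (hk | ⟨i, hk⟩)
        · exact Or.inl hk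
        · exact Or.inr ⟨i, key i k hk⟩

theorem sum_flatMap' {α : Type*} (l : List α) (f : α → List ℝ) :
    (l.flatMap f).sum = (l.map fun a => (f a).sum).sum := by
  induction l with
  | nil => rfl
  | cons a l ih => simp only [List.flatMap_cons, List.sum_append, List.map_cons, List.sum_cons, ih]

/-- the recursion for the generator -/
theorem Aop_avg (φ : Prog → ℝ) (κ l : ℕ) (c : Fin (2 ^ l) → Prog) :
    Aop steps φ (avg κ l c) =
      (φ (avg κ l c) - (φ (half κ 0 l c) + φ (half κ 1 l c)) / 2) +
      ∑ j, Aop steps (fun w => φ (avg κ l (Function.update c j w))) (c j) := by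
  unfold Aop
  rw [steps, List.map_cons, List.map_cons, List.sum_cons, List.sum_cons, List.map_flatMap,
    sum_flatMap', ← Finset.mul_sum]
  have : ((List.finRange (2 ^ l)).map fun j =>
      (((steps (c j)).map fun w => avg κ l (Function.update c j w)).map
        fun w => φ (avg κ l c) - φ w).sum).sum =
      ∑ j, ((steps (c j)).map fun w => φ (avg κ l (Function.update c j (c j))) -
        φ (avg κ l (Function.update c j w))).sum := by
    rw [← List.sum_ofFn, List.ofFn_eq_map]
    congr 1
    refine List.map_congr_left fun j _ => ?_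
    rw [List.map_map, Function.update_eq_self]
    rfl
  rw [this]
  ring

end Prog

/-- valid programs -/
abbrev VP : Type := {z : Prog // z.Valid}

/-- the steps on valid programs -/
def stepsV (z : VP) : List VP :=
  (Prog.steps z.1).pmap Subtype.mk fun w hw => (Prog.valid_steps z.1 z.2 w hw).1

/-- the truncation on valid programs -/
def trV (n : ℕ) (z : VP) : VP := ⟨Prog.tr n z.1, Prog.valid_tr n z.1 z.2⟩

theorem mem_stepsV {z w : VP} : w ∈ stepsV z ↔ w.1 ∈ Prog.steps z.1 := by
  unfold stepsV
  rw [List.mem_pmap]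
  constructor
  · rintro ⟨a, ha, h⟩
    rw [← h]; exact ha
  · intro h
    exact ⟨w.1, h, rfl⟩

theorem map_val_stepsV (z : VP) : (stepsV z).map Subtype.val = Prog.steps z.1 := by
  unfold stepsV
  rw [List.map_pmap]
  simp

/-- the generator on valid programs is the restriction of the generator on programs -/
theorem Aop_val (φ : Prog → ℝ) (z : VP) :
    Aop stepsV (fun w => φ w.1) z = Aop Prog.steps φ z.1 := by
  unfold Aop
  rw [← map_val_stepsV, List.map_map]
  rfl

/-- every function on valid programs comes from a function on programs -/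
theorem exists_ext (φ : VP → ℝ) : ∃ φ' : Prog → ℝ, φ = fun w => φ' w.1 := by
  classical
  refine ⟨fun w => if h : w.Valid then φ ⟨w, h⟩ else 0, ?_⟩
  funext w
  have : w.1.Valid := w.2
  simp only [this, dif_pos]

/-- the indicator of the event `κ` -/
noncomputable def evi (κ : ℕ) (z : Prog) : ℝ := open Classical in if z.Ev κ then 1 else 0

/-! ## The compact space of a tower -/

/-- the inverse limit -/
def KK {S : Type} (T : Tow S) : Type := {y : ℕ → S // Coh T y}

/-- its topology: induced from the product of the discrete topologies -/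
instance KK.top {S : Type} (T : Tow S) : TopologicalSpace (KK T) :=
  TopologicalSpace.induced (fun y : KK T => y.1)
    (@Pi.topologicalSpace ℕ (fun _ => S) (fun _ => ⊥))

/-- the point of the inverse limit given by an element of `S` -/
def KK.pt {S : Type} (T : Tow S) (s : S) : KK T :=
  ⟨fun n => T.tr n s, fun n m h => by rw [T.tr_tr, min_eq_left h]⟩

/-! ## Sequences in normed spaces -/

section Seq

variable {V : Type} [NormedAddCommGroup V] [NormedSpace ℝ V]

/-- finite linear combinations of a sequence -/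
noncomputable def lin (e : ℕ → V) : (ℕ →₀ ℝ) →ₗ[ℝ] V := Finsupp.linearCombination ℝ e

/-- unconditional sequences -/
def Unc (e : ℕ → V) (C : ℝ) : Prop :=
  ∀ a b : ℕ →₀ ℝ, (∀ k, |b k| ≤ |a k|) → ‖lin e b‖ ≤ C * ‖lin e a‖

/-- sums of successive blocks of norm at least `δ` are unbounded -/
def Grow (e : ℕ → V) : Prop :=
  ∀ δ > 0, ∀ M : ℝ, ∀ (a : ℕ → (ℕ →₀ ℝ)) (t : ℕ → ℕ), StrictMono t →
    (∀ i, ∀ k ∈ (a i).support, t i ≤ k ∧ k < t (i + 1)) → (∀ i, δ ≤ ‖lin e (a i)‖) →
    ∃ n, M < ‖∑ i ∈ Finset.range n, lin e (a i)‖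

/-- the closed linear span is everything -/
def Dns (e : ℕ → V) : Prop := Dense ((Submodule.span ℝ (Set.range e) : Submodule ℝ V) : Set V)

end Seq

end Pool.CE
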