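import Mathlib
import Pool.Agent.Work.MP_052a41_ce.Basic

set_option autoImplicit false

/-! # The counterexample to Rosenthal's question: the blocks (helper50; paper proof = note 2558)

Write `theorem Pool.CE.blk_X (hypotheses : Stmt_Y ...) : Stmt_X` in the file `B_X.lean` of this
folder (hypotheses only for the rows listed as `deps` in the table ce_blocks, in that order).
No double quotes inside comments. -/

namespace Pool.CE

open Filter Topology Set Prog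

/-! ## Group G: step systems and resolvents -/

/-- (GEX) existence of the resolvent.  Well-founded recursion on `rank`:
`G φ z = (φ z + V/2 * ∑_{w ∈ steps z} G φ w) / (1 + V/2 * length (steps z))`; linear and (by
induction on the rank) every `φ ↦ G φ z` is continuous for the product topology.
`Aop steps ψ z = 1/2 * (length * ψ z - ∑ ψ w)`. -/
def Stmt_GEX : Prop :=
  ∀ (S : Type) (steps : S → List S) (rank : S → ℕ), (∀ z, ∀ w ∈ steps z, rank w < rank z) →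
    ∀ V : ℝ, 0 ≤ V → ∃ G : (S → ℝ) →L[ℝ] (S → ℝ), IsG steps V G

/-- (GCMP) comparison on a set closed under steps.  Induction on the rank: for `δ = G φ - ψ`,
`(1 + V/2 * length) δ z ≥ V/2 * ∑_{w ∈ steps z} δ w ≥ 0`. -/
def Stmt_GCMP : Prop :=
  ∀ (S : Type) (steps : S → List S) (rank : S → ℕ), (∀ z, ∀ w ∈ steps z, rank w < rank z) →
    ∀ V : ℝ, 0 ≤ V → ∀ G : (S → ℝ) →L[ℝ] (S → ℝ), IsG steps V G →
    ∀ T : Set S, (∀ z ∈ T, ∀ w ∈ steps z, w ∈ T) → ∀ φ ψ : S → ℝ,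
      ((∀ z ∈ T, ψ z + V * Aop steps ψ z ≤ φ z) → ∀ z ∈ T, ψ z ≤ G φ z) ∧
      ((∀ z ∈ T, φ z ≤ ψ z + V * Aop steps ψ z) → ∀ z ∈ T, G φ z ≤ ψ z)

/-- (GALG) commutation and resolvent identity.  From uniqueness (GCMP with `T = univ`): if
`ψ + V Aψ = φ` then `ψ = G φ`.  Hence `G (A u) = A (G u)`, `G (H u) = H (G u)`, and
`G (1 - H) u = W • G (A (H u)) = W • A (G (H u)) = (W / V) • (1 - G) (H u)`. -/
def Stmt_GALG : Prop :=
  ∀ (S : Type) (steps : S → List S) (rank : S → ℕ), (∀ z, ∀ w ∈ steps z, rank w < rank z) →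
    ∀ V W : ℝ, 0 < V → 0 < W → ∀ G H : (S → ℝ) →L[ℝ] (S → ℝ), IsG steps V G → IsG steps W H →
      G * H = H * G ∧ G * (1 - H) = (W / V) • ((1 - G) * H)

/-- (GPOS) local contraction.  GCMP with the constant functions `ψ = M, -M` (`Aop (const) = 0`). -/
def Stmt_GPOS : Prop :=
  ∀ (S : Type) (steps : S → List S) (rank : S → ℕ), (∀ z, ∀ w ∈ steps z, rank w < rank z) →
    ∀ V : ℝ, 0 ≤ V → ∀ G : (S → ℝ) →L[ℝ] (S → ℝ), IsG steps V G →
    ∀ T : Set S, (∀ z ∈ T, ∀ w ∈ steps z, w ∈ T) → ∀ (φ : S → ℝ) (M : ℝ),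
      (∀ z ∈ T, |φ z| ≤ M) → ∀ z ∈ T, |G φ z| ≤ M

/-- (GLIM) `G_V φ z → φ z` as `V → 0`.  Let `T` be the (finite, closed under steps) set reachable
from `z`, `M = max_T |φ|`; by GPOS `|G φ| ≤ M` on `T`, so
`|G φ z - φ z| = V |Aop steps (G φ) z| ≤ V * length * M`.  (Or induction on the rank.) -/
def Stmt_GLIM : Prop :=
  ∀ (S : Type) (steps : S → List S) (rank : S → ℕ), (∀ z, ∀ w ∈ steps z, rank w < rank z) →
    ∀ (V : ℕ → ℝ) (G : ℕ → (S → ℝ) →L[ℝ] (S → ℝ)), (∀ p, 0 ≤ V p) → (∀ p, IsG steps (V p) (G p)) →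
      Tendsto V atTop (𝓝 0) → ∀ (φ : S → ℝ) (z : S), Tendsto (fun p => G p φ z) atTop (𝓝 (φ z))

/-- (GTR) maps commuting with the generator commute with the resolvent (uniqueness). -/
def Stmt_GTR : Prop :=
  ∀ (S : Type) (steps : S → List S) (rank : S → ℕ), (∀ z, ∀ w ∈ steps z, rank w < rank z) →
    ∀ V : ℝ, 0 ≤ V → ∀ G : (S → ℝ) →L[ℝ] (S → ℝ), IsG steps V G →
    ∀ t : S → S, (∀ (φ : S → ℝ) z, Aop steps (fun w => φ (t w)) z = Aop steps φ (t z)) →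
      ∀ φ : S → ℝ, G (fun w => φ (t w)) = fun z => G φ (t z)

/-! ## Group B: programs -/

/-- (BRK) steps decrease the rank.  Top step: `l = 0` clear, `l + 1`: the sum over the indices
`2 j + ξ` is at most the full sum.  Inner step: induction. -/
def Stmt_BRK : Prop := ∀ z : Prog, ∀ w ∈ steps z, rank w < rank z

/-- (BATR) the generator commutes with truncation.  Induction on `z` with `Aop_avg`: if `κ < n` the
top steps commute with `tr n` (`tr n (half κ ξ l c) = half κ ξ l (tr n ∘ c)`) and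
`tr n (avg κ l (update c j w)) = avg κ l (update (tr n ∘ c) j (tr n w))`; if `n ≤ κ` then
`tr n` of `z`, of the top steps and of all inner steps is `nil`, both sides are `0`. -/
def Stmt_BATR : Prop :=
  ∀ (φ : Prog → ℝ) (n : ℕ) (z : Prog),
    Aop steps (fun w => φ (Prog.tr n w)) z = Aop steps φ (Prog.tr n z)

/-- (BARS) the same for the deletion of leaves; moreover `restr E` preserves validity and
`w_a (restr E z) = w_{a 1_E} z`. -/
def Stmt_BARS : Prop :=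
  (∀ (φ : Prog → ℝ) (E : Set ℕ) (z : Prog),
    Aop steps (fun w => φ (restr E w)) z = Aop steps φ (restr E z)) ∧
  (∀ (E : Set ℕ) (z : Prog), Valid z → Valid (restr E z)) ∧
  (∀ (E : Set ℕ) (a : ℕ → ℝ) (z : Prog), wt a (restr E z) = wt (E.indicator a) z)

/-- (BFIN) finitely many valid programs with all events `< n`.  Induction on `n - t` for the set of
the valid programs with all events in `[t, n)`: `nil`, `leaf k`, or `avg κ l c` with `t ≤ κ < n`,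
`l ≤ 4 ^ (κ + 1)` and `c` a function from `Fin (2 ^ l)` to the finite set for `κ + 1`. -/
def Stmt_BFIN : Prop := ∀ n : ℕ, {z : Prog | Valid z ∧ ∀ k, z.Ev k → k < n}.Finite

/-- (BEV) every program has finitely many events; `tr n z = z` when all events are `< n`. -/
def Stmt_BEV : Prop :=
  (∀ z : Prog, ∃ n, ∀ k, z.Ev k → k < n) ∧
  (∀ (z : Prog) (n : ℕ), (∀ k, z.Ev k → k < n) → Prog.tr n z = z)

/-- (BWT) elementary facts on `wt` and `sg`: linearity, monotonicity, sign, single programs. -/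
def Stmt_BWT : Prop :=
  (∀ (a b : ℕ → ℝ) z, wt (a + b) z = wt a z + wt b z) ∧
  (∀ (c : ℝ) (a : ℕ → ℝ) z, wt (c • a) z = c * wt a z) ∧
  (∀ (a b : ℕ → ℝ) z, (∀ k, z.Ev k → a k ≤ b k) → wt a z ≤ wt b z) ∧
  (∀ (a b : ℕ → ℝ) z, (∀ k, |a k| ≤ b k) → |wt a z| ≤ wt b z) ∧
  (∀ (a : ℕ → ℝ) z, (∀ k, 0 ≤ a k) → 0 ≤ wt a z ∧ 0 ≤ sg a z)

/-- (BTR) truncation: for a valid program `w_a (tr n z) = w_{a 1_{< n}} z`. -/
def Stmt_BTR : Prop :=
  ∀ (a : ℕ → ℝ) (n : ℕ) (z : Prog), Valid z →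
    wt a (Prog.tr n z) = wt (fun k => if k < n then a k else 0) z

/-- (BBD) boundedness.  Induction on `z`: `w_b z ≤ ∑_{k ∈ s, z.Ev k} b k`, the event sets of the
children are disjoint and `Gam κ l ≤ 2 ^ l` (`l = 0`: `1`; `1 + l/4 ≤ 2 ^ l`). -/
def Stmt_BBD : Prop :=
  ∀ (b : ℕ → ℝ) (s : Finset ℕ), (∀ k, 0 ≤ b k) → (∀ k ∉ s, b k = 0) →
    ∀ z, Valid z → wt b z ≤ ∑ k ∈ s, b k

/-- (BH) the supersolution inequality, see (B2) of the note.  With `H = wt a - sg a`: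
`A H z ≤ sg a z + B_t * wt a z` if all events are `≥ t`, `B_t = (1/3) (1/4)^t` (note
`1 / 4 ^ (κ + 1) + B_{κ+1} = B_κ ≤ B_t`).  Induction with `Aop_avg`.  Inner part:
`Aop (fun w => H (avg κ l (update c j w))) (c j) = Gam κ l / 2 ^ l * (A H (c j) - (1/2)^l * A wt (c j))`
(`Aop` kills constants), and `A wt ≥ 0` (separate induction: for `l ≥ 1` top part
`(Gam κ l - Gam κ (l-1)) / 2^l * ∑ wt ≥ 0`).  Top part, `l ≥ 1`: the two halves together see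
every child once, `(half 0 + half 1)/2` gives `Gam κ (l-1) / 2^l * ∑ (H_j - 2 (1/2)^l wt_j)`. -/
def Stmt_BH : Prop :=
  ∀ (a : ℕ → ℝ), (∀ k, 0 ≤ a k) → ∀ (z : Prog) (t : ℕ), Valid z → (∀ k, z.Ev k → t ≤ k) →
    Aop steps (fun w => wt a w - sg a w) z ≤ sg a z + (1 / 3) * (1 / 4) ^ t * wt a z

/-- (BGOOD) for good programs with all events `≥ t`: `sg ≤ (1/2)^(t+1) wt`.  Induction:
`(1/2)^(κ+2) + (1/2)^l ≤ 2 (1/2)^(κ+2)`. -/
def Stmt_BGOOD : Prop :=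
  ∀ (a : ℕ → ℝ), (∀ k, 0 ≤ a k) → ∀ (z : Prog) (t : ℕ), Valid z → Good z →
    (∀ k, z.Ev k → t ≤ k) → sg a z ≤ (1 / 2) ^ (t + 1) * wt a z

/-- (BREM) removal of the averages of small level.  Induction on `z`: `z = avg κ l c`, take good
`c'_j` for the children (events `≥ κ + 1`, constant `1 + 2 (1/2)^(κ+1)`).  If `κ + 2 ≤ l` use
`avg κ l c'`; otherwise the best child `c'_j`: `wt b z ≤ Gam κ l * max_j wt b (c_j)` and
`(1 + (κ+1)/4^(κ+1)) (1 + 2 (1/2)^(κ+1)) ≤ 1 + 2 (1/2)^κ`. -/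
def Stmt_BREM : Prop :=
  ∀ (b : ℕ → ℝ), (∀ k, 0 ≤ b k) → ∀ (z : Prog) (t : ℕ), Valid z → (∀ k, z.Ev k → t ≤ k) →
    ∃ z', Valid z' ∧ Good z' ∧ (∀ k, z'.Ev k → z.Ev k) ∧
      wt b z ≤ (1 + 2 * (1 / 2) ^ t) * wt b z'

/-- (BFRESH) the fresh lemma, see (B3): at most one child has `wt b > M`, and
`Gam κ l * (2 ^ l + 2) ≤ 3 * 2 ^ l` (`l = 0` : `3 ≤ 3`; `Gam κ l ≤ 1 + l / 4`, `Gam κ l ≤ 2`). -/
def Stmt_BFRESH : Prop :=
  ∀ (b : ℕ → ℝ) (t : ℕ) (M : ℝ), (∀ k, 0 ≤ b k) → (∀ k, k < t → b k = 0) →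
    (∀ z, Valid z → (∀ k, z.Ev k → t ≤ k) → wt b z ≤ M) → ∀ z, Valid z → wt b z ≤ 3 * M

/-- (BGROW) the growth lemma, see (B4).  Induction on `m` (for all `i₀`): choose `κ = t i₀`,
`l = 4 ^ (κ + 1)`, and successively `2 ^ l` programs from the case `m`, starting with index
`i₀ + 1`; `Gam κ l = 2`. -/
def Stmt_BGROW : Prop :=
  ∀ (t : ℕ → ℕ) (b : ℕ → ℕ → ℝ) (δ : ℝ), StrictMono t → (∀ i k, 0 ≤ b i k) → 0 ≤ δ →
    (∀ i, ∃ z, Valid z ∧ (∀ k, z.Ev k → t i ≤ k ∧ k < t (i + 1)) ∧ δ ≤ wt (b i) z) →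
    ∀ m i₀ : ℕ, ∃ n, i₀ ≤ n ∧ ∃ z, Valid z ∧ (∀ k, z.Ev k → t i₀ ≤ k ∧ k < t n) ∧
      2 ^ m * δ ≤ wt (fun k => ∑ i ∈ Finset.Ico i₀ n, b i k) z

/-- (BLOW) the lower estimate.  `G` on `VP`, `V = 1`.  For `b ≥ 0`: `H + A H ≤ (4/3) wt b` (BH with
`t = 0`, `Aop_val`), so by GCMP `(3/4) (wt b - sg b) ≤ G (wt b)`, and `≥ (3/8) wt b` at good
programs (BGOOD).  `E = {k | 0 < a k}`: `G (wt a) (restr E z) = G (wt a ∘ restr E) z =
G (wt a⁺) z` (GTR, BARS; functions on `VP` come from functions on `Prog` by `exists_ext`); the same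
with `-a`.  So `wt |a| z = wt a⁺ z + wt a⁻ z ≤ (16/3) M` for good `z`, and BREM (`t = 0`). -/
def Stmt_BLOW : Prop :=
  ∀ G : (VP → ℝ) →L[ℝ] (VP → ℝ), IsG stepsV 1 G → ∀ (a : ℕ → ℝ) (M : ℝ),
    (∀ z : VP, |G (fun w => wt a w.1) z| ≤ M) → ∀ z : VP, wt (fun k => |a k|) z.1 ≤ 16 * M

/-! ## The tail -/

/-- (TSD) the steps and the event `κ`.  Induction on `z`.  Second part: each of the `d` averages
above `κ` contributes at least one step which kills `κ`. -/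
def Stmt_TSD : Prop :=
  ∀ (z : Prog) (κ d : ℕ), Valid z → InD κ d z →
    (∀ w ∈ steps z, w.Ev κ → InD κ d w) ∧
    ((steps z).map (evi κ)).sum + d ≤ ((steps z).length : ℝ)

/-- (TBEL) `Below` is preserved by steps, and forces the presence of `κ`. -/
def Stmt_TBEL : Prop :=
  ∀ (z : Prog) (κ n : ℕ), Below κ n z →
    (∀ w ∈ steps z, Below κ n w) ∧ ∀ k, n ≤ k → z.Ev k → z.Ev κ

/-- (TCOMB) the infinite chain.  Induction on `u` for all coherent sequences.  If the sequence is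
eventually constant: first alternative.  Otherwise for large `m` (`m ≥ m₁ > κ'`) `y m = avg κ' l (c m)`
with fixed `κ', l` and coherent children sequences (put `y_j m = tr m (c m₁ j)` for `m < m₁`).
`u = 0`: `κ = κ'`, `d = 0`, `n₀ = m₁`.  `u + 1`: some child sequence `y_j` is not eventually
constant; apply the induction hypothesis to it (`κ`, `d ≥ u`, `n₀`); the children after `j` are
always `nil` (their events exceed all events of `y_j`), the events of the children before `j` are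
smaller than `κ`. -/
def Stmt_TCOMB : Prop :=
  ∀ (u : ℕ) (y : ℕ → Prog), (∀ n m, n ≤ m → Prog.tr n (y m) = y n) → (∀ m, Valid (y m)) →
    ∃ n₀, (∀ m, Prog.tr n₀ (y m) = y m) ∨
      ∃ κ d, u ≤ d ∧ ∀ m, Prog.tr n₀ (y m) = y m ∨ (InD κ d (y m) ∧ Below κ n₀ (y m))

/-- (TAIL) the tail estimate.  Given `ε`, take `u` with `2 / (1 + u V / 2) ≤ ε`, `n₀` from TCOMB.
If `tr n₀ (y m) = y m` then all events of all reachable programs are `< n₀ ≤ n` and the function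
vanishes on the reachable set.  Otherwise on `T = {w | Below κ n₀ w ∧ (w.Ev κ → InD κ d w)}`
(closed under steps by TSD, TBEL) put `ψ w = 2 evi κ w / (1 + d V / 2)`: by TSD
`Aop steps (evi κ) w ≥ (d / 2) evi κ w`, so `ψ + V A ψ ≥ 2 evi κ ≥ |φ - φ ∘ tr n|` on `T`
(if `tr n w ≠ w` there is an event `≥ n ≥ n₀`, so `w.Ev κ`).  GCMP. -/
def Stmt_TAIL : Prop :=
  ∀ V : ℝ, 0 < V → ∀ G : (VP → ℝ) →L[ℝ] (VP → ℝ), IsG stepsV V G →
    ∀ y : ℕ → VP, (∀ n m, n ≤ m → trV n (y m) = y n) → ∀ ε > 0, ∃ n₀, ∀ n ≥ n₀, ∀ m,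
      ∀ φ : VP → ℝ, (∀ z, |φ z| ≤ 1) → |G (fun z => φ z - φ (trV n z)) (y m)| ≤ ε

/-- (CVP) the set of valid programs is countable (BFIN, BEV). -/
def Stmt_CVP : Prop := Countable VP

/-- (FAM) the family.  `x p` = the resolvent with `V = 2^{-p}` on `VP`, `rank z.1`. -/
def Stmt_FAM : Prop :=
  ∃ F : Fam VP, (∀ n z, F.tr n z = trV n z) ∧ IsG stepsV 1 (F.x 0)

/-- (BE) the functions `wt a` are cylinder functions (BTR, BBD). -/
def Stmt_BE : Prop :=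
  ∀ T : Tow VP, (∀ n z, T.tr n z = trV n z) → ∀ a : ℕ →₀ ℝ, IsE T (fun z : VP => wt a z.1)

/-! ## Group P: the projection.  `F : Fam S`. -/

/-- (PBD) bound of the matrix entries.  Write `b = x p`, `a = x (p+1)`; `x_res` with `r = 1` gives
`2 b - b a = a`; for `p ≥ 1` (indices shifted) `rho (p+1) = (1 - a) b [9 a b + 25 (1-a) b + 9 (1-a)(1-b)]`
and `f (p+1) = (1 - a) b`; `x_p (1 - x_{p+r}) = 2^{-r} (1 - x_p) x_{p+r}` is bounded by `2 * 2^{-r}`.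
For `q > p`: the factor `(1 - x_q)` of `f q` meets `x_{p-1}` (or `x_0`) of `rho p`; for `p ≥ q`:
the factor `(1 - x_p)` of `rho p` meets `x_{q-1}` (or `x_0`) of `f q`. -/
def Stmt_PBD : Prop :=
  ∀ (S : Type) (F : Fam S) (q p : ℕ) (φ : S → ℝ) (M : ℝ), (∀ z, |φ z| ≤ M) →
    ∀ z, |F.T q p φ z| ≤ 200 * (1 / 2) ^ dd q p * M

/-- (PTR) the operators commute with truncation; `f` is bounded by `2`, `rho` by `20`. -/
def Stmt_PTR : Prop :=
  ∀ (S : Type) (F : Fam S) (q p n : ℕ) (φ : S → ℝ),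
    F.T q p (fun z => φ (F.tr n z)) = (fun z => F.T q p φ (F.tr n z)) ∧
    F.f q (fun z => φ (F.tr n z)) = (fun z => F.f q φ (F.tr n z)) ∧
    F.rho p (fun z => φ (F.tr n z)) = (fun z => F.rho p φ (F.tr n z)) ∧
    (∀ M, (∀ z, |φ z| ≤ M) → (∀ z, |F.f q φ z| ≤ 2 * M) ∧ ∀ z, |F.rho p φ z| ≤ 20 * M)

/-- (PLIM) the reproducing formula.  `∑_{q ≤ n} rho q * f q = 3 x_n^2 - 2 x_n^3` (telescoping), and
`x_n φ → φ` uniformly for `φ` in `IsE`: for `φ = φ ∘ tr m` only the finitely many points of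
`range (tr m)` matter (`x_lim`, `x_tr`); approximate and use the contraction `x_le`. -/
def Stmt_PLIM : Prop :=
  ∀ (S : Type) (F : Fam S) (φ : S → ℝ), IsE F.toTow φ → ∀ ε > 0, ∃ N, ∀ n ≥ N, ∀ z,
    |(∑ q ∈ Finset.range n, F.rho q * F.f q) φ z - φ z| ≤ ε

/-- (PE) `Pf` preserves `IsE` and is bounded.  `∑_p 200 (1/2)^{dd q p} * 2 M ≤ 1200 M`.
`IsE`: let `ω_n = sup_s |Φ s - Φ (tr n s)|`.  For `q < n`: `Pf Φ (q,z) - Pf Φ (q, tr n z) =
∑_p T q p (Φ_p - Φ_p ∘ tr n) z` and `|Φ_p - Φ_p ∘ tr n| ≤ 2 ω_n` (for `p < n` it is `≤ ω_n`, for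
`p ≥ n` both values are `ω_n`-close to `Φ none`).  For `q ≥ n`: `|Pf Φ (q, z)| ≤
∑_{p < n/2} 200 (1/2)^{q-p} 2 M + 600 ω_{n/2}`. -/
def Stmt_PE : Prop :=
  ∀ (S : Type) (F : Fam S) (Φ : Option (ℕ × S) → ℝ), IsE F.toTow.big Φ →
    IsE F.toTow.big (F.Pf Φ) ∧ ∀ M, (∀ s, |Φ s| ≤ M) → ∀ s, |F.Pf Φ s| ≤ 1200 * M

/-- (PLIN) linearity of `Pf` on bounded functions (summability from PBD). -/
def Stmt_PLIN : Prop :=
  ∀ (S : Type) (F : Fam S) (Φ Ψ : Option (ℕ × S) → ℝ), IsE F.toTow.big Φ →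
    IsE F.toTow.big Ψ → F.Pf (Φ + Ψ) = F.Pf Φ + F.Pf Ψ ∧ ∀ c : ℝ, F.Pf (c • Φ) = c • F.Pf Φ

/-- (PP) `Pf` is idempotent.  `(Pf (Pf Φ))(r,z) = ∑_q T r q (∑_p T q p Φ°_p) z`,
`Φ°_p = Φ_p - Φ none`; `T r q` is continuous for the product topology so it commutes with `∑_p`;
the double series converges absolutely (`200^2 (1/2)^{dd r q + dd q p} 2M`), exchange; the
operators commute, so `∑_{q < n} T r q (T q p Φ°_p) = (∑_{q<n} rho q * f q) (T r p Φ°_p)`, and by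
PLIM (`T r p Φ°_p` is in `IsE`) the limit is `T r p Φ°_p z`. -/
def Stmt_PP : Prop :=
  ∀ (S : Type) (F : Fam S) (Φ : Option (ℕ × S) → ℝ), IsE F.toTow.big Φ →
    F.Pf (F.Pf Φ) = F.Pf Φ

/-- (PJ) the embedding `j`.  `f_p φ = x_p φ - x_{p-1} φ → 0` uniformly for `φ` in `IsE`, which
gives `IsE big`; `Pf (jf φ) (q, z) = ∑_p f_q rho_p f_p φ z = f_q φ z` (PLIM applied to `f_q φ`,
commutation). -/
def Stmt_PJ : Prop :=
  ∀ (S : Type) (F : Fam S) (φ : S → ℝ), IsE F.toTow φ →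
    IsE F.toTow.big (F.jf φ) ∧ F.Pf (F.jf φ) = F.jf φ ∧
    ∀ M, 0 ≤ M → (∀ z, |φ z| ≤ M) → ∀ s, |F.jf φ s| ≤ 2 * M

/-- (PT) the tail for `Pf`.  `y` coherent for the big tower: either `y n = none` for all `n`
(trivial, `Pf Φ none = 0`), or there are `q` and `n₁ > q` with `y n = some (q, z n)` for `n ≥ n₁`;
`z' n = z n` (`n ≥ n₁`), `z' n = tr n (z n₁)` is coherent.  `Pf Φ (q, z m) - Pf Φ (q, tr n (z m)) =
∑_p T q p (Φ°_p - Φ°_p ∘ tr n) (z m)`; `T q p = x_{q'} * (...)` with a second factor of norm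
`≤ 40`, so each term is `x_{q'} (Ψ - Ψ ∘ tr n) (z m)`, `|Ψ| ≤ 80`, small by `F.tail`, for the
finitely many `p` with `(1/2)^{dd q p}` not small, and `≤ 800 (1/2)^{dd q p}` for the others. -/
def Stmt_PT : Prop :=
  ∀ (S : Type) (F : Fam S) (y : ℕ → Option (ℕ × S)), Coh F.toTow.big y → ∀ ε > 0, ∃ n₀,
    ∀ n ≥ n₀, ∀ m ≥ n, ∀ Φ : Option (ℕ × S) → ℝ, IsE F.toTow.big Φ → (∀ s, |Φ s| ≤ 1) →
      |F.Pf Φ (y m) - F.Pf Φ (y n)| ≤ ε

/-! ## Group K: the compact space -/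

/-- (K1) `KK T` is compact, metrizable and totally disconnected (`S` countable not needed if each
`range (tr n)` is finite; closed subset of a product of finite discrete sets). -/
def Stmt_K1 : Prop :=
  ∀ (S : Type) (T : Tow S), CompactSpace (KK T) ∧ TopologicalSpace.MetrizableSpace (KK T) ∧
    TotallyDisconnectedSpace (KK T)

/-- (K2) continuous functions on `KK T` restrict to functions in `IsE` (uniform continuity: the
clopen sets `{y | y n = s}` are a basis; or Dini/compactness), and `pt (y n) → y`. -/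
def Stmt_K2 : Prop :=
  ∀ (S : Type) (T : Tow S), (∀ F : C(KK T, ℝ), IsE T (fun s => F (KK.pt T s))) ∧
    ∀ y : KK T, Tendsto (fun n => KK.pt T (y.1 n)) atTop (𝓝 y)

/-- (K3) functions in `IsE` extend (limit of `φ (y n)`, uniform); the retractions
`y ↦ pt (y n)` are continuous with finite range. -/
def Stmt_K3 : Prop :=
  ∀ (S : Type) (T : Tow S), (∀ φ : S → ℝ, IsE T φ → ∃ F : C(KK T, ℝ), ∀ s, F (KK.pt T s) = φ s) ∧
    ∀ n, ∃ r : C(KK T, KK T), (∀ y : KK T, r y = KK.pt T (y.1 n)) ∧ (Set.range r).Finite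

/-- (SEP) separability of the dual.  For `ν ∈ C(K)*` take the finite measure `μ` with
`|ν g| ≤ ∫ |g| dμ` (file Dom.lean, helper6).  `D_n x = sup {|F x - F (r n x)| : F ∈ X, ‖F‖ ≤ 1}` is
lower semicontinuous, so measurable, `≤ 2`, `→ 0` pointwise; so `|ν (F - F ∘ r n)| ≤ ‖F‖ ∫ D_n dμ → 0`
uniformly on the ball, and `F ↦ ν (F ∘ r n)` is a linear combination of the evaluations at the
finitely many points of `range (r n)`.  The rational combinations of the evaluations at the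
countable set `⋃ range (r n)` are dense in the dual of `X` (Hahn-Banach: every functional on `X`
extends to `C(K)`). -/
def Stmt_SEP : Prop :=
  ∀ (K : Type) [TopologicalSpace K] [CompactSpace K] [T2Space K] (X : Submodule ℝ C(K, ℝ))
    (r : ℕ → C(K, K)),
    (∀ n, (Set.range (r n)).Finite) →
    (∀ x : K, ∀ ε > 0, ∃ n₀, ∀ n ≥ n₀, ∀ F ∈ X, |F x - F (r n x)| ≤ ε * ‖F‖) →
    TopologicalSpace.SeparableSpace (X →L[ℝ] ℝ)

/-- (MA1) the projection on `C(KK)`.  `P Φ` is the extension (K3) of `F.Pf (Φ ∘ pt)` (K2, PE); it is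
unique because the points `pt s` are dense (K2); linear by PLIN, bounded by PE, idempotent by PP. -/
def Stmt_MA1 : Prop :=
  ∀ (S : Type) (F : Fam S) [CompactSpace (KK F.toTow.big)],
    ∃ P : C(KK F.toTow.big, ℝ) →L[ℝ] C(KK F.toTow.big, ℝ), (∀ Φ, P (P Φ) = P Φ) ∧
      ∀ (Φ : C(KK F.toTow.big, ℝ)) s,
        P Φ (KK.pt F.toTow.big s) = F.Pf (fun s' => Φ (KK.pt F.toTow.big s')) s

/-- (MA2) the embedding `j` (K2, K3, PJ; `|x_0 φ z| = |jf φ (some (0, z))|`). -/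
def Stmt_MA2 : Prop :=
  ∀ (S : Type) (F : Fam S) [CompactSpace (KK F.toTow.big)]
    (P : C(KK F.toTow.big, ℝ) →L[ℝ] C(KK F.toTow.big, ℝ)),
    (∀ (Φ : C(KK F.toTow.big, ℝ)) s,
        P Φ (KK.pt F.toTow.big s) = F.Pf (fun s' => Φ (KK.pt F.toTow.big s')) s) →
    ∃ j : Esub F.toTow →ₗ[ℝ] C(KK F.toTow.big, ℝ),
      (∀ φ, P (j φ) = j φ) ∧ (∀ (φ : Esub F.toTow) z, |F.x 0 φ.1 z| ≤ ‖j φ‖) ∧
      (∀ (φ : Esub F.toTow) M, 0 ≤ M → (∀ z, |φ.1 z| ≤ M) → ‖j φ‖ ≤ 2 * M)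

/-- (MA3) separability of the dual of the range (SEP with the retractions of K3, PT, K2). -/
def Stmt_MA3 : Prop :=
  ∀ (S : Type) (F : Fam S) [CompactSpace (KK F.toTow.big)] [T2Space (KK F.toTow.big)]
    (P : C(KK F.toTow.big, ℝ) →L[ℝ] C(KK F.toTow.big, ℝ)),
    (∀ Φ, P (P Φ) = P Φ) →
    (∀ (Φ : C(KK F.toTow.big, ℝ)) s,
        P Φ (KK.pt F.toTow.big s) = F.Pf (fun s' => Φ (KK.pt F.toTow.big s')) s) →
    TopologicalSpace.SeparableSpace (LinearMap.range P.toLinearMap →L[ℝ] ℝ)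

/-- (MA) assembly of part A (K1, MA1, MA2, MA3; the metric is
`TopologicalSpace.metrizableSpaceMetric`). -/
def Stmt_MA : Prop :=
  ∀ (S : Type) (F : Fam S), ∃ (K : Type) (_ : MetricSpace K) (_ : CompactSpace K)
    (_ : TotallyDisconnectedSpace K) (P : C(K, ℝ) →L[ℝ] C(K, ℝ))
    (j : Esub F.toTow →ₗ[ℝ] C(K, ℝ)), (∀ Φ, P (P Φ) = P Φ) ∧
    TopologicalSpace.SeparableSpace (LinearMap.range P.toLinearMap →L[ℝ] ℝ) ∧
    (∀ φ, P (j φ) = j φ) ∧ (∀ (φ : Esub F.toTow) z, |F.x 0 φ.1 z| ≤ ‖j φ‖) ∧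
    (∀ (φ : Esub F.toTow) M, 0 ≤ M → (∀ z, |φ.1 z| ≤ M) → ‖j φ‖ ≤ 2 * M)

/-! ## Group R: reflexivity -/

/-- (RQ) coordinate projections (extension by density of `lin e a ↦ lin e (a.filter (· ∈ E))`). -/
def Stmt_RQ : Prop :=
  ∀ (V : Type) [NormedAddCommGroup V] [NormedSpace ℝ V] [CompleteSpace V] (e : ℕ → V) (C : ℝ),
    Unc e C → Dns e → (∃ c > 0, ∀ k, c ≤ ‖e k‖) → ∀ E : Set ℕ, ∃ Q : V →L[ℝ] V,
      (∀ k, k ∈ E → Q (e k) = e k) ∧ (∀ k, k ∉ E → Q (e k) = 0) ∧ ∀ v, ‖Q v‖ ≤ C * ‖v‖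

/-- (RSH) shrinking.  Otherwise there are `ε > 0` and successive blocks `u_i = lin e (a i)` with
`|f u_i| > ε ‖u_i‖`; for `E ⊆ ℕ` put `f_E = f ∘ Q_{⋃_{i ∈ E} supp a i}`; for `E ≠ E'`
`‖f_E - f_E'‖ ≥ ε`: uncountable separated family. -/
def Stmt_RSH : Prop :=
  ∀ (V : Type) [NormedAddCommGroup V] [NormedSpace ℝ V] [CompleteSpace V] (e : ℕ → V) (C : ℝ),
    Unc e C → Dns e → (∃ c > 0, ∀ k, c ≤ ‖e k‖) → TopologicalSpace.SeparableSpace (V →L[ℝ] ℝ) →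
    ∀ (f : V →L[ℝ] ℝ), ∀ ε > 0, ∃ N, ∀ a : ℕ →₀ ℝ, (∀ k ∈ a.support, N ≤ k) →
      |f (lin e a)| ≤ ε * ‖lin e a‖

/-- (RBC) boundedly complete.  If the partial sums are not Cauchy there are `δ > 0` and successive
blocks `u_i` of the series with `‖u_i‖ ≥ δ`; the sums of the `u_i` are coordinate projections of
partial sums, so bounded by `C M`; contradiction to `Grow`. -/
def Stmt_RBC : Prop :=
  ∀ (V : Type) [NormedAddCommGroup V] [NormedSpace ℝ V] (e : ℕ → V) (C : ℝ), Unc e C → Grow e →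
    ∀ a : ℕ → ℝ, (∃ M, ∀ n, ‖∑ k ∈ Finset.range n, a k • e k‖ ≤ M) →
      CauchySeq (fun n => ∑ k ∈ Finset.range n, a k • e k)

/-- (RFL) reflexivity.  `y** ∈ V**`, `f_k` = coordinate functionals, `a_k = y** (f_k)`,
`y_n = ∑_{k<n} a_k e_k`: `f (y_n) = y** (f ∘ P_n)`, so `‖y_n‖ ≤ C ‖y**‖`; by RBC `y_n → y`; by RSH
`f ∘ P_n → f` in norm, so `f y = y** f`. -/
def Stmt_RFL : Prop :=
  ∀ (V : Type) [NormedAddCommGroup V] [NormedSpace ℝ V] [CompleteSpace V] (e : ℕ → V) (C : ℝ),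
    Unc e C → Dns e → (∃ c > 0, ∀ k, c ≤ ‖e k‖) → Grow e →
    TopologicalSpace.SeparableSpace (V →L[ℝ] ℝ) →
    Function.Surjective (NormedSpace.inclusionInDoubleDual ℝ V)

/-- (RID) infinite dimension (`e` is linearly independent: `‖a_k e_k‖ ≤ C ‖lin e a‖`). -/
def Stmt_RID : Prop :=
  ∀ (V : Type) [NormedAddCommGroup V] [NormedSpace ℝ V] (e : ℕ → V) (C : ℝ),
    Unc e C → (∃ c > 0, ∀ k, c ≤ ‖e k‖) → ¬ FiniteDimensional ℝ V

/-- (NJ) a norm equivalent to `N` is unconditional and has growth.  Growth: given blocks with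
`‖lin e (a i)‖ ≥ δ`, there is `z_i` with `wt |a i| z_i ≥ δ / 3` (first hypothesis on the upper
estimate), by BFRESH fresh `z_i` (events `≥ t i`) with value `≥ δ / 10`, truncate at `t (i+1)` (BTR);
BGROW with `i₀ = 0`, `m` large; `|∑_{i<n} a i| = ∑_{i<n} |a i|` pointwise (disjoint supports). -/
def Stmt_NJ : Prop :=
  ∀ (V : Type) [NormedAddCommGroup V] [NormedSpace ℝ V] (e : ℕ → V),
    (∀ (a : ℕ →₀ ℝ) (z : VP), wt (fun k => |a k|) z.1 ≤ 16 * ‖lin e a‖) →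
    (∀ (a : ℕ →₀ ℝ) (M : ℝ), (∀ z : VP, wt (fun k => |a k|) z.1 ≤ M) → ‖lin e a‖ ≤ 2 * M) →
    Unc e 32 ∧ Grow e ∧ ∀ k, 1 / 16 ≤ ‖e k‖

/-! ## The core theorem -/

/-- (CORE) -/
def Stmt_CORE : Prop :=
  ∃ (K : Type) (_ : MetricSpace K) (_ : CompactSpace K) (_ : TotallyDisconnectedSpace K)
    (P : C(K, ℝ) →L[ℝ] C(K, ℝ)), (∀ Φ, P (P Φ) = P Φ) ∧
    TopologicalSpace.SeparableSpace (LinearMap.range P.toLinearMap →L[ℝ] ℝ) ∧
    ∃ Y : Submodule ℝ C(K, ℝ), Y ≤ LinearMap.range P.toLinearMap ∧ IsClosed (Y : Set C(K, ℝ)) ∧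
      ¬ FiniteDimensional ℝ Y ∧ Function.Surjective (NormedSpace.inclusionInDoubleDual ℝ Y)

/-! ## Group C: consequences -/

/-- (DSEP) a space which embeds in a space with separable dual has separable dual (Hahn-Banach). -/
def Stmt_DSEP : Prop :=
  ∀ (X Y : Type) [NormedAddCommGroup X] [NormedSpace ℝ X] [NormedAddCommGroup Y]
    [NormedSpace ℝ Y] (U : Y →L[ℝ] X) (c : ℝ), 0 < c → (∀ y, c * ‖y‖ ≤ ‖U y‖) →
    TopologicalSpace.SeparableSpace (X →L[ℝ] ℝ) → TopologicalSpace.SeparableSpace (Y →L[ℝ] ℝ)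

/-- (UNC) the dual of `C(L)` is not separable for uncountable `L` (point evaluations have mutual
distance `≥ 1` by Urysohn). -/
def Stmt_UNC : Prop :=
  ∀ (L : Type) [TopologicalSpace L] [CompactSpace L] [T2Space L], ¬ Countable L →
    ¬ TopologicalSpace.SeparableSpace (C(L, ℝ) →L[ℝ] ℝ)

/-- (CNT) `C(L)`, `L` countable, has no infinite-dimensional reflexive subspace. -/
def Stmt_CNT : Prop :=
  ∀ (L : Type) [TopologicalSpace L] [CompactSpace L] [T2Space L] [Countable L] (Y : Type)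
    [NormedAddCommGroup Y] [NormedSpace ℝ Y] (T : Y →L[ℝ] C(L, ℝ)) (c : ℝ), 0 < c →
    (∀ y, c * ‖y‖ ≤ ‖T y‖) → Function.Surjective (NormedSpace.inclusionInDoubleDual ℝ Y) →
    FiniteDimensional ℝ Y

/-- (EXT) for a totally disconnected compact metric `K`, `C(K)` is complemented in `C[0,1]`.
`K` is homeomorphic to a closed subset of the Cantor set; a retraction of the Cantor set onto it
(PiNat.exists_retraction_of_isClosed) and linear interpolation over the gaps, or directly a linear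
extension operator by interpolation over the gaps of a closed subset of `[0,1]`. -/
def Stmt_EXT : Prop :=
  ∀ (K : Type) [MetricSpace K] [CompactSpace K] [TotallyDisconnectedSpace K],
    ∃ (i : C(K, ℝ) →L[ℝ] C(unitInterval, ℝ)) (r : C(unitInterval, ℝ) →L[ℝ] C(K, ℝ)),
      ∀ F, r (i F) = F

/-- (NC0) a reflexive space contains no copy of `c_0`.  `g ∘ E ∈ c_0* = ℓ_1`; the weak limit `y` of
`E (e_0 + ... + e_n)` exists by reflexivity; the range of `E` is closed and convex, so `y = E x`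
and all coordinates of `x` are `1`. -/
def Stmt_NC0 : Prop :=
  ∀ (Y : Type) [NormedAddCommGroup Y] [NormedSpace ℝ Y] [CompleteSpace Y],
    Function.Surjective (NormedSpace.inclusionInDoubleDual ℝ Y) →
    ¬ ∃ (E : ZeroAtInftyContinuousMap ℕ ℝ →L[ℝ] Y) (c : ℝ), 0 < c ∧ ∀ x, c * ‖x‖ ≤ ‖E x‖

/-- (F1) -/
def Stmt_F1 : Prop :=
  ¬ (∀ (K : Type) [MetricSpace K] [CompactSpace K] (X : Submodule ℝ C(K, ℝ)),
      X.ClosedComplemented →
      (∃ Y : Submodule ℝ C(K, ℝ), Y ≤ X ∧ IsClosed (Y : Set C(K, ℝ)) ∧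
        ¬ FiniteDimensional ℝ Y ∧
        Function.Surjective (NormedSpace.inclusionInDoubleDual ℝ Y)) →
      Nonempty (X ≃L[ℝ] C(Set.Icc (0 : ℝ) 1, ℝ)))

/-- (F2) -/
def Stmt_F2 : Prop :=
  ¬ (∀ (K : Type) [MetricSpace K] [CompactSpace K] (p : Submodule ℝ C(K, ℝ)),
      p.ClosedComplemented → ¬ FiniteDimensional ℝ p →
      ∃ (L : Type) (_ : MetricSpace L) (_ : CompactSpace L),
        Nonempty (p ≃L[ℝ] C(L, ℝ)))

/-- (F3) -/
def Stmt_F3 : Prop :=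
  ¬ (∀ (X : Type) [NormedAddCommGroup X] [NormedSpace ℝ X],
      (∃ p : Submodule ℝ C(Set.Icc (0:ℝ) 1, ℝ),
          p.ClosedComplemented ∧ Nonempty (X ≃L[ℝ] p)) →
      TopologicalSpace.SeparableSpace (X →L[ℝ] ℝ) →
      ∃ (L : Type) (_ : TopologicalSpace L) (_ : CompactSpace L) (_ : T2Space L),
        Countable L ∧
        ∃ (T : X →L[ℝ] C(L, ℝ)) (c : ℝ), 0 < c ∧ ∀ x : X, c * ‖x‖ ≤ ‖T x‖)

/-- (F4) -/
def Stmt_F4 : Prop :=
  ¬ (∀ (X : Type) [NormedAddCommGroup X] [NormedSpace ℝ X] [CompleteSpace X]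
      [TopologicalSpace.SeparableSpace X],
      ¬ FiniteDimensional ℝ X →
      (¬ ∃ (E : ZeroAtInftyContinuousMap ℕ ℝ →L[ℝ] X) (c : ℝ),
          0 < c ∧ ∀ x, c * ‖x‖ ≤ ‖E x‖) →
      ∀ (T : C(unitInterval, ℝ) →L[ℝ] C(unitInterval, ℝ)),
        (∃ (J : X →L[ℝ] C(unitInterval, ℝ)) (c : ℝ),
            0 < c ∧ ∀ x, c * ‖x‖ ≤ ‖T (J x)‖) →
        ∃ (J : C(unitInterval, ℝ) →L[ℝ] C(unitInterval, ℝ)) (c : ℝ),
          0 < c ∧ ∀ f, c * ‖f‖ ≤ ‖T (J f)‖)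

end Pool.CE
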