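import Mathlib
import Pool.Agent.Work.MP_052a41_ce.Interface

set_option autoImplicit false

/-! # Block BARS: the generator commutes with the deletion of leaves -/

namespace Pool.CE

open Prog

namespace BARS

theorem ev_restr (E : Set ℕ) (z : Prog) (k : ℕ) : Ev (restr E z) k → Ev z k := by
  induction z with
  | nil => exact id
  | leaf m =>
    intro h
    unfold restr at h
    split_ifs at h
    · exact h
    · exact h.elim
  | avg κ l c ih =>
    rintro (h | ⟨j, h⟩)
    · exact Or.inl h
    · exact Or.inr ⟨j, ih j h⟩

theorem valid_restr (E : Set ℕ) (z : Prog) (hz : Valid z) : Valid (restr E z) := by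
  induction z with
  | nil => exact trivial
  | leaf m => unfold restr; split_ifs <;> exact trivial
  | avg κ l c ih =>
    exact ⟨hz.1, fun j => ih j (hz.2.1 j), fun j k h => hz.2.2.1 j k (ev_restr _ _ _ h),
      fun i j hij a b ha hb => hz.2.2.2 i j hij a b (ev_restr _ _ _ ha) (ev_restr _ _ _ hb)⟩

theorem restr_avg (E : Set ℕ) (κ l : ℕ) (c : Fin (2 ^ l) → Prog) :
    restr E (avg κ l c) = avg κ l (fun j => restr E (c j)) := rfl

theorem restr_half (E : Set ℕ) (κ : ℕ) (ξ : Fin 2) (l : ℕ) (c : Fin (2 ^ l) → Prog) :
    restr E (half κ ξ l c) = half κ ξ l (fun j => restr E (c j)) := by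
  cases l with
  | zero => rfl
  | succ l => rfl

theorem restr_update (E : Set ℕ) {l : ℕ} (c : Fin (2 ^ l) → Prog) (j : Fin (2 ^ l)) (w : Prog) :
    (fun i => restr E (Function.update c j w i)) =
      Function.update (fun i => restr E (c i)) j (restr E w) := by
  funext i
  by_cases hi : i = j
  · subst hi; simp
  · simp [Function.update_of_ne hi]

end BARS

open BARS in
theorem blk_BARS : Stmt_BARS := by
  refine ⟨?_, valid_restr, ?_⟩
  · intro φ E z
    induction z generalizing φ with
    | nil => simp [Aop, steps, restr]
    | leaf k =>
      unfold restr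
      split_ifs <;> simp [Aop, steps]
    | avg κ l c ih =>
      rw [restr_avg, Aop_avg, Aop_avg, restr_avg, restr_half, restr_half]
      congr 1
      refine Finset.sum_congr rfl fun j _ => ?_
      have := ih j (fun w' => φ (avg κ l (Function.update (fun i => restr E (c i)) j w')))
      rw [← this]
      congr 1
      funext w
      rw [restr_avg, restr_update]
  · intro E a z
    classical
    induction z with
    | nil => simp [wt, restr]
    | leaf k =>
      unfold restr
      by_cases h : k ∈ E
      · simp [wt, h]
      · simp [wt, h]
    | avg κ l c ih =>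
      simp only [restr, wt]
      congr 1
      exact Finset.sum_congr rfl fun j _ => ih j

end Pool.CE
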