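import Mathlib
import Pool.Agent.Work.MP_052a41_ce.Interface

set_option autoImplicit false

/-! # Block BATR: the generator commutes with truncation -/

namespace Pool.CE

open Prog

namespace BATR

theorem Aop_const' (r : ℝ) (z : Prog) : Aop steps (fun _ => r) z = 0 := by
  unfold Aop
  simp

theorem tr_avg_lt {κ n : ℕ} (h : κ < n) (l : ℕ) (c : Fin (2 ^ l) → Prog) :
    Prog.tr n (avg κ l c) = avg κ l (fun j => Prog.tr n (c j)) := by
  conv_lhs => unfold Prog.tr
  rw [if_pos h]

theorem tr_avg_ge {κ n : ℕ} (h : ¬ κ < n) (l : ℕ) (c : Fin (2 ^ l) → Prog) :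
    Prog.tr n (avg κ l c) = nil := by
  conv_lhs => unfold Prog.tr
  rw [if_neg h]

theorem tr_half_lt {κ n : ℕ} (h : κ < n) (ξ : Fin 2) (l : ℕ) (c : Fin (2 ^ l) → Prog) :
    Prog.tr n (half κ ξ l c) = half κ ξ l (fun j => Prog.tr n (c j)) := by
  cases l with
  | zero => rfl
  | succ l => exact tr_avg_lt h l _

theorem tr_half_ge {κ n : ℕ} (h : ¬ κ < n) (ξ : Fin 2) (l : ℕ) (c : Fin (2 ^ l) → Prog) :
    Prog.tr n (half κ ξ l c) = nil := by
  cases l with
  | zero => rfl
  | succ l => exact tr_avg_ge h l _

theorem tr_update {l : ℕ} (n : ℕ) (c : Fin (2 ^ l) → Prog) (j : Fin (2 ^ l)) (w : Prog) :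
    (fun i => Prog.tr n (Function.update c j w i)) =
      Function.update (fun i => Prog.tr n (c i)) j (Prog.tr n w) := by
  funext i
  by_cases hi : i = j
  · subst hi; simp
  · simp [Function.update_of_ne hi]

end BATR

open BATR in
theorem blk_BATR : Stmt_BATR := by
  intro φ n z
  induction z generalizing φ with
  | nil => simp [Aop, steps, Prog.tr]
  | leaf k =>
    unfold Prog.tr
    split_ifs <;> simp [Aop, steps]
  | avg κ l c ih =>
    by_cases h : κ < n
    · rw [tr_avg_lt h, Aop_avg, Aop_avg, tr_avg_lt h, tr_half_lt h, tr_half_lt h]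
      congr 1
      refine Finset.sum_congr rfl fun j _ => ?_
      have := ih j (fun w' => φ (avg κ l (Function.update (fun i => Prog.tr n (c i)) j w')))
      rw [← this]
      congr 1
      funext w
      rw [tr_avg_lt h, tr_update]
    · rw [tr_avg_ge h, Aop_avg, tr_avg_ge h, tr_half_ge h, tr_half_ge h]
      have : ∀ j : Fin (2 ^ l), Aop steps
          (fun w => φ (Prog.tr n (avg κ l (Function.update c j w)))) (c j) = 0 := by
        intro j
        have e : (fun w => φ (Prog.tr n (avg κ l (Function.update c j w)))) =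
            fun _ => φ nil := by
          funext w; rw [tr_avg_ge h]
        rw [e]
        exact Aop_const' _ _
      simp only [this, Finset.sum_const_zero]
      simp [Aop, steps]

end Pool.CE
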