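import Mathlib
import Pool.Agent.Work.MP_052a41_ce.Interface

set_option autoImplicit false

/-! # Block BBD: boundedness of the functions `wt b` (helper17) -/

namespace Pool.CE

open Filter Topology Set Prog

theorem bbd_Gam_le (κ l : ℕ) : Gam κ l / 2 ^ l ≤ 1 := by
  unfold Gam
  have h1 : (l : ℝ) + 1 ≤ 2 ^ l := by
    have h := Nat.lt_two_pow_self (n := l)
    have h' : l + 1 ≤ 2 ^ l := h
    exact_mod_cast h'
  have h2 : (1 : ℝ) ≤ 4 ^ (κ + 1) := one_le_pow₀ (by norm_num)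
  have h3 : (l : ℝ) / 4 ^ (κ + 1) ≤ l := div_le_self (Nat.cast_nonneg l) h2
  rw [div_le_one (by positivity)]
  linarith

theorem bbd_Gam_nonneg (κ l : ℕ) : 0 ≤ Gam κ l / 2 ^ l := by
  unfold Gam
  positivity

theorem bbd_aux (b : ℕ → ℝ) (s : Finset ℕ) (hb : ∀ k, 0 ≤ b k) (hs : ∀ k ∉ s, b k = 0)
    (z : Prog) : Valid z → ∃ u : Finset ℕ, u ⊆ s ∧ (∀ k ∈ u, z.Ev k) ∧ wt b z ≤ ∑ k ∈ u, b k := by
  induction z with
  | nil =>
    intro _
    exact ⟨∅, Finset.empty_subset _, fun k hk => absurd hk (Finset.notMem_empty k), by simp [wt]⟩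
  | leaf k =>
    intro _
    by_cases hk : k ∈ s
    · refine ⟨{k}, Finset.singleton_subset_iff.2 hk, fun m hm => Finset.mem_singleton.1 hm, ?_⟩
      rw [Finset.sum_singleton]
      exact le_rfl
    · refine ⟨∅, Finset.empty_subset _, fun k hk => absurd hk (Finset.notMem_empty k), ?_⟩
      rw [Finset.sum_empty]
      exact (hs k hk).le
  | avg κ l c ih =>
    intro hz
    choose u hu1 hu2 hu3 using fun j => ih j (hz.2.1 j)
    classical
    refine ⟨Finset.univ.biUnion u, ?_, ?_, ?_⟩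
    · intro k hk
      obtain ⟨j, _, hj⟩ := Finset.mem_biUnion.1 hk
      exact hu1 j hj
    · intro k hk
      obtain ⟨j, _, hj⟩ := Finset.mem_biUnion.1 hk
      exact Or.inr ⟨j, hu2 j k hj⟩
    · have hdisj : (↑(Finset.univ : Finset (Fin (2 ^ l))) : Set (Fin (2 ^ l))).PairwiseDisjoint
          u := by
        intro i _ j _ hij
        rw [Function.onFun, Finset.disjoint_left]
        intro k hki hkj
        rcases lt_or_gt_of_ne hij with h | h
        · exact lt_irrefl k (hz.2.2.2 i j h k k (hu2 i k hki) (hu2 j k hkj))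
        · exact lt_irrefl k (hz.2.2.2 j i h k k (hu2 j k hkj) (hu2 i k hki))
      rw [Finset.sum_biUnion hdisj]
      have h0 : 0 ≤ ∑ j, ∑ k ∈ u j, b k :=
        Finset.sum_nonneg fun j _ => Finset.sum_nonneg fun k _ => hb k
      calc wt b (avg κ l c) = Gam κ l / 2 ^ l * ∑ j, wt b (c j) := rfl
        _ ≤ Gam κ l / 2 ^ l * ∑ j, ∑ k ∈ u j, b k :=
            mul_le_mul_of_nonneg_left (Finset.sum_le_sum fun j _ => hu3 j) (bbd_Gam_nonneg κ l)
        _ ≤ 1 * ∑ j, ∑ k ∈ u j, b k := mul_le_mul_of_nonneg_right (bbd_Gam_le κ l) h0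
        _ = ∑ j, ∑ k ∈ u j, b k := one_mul _

theorem blk_BBD : Stmt_BBD := by
  intro b s hb hs z hz
  obtain ⟨u, hu1, _, hu3⟩ := bbd_aux b s hb hs z hz
  exact hu3.trans (Finset.sum_le_sum_of_subset_of_nonneg hu1 fun k _ _ => hb k)

end Pool.CE
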