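import Mathlib
import Pool.Agent.Work.MP_052a41_ce.Interface

set_option autoImplicit false

namespace Pool.CE

theorem blk_BE (h1 : Stmt_BTR) (h2 : Stmt_BBD) (h3 : Stmt_BWT) : Stmt_BE := by
  intro T hT a
  refine ⟨⟨∑ k ∈ a.support, |a k|, fun z => ?_⟩, fun ε hε => ?_⟩
  · have e1 := h3.2.2.2.1 a (fun k => |a k|) z.1 (fun k => le_rfl)
    have e2 := h2 (fun k => |a k|) a.support (fun k => abs_nonneg _)
      (fun k hk => by rw [Finsupp.notMem_support_iff.1 hk, abs_zero]) z.1 z.2
    exact e1.trans e2
  · refine ⟨a.support.sup id + 1, fun n hn z => ?_⟩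
    have e1 : (T.tr n z).1 = Prog.tr n z.1 := by rw [hT n z]; rfl
    have e2 := h1 a n z.1 z.2
    have e3 : (fun k => if k < n then a k else 0) = (a : ℕ → ℝ) := by
      funext k
      by_cases hk : k < n
      · rw [if_pos hk]
      · rw [if_neg hk]
        by_contra h0
        have hk' : k ∈ a.support := Finsupp.mem_support_iff.2 (fun h => h0 h.symm)
        have := Finset.le_sup (f := id) hk'
        simp only [id] at this
        omega
    rw [e3] at e2
    show |wt a z.1 - wt a (T.tr n z).1| ≤ ε
    rw [e1, e2, sub_self, abs_zero]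
    exact hε.le

end Pool.CE
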