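import Mathlib
import Pool.Agent.Work.MP_052a41_ce.Interface

set_option autoImplicit false

namespace Pool.CE

open Prog

theorem blk_BEV : Stmt_BEV := by
  refine ⟨fun z => ?_, fun z => ?_⟩
  · induction z with
    | nil => exact ⟨0, fun k hk => hk.elim⟩
    | leaf m => exact ⟨m + 1, fun k hk => by
        have : k = m := hk
        omega⟩
    | avg κ l c ih =>
      choose N hN using ih
      refine ⟨κ + 1 + ∑ j, N j, fun k hk => ?_⟩
      rcases hk with h | ⟨j, h⟩
      · have : k = κ := h
        omega
      · have h1 := hN j k h
        have h2 : N j ≤ ∑ j, N j := Finset.single_le_sum (fun i _ => Nat.zero_le _) (Finset.mem_univ j)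
        omega
  · induction z with
    | nil => intro n _; rfl
    | leaf m =>
      intro n h
      have h1 : m < n := h m rfl
      show Prog.tr n (leaf m) = leaf m
      unfold Prog.tr
      rw [if_pos h1]
    | avg κ l c ih =>
      intro n h
      have h1 : κ < n := h κ (Or.inl rfl)
      show Prog.tr n (avg κ l c) = avg κ l c
      unfold Prog.tr
      rw [if_pos h1]
      congr 1
      funext j
      exact ih j n fun k hk => h k (Or.inr ⟨j, hk⟩)

end Pool.CE
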