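import Pool.Agent.Work.MP_052a41_ce.Interface

set_option autoImplicit false

namespace Pool.CE

open Filter Topology Set Prog

theorem Gam_le_two {κ l : ℕ} (h : l ≤ 4 ^ (κ + 1)) : Gam κ l ≤ 2 := by
  have h4 : (0 : ℝ) < 4 ^ (κ + 1) := by positivity
  have h1 : (l : ℝ) ≤ 4 ^ (κ + 1) := by exact_mod_cast h
  have h2 : (l : ℝ) / 4 ^ (κ + 1) ≤ 1 := (div_le_one h4).2 h1
  unfold Gam
  linarith

theorem Gam_pos' (κ l : ℕ) : 0 < Gam κ l := by unfold Gam; positivity

theorem Gam_fresh {κ l : ℕ} (h : l ≤ 4 ^ (κ + 1)) : Gam κ l * (2 ^ l + 2) ≤ 3 * 2 ^ l := by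
  rcases l with _ | _ | l
  · simp [Gam]; norm_num
  · have h4 : (4 : ℝ) ≤ 4 ^ (κ + 1) := by
      calc (4 : ℝ) = 4 ^ 1 := by norm_num
        _ ≤ 4 ^ (κ + 1) := pow_le_pow_right₀ (by norm_num) (by omega)
    have h2 : (1 : ℝ) / 4 ^ (κ + 1) ≤ 1 / 4 :=
      one_div_le_one_div_of_le (by norm_num) h4
    have h3 : Gam κ (0 + 1) ≤ 5 / 4 := by
      unfold Gam
      push_cast
      linarith
    norm_num at h3 ⊢
    linarith
  · have h2 : Gam κ (l + 1 + 1) ≤ 2 := Gam_le_two h
    have h3 : (1 : ℝ) ≤ 2 ^ l := one_le_pow₀ (by norm_num)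
    have h5 : (2 : ℝ) ^ (l + 1 + 1) = 4 * 2 ^ l := by ring
    rw [h5]
    have h6 : (0 : ℝ) ≤ 4 * 2 ^ l + 2 := by positivity
    nlinarith

theorem blk_BFRESH (hW : Stmt_BWT) : Stmt_BFRESH := by
  intro b t M hb hbt hM z
  obtain ⟨-, -, hmono, -, hpos⟩ := hW
  have hM0 : 0 ≤ M := by
    have := hM Prog.nil trivial (fun k hk => hk.elim)
    simpa [wt] using this
  induction z with
  | nil => intro _; simp only [wt]; linarith
  | leaf k =>
    intro _
    by_cases hk : k < t
    · simp only [wt, hbt k hk]; linarith
    · have := hM (Prog.leaf k) trivial (fun m hm => by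
        have : m = k := hm
        omega)
      linarith
  | avg κ l c ih =>
    intro hz
    by_cases hκ : κ < t
    · have hchild : ∀ j, wt b (c j) ≤ 3 * M := fun j => ih j (hz.2.1 j)
      have hone : ∀ i j, i < j → M < wt b (c i) → wt b (c j) ≤ M := by
        intro i j hij hi
        have hex : ∃ k, (c i).Ev k ∧ t ≤ k := by
          by_contra hcon
          push Not at hcon
          have h0 : wt b (c i) ≤ wt (0 : ℕ → ℝ) (c i) :=
            hmono b 0 (c i) (fun k hk => by
              rw [hbt k (hcon k hk)]
              rfl)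
          have h1 : wt (0 : ℕ → ℝ) (c i) ≤ 0 := by
            have h2 : ∀ z : Prog, wt (0 : ℕ → ℝ) z = 0 := by
              intro z
              induction z with
              | nil => rfl
              | leaf k => rfl
              | avg κ l c ih => simp [wt, ih]
            exact (h2 _).le
          linarith
        obtain ⟨k, hk, htk⟩ := hex
        refine hM _ (hz.2.1 j) (fun m hm => ?_)
        have := hz.2.2.2 i j hij k m hk hm
        omega
      have hsum : ∑ j, wt b (c j) ≤ (2 ^ l + 2) * M := by
        by_cases hall : ∀ j, wt b (c j) ≤ M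
        · calc ∑ j, wt b (c j) ≤ ∑ _j : Fin (2 ^ l), M := Finset.sum_le_sum fun j _ => hall j
            _ = 2 ^ l * M := by simp
            _ ≤ (2 ^ l + 2) * M := by nlinarith
        · push Not at hall
          obtain ⟨i₀, hi₀⟩ := hall
          have hoth : ∀ j, j ≠ i₀ → wt b (c j) ≤ M := by
            intro j hj
            rcases lt_or_gt_of_ne hj with h | h
            · by_contra hcon
              push Not at hcon
              have := hone j i₀ h hcon
              linarith
            · exact hone i₀ j h hi₀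
          rw [← Finset.add_sum_erase _ _ (Finset.mem_univ i₀)]
          have h1 : ∑ j ∈ Finset.univ.erase i₀, wt b (c j) ≤ (2 ^ l - 1) * M := by
            calc ∑ j ∈ Finset.univ.erase i₀, wt b (c j)
                ≤ ∑ _j ∈ Finset.univ.erase i₀, M :=
                  Finset.sum_le_sum fun j hj => hoth j (Finset.ne_of_mem_erase hj)
              _ = (2 ^ l - 1) * M := by
                rw [Finset.sum_const, Finset.card_erase_of_mem (Finset.mem_univ _),
                  Finset.card_univ, Fintype.card_fin, nsmul_eq_mul,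
                  Nat.cast_sub (Nat.one_le_two_pow)]
                push_cast
                ring
          have h2 := hchild i₀
          linarith
      have hG := Gam_fresh hz.1
      have hG0 := Gam_pos' κ l
      have h2l : (0 : ℝ) < 2 ^ l := by positivity
      show Gam κ l / 2 ^ l * ∑ j, wt b (c j) ≤ 3 * M
      calc Gam κ l / 2 ^ l * ∑ j, wt b (c j) ≤ Gam κ l / 2 ^ l * ((2 ^ l + 2) * M) :=
            mul_le_mul_of_nonneg_left hsum (by positivity)
        _ = (Gam κ l * (2 ^ l + 2)) / 2 ^ l * M := by ring
        _ ≤ 3 * M := by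
          refine mul_le_mul_of_nonneg_right ?_ hM0
          rw [div_le_iff₀ h2l]
          exact hG
    · have := hM _ hz (fun k hk => by
        rcases hk with h | ⟨j, h⟩
        · omega
        · have := hz.2.2.1 j k h
          omega)
      linarith

end Pool.CE
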