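import Mathlib
import Pool.Agent.Work.MP_052a41_ce.Interface

set_option autoImplicit false

/-! Block BGOOD (helper90): for good programs with all events `≥ t`: `sg ≤ (1/2)^(t+1) wt`. -/

namespace Pool.CE

open Prog

theorem blk_BGOOD (h1 : Stmt_BWT) : Stmt_BGOOD := by
  intro a ha z
  have hwt : ∀ z, 0 ≤ wt a z := fun z => (h1.2.2.2.2 a z ha).1
  induction z with
  | nil => intro t _ _ _; simp [sg, wt]
  | leaf k =>
    intro t _ _ _
    simp only [sg, wt]
    have := ha k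
    positivity
  | avg κ l c ih =>
    intro t hv hg hev
    have hκ : t ≤ κ := hev κ (Or.inl rfl)
    have hl : κ + 2 ≤ l := hg.1
    have hG : 0 ≤ Gam κ l / 2 ^ l := by unfold Gam; positivity
    simp only [sg, wt]
    have hj : ∀ j, sg a (c j) + (1 / 2) ^ l * wt a (c j) ≤ (1 / 2) ^ (t + 1) * wt a (c j) := by
      intro j
      have e1 := ih j (κ + 1) (hv.2.1 j) (hg.2 j) (fun k hk => hv.2.2.1 j k hk)
      have e2 : (1 / 2 : ℝ) ^ l ≤ (1 / 2) ^ (κ + 2) :=
        pow_le_pow_of_le_one (by norm_num) (by norm_num) hl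
      have e3 : (1 / 2 : ℝ) ^ (κ + 1) ≤ (1 / 2) ^ (t + 1) :=
        pow_le_pow_of_le_one (by norm_num) (by norm_num) (by omega)
      have e4 : (1 / 2 : ℝ) ^ (κ + 1) = 2 * (1 / 2) ^ (κ + 2) := by rw [pow_succ (1/2 : ℝ) (κ + 1)]; ring
      have e5 : (1 / 2 : ℝ) ^ (κ + 1 + 1) = (1 / 2) ^ (κ + 2) := rfl
      have hw := hwt (c j)
      rw [e5] at e1
      nlinarith [mul_le_mul_of_nonneg_right e2 hw, mul_le_mul_of_nonneg_right e3 hw]
    calc Gam κ l / 2 ^ l * ∑ j, (sg a (c j) + (1 / 2) ^ l * wt a (c j))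
        ≤ Gam κ l / 2 ^ l * ∑ j, (1 / 2) ^ (t + 1) * wt a (c j) := by
          refine mul_le_mul_of_nonneg_left (Finset.sum_le_sum fun j _ => hj j) hG
      _ = (1 / 2) ^ (t + 1) * (Gam κ l / 2 ^ l * ∑ j, wt a (c j)) := by
          rw [← Finset.mul_sum]; ring

end Pool.CE
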