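import Mathlib
import Pool.Agent.Work.MP_052a41_ce.Interface

set_option autoImplicit false

/-! # Block BGROW: the growth lemma (helper8) -/

namespace Pool.CE

open Filter Topology Set Prog

theorem Gam_top (κ : ℕ) : Gam κ (4 ^ (κ + 1)) = 2 := by
  unfold Gam
  have h : ((4 : ℝ) ^ (κ + 1)) ≠ 0 := by positivity
  push_cast
  rw [div_self h]
  norm_num

theorem blk_BGROW (hW : Stmt_BWT) : Stmt_BGROW := by
  intro t b δ ht hb hδ hz m
  induction m with
  | zero =>
    intro i₀
    obtain ⟨z, h1, h2, h3⟩ := hz i₀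
    refine ⟨i₀ + 1, Nat.le_succ _, z, h1, h2, ?_⟩
    rw [Nat.Ico_succ_singleton]
    simp only [Finset.sum_singleton, pow_zero, one_mul]
    exact h3
  | succ m ih =>
    intro i₀
    choose N hN Z hZ1 hZ2 hZ3 using ih
    set κ := t i₀ with hκ
    set l := 4 ^ (κ + 1) with hl
    set nn : ℕ → ℕ := fun j => N^[j] (i₀ + 1) with hnn
    have hsucc : ∀ j, nn (j + 1) = N (nn j) := fun j => Function.iterate_succ_apply' N j _
    have hmono : Monotone nn := monotone_nat_of_le_succ fun j => by rw [hsucc]; exact hN _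
    have h0 : ∀ j, i₀ + 1 ≤ nn j := fun j => hmono (Nat.zero_le j)
    have hκlt : ∀ j, κ < t (nn j) := fun j => ht (lt_of_lt_of_le (Nat.lt_succ_self _) (h0 j))
    have hlow : ∀ j k, Ev (Z (nn j)) k → t (nn j) ≤ k := fun j k h => (hZ2 _ k h).1
    have hup : ∀ j k, Ev (Z (nn j)) k → k < t (nn (j + 1)) := fun j k h => by
      rw [hsucc]; exact (hZ2 _ k h).2
    refine ⟨nn (2 ^ l), (Nat.le_succ _).trans (h0 _), avg κ l (fun j => Z (nn j.1)), ?_, ?_, ?_⟩
    · refine ⟨le_rfl, fun j => hZ1 _, fun j k hk => (hκlt _).trans_le (hlow _ _ hk), ?_⟩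
      intro i j hij x y hx hy
      have h1 := hup _ _ hx
      have h2 := hlow _ _ hy
      have h3 : nn (i.1 + 1) ≤ nn j.1 := hmono hij
      exact h1.trans_le ((ht.monotone h3).trans h2)
    · rintro k (hk | ⟨j, hk⟩)
      · rw [hk]; exact ⟨le_rfl, hκlt _⟩
      · refine ⟨((hκlt _).trans_le (hlow _ _ hk)).le, (hup _ _ hk).trans_le ?_⟩
        exact ht.monotone (hmono j.2)
    · have key : ∀ j : Fin (2 ^ l), 2 ^ m * δ ≤
          wt (fun k => ∑ i ∈ Finset.Ico i₀ (nn (2 ^ l)), b i k) (Z (nn j.1)) := by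
        intro j
        refine (hZ3 (nn j.1)).trans (hW.2.2.1 _ _ _ fun k _ => ?_)
        refine Finset.sum_le_sum_of_subset_of_nonneg ?_ fun i _ _ => hb i k
        refine Finset.Ico_subset_Ico ((Nat.le_succ _).trans (h0 _)) ?_
        rw [← hsucc]
        exact hmono j.2
      have hs : (2 ^ l : ℝ) * (2 ^ m * δ) ≤
          ∑ j : Fin (2 ^ l), wt (fun k => ∑ i ∈ Finset.Ico i₀ (nn (2 ^ l)), b i k)
            (Z (nn j.1)) := by
        have := Finset.sum_le_sum fun (j : Fin (2 ^ l)) (_ : j ∈ Finset.univ) => key j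
        rw [Finset.sum_const, Finset.card_univ, Fintype.card_fin, nsmul_eq_mul] at this
        push_cast at this
        exact this
      have h2l : (0 : ℝ) < 2 ^ l := by positivity
      show 2 ^ (m + 1) * δ ≤ Gam κ l / 2 ^ l * _
      have hG : Gam κ l = 2 := Gam_top κ
      rw [hG]
      calc (2 : ℝ) ^ (m + 1) * δ = 2 / 2 ^ l * (2 ^ l * (2 ^ m * δ)) := by
            field_simp
            ring
        _ ≤ _ := by
            refine mul_le_mul_of_nonneg_left hs ?_
            positivity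

end Pool.CE
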