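import Mathlib
import Pool.Agent.Work.MP_052a41_ce.Interface

set_option autoImplicit false

namespace Pool.CE

open Filter Topology Set Prog

namespace BHaux

theorem sum_range_two_mul (g : ℕ → ℝ) (n : ℕ) :
    ∑ i ∈ Finset.range (2 * n), g i = ∑ j ∈ Finset.range n, (g (2 * j) + g (2 * j + 1)) := by
  induction n with
  | zero => simp
  | succ n ih =>
    rw [show 2 * (n + 1) = 2 * n + 1 + 1 by ring, Finset.sum_range_succ, Finset.sum_range_succ,
      ih, Finset.sum_range_succ]
    ring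

theorem sum_halves (l : ℕ) (g : Fin (2 ^ (l + 1)) → ℝ)
    (h0 : ∀ j : Fin (2 ^ l), 2 * j.1 + 0 < 2 ^ (l + 1))
    (h1 : ∀ j : Fin (2 ^ l), 2 * j.1 + 1 < 2 ^ (l + 1)) :
    ∑ j : Fin (2 ^ l), g ⟨2 * j.1 + 0, h0 j⟩ + ∑ j : Fin (2 ^ l), g ⟨2 * j.1 + 1, h1 j⟩
      = ∑ i, g i := by
  classical
  set g' : ℕ → ℝ := fun i => if h : i < 2 ^ (l + 1) then g ⟨i, h⟩ else 0 with hg'
  have e0 : ∑ i, g i = ∑ i ∈ Finset.range (2 ^ (l + 1)), g' i := by
    rw [← Fin.sum_univ_eq_sum_range]
    refine Finset.sum_congr rfl fun i _ => ?_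
    simp [hg', i.2]
  have e1 : ∑ j : Fin (2 ^ l), g ⟨2 * j.1 + 0, h0 j⟩ = ∑ j ∈ Finset.range (2 ^ l), g' (2 * j) := by
    rw [← Fin.sum_univ_eq_sum_range (fun j => g' (2 * j))]
    refine Finset.sum_congr rfl fun i _ => ?_
    have := h0 i
    simp only [hg']
    rw [dif_pos (by omega)]
    rfl
  have e2 : ∑ j : Fin (2 ^ l), g ⟨2 * j.1 + 1, h1 j⟩
      = ∑ j ∈ Finset.range (2 ^ l), g' (2 * j + 1) := by
    rw [← Fin.sum_univ_eq_sum_range (fun j => g' (2 * j + 1))]
    refine Finset.sum_congr rfl fun i _ => ?_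
    have := h1 i
    simp only [hg']
    rw [dif_pos (by omega)]
  rw [e0, e1, e2, ← Finset.sum_add_distrib, ← sum_range_two_mul]
  rw [pow_succ, mul_comm]

theorem Aop_lin {S : Type} (steps : S → List S) (φ ψ θ : S → ℝ) (k α β : ℝ)
    (h : ∀ w, θ w = k + α * (φ w - β * ψ w)) (z : S) :
    Aop steps θ z = α * (Aop steps φ z - β * Aop steps ψ z) := by
  unfold Aop
  have : ∀ L : List S, (L.map (fun w => θ z - θ w)).sum
      = α * ((L.map (fun w => φ z - φ w)).sum - β * (L.map (fun w => ψ z - ψ w)).sum) := by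
    intro L
    induction L with
    | nil => simp
    | cons w L ih =>
      simp only [List.map_cons, List.sum_cons, ih]
      rw [h z, h w]
      ring
  rw [this]
  ring

theorem wt_avg (a : ℕ → ℝ) (κ l : ℕ) (c : Fin (2 ^ l) → Prog) :
    wt a (avg κ l c) = Gam κ l / 2 ^ l * ∑ j, wt a (c j) := rfl

theorem sg_avg (a : ℕ → ℝ) (κ l : ℕ) (c : Fin (2 ^ l) → Prog) :
    sg a (avg κ l c) = Gam κ l / 2 ^ l * ∑ j, (sg a (c j) + (1 / 2) ^ l * wt a (c j)) := rfl

theorem Gam_pos (κ l : ℕ) : 1 ≤ Gam κ l := by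
  unfold Gam
  have : (0 : ℝ) ≤ (l : ℝ) / 4 ^ (κ + 1) := by positivity
  linarith

theorem Gam_zero (κ : ℕ) : Gam κ 0 = 1 := by simp [Gam]

theorem Gam_succ (κ l : ℕ) : Gam κ (l + 1) = Gam κ l + (1 / 4) ^ (κ + 1) := by
  unfold Gam
  push_cast
  rw [one_div, inv_pow]
  ring

theorem sum_update (g : Prog → ℝ) (l : ℕ) (c : Fin (2 ^ l) → Prog) (j : Fin (2 ^ l)) (w : Prog) :
    ∑ i, g (Function.update c j w i) = (∑ i, g (c i) - g (c j)) + g w := by
  classical
  rw [← Finset.add_sum_erase _ _ (Finset.mem_univ j)]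
  rw [← Finset.add_sum_erase (Finset.univ) (fun i => g (c i)) (Finset.mem_univ j)]
  rw [Function.update_self]
  have : ∑ x ∈ Finset.univ.erase j, g (Function.update c j w x)
      = ∑ x ∈ Finset.univ.erase j, g (c x) := by
    refine Finset.sum_congr rfl fun i hi => ?_
    rw [Function.update_of_ne (Finset.ne_of_mem_erase hi)]
  rw [this]
  ring

theorem wt_half_sum (a : ℕ → ℝ) (κ l : ℕ) (c : Fin (2 ^ (l + 1)) → Prog) :
    wt a (half κ 0 (l + 1) c) + wt a (half κ 1 (l + 1) c)
      = Gam κ l / 2 ^ l * ∑ j, wt a (c j) := by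
  have h := sum_halves l (fun i => wt a (c i))
    (fun j => by have := j.2; rw [pow_succ]; omega) (fun j => by have := j.2; rw [pow_succ]; omega)
  rw [← h]
  show Gam κ l / 2 ^ l * ∑ j : Fin (2 ^ l), wt a _ + Gam κ l / 2 ^ l * ∑ j : Fin (2 ^ l), wt a _ = _
  rw [← mul_add]
  rfl

theorem sg_half_sum (a : ℕ → ℝ) (κ l : ℕ) (c : Fin (2 ^ (l + 1)) → Prog) :
    sg a (half κ 0 (l + 1) c) + sg a (half κ 1 (l + 1) c)
      = Gam κ l / 2 ^ l * ∑ j, (sg a (c j) + (1 / 2) ^ l * wt a (c j)) := by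
  have h := sum_halves l (fun i => sg a (c i) + (1 / 2) ^ l * wt a (c i))
    (fun j => by have := j.2; rw [pow_succ]; omega) (fun j => by have := j.2; rw [pow_succ]; omega)
  rw [← h]
  show Gam κ l / 2 ^ l * ∑ j : Fin (2 ^ l), (sg a _ + (1 / 2) ^ l * wt a _)
    + Gam κ l / 2 ^ l * ∑ j : Fin (2 ^ l), (sg a _ + (1 / 2) ^ l * wt a _) = _
  rw [← mul_add]
  rfl

theorem wt_inner (a : ℕ → ℝ) (κ l : ℕ) (c : Fin (2 ^ l) → Prog) (j : Fin (2 ^ l)) (w : Prog) :
    wt a (avg κ l (Function.update c j w))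
      = Gam κ l / 2 ^ l * (∑ i, wt a (c i) - wt a (c j)) + Gam κ l / 2 ^ l * wt a w := by
  rw [wt_avg, sum_update (fun w => wt a w)]
  ring

theorem sg_inner (a : ℕ → ℝ) (κ l : ℕ) (c : Fin (2 ^ l) → Prog) (j : Fin (2 ^ l)) (w : Prog) :
    sg a (avg κ l (Function.update c j w))
      = Gam κ l / 2 ^ l * (∑ i, (sg a (c i) + (1 / 2) ^ l * wt a (c i))
          - (sg a (c j) + (1 / 2) ^ l * wt a (c j)))
        + Gam κ l / 2 ^ l * (sg a w + (1 / 2) ^ l * wt a w) := by
  rw [sg_avg, sum_update (fun w => sg a w + (1 / 2) ^ l * wt a w)]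
  ring

theorem A_wt_nonneg (a : ℕ → ℝ) (hw : ∀ z, 0 ≤ wt a z) (z : Prog) :
    0 ≤ Aop steps (fun w => wt a w) z := by
  induction z with
  | nil => simp [Aop, steps]
  | leaf k => simp [Aop, steps]
  | avg κ l c ih =>
    rw [Aop_avg]
    have hG := Gam_pos κ l
    have hinner : ∀ j, Aop steps (fun w => wt a (avg κ l (Function.update c j w))) (c j)
        = Gam κ l / 2 ^ l * (Aop steps (fun w => wt a w) (c j)
            - 0 * Aop steps (fun w => wt a w) (c j)) := by
      intro j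
      refine Aop_lin steps (fun w => wt a w) (fun w => wt a w) _
        (Gam κ l / 2 ^ l * (∑ i, wt a (c i) - wt a (c j))) _ _ (fun w => ?_) _
      rw [wt_inner]
      ring
    have h2 : 0 ≤ ∑ j, Aop steps (fun w => wt a (avg κ l (Function.update c j w))) (c j) := by
      refine Finset.sum_nonneg fun j _ => ?_
      rw [hinner]
      have h3 := ih j
      have h4 : 0 ≤ Gam κ l / 2 ^ l := by positivity
      rw [zero_mul, sub_zero]
      exact mul_nonneg h4 h3
    have h1 : 0 ≤ wt a (avg κ l c) - (wt a (half κ 0 l c) + wt a (half κ 1 l c)) / 2 := by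
      cases l with
      | zero =>
        show 0 ≤ wt a (avg κ 0 c) - (0 + 0) / 2
        have := hw (avg κ 0 c)
        linarith
      | succ l =>
        rw [wt_half_sum, wt_avg, Gam_succ]
        have hs : 0 ≤ ∑ j, wt a (c j) := Finset.sum_nonneg fun j _ => hw _
        have : (Gam κ l + (1 / 4) ^ (κ + 1)) / 2 ^ (l + 1) * ∑ j, wt a (c j)
            - Gam κ l / 2 ^ l * (∑ j, wt a (c j)) / 2
            = (1 / 4) ^ (κ + 1) / 2 ^ (l + 1) * ∑ j, wt a (c j) := by
          rw [pow_succ (2 : ℝ)]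
          field_simp
          ring
        rw [this]
        positivity
    linarith

end BHaux

open BHaux in
theorem blk_BH (hB : Stmt_BWT) : Stmt_BH := by
  intro a ha z
  have hw : ∀ z, 0 ≤ wt a z := fun z => (hB.2.2.2.2 a z ha).1
  have hsg : ∀ z, 0 ≤ sg a z := fun z => (hB.2.2.2.2 a z ha).2
  induction z with
  | nil =>
    intro t _ _
    simp [Aop, steps, wt, sg]
  | leaf k =>
    intro t _ _
    have := ha k
    simp only [Aop, steps, wt, sg, List.map_nil, List.sum_nil, mul_zero]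
    positivity
  | avg κ l c ih =>
    intro t hv ht
    have htκ : t ≤ κ := ht κ (Or.inl rfl)
    have hG := Gam_pos κ l
    have hsum : 0 ≤ ∑ j, wt a (c j) := Finset.sum_nonneg fun j _ => hw _
    rw [Aop_avg]
    have hinner : ∀ j, Aop steps (fun w => wt a (avg κ l (Function.update c j w))
          - sg a (avg κ l (Function.update c j w))) (c j)
        = Gam κ l / 2 ^ l * (Aop steps (fun w => wt a w - sg a w) (c j)
            - (1 / 2) ^ l * Aop steps (fun w => wt a w) (c j)) := by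
      intro j
      refine Aop_lin steps (fun w => wt a w - sg a w) (fun w => wt a w) _
        (Gam κ l / 2 ^ l * (∑ i, wt a (c i) - wt a (c j))
          - Gam κ l / 2 ^ l * (∑ i, (sg a (c i) + (1 / 2) ^ l * wt a (c i))
          - (sg a (c j) + (1 / 2) ^ l * wt a (c j)))) _ _ (fun w => ?_) _
      show wt a (avg κ l (Function.update c j w)) - sg a (avg κ l (Function.update c j w)) = _
      rw [wt_inner, sg_inner]
      ring
    have h2 : ∑ j, Aop steps (fun w => wt a (avg κ l (Function.update c j w))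
          - sg a (avg κ l (Function.update c j w))) (c j)
        ≤ ∑ j, Gam κ l / 2 ^ l * (sg a (c j) + (1 / 3) * (1 / 4) ^ (κ + 1) * wt a (c j)) := by
      refine Finset.sum_le_sum fun j _ => ?_
      rw [hinner]
      have h3 := ih j (κ + 1) (hv.2.1 j) (fun k hk => hv.2.2.1 j k hk)
      have h4 : 0 ≤ Gam κ l / 2 ^ l := by positivity
      have h5 := A_wt_nonneg a hw (c j)
      have h6 : 0 ≤ (1 / 2 : ℝ) ^ l * Aop steps (fun w => wt a w) (c j) := by positivity
      refine mul_le_mul_of_nonneg_left ?_ h4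
      linarith
    have h1 : (wt a (avg κ l c) - sg a (avg κ l c))
        - ((wt a (half κ 0 l c) - sg a (half κ 0 l c))
          + (wt a (half κ 1 l c) - sg a (half κ 1 l c))) / 2
        ≤ 1 / 2 ^ l * ∑ j, ((1 / 4) ^ (κ + 1) * wt a (c j)
          + Gam κ l * ((1 / 2) ^ l * wt a (c j))) := by
      have hR : 0 ≤ 1 / 2 ^ l * ∑ j, ((1 / 4 : ℝ) ^ (κ + 1) * wt a (c j)
          + Gam κ l * ((1 / 2) ^ l * wt a (c j))) := by
        refine mul_nonneg (by positivity) (Finset.sum_nonneg fun j _ => ?_)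
        have := hw (c j)
        positivity
      cases l with
      | zero =>
        refine le_trans ?_ hR
        show (wt a (avg κ 0 c) - sg a (avg κ 0 c)) - ((0 - 0) + (0 - 0)) / 2 ≤ 0
        rw [wt_avg, sg_avg]
        have : ∑ j : Fin (2 ^ 0), (sg a (c j) + (1 / 2) ^ 0 * wt a (c j))
            = ∑ j : Fin (2 ^ 0), sg a (c j) + ∑ j : Fin (2 ^ 0), wt a (c j) := by
          rw [← Finset.sum_add_distrib]
          simp
        rw [this]
        have hs : 0 ≤ ∑ j : Fin (2 ^ 0), sg a (c j) := Finset.sum_nonneg fun j _ => hsg _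
        have h4 : 0 ≤ Gam κ 0 / 2 ^ 0 := by positivity
        nlinarith [mul_nonneg h4 hs]
      | succ l =>
        have e1 := wt_half_sum a κ l c
        have e2 := sg_half_sum a κ l c
        have e3 : ((wt a (half κ 0 (l + 1) c) - sg a (half κ 0 (l + 1) c))
          + (wt a (half κ 1 (l + 1) c) - sg a (half κ 1 (l + 1) c)))
          = Gam κ l / 2 ^ l * ∑ j, wt a (c j)
            - Gam κ l / 2 ^ l * ∑ j, (sg a (c j) + (1 / 2) ^ l * wt a (c j)) := by
          rw [← e1, ← e2]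
          ring
        rw [e3, wt_avg, sg_avg, Gam_succ]
        simp only [Finset.sum_add_distrib, ← Finset.mul_sum]
        set W := ∑ j, wt a (c j) with hW
        set Sg := ∑ j, sg a (c j) with hSg
        have hs : 0 ≤ Sg := Finset.sum_nonneg fun j _ => hsg _
        have p1 : (2 : ℝ) ^ (l + 1) = 2 ^ l * 2 := pow_succ _ _
        have p2 : (1 / 2 : ℝ) ^ (l + 1) = (1 / 2) ^ l / 2 := by rw [pow_succ]; ring
        have p3 : (1 / 2 : ℝ) ^ l = 1 / 2 ^ l := by rw [one_div, inv_pow, one_div]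
        rw [p2, p1, p3]
        set P := (2 : ℝ) ^ l with hP
        have hPpos : 0 < P := by positivity
        set D := (1 / 4 : ℝ) ^ (κ + 1) with hD
        have hDpos : 0 < D := by positivity
        have key : 1 / (P * 2) * (D * W + (Gam κ l + D) * (1 / P / 2 * W))
            - ((Gam κ l + D) / (P * 2) * W - (Gam κ l + D) / (P * 2) * (Sg + 1 / P / 2 * W)
              - (Gam κ l / P * W - Gam κ l / P * (Sg + 1 / P * W)) / 2)
            = D / (P * 2) * Sg + D / (P * P * 2) * W := by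
          field_simp
          ring
        have hpos : 0 ≤ D / (P * 2) * Sg + D / (P * P * 2) * W := by positivity
        linarith
    have hfin : 1 / 2 ^ l * ∑ j, ((1 / 4) ^ (κ + 1) * wt a (c j)
          + Gam κ l * ((1 / 2) ^ l * wt a (c j)))
        + ∑ j, Gam κ l / 2 ^ l * (sg a (c j) + (1 / 3) * (1 / 4) ^ (κ + 1) * wt a (c j))
        ≤ sg a (avg κ l c) + (1 / 3) * (1 / 4) ^ t * wt a (avg κ l c) := by
      rw [wt_avg, sg_avg]
      simp only [Finset.sum_add_distrib, ← Finset.mul_sum]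
      set W := ∑ j, wt a (c j) with hW
      set Sg := ∑ j, sg a (c j) with hSg
      set P := (2 : ℝ) ^ l with hP
      have hPpos : 0 < P := by positivity
      have hpow : (1 / 4 : ℝ) ^ κ ≤ (1 / 4) ^ t :=
        pow_le_pow_of_le_one (by norm_num) (by norm_num) htκ
      have hpk : (1 / 4 : ℝ) ^ (κ + 1) = (1 / 4) ^ κ / 4 := by rw [pow_succ]; ring
      rw [hpk]
      set D := (1 / 4 : ℝ) ^ κ with hD
      have hDpos : 0 < D := by positivity
      have hGW : 0 ≤ (Gam κ l - 1) / P * W := by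
        have : 0 ≤ Gam κ l - 1 := by linarith
        positivity
      have hgw2 : 0 ≤ Gam κ l / P * W := by positivity
      have e1 : (1 / 3) * D * (Gam κ l / P * W) ≤ (1 / 3) * (1 / 4) ^ t * (Gam κ l / P * W) := by
        gcongr
      have e2 : Gam κ l / P * (Sg + (1 / 2) ^ l * W) + (1 / 3) * D * (Gam κ l / P * W)
          - (1 / P * (D / 4 * W + Gam κ l * ((1 / 2) ^ l * W))
            + Gam κ l / P * (Sg + 1 / 3 * (D / 4) * W))
          = D / 4 * ((Gam κ l - 1) / P * W) := by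
        field_simp
        ring
      have e3 : 0 ≤ D / 4 * ((Gam κ l - 1) / P * W) := by positivity
      linarith
    linarith

end Pool.CE
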