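import Mathlib
import Pool.Agent.Work.MP_052a41_ce.Interface

set_option autoImplicit false

/-! # Block BLOW (helper94): the lower estimate for `G_1 w_a` -/

namespace Pool.CE

open Filter Topology Set Prog

namespace BLOW

theorem Aop_smul {S : Type} (steps : S → List S) (c : ℝ) (φ : S → ℝ) (z : S) :
    Aop steps (fun w => c * φ w) z = c * Aop steps φ z := by
  unfold Aop
  have : (steps z).map (fun w => c * φ z - c * φ w) =
      (steps z).map (fun w => c * (φ z - φ w)) := by
    refine List.map_congr_left fun w _ => ?_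
    ring
  rw [this, List.sum_map_mul_left]
  ring

end BLOW

open BLOW in
theorem blk_BLOW (hBRK : Stmt_BRK) (hGCMP : Stmt_GCMP) (hGTR : Stmt_GTR) (hBARS : Stmt_BARS)
    (hBH : Stmt_BH) (hBGOOD : Stmt_BGOOD) (hBREM : Stmt_BREM) (hBWT : Stmt_BWT) : Stmt_BLOW := by
  intro G hG a M hM
  obtain ⟨hadd, hsmul, -, -, hnn⟩ := hBWT
  obtain ⟨hA, hV, hW⟩ := hBARS
  have hrank : ∀ z : VP, ∀ w ∈ stepsV z, rank w.1 < rank z.1 := fun z w hw =>
    hBRK z.1 w.1 (mem_stepsV.1 hw)
  -- step 1: the supersolution estimate at good programs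
  have h1 : ∀ b : ℕ → ℝ, (∀ k, 0 ≤ b k) → ∀ z : VP, Good z.1 →
      3 / 8 * wt b z.1 ≤ G (fun w => wt b w.1) z := by
    intro b hb z hz
    have h2 := (hGCMP VP stepsV (fun z => rank z.1) hrank 1 zero_le_one G hG univ
      (fun _ _ _ _ => mem_univ _) (fun w => wt b w.1)
      (fun w => 3 / 4 * (wt b w.1 - sg b w.1))).1 (by
        intro w _
        have e1 : Aop stepsV (fun w : VP => 3 / 4 * (wt b w.1 - sg b w.1)) w =
            3 / 4 * Aop steps (fun w => wt b w - sg b w) w.1 := by
          rw [Aop_smul, Aop_val (fun w => wt b w - sg b w) w]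
        have e2 := hBH b hb w.1 0 w.2 (fun k _ => Nat.zero_le k)
        rw [pow_zero] at e2
        rw [e1]
        linarith) z (mem_univ _)
    have h3 := hBGOOD b hb z.1 0 z.2 hz (fun k _ => Nat.zero_le k)
    have h4 := (hnn b z.1 hb).1
    norm_num at h3
    linarith
  -- step 2: deletion of leaves
  have h2 : ∀ (E : Set ℕ) (z : VP), |G (fun w => wt (E.indicator a) w.1) z| ≤ M := by
    intro E z
    have h3 := hGTR VP stepsV (fun z => rank z.1) hrank 1 zero_le_one G hG
      (fun z => ⟨restr E z.1, hV E z.1 z.2⟩) (by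
        intro φ z
        obtain ⟨φ', rfl⟩ := exists_ext φ
        have e1 := Aop_val (fun w => φ' (restr E w)) z
        have e2 := Aop_val φ' ⟨restr E z.1, hV E z.1 z.2⟩
        rw [e2]
        exact e1.trans (hA φ' E z.1)) (fun w => wt a w.1)
    have h4 : (fun w : VP => wt a (restr E w.1)) = fun w : VP => wt (E.indicator a) w.1 := by
      funext w
      exact hW E a w.1
    have h5 : G (fun w => wt (E.indicator a) w.1) z =
        G (fun w => wt a w.1) ⟨restr E z.1, hV E z.1 z.2⟩ := by
      rw [← h4]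
      exact congrFun h3 z
    rw [h5]
    exact hM _
  -- step 3: good programs
  have h3 : ∀ z : VP, Good z.1 → wt (fun k => |a k|) z.1 ≤ 16 / 3 * M := by
    intro z hz
    set E : Set ℕ := {k | 0 ≤ a k} with hE
    set b : ℕ → ℝ := E.indicator a with hb
    set c : ℕ → ℝ := (-1 : ℝ) • (Eᶜ.indicator a) with hc
    have hb0 : ∀ k, 0 ≤ b k := by
      intro k
      by_cases hk : k ∈ E
      · rw [hb, indicator_of_mem hk]; exact hk
      · rw [hb, indicator_of_notMem hk]
    have hc0 : ∀ k, 0 ≤ c k := by
      intro k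
      by_cases hk : k ∈ E
      · rw [hc, Pi.smul_apply, indicator_of_notMem (by simpa using hk)]; simp
      · rw [hc, Pi.smul_apply, indicator_of_mem (by exact hk)]
        have : a k < 0 := not_le.1 hk
        simp only [smul_eq_mul]
        linarith
    have habs : (fun k => |a k|) = b + c := by
      funext k
      rw [Pi.add_apply]
      by_cases hk : k ∈ E
      · rw [hb, hc, Pi.smul_apply, indicator_of_mem hk, indicator_of_notMem (by simpa using hk)]
        have : 0 ≤ a k := hk
        rw [abs_of_nonneg this]; simp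
      · rw [hb, hc, Pi.smul_apply, indicator_of_notMem hk, indicator_of_mem (by exact hk)]
        have : a k < 0 := not_le.1 hk
        rw [abs_of_neg this]; simp
    have e1 := h1 b hb0 z hz
    have e2 := h1 c hc0 z hz
    have e3 := (abs_le.1 (h2 E z)).2
    have e4 := (abs_le.1 (h2 Eᶜ z)).1
    have e5 : G (fun w => wt c w.1) z = - G (fun w => wt (Eᶜ.indicator a) w.1) z := by
      have : (fun w : VP => wt c w.1) = -(fun w : VP => wt (Eᶜ.indicator a) w.1) := by
        funext w
        rw [Pi.neg_apply, hc, hsmul]; ring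
      rw [this, map_neg, Pi.neg_apply]
    rw [e5] at e2
    rw [habs, hadd]
    linarith
  -- step 4: removal
  intro z
  obtain ⟨z', hz1, hz2, -, hz4⟩ := hBREM (fun k => |a k|) (fun k => abs_nonneg _) z.1 0 z.2
    (fun k _ => Nat.zero_le k)
  have h4 := h3 ⟨z', hz1⟩ hz2
  have h5 : wt (fun k => |a k|) z.1 ≤ 3 * wt (fun k => |a k|) z' := by
    norm_num at hz4
    exact hz4
  have h6 : wt (fun k => |a k|) z' ≤ 16 / 3 * M := h4
  linarith

end Pool.CE
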