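import Mathlib
import Pool.Agent.Work.MP_052a41_ce.Interface

set_option autoImplicit false

/-! # Block BREM (helper84): removal of the averages of small level -/

namespace Pool.CE

open Prog

theorem brem_num (κ : ℕ) : (1 + ((κ : ℝ) + 1) / 4 ^ (κ + 1)) * (1 + 2 * (1 / 2 : ℝ) ^ (κ + 1)) ≤
    1 + 2 * (1 / 2) ^ κ := by
  have h4 : ((4 : ℝ) ^ (κ + 1))⁻¹ = ((1 / 2 : ℝ) ^ (κ + 1)) * ((1 / 2 : ℝ) ^ (κ + 1)) := by
    rw [← mul_pow, ← inv_pow]; norm_num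
  have hx : (0 : ℝ) < (1 / 2 : ℝ) ^ (κ + 1) := by positivity
  have hx1 : (1 / 2 : ℝ) ^ (κ + 1) ≤ 1 / 2 := by
    rw [pow_succ]
    have : (1 / 2 : ℝ) ^ κ ≤ 1 := pow_le_one₀ (by norm_num) (by norm_num)
    linarith
  have hk : ((κ : ℝ) + 1) * (1 / 2 : ℝ) ^ (κ + 1) ≤ 1 / 2 := by
    have h2 : (κ : ℝ) + 1 ≤ 2 ^ κ := by
      have := Nat.lt_two_pow_self (n := κ)
      have h3 : κ + 1 ≤ 2 ^ κ := this
      exact_mod_cast h3
    calc ((κ : ℝ) + 1) * (1 / 2 : ℝ) ^ (κ + 1) ≤ 2 ^ κ * (1 / 2 : ℝ) ^ (κ + 1) := by gcongr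
      _ = 1 / 2 := by
        rw [pow_succ, ← mul_assoc, ← mul_pow]; norm_num
  have hs : (1 / 2 : ℝ) ^ κ = 2 * (1 / 2 : ℝ) ^ (κ + 1) := by rw [pow_succ]; ring
  rw [div_eq_mul_inv, h4, hs]
  set x := (1 / 2 : ℝ) ^ (κ + 1) with hxd
  have h5 : ((κ : ℝ) + 1) * (x * x) ≤ x / 2 := by
    calc ((κ : ℝ) + 1) * (x * x) = (((κ : ℝ) + 1) * x) * x := by ring
      _ ≤ (1 / 2) * x := by gcongr
      _ = x / 2 := by ring
  calc (1 + ((κ : ℝ) + 1) * (x * x)) * (1 + 2 * x) ≤ (1 + x / 2) * (1 + 2 * x) := by gcongr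
    _ ≤ 1 + 2 * (2 * x) := by nlinarith

theorem blk_BREM (hw : Stmt_BWT) : Stmt_BREM := by
  intro b hb z
  have hpos : ∀ z, 0 ≤ wt b z := fun z => (hw.2.2.2.2 b z hb).1
  induction z with
  | nil =>
    intro t _ _
    refine ⟨nil, trivial, trivial, fun k h => h, ?_⟩
    simp [wt]
  | leaf m =>
    intro t _ _
    refine ⟨leaf m, trivial, trivial, fun k h => h, ?_⟩
    have h1 := hpos (leaf m)
    have h2 : (0 : ℝ) ≤ 2 * (1 / 2) ^ t := by positivity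
    nlinarith
  | avg κ l c ih =>
    intro t hz ht
    have hG : (0 : ℝ) ≤ Gam κ l := by unfold Gam; positivity
    have htk : t ≤ κ := ht κ (Or.inl rfl)
    have h : ∀ j, ∃ z', Valid z' ∧ Good z' ∧ (∀ k, z'.Ev k → (c j).Ev k) ∧
        wt b (c j) ≤ (1 + 2 * (1 / 2) ^ (κ + 1)) * wt b z' := fun j =>
      ih j (κ + 1) (hz.2.1 j) (fun k hk => hz.2.2.1 j k hk)
    choose c' h1 h2 h3 h4 using h
    by_cases hl : κ + 2 ≤ l
    · refine ⟨avg κ l c', ⟨hz.1, h1, fun j k hk => hz.2.2.1 j k (h3 j k hk),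
        fun i j hij a b' ha hb' => hz.2.2.2 i j hij a b' (h3 _ _ ha) (h3 _ _ hb')⟩,
        ⟨hl, h2⟩, ?_, ?_⟩
      · rintro k (hk | ⟨j, hk⟩)
        · exact Or.inl hk
        · exact Or.inr ⟨j, h3 j k hk⟩
      · have e1 : wt b (avg κ l c) ≤ (1 + 2 * (1 / 2) ^ (κ + 1)) * wt b (avg κ l c') := by
          show Gam κ l / 2 ^ l * ∑ j, wt b (c j) ≤ (1 + 2 * (1 / 2) ^ (κ + 1)) *
            (Gam κ l / 2 ^ l * ∑ j, wt b (c' j))
          have e2 : ∑ j, wt b (c j) ≤ (1 + 2 * (1 / 2) ^ (κ + 1)) * ∑ j, wt b (c' j) := by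
            rw [Finset.mul_sum]
            exact Finset.sum_le_sum fun j _ => h4 j
          calc Gam κ l / 2 ^ l * ∑ j, wt b (c j)
              ≤ Gam κ l / 2 ^ l * ((1 + 2 * (1 / 2) ^ (κ + 1)) * ∑ j, wt b (c' j)) :=
                mul_le_mul_of_nonneg_left e2 (by positivity)
            _ = _ := by ring
        refine e1.trans (mul_le_mul_of_nonneg_right ?_ (hpos _))
        have : (1 / 2 : ℝ) ^ (κ + 1) ≤ (1 / 2) ^ t :=
          pow_le_pow_of_le_one (by norm_num) (by norm_num) (by omega)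
        linarith
    · push Not at hl
      obtain ⟨j₀, -, hj₀⟩ := Finset.exists_max_image (Finset.univ : Finset (Fin (2 ^ l)))
        (fun j => wt b (c' j)) ⟨⟨0, by positivity⟩, Finset.mem_univ _⟩
      refine ⟨c' j₀, h1 j₀, h2 j₀, fun k hk => Or.inr ⟨j₀, h3 j₀ k hk⟩, ?_⟩
      have hs : ∑ j, wt b (c j) ≤ 2 ^ l * ((1 + 2 * (1 / 2) ^ (κ + 1)) * wt b (c' j₀)) := by
        calc ∑ j, wt b (c j) ≤ ∑ _j : Fin (2 ^ l), (1 + 2 * (1 / 2) ^ (κ + 1)) * wt b (c' j₀) :=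
              Finset.sum_le_sum fun j _ => (h4 j).trans
                (mul_le_mul_of_nonneg_left (hj₀ j (Finset.mem_univ _)) (by positivity))
          _ = 2 ^ l * ((1 + 2 * (1 / 2) ^ (κ + 1)) * wt b (c' j₀)) := by
            rw [Finset.sum_const, Finset.card_univ, Fintype.card_fin, nsmul_eq_mul]
            push_cast
            ring
      have hGl : Gam κ l ≤ 1 + ((κ : ℝ) + 1) / 4 ^ (κ + 1) := by
        unfold Gam
        have : (l : ℝ) ≤ (κ : ℝ) + 1 := by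
          have : l ≤ κ + 1 := by omega
          exact_mod_cast this
        gcongr
      calc wt b (avg κ l c) = Gam κ l / 2 ^ l * ∑ j, wt b (c j) := rfl
        _ ≤ Gam κ l / 2 ^ l * (2 ^ l * ((1 + 2 * (1 / 2) ^ (κ + 1)) * wt b (c' j₀))) := by
            gcongr
        _ = Gam κ l * (1 + 2 * (1 / 2) ^ (κ + 1)) * wt b (c' j₀) := by
            have : (2 : ℝ) ^ l ≠ 0 := by positivity
            field_simp
        _ ≤ (1 + ((κ : ℝ) + 1) / 4 ^ (κ + 1)) * (1 + 2 * (1 / 2) ^ (κ + 1)) * wt b (c' j₀) := by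
            have := hpos (c' j₀)
            gcongr
        _ ≤ (1 + 2 * (1 / 2) ^ κ) * wt b (c' j₀) :=
            mul_le_mul_of_nonneg_right (brem_num κ) (hpos _)
        _ ≤ (1 + 2 * (1 / 2) ^ t) * wt b (c' j₀) := by
            refine mul_le_mul_of_nonneg_right ?_ (hpos _)
            have : (1 / 2 : ℝ) ^ κ ≤ (1 / 2) ^ t :=
              pow_le_pow_of_le_one (by norm_num) (by norm_num) htk
            linarith

end Pool.CE
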