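import Mathlib
import Pool.Agent.Work.MP_052a41_ce.Interface

set_option autoImplicit false

namespace Pool.CE

open Prog

theorem BRK_half (κ : ℕ) (ξ : Fin 2) (l : ℕ) (c : Fin (2 ^ l) → Prog) :
    rank (half κ ξ l c) < rank (avg κ l c) := by
  cases l with
  | zero =>
    show rank nil < _
    unfold rank
    omega
  | succ l =>
    show rank (avg κ l _) < _
    unfold rank
    beta_reduce
    have hinj : Function.Injective (fun j : Fin (2 ^ l) => (⟨2 * j.1 + ξ.1, by
        have h1 := j.2
        have h2 := ξ.2
        rw [pow_succ]
        omega⟩ : Fin (2 ^ (l + 1)))) := by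
      intro i j hij
      have := congrArg Fin.val hij
      simp only at this
      exact Fin.ext (by omega)
    have := Finset.sum_le_sum_of_subset (f := fun j => rank (c j))
      (Finset.subset_univ (Finset.univ.map ⟨_, hinj⟩))
    rw [Finset.sum_map] at this
    simp only [Function.Embedding.coeFn_mk] at this
    omega

theorem blk_BRK : Stmt_BRK := by
  intro z
  induction z with
  | nil => intro w hw; simp [steps] at hw
  | leaf m => intro w hw; simp [steps] at hw
  | avg κ l c ih =>
    intro w hw
    rw [mem_steps_avg] at hw
    rcases hw with h | h | ⟨j, w', hw', h⟩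
    · rw [h]; exact BRK_half κ 0 l c
    · rw [h]; exact BRK_half κ 1 l c
    · rw [h]
      have h1 := ih j w' hw'
      show l + 1 + ∑ i, rank (Function.update c j w' i) < l + 1 + ∑ i, rank (c i)
      have : ∑ i, rank (Function.update c j w' i) < ∑ i, rank (c i) := by
        refine Finset.sum_lt_sum (fun i _ => ?_) ⟨j, Finset.mem_univ j, ?_⟩
        · by_cases hi : i = j
          · subst hi; rw [Function.update_self]; exact h1.le
          · rw [Function.update_of_ne hi]
        · rw [Function.update_self]; exact h1
      omega

end Pool.CE
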