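import Pool.Agent.Work.MP_052a41_ce.Interface

set_option autoImplicit false

namespace Pool.CE

open Filter Topology Set Prog

namespace BTR

theorem wt_zero_of (a : ℕ → ℝ) (z : Prog) (h : ∀ k, z.Ev k → a k = 0) : wt a z = 0 := by
  induction z with
  | nil => simp [wt]
  | leaf k => simpa [wt] using h k rfl
  | avg κ l c ih =>
    simp only [wt]
    rw [Finset.sum_eq_zero fun j _ => ih j fun k hk => h k (Or.inr ⟨j, hk⟩), mul_zero]

end BTR

theorem blk_BTR : Stmt_BTR := by
  intro a n z
  induction z with
  | nil => intro _; simp [wt, Prog.tr]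
  | leaf k =>
    intro _
    simp only [Prog.tr, wt]
    split_ifs <;> simp [wt]
  | avg κ l c ih =>
    intro hV
    obtain ⟨h1, h2, h3, h4⟩ := hV
    simp only [Prog.tr]
    split_ifs with h
    · simp only [wt]
      congr 1
      exact Finset.sum_congr rfl fun j _ => ih j (h2 j)
    · simp only [wt]
      symm
      rw [Finset.sum_eq_zero, mul_zero]
      intro j _
      apply BTR.wt_zero_of
      intro k hk
      have := h3 j k hk
      rw [if_neg (by omega)]

end Pool.CE
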