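import Pool.Agent.Work.MP_052a41_ce.Interface

set_option autoImplicit false

namespace Pool.CE

open Filter Topology Set Prog

namespace BWT

theorem gam_nonneg (κ l : ℕ) : 0 ≤ Gam κ l / 2 ^ l := by
  unfold Gam
  positivity

theorem wt_nonneg (a : ℕ → ℝ) (z : Prog) (h : ∀ k, 0 ≤ a k) : 0 ≤ wt a z := by
  induction z with
  | nil => simp [wt]
  | leaf k => simpa [wt] using h k
  | avg κ l c ih =>
    simp only [wt]
    exact mul_nonneg (gam_nonneg κ l) (Finset.sum_nonneg fun j _ => ih j)

end BWT

theorem blk_BWT : Stmt_BWT := by
  refine ⟨?_, ?_, ?_, ?_, ?_⟩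
  · intro a b z
    induction z with
    | nil => simp [wt]
    | leaf k => simp [wt]
    | avg κ l c ih =>
      simp only [wt]
      rw [← mul_add, ← Finset.sum_add_distrib]
      congr 1
      exact Finset.sum_congr rfl fun j _ => ih j
  · intro r a z
    induction z with
    | nil => simp [wt]
    | leaf k => simp [wt]
    | avg κ l c ih =>
      simp only [wt]
      rw [Finset.sum_congr rfl fun j _ => ih j, ← Finset.mul_sum]
      ring
  · intro a b z
    induction z with
    | nil => intro _; simp [wt]
    | leaf k => intro h; simpa [wt] using h k rfl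
    | avg κ l c ih =>
      intro h
      simp only [wt]
      apply mul_le_mul_of_nonneg_left _ (BWT.gam_nonneg κ l)
      exact Finset.sum_le_sum fun j _ => ih j fun k hk => h k (Or.inr ⟨j, hk⟩)
  · intro a b z h
    induction z with
    | nil => simp [wt]
    | leaf k => simpa [wt] using h k
    | avg κ l c ih =>
      simp only [wt]
      rw [abs_mul, abs_of_nonneg (BWT.gam_nonneg κ l)]
      apply mul_le_mul_of_nonneg_left _ (BWT.gam_nonneg κ l)
      exact (Finset.abs_sum_le_sum_abs _ _).trans (Finset.sum_le_sum fun j _ => ih j)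
  · intro a z h
    refine ⟨BWT.wt_nonneg a z h, ?_⟩
    induction z with
    | nil => simp [sg]
    | leaf k => simp [sg]
    | avg κ l c ih =>
      simp only [sg]
      apply mul_nonneg (BWT.gam_nonneg κ l)
      apply Finset.sum_nonneg fun j _ => ?_
      have h1 := ih j
      have h2 := BWT.wt_nonneg a (c j) h
      positivity

end Pool.CE
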