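import Pool.Agent.Work.MP_052a41_ce.Interface

set_option autoImplicit false

/-! # Block CORE (helper41) -/

namespace Pool.CE

open Filter Topology Set Prog

theorem blk_CORE (hMA : Stmt_MA) (hFAM : Stmt_FAM) (hBLOW : Stmt_BLOW) (hBE : Stmt_BE)
    (hBWT : Stmt_BWT) (hBBD : Stmt_BBD) (hNJ : Stmt_NJ) (hRFL : Stmt_RFL) (hRID : Stmt_RID)
    (hDSEP : Stmt_DSEP) : Stmt_CORE := by
  obtain ⟨F, hF, hG⟩ := hFAM
  obtain ⟨K, iM, iC, iT, P, j, hPP, hsep, hPj, hjlow, hjup⟩ := hMA VP F
  obtain ⟨w1, w2, w3, w4, w5⟩ := hBWT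
  refine ⟨K, iM, iC, iT, P, hPP, hsep, ?_⟩
  -- the functions `wt a` in the domain of `j`
  let wE : (ℕ →₀ ℝ) →ₗ[ℝ] Esub F.toTow :=
    { toFun := fun a => ⟨fun z : VP => wt a z.1, hBE F.toTow hF a⟩
      map_add' := fun a b => by
        apply Subtype.ext
        funext z
        show wt (⇑(a + b)) z.1 = wt a z.1 + wt b z.1
        rw [Finsupp.coe_add]
        exact w1 _ _ _
      map_smul' := fun c a => by
        apply Subtype.ext
        funext z
        show wt (⇑(c • a)) z.1 = c * wt a z.1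
        rw [Finsupp.coe_smul]
        exact w2 _ _ _ }
  let e0 : ℕ → C(K, ℝ) := fun k => j (wE (Finsupp.single k 1))
  have hlin0 : ∀ a : ℕ →₀ ℝ, lin e0 a = j (wE a) := by
    intro a
    have h1 : lin e0 = j.comp wE := by
      apply Finsupp.lhom_ext
      intro k b
      show Finsupp.linearCombination ℝ e0 (Finsupp.single k b) = j (wE (Finsupp.single k b))
      rw [Finsupp.linearCombination_single]
      show b • j (wE (Finsupp.single k 1)) = _
      rw [← map_smul, ← map_smul, Finsupp.smul_single, smul_eq_mul, mul_one]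
    rw [h1]
    rfl
  let Y : Submodule ℝ C(K, ℝ) := (Submodule.span ℝ (Set.range e0)).topologicalClosure
  have hYcl : IsClosed (Y : Set C(K, ℝ)) := Submodule.isClosed_topologicalClosure _
  have hrcl : IsClosed ((LinearMap.range P.toLinearMap : Submodule ℝ C(K, ℝ)) : Set C(K, ℝ)) := by
    have h2 : ((LinearMap.range P.toLinearMap : Submodule ℝ C(K, ℝ)) : Set C(K, ℝ)) =
        {x | P x = x} := by
      ext x
      constructor
      · rintro ⟨y, rfl⟩
        exact hPP y
      · intro hx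
        exact ⟨x, hx⟩
    rw [h2]
    exact isClosed_eq P.continuous continuous_id
  have hYle : Y ≤ LinearMap.range P.toLinearMap := by
    refine Submodule.topologicalClosure_minimal _ ?_ hrcl
    rw [Submodule.span_le]
    rintro _ ⟨k, rfl⟩
    exact ⟨e0 k, hPj _⟩
  have he0 : ∀ k, e0 k ∈ Y := fun k =>
    Submodule.le_topologicalClosure _ (Submodule.subset_span ⟨k, rfl⟩)
  let e : ℕ → Y := fun k => ⟨e0 k, he0 k⟩
  have hlin : ∀ a : ℕ →₀ ℝ, ((lin e a : Y) : C(K, ℝ)) = j (wE a) := by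
    intro a
    rw [← hlin0]
    show Y.subtype (Finsupp.linearCombination ℝ e a) = Finsupp.linearCombination ℝ e0 a
    rw [Finsupp.apply_linearCombination]
    rfl
  have hnorm : ∀ a : ℕ →₀ ℝ, ‖lin e a‖ = ‖j (wE a)‖ := by
    intro a
    rw [← hlin]
    rfl
  have : CompleteSpace Y := hYcl.completeSpace_coe
  have hlow : ∀ (a : ℕ →₀ ℝ) (z : VP), wt (fun k => |a k|) z.1 ≤ 16 * ‖lin e a‖ := by
    intro a z
    refine hBLOW (F.x 0) hG a _ ?_ z
    intro z
    rw [hnorm]
    exact hjlow (wE a) z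
  have hup : ∀ (a : ℕ →₀ ℝ) (M : ℝ), (∀ z : VP, wt (fun k => |a k|) z.1 ≤ M) →
      ‖lin e a‖ ≤ 2 * M := by
    intro a M hM
    have hM0 : 0 ≤ M := hM ⟨Prog.nil, trivial⟩
    rw [hnorm]
    refine hjup (wE a) M hM0 ?_
    intro z
    exact (w4 a (fun k => |a k|) z.1 (fun k => le_rfl)).trans (hM z)
  obtain ⟨hunc, hgrow, hke⟩ := hNJ Y e hlow hup
  have hdns : Dns e := by
    show Dense ((Submodule.span ℝ (Set.range e) : Submodule ℝ Y) : Set Y)
    rw [Metric.dense_iff]
    rintro ⟨y, hy⟩ r hr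
    have h3 : y ∈ closure ((Submodule.span ℝ (Set.range e0) : Submodule ℝ C(K, ℝ)) :
        Set C(K, ℝ)) := hy
    rw [Metric.mem_closure_iff] at h3
    obtain ⟨x, hx, hxy⟩ := h3 r hr
    have hx' : x ∈ Submodule.map Y.subtype (Submodule.span ℝ (Set.range e)) := by
      rw [Submodule.map_span]
      have h4 : (Y.subtype '' Set.range e) = Set.range e0 := by
        rw [← Set.range_comp]
        rfl
      rw [h4]
      exact hx
    obtain ⟨x', hx', rfl⟩ := hx'
    refine ⟨x', ?_, hx'⟩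
    rw [Metric.mem_ball, dist_comm]
    exact hxy
  have hsepY : TopologicalSpace.SeparableSpace (Y →L[ℝ] ℝ) := by
    let U : Y →L[ℝ] LinearMap.range P.toLinearMap :=
      ⟨Submodule.inclusion hYle, by
        refine Continuous.subtype_mk ?_ _
        exact continuous_subtype_val⟩
    refine hDSEP (LinearMap.range P.toLinearMap) Y U 1 one_pos ?_ hsep
    intro y
    rw [one_mul]
    exact le_rfl
  have hpos : ∃ c > 0, ∀ k, c ≤ ‖e k‖ := ⟨1 / 16, by norm_num, hke⟩
  refine ⟨Y, hYle, hYcl, ?_, ?_⟩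
  · exact hRID Y e 32 hunc hpos
  · exact hRFL Y e 32 hunc hdns hpos hgrow hsepY

end Pool.CE
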