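import Mathlib

/-!
Complemented subspace problem, block C_uncountable (helper90).
The dual of `C(L)`, `L` uncountable compact metric, is not separable; separability of the dual
passes down along bounded below maps (Hahn-Banach).
-/

set_option autoImplicit false

open Set Filter Topology NormedSpace TopologicalSpace

namespace Pool.CE

/-- Hahn-Banach along a bounded below map: every functional on `G` factors through `S : G → F`. -/
theorem exists_dual_extension {F G : Type*} [NormedAddCommGroup F] [NormedSpace ℝ F]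
    [NormedAddCommGroup G] [NormedSpace ℝ G] (S : G →L[ℝ] F) (c : ℝ) (hc : 0 < c)
    (h : ∀ g, c * ‖g‖ ≤ ‖S g‖) (ψ : StrongDual ℝ G) :
    ∃ φ : StrongDual ℝ F, (∀ g, φ (S g) = ψ g) ∧ ‖φ‖ ≤ ‖ψ‖ / c := by
  have hinj : Function.Injective (S : G →ₗ[ℝ] F) := by
    rw [injective_iff_map_eq_zero]
    intro g hg
    have h1 := h g
    have h2 : S g = 0 := hg
    rw [h2, norm_zero] at h1
    have h3 : ‖g‖ ≤ 0 := by
      by_contra hcon
      push Not at hcon
      nlinarith [mul_pos hc hcon]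
    exact norm_le_zero_iff.1 h3
  let e : G ≃ₗ[ℝ] LinearMap.range (S : G →ₗ[ℝ] F) := LinearEquiv.ofInjective _ hinj
  have he : ∀ y : LinearMap.range (S : G →ₗ[ℝ] F), S (e.symm y) = y := by
    intro y
    have h1 : e (e.symm y) = y := e.apply_symm_apply y
    have h2 : ((e (e.symm y) : LinearMap.range (S : G →ₗ[ℝ] F)) : F) = S (e.symm y) := rfl
    rw [← h2, h1]
  let f₀ : LinearMap.range (S : G →ₗ[ℝ] F) →ₗ[ℝ] ℝ := (ψ : G →ₗ[ℝ] ℝ).comp (e.symm : _ →ₗ[ℝ] G)
  have hb : ∀ y, ‖f₀ y‖ ≤ ‖ψ‖ / c * ‖y‖ := by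
    intro y
    have h1 : ‖f₀ y‖ ≤ ‖ψ‖ * ‖e.symm y‖ := ψ.le_opNorm _
    have h2 : c * ‖e.symm y‖ ≤ ‖y‖ := by
      have := h (e.symm y)
      rw [he] at this
      exact this
    have h3 : ‖e.symm y‖ ≤ ‖y‖ / c := by
      rw [le_div_iff₀ hc]; linarith
    calc ‖f₀ y‖ ≤ ‖ψ‖ * ‖e.symm y‖ := h1
      _ ≤ ‖ψ‖ * (‖y‖ / c) := by gcongr
      _ = ‖ψ‖ / c * ‖y‖ := by ring
  let f : StrongDual ℝ (LinearMap.range (S : G →ₗ[ℝ] F)) := f₀.mkContinuous _ hb
  have hfn : ‖f‖ ≤ ‖ψ‖ / c := LinearMap.mkContinuous_norm_le _ (by positivity) hb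
  obtain ⟨φ, hφ, hφn⟩ := _root_.exists_extension_norm_eq _ f
  refine ⟨φ, fun g => ?_, by rw [hφn]; exact hfn⟩
  have h1 := hφ (e g)
  have h2 : ((e g : LinearMap.range (S : G →ₗ[ℝ] F)) : F) = S g := rfl
  rw [h2] at h1
  rw [h1]
  change ψ (e.symm (e g)) = ψ g
  rw [e.symm_apply_apply]

/-- If `T J` is bounded below and the range of the adjoint of `T` is separable, then the dual of
the domain of `J` is separable. -/
theorem separable_dual_of_adjoint_range {E F G : Type*} [NormedAddCommGroup E] [NormedSpace ℝ E]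
    [NormedAddCommGroup F] [NormedSpace ℝ F] [NormedAddCommGroup G] [NormedSpace ℝ G]
    (T : E →L[ℝ] F) (J : G →L[ℝ] E) (c : ℝ) (hc : 0 < c) (h : ∀ g, c * ‖g‖ ≤ ‖T (J g)‖)
    (hsep : IsSeparable (Set.range fun φ : StrongDual ℝ F => φ.comp T)) :
    SeparableSpace (StrongDual ℝ G) := by
  rw [← isSeparable_univ_iff]
  have hcont : Continuous fun χ : StrongDual ℝ E => χ.comp J :=
    ((ContinuousLinearMap.compL ℝ G E ℝ).flip J).continuous
  refine (hsep.image hcont).mono ?_
  intro ψ _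
  obtain ⟨φ, hφ, -⟩ := exists_dual_extension (T.comp J) c hc h ψ
  refine ⟨φ.comp T, ⟨φ, rfl⟩, ?_⟩
  ext g
  exact hφ g

/-- Separability of the dual passes down along bounded below maps. -/
theorem separable_dual_of_bddBelow {F G : Type*} [NormedAddCommGroup F] [NormedSpace ℝ F]
    [NormedAddCommGroup G] [NormedSpace ℝ G] (S : G →L[ℝ] F) (c : ℝ) (hc : 0 < c)
    (h : ∀ g, c * ‖g‖ ≤ ‖S g‖) [SeparableSpace (StrongDual ℝ F)] :
    SeparableSpace (StrongDual ℝ G) := by
  refine separable_dual_of_adjoint_range (ContinuousLinearMap.id ℝ F) S c hc h ?_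
  exact (isSeparable_univ_iff.2 inferInstance).mono (subset_univ _)

/-- Separability of the dual passes along isomorphisms. -/
theorem separable_dual_of_equiv {F G : Type*} [NormedAddCommGroup F] [NormedSpace ℝ F]
    [NormedAddCommGroup G] [NormedSpace ℝ G] (e : G ≃L[ℝ] F) [SeparableSpace (StrongDual ℝ F)] :
    SeparableSpace (StrongDual ℝ G) := by
  rw [← isSeparable_univ_iff]
  have hcont : Continuous fun χ : StrongDual ℝ F => χ.comp (e : G →L[ℝ] F) :=
    ((ContinuousLinearMap.compL ℝ G F ℝ).flip (e : G →L[ℝ] F)).continuous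
  refine ((isSeparable_univ_iff.2 (inferInstance : SeparableSpace (StrongDual ℝ F))).image
    hcont).mono ?_
  intro ψ _
  refine ⟨ψ.comp (e.symm : F →L[ℝ] G), mem_univ _, ?_⟩
  ext g
  simp

/-- The dual of `C(L)`, `L` an uncountable compact metric space, is not separable. -/
theorem not_separable_dual {L : Type*} [MetricSpace L] [CompactSpace L] (hL : ¬ Countable L) :
    ¬ SeparableSpace (StrongDual ℝ C(L, ℝ)) := by
  intro hsep
  apply hL
  let δ : L → StrongDual ℝ C(L, ℝ) := fun t => ContinuousMap.evalCLM ℝ t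
  have hδ : ∀ s t, s ≠ t → 1 ≤ ‖δ s - δ t‖ := by
    intro s t hst
    have hd : 0 < dist s t := dist_pos.2 hst
    let f : C(L, ℝ) := ⟨fun u => min 1 (dist u t / dist s t), by fun_prop⟩
    have hfn : ‖f‖ ≤ 1 := by
      rw [ContinuousMap.norm_le _ zero_le_one]
      intro u
      have h0 : 0 ≤ min 1 (dist u t / dist s t) := le_min zero_le_one (by positivity)
      change ‖min 1 (dist u t / dist s t)‖ ≤ 1
      rw [Real.norm_eq_abs, abs_of_nonneg h0]
      exact min_le_left _ _
    have h1 : (δ s - δ t) f = 1 := by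
      change min 1 (dist s t / dist s t) - min 1 (dist t t / dist s t) = 1
      rw [div_self hd.ne', dist_self, zero_div]
      norm_num
    calc (1 : ℝ) = ‖(δ s - δ t) f‖ := by rw [h1]; simp
      _ ≤ ‖δ s - δ t‖ * ‖f‖ := (δ s - δ t).le_opNorm f
      _ ≤ ‖δ s - δ t‖ * 1 := by gcongr
      _ = ‖δ s - δ t‖ := mul_one _
  have hdisj : (univ : Set L).PairwiseDisjoint fun t => Metric.ball (δ t) (1 / 2) := by
    intro s _ t _ hst
    refine Metric.ball_disjoint_ball ?_
    have := hδ s t hst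
    rw [← dist_eq_norm (δ s) (δ t)] at this
    norm_num
    exact this
  have hc : (univ : Set L).Countable :=
    hdisj.countable_of_isOpen (fun t _ => Metric.isOpen_ball)
      fun t _ => ⟨δ t, Metric.mem_ball_self (by norm_num)⟩
  exact countable_univ_iff.1 hc

/-- Continuous functions on the unit interval have a nonseparable dual. -/
theorem not_separable_dual_Icc : ¬ SeparableSpace (StrongDual ℝ C(Set.Icc (0 : ℝ) 1, ℝ)) := by
  refine not_separable_dual ?_
  rw [Set.countable_coe_iff]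
  intro h
  have h1 := Cardinal.mk_Icc_real (zero_lt_one (α := ℝ))
  have h2 := (Cardinal.le_aleph0_iff_set_countable.2 h)
  rw [h1] at h2
  exact absurd h2 (not_le.2 Cardinal.aleph0_lt_continuum)

end Pool.CE
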