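import Mathlib
import Pool.Agent.Work.MP_052a41_ce.Interface
import Pool.Agent.Work.MP_052a41_ce.C_uncountable

set_option autoImplicit false

/-! Block DSEP (helper90): separability of the dual passes down along bounded below maps. -/

namespace Pool.CE

theorem blk_DSEP : Stmt_DSEP := by
  intro X Y _ _ _ _ U c hc hU hX
  have : TopologicalSpace.SeparableSpace (StrongDual ℝ X) := hX
  exact separable_dual_of_bddBelow U c hc hU

end Pool.CE
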