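import Mathlib
import Pool.Agent.Work.MP_052a41_ce.Interface
import Pool.Agent.Work.MP_052a41_ce.C_uncountable

set_option autoImplicit false

/-! Block F1 (helper90): the frozen statement of MP_052a41_an from the core theorem. -/

namespace Pool.CE

/-- the range of a continuous idempotent is closed complemented -/
theorem closedComplemented_range {E : Type} [NormedAddCommGroup E] [NormedSpace ℝ E]
    (P : E →L[ℝ] E) (hP : ∀ x, P (P x) = P x) :
    (LinearMap.range P.toLinearMap).ClosedComplemented := by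
  refine ⟨P.codRestrict _ fun x => ⟨x, rfl⟩, ?_⟩
  rintro ⟨x, y, rfl⟩
  ext
  exact hP y

theorem blk_F1 (h1 : Stmt_CORE) (_ : Stmt_DSEP) (h3 : Stmt_UNC) : Stmt_F1 := by
  intro hall
  obtain ⟨K, _, _, _, P, hP, hsep, Y, hYX, hYc, hYi, hYr⟩ := h1
  obtain ⟨e⟩ := hall K (LinearMap.range P.toLinearMap) (closedComplemented_range P hP)
    ⟨Y, hYX, hYc, hYi, hYr⟩
  have hsep' : TopologicalSpace.SeparableSpace
      (StrongDual ℝ (LinearMap.range P.toLinearMap)) := hsep
  have h5 : TopologicalSpace.SeparableSpace (StrongDual ℝ C(Set.Icc (0 : ℝ) 1, ℝ)) :=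
    separable_dual_of_equiv (F := LinearMap.range P.toLinearMap)
      (G := C(Set.Icc (0 : ℝ) 1, ℝ)) e.symm
  refine h3 (Set.Icc (0 : ℝ) 1) ?_ h5
  rw [Set.countable_coe_iff]
  intro h
  have h6 := Cardinal.mk_Icc_real (zero_lt_one (α := ℝ))
  have h7 := (Cardinal.le_aleph0_iff_set_countable.2 h)
  rw [h6] at h7
  exact absurd h7 (not_le.2 Cardinal.aleph0_lt_continuum)

end Pool.CE
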