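import Mathlib
import Pool.Agent.Work.MP_052a41_ce.Interface

set_option autoImplicit false

namespace Pool.CE

open Filter Topology Set Prog

theorem blk_FAM (hBRK : Stmt_BRK) (hGEX : Stmt_GEX) (hGALG : Stmt_GALG) (hGPOS : Stmt_GPOS)
    (hGLIM : Stmt_GLIM) (hGTR : Stmt_GTR) (hBATR : Stmt_BATR) (hBFIN : Stmt_BFIN)
    (hBEV : Stmt_BEV) (hTAIL : Stmt_TAIL) : Stmt_FAM := by
  have hrank : ∀ z : VP, ∀ w ∈ stepsV z, rank w.1 < rank z.1 := fun z w hw =>
    hBRK z.1 w.1 (mem_stepsV.1 hw)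
  have hpos : ∀ p : ℕ, (0 : ℝ) < (1 / 2) ^ p := fun p => by positivity
  have hex : ∀ p : ℕ, ∃ G : (VP → ℝ) →L[ℝ] (VP → ℝ), IsG stepsV ((1 / 2 : ℝ) ^ p) G := fun p =>
    hGEX VP stepsV (fun z => rank z.1) hrank _ (hpos p).le
  choose G hG using hex
  refine ⟨{ tr := trV
            tr_tr := fun m n z => Subtype.ext (Prog.tr_tr m n z.1)
            tr_fin := ?_
            tr_ev := ?_
            x := G
            x_comm := ?_
            x_res := ?_
            x_tr := ?_
            x_le := ?_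
            x_lim := ?_
            tail := ?_ }, fun n z => rfl, ?_⟩
  · intro n
    have hf := (hBFIN n).preimage (f := (Subtype.val : VP → Prog)) Subtype.val_injective.injOn
    refine hf.subset ?_
    rintro _ ⟨z, rfl⟩
    exact ⟨valid_tr n z.1 z.2, fun k hk => (ev_tr n z.1 k hk).2⟩
  · intro z
    obtain ⟨n, hn⟩ := hBEV.1 z.1
    exact ⟨n, Subtype.ext (hBEV.2 z.1 n hn)⟩
  · intro p q
    exact (hGALG VP stepsV (fun z => rank z.1) hrank _ _ (hpos p) (hpos q) _ _ (hG p) (hG q)).1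
  · intro p r
    have h := (hGALG VP stepsV (fun z => rank z.1) hrank _ _ (hpos p) (hpos (p + r)) _ _ (hG p)
      (hG (p + r))).2
    have he : (1 / 2 : ℝ) ^ (p + r) / (1 / 2) ^ p = (1 / 2) ^ r := by
      rw [pow_add]
      field_simp
    rw [he] at h
    exact h
  · intro p n φ
    refine hGTR VP stepsV (fun z => rank z.1) hrank _ (hpos p).le _ (hG p) (trV n) ?_ φ
    intro ψ z
    obtain ⟨ψ', rfl⟩ := exists_ext ψ
    have h1 := Aop_val (fun w => ψ' (Prog.tr n w)) z
    have h2 := hBATR ψ' n z.1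
    have h3 := Aop_val ψ' (trV n z)
    exact h1.trans (h2.trans h3.symm)
  · intro p φ M h z
    exact hGPOS VP stepsV (fun z => rank z.1) hrank _ (hpos p).le _ (hG p) univ
      (fun _ _ _ _ => mem_univ _) φ M (fun z _ => h z) z (mem_univ z)
  · intro φ z
    exact hGLIM VP stepsV (fun z => rank z.1) hrank (fun p => (1 / 2 : ℝ) ^ p) G
      (fun p => (hpos p).le) hG
      (tendsto_pow_atTop_nhds_zero_of_lt_one (by norm_num) (by norm_num)) φ z
  · intro p y hy ε hε
    exact hTAIL _ (hpos p) _ (hG p) y hy ε hε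
  · have h := hG 0
    rw [pow_zero] at h
    exact h

end Pool.CE
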