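import Mathlib
import Pool.Agent.Work.MP_052a41_ce.Interface

set_option autoImplicit false

/-! # Block GCMP (helper87): the comparison principle -/

namespace Pool.CE

open Filter Topology Set

theorem sum_map_sub_const {S : Type} (l : List S) (a : ℝ) (φ : S → ℝ) :
    (l.map (fun w => a - φ w)).sum = (l.length : ℝ) * a - (l.map φ).sum := by
  induction l with
  | nil => simp
  | cons x l ih =>
    simp only [List.map_cons, List.sum_cons, ih, List.length_cons]
    push_cast
    ring

/-- the formula for the generator -/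
theorem Aop_eq {S : Type} (steps : S → List S) (φ : S → ℝ) (z : S) :
    Aop steps φ z = (1 / 2) * (((steps z).length : ℝ) * φ z - ((steps z).map φ).sum) := by
  unfold Aop
  rw [sum_map_sub_const]

theorem sum_map_le_sum_map' {S : Type} (l : List S) (f g : S → ℝ) (h : ∀ w ∈ l, f w ≤ g w) :
    (l.map f).sum ≤ (l.map g).sum := by
  induction l with
  | nil => simp
  | cons x l ih =>
    simp only [List.map_cons, List.sum_cons]
    exact add_le_add (h x (by simp)) (ih fun w hw => h w (by simp [hw]))

theorem gcmp_aux {S : Type} (steps : S → List S) (rank : S → ℕ)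
    (hr : ∀ z, ∀ w ∈ steps z, rank w < rank z) (V : ℝ) (hV : 0 ≤ V) (T : Set S)
    (hT : ∀ z ∈ T, ∀ w ∈ steps z, w ∈ T) (u v : S → ℝ)
    (h : ∀ z ∈ T, u z + V * Aop steps u z ≤ v z + V * Aop steps v z) :
    ∀ z ∈ T, u z ≤ v z := by
  have key : ∀ n : ℕ, ∀ z ∈ T, rank z = n → u z ≤ v z := by
    intro n
    induction n using Nat.strong_induction_on with
    | _ n ih =>
      intro z hz hn
      have hs : ((steps z).map u).sum ≤ ((steps z).map v).sum :=
        sum_map_le_sum_map' _ _ _ fun w hw => ih (rank w) (hn ▸ hr z w hw) w (hT z hz w hw) rfl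
      have h1 := h z hz
      rw [Aop_eq, Aop_eq] at h1
      have hL : (0 : ℝ) ≤ ((steps z).length : ℝ) := Nat.cast_nonneg _
      have hVL : 0 ≤ V * ((steps z).length : ℝ) := mul_nonneg hV hL
      have hVs : V * ((steps z).map u).sum ≤ V * ((steps z).map v).sum :=
        mul_le_mul_of_nonneg_left hs hV
      by_contra hc
      push Not at hc
      have h2 : V * ((steps z).length : ℝ) * v z ≤ V * ((steps z).length : ℝ) * u z :=
        mul_le_mul_of_nonneg_left hc.le hVL
      nlinarith [h1, h2, hVs, hc]
  exact fun z hz => key (rank z) z hz rfl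

theorem blk_GCMP : Stmt_GCMP := by
  intro S steps rank hr V hV G hG T hT φ ψ
  refine ⟨fun h => ?_, fun h => ?_⟩
  · refine gcmp_aux steps rank hr V hV T hT ψ (G φ) fun z hz => ?_
    rw [hG φ z]
    exact h z hz
  · refine gcmp_aux steps rank hr V hV T hT (G φ) ψ fun z hz => ?_
    rw [hG φ z]
    exact h z hz

end Pool.CE
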