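import Mathlib
import Pool.Agent.Work.MP_052a41_ce.B_GCMP

set_option autoImplicit false

/-! # Block GALG (helper87): commutation and the resolvent identity -/

namespace Pool.CE

open Filter Topology Set

theorem Aop_add' {S : Type} (steps : S → List S) (φ ψ : S → ℝ) (c : ℝ) (z : S) :
    Aop steps (fun w => φ w + c * ψ w) z = Aop steps φ z + c * Aop steps ψ z := by
  unfold Aop
  have : ∀ l : List S, (l.map (fun w => (φ z + c * ψ z) - (φ w + c * ψ w))).sum =
      (l.map (fun w => φ z - φ w)).sum + c * (l.map (fun w => ψ z - ψ w)).sum := by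
    intro l
    induction l with
    | nil => simp
    | cons x l ih => simp only [List.map_cons, List.sum_cons, ih]; ring
  rw [this]
  ring

/-- uniqueness of the resolvent equation -/
theorem IsG.unique {S : Type} {steps : S → List S} {rank : S → ℕ}
    (hr : ∀ z, ∀ w ∈ steps z, rank w < rank z) {V : ℝ} (hV : 0 ≤ V)
    {G : (S → ℝ) →L[ℝ] (S → ℝ)} (hG : IsG steps V G) {φ ψ : S → ℝ}
    (h : ∀ z, ψ z + V * Aop steps ψ z = φ z) : ψ = G φ := by
  funext z
  have h0 : ∀ z ∈ (univ : Set S), ∀ w ∈ steps z, w ∈ (univ : Set S) := fun _ _ _ _ => mem_univ _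
  refine le_antisymm ?_ ?_
  · exact gcmp_aux steps rank hr V hV univ h0 ψ (G φ) (fun z _ => by rw [hG φ z, h z]) z
      (mem_univ _)
  · exact gcmp_aux steps rank hr V hV univ h0 (G φ) ψ (fun z _ => by rw [hG φ z, h z]) z
      (mem_univ _)

/-- the resolvent commutes with the generator -/
theorem IsG.comm_A {S : Type} {steps : S → List S} {rank : S → ℕ}
    (hr : ∀ z, ∀ w ∈ steps z, rank w < rank z) {V : ℝ} (hV : 0 ≤ V)
    {G : (S → ℝ) →L[ℝ] (S → ℝ)} (hG : IsG steps V G) (φ : S → ℝ) :
    Aop steps (G φ) = G (Aop steps φ) := by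
  refine hG.unique hr hV fun z => ?_
  rw [← Aop_add']
  congr 1
  funext w
  exact hG φ w

theorem blk_GALG (_h : Stmt_GCMP) : Stmt_GALG := by
  intro S steps rank hr V W hV hW G H hG hH
  have hcomm : ∀ φ, H (G φ) = G (H φ) := by
    intro φ
    refine hG.unique hr hV.le fun z => ?_
    have e1 : Aop steps (H (G φ)) = H (Aop steps (G φ)) := hH.comm_A hr hW.le _
    have e2 : (fun w => G φ w + V * Aop steps (G φ) w) = φ := by
      funext w; exact hG φ w
    have e3 : H (G φ) z + V * H (Aop steps (G φ)) z = H (G φ + V • Aop steps (G φ)) z := by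
      rw [map_add, map_smul]; rfl
    have e4 : G φ + V • Aop steps (G φ) = φ := e2
    rw [e1, e3, e4]
  refine ⟨?_, ?_⟩
  · ext φ z
    exact (congrFun (hcomm φ) z).symm
  · ext φ z
    have e0 : φ - H φ = W • Aop steps (H φ) := by
      funext w
      have := hH φ w
      simp only [Pi.sub_apply, Pi.smul_apply, smul_eq_mul]
      linarith
    show G (φ - H φ) z = (W / V) • (H φ z - G (H φ) z)
    rw [e0, map_smul, ← hG.comm_A hr hV.le]
    have := hG (H φ) z
    simp only [Pi.smul_apply, smul_eq_mul]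
    field_simp
    nlinarith [this]

end Pool.CE
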