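import Mathlib
import Pool.Agent.Work.MP_052a41_ce.B_GCMP

set_option autoImplicit false

/-! # Block GEX (helper87): existence of the resolvent -/

namespace Pool.CE

open Filter Topology Set

/-- the functionals `φ ↦ G φ z` by recursion on the rank -/
noncomputable def gfun {S : Type} (steps : S → List S) (rank : S → ℕ)
    (hr : ∀ z, ∀ w ∈ steps z, rank w < rank z) (V : ℝ) (z : S) : (S → ℝ) →L[ℝ] ℝ :=
  (1 + V / 2 * ((steps z).length : ℝ))⁻¹ • (ContinuousLinearMap.proj (R := ℝ) z +
    (V / 2) • ((steps z).attach.map fun w => gfun steps rank hr V w.1).sum)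
termination_by rank z
decreasing_by exact hr z w.1 w.2

theorem gfun_eq {S : Type} (steps : S → List S) (rank : S → ℕ)
    (hr : ∀ z, ∀ w ∈ steps z, rank w < rank z) (V : ℝ) (z : S) (φ : S → ℝ) :
    gfun steps rank hr V z φ = (1 + V / 2 * ((steps z).length : ℝ))⁻¹ *
      (φ z + V / 2 * ((steps z).map fun w => gfun steps rank hr V w φ).sum) := by
  have hsum : ∀ l : List ((S → ℝ) →L[ℝ] ℝ), l.sum φ = (l.map fun g => g φ).sum := by
    intro l
    induction l with
    | nil => simp
    | cons x l ih => simp [ih]
  rw [gfun]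
  simp only [ContinuousLinearMap.smul_apply, ContinuousLinearMap.add_apply,
    ContinuousLinearMap.proj_apply, smul_eq_mul]
  rw [hsum, List.map_map]
  have : ((steps z).attach.map ((fun g : (S → ℝ) →L[ℝ] ℝ => g φ) ∘
      fun w => gfun steps rank hr V w.1)) = (steps z).map fun w => gfun steps rank hr V w φ := by
    conv_rhs => rw [← List.attach_map_subtype_val (steps z), List.map_map]
    rfl
  rw [this]

theorem blk_GEX : Stmt_GEX := by
  intro S steps rank hr V hV
  refine ⟨ContinuousLinearMap.pi fun z => gfun steps rank hr V z, fun φ z => ?_⟩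
  rw [Aop_eq]
  have hL : (0 : ℝ) ≤ ((steps z).length : ℝ) := Nat.cast_nonneg _
  have hpos : 0 < 1 + V / 2 * ((steps z).length : ℝ) := by positivity
  have h1 := gfun_eq steps rank hr V z φ
  have h2 : (1 + V / 2 * ((steps z).length : ℝ)) * gfun steps rank hr V z φ =
      φ z + V / 2 * ((steps z).map fun w => gfun steps rank hr V w φ).sum := by
    rw [h1, mul_inv_cancel_left₀ hpos.ne']
  have e1 : (ContinuousLinearMap.pi fun z => gfun steps rank hr V z) φ =
      fun w => gfun steps rank hr V w φ := rfl
  rw [e1]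
  linarith

end Pool.CE
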