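import Pool.Agent.Work.MP_052a41_ce.Interface

set_option autoImplicit false

/-! # Block GLIM: `G_V φ z → φ z` as `V → 0` -/

namespace Pool.CE

open Filter Topology Set

private theorem glim_sum {S : Type} (φ ψ : S → ℝ) (z : S) (l : List S) :
    (l.map (fun w => φ z - ψ w)).sum = l.length * φ z - (l.map ψ).sum := by
  induction l with
  | nil => simp
  | cons a l ih =>
    simp only [List.map_cons, List.sum_cons, ih, List.length_cons]
    push_cast
    ring

private theorem glim_tendsto {S : Type} (g : ℕ → S → ℝ) (φ : S → ℝ) (l : List S)
    (h : ∀ w ∈ l, Tendsto (fun p => g p w) atTop (𝓝 (φ w))) :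
    Tendsto (fun p => (l.map (g p)).sum) atTop (𝓝 ((l.map φ).sum)) := by
  induction l with
  | nil => simp
  | cons a l ih =>
    simp only [List.map_cons, List.sum_cons]
    exact (h a (by simp)).add (ih fun w hw => h w (by simp [hw]))

theorem blk_GLIM : Stmt_GLIM := by
  intro S steps rank hr V G hV hG hlim φ
  have key : ∀ n, ∀ z, rank z < n → Tendsto (fun p => G p φ z) atTop (𝓝 (φ z)) := by
    intro n
    induction n with
    | zero => intro z hz; omega
    | succ n ih =>
      intro z hz
      have h1 : ∀ w ∈ steps z, Tendsto (fun p => G p φ w) atTop (𝓝 (φ w)) := fun w hw =>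
        ih w (by have := hr z w hw; omega)
      have h2 := glim_tendsto (fun p => G p φ) φ (steps z) h1
      have h3 : ∀ p, G p φ z = (φ z + V p / 2 * ((steps z).map (G p φ)).sum) /
          (1 + V p / 2 * (steps z).length) := by
        intro p
        have e := hG p φ z
        have hpos : (0 : ℝ) < 1 + V p / 2 * (steps z).length := by
          have := hV p
          positivity
        rw [eq_div_iff hpos.ne']
        unfold Aop at e
        rw [glim_sum (G p φ) (G p φ) z (steps z)] at e
        linarith
      simp only [h3]
      have h4 : Tendsto (fun p => φ z + V p / 2 * ((steps z).map (G p φ)).sum) atTop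
          (𝓝 (φ z + 0 / 2 * ((steps z).map φ).sum)) :=
        tendsto_const_nhds.add ((hlim.div_const 2).mul h2)
      have h5 : Tendsto (fun p => 1 + V p / 2 * ((steps z).length : ℝ)) atTop
          (𝓝 (1 + 0 / 2 * ((steps z).length : ℝ))) :=
        tendsto_const_nhds.add ((hlim.div_const 2).mul tendsto_const_nhds)
      have h6 := h4.div h5 (by simp)
      have e6 : (φ z + 0 / 2 * ((steps z).map φ).sum) / (1 + 0 / 2 * ((steps z).length : ℝ)) =
          φ z := by simp
      rw [e6] at h6
      exact h6
  intro z
  exact key (rank z + 1) z (Nat.lt_succ_self _)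

end Pool.CE
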