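import Mathlib
import Pool.Agent.Work.MP_052a41_ce.Interface

set_option autoImplicit false

/-! # Block GPOS (helper63): local contraction -/

namespace Pool.CE

open Filter Topology Set

theorem Aop_const {S : Type} (steps : S → List S) (a : ℝ) (z : S) :
    Aop steps (fun _ => a) z = 0 := by
  unfold Aop
  simp

theorem blk_GPOS (h1 : Stmt_GCMP) : Stmt_GPOS := by
  intro S steps rank hr V hV G hG T hT φ M hM z hz
  have hu := (h1 S steps rank hr V hV G hG T hT φ (fun _ => M)).2 (fun w hw => by
    rw [Aop_const, mul_zero, add_zero]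
    exact (abs_le.mp (hM w hw)).2) z hz
  have hl := (h1 S steps rank hr V hV G hG T hT φ (fun _ => -M)).1 (fun w hw => by
    rw [Aop_const, mul_zero, add_zero]
    exact (abs_le.mp (hM w hw)).1) z hz
  exact abs_le.mpr ⟨hl, hu⟩

end Pool.CE
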