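import Pool.Agent.Work.MP_052a41_ce.Interface

set_option autoImplicit false

namespace Pool.CE

/-- (GTR) maps commuting with the generator commute with the resolvent -/
theorem blk_GTR (h : Stmt_GCMP) : Stmt_GTR := by
  intro S steps rank hrank V hV G hG t ht φ
  have key : ∀ z : S, G φ (t z) + V * Aop steps (fun w => G φ (t w)) z = φ (t z) := by
    intro z
    rw [ht (G φ) z]
    exact hG φ (t z)
  obtain ⟨h1, h2⟩ := h S steps rank hrank V hV G hG Set.univ
    (fun _ _ _ _ => Set.mem_univ _) (fun w => φ (t w)) (fun w => G φ (t w))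
  funext z
  apply le_antisymm
  · exact h2 (fun z _ => (key z).symm.le) z (Set.mem_univ z)
  · exact h1 (fun z _ => (key z).le) z (Set.mem_univ z)

end Pool.CE
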