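import Mathlib
import Pool.Agent.Work.MP_052a41_ce.Interface

set_option autoImplicit false

/-! # Block K1 (helper69): the inverse limit of a tower is compact, metrizable, totally disconnected -/

namespace Pool.CE

open Filter Topology Set

section KKbasic

variable {S : Type} (T : Tow S)

theorem KK.mem_range (y : KK T) (n : ℕ) : y.1 n ∈ Set.range (T.tr n) :=
  ⟨y.1 n, y.2 n n le_rfl⟩

theorem Tow.countable_of (T : Tow S) : Countable S := by
  have h : (Set.univ : Set S) = ⋃ n, Set.range (T.tr n) := by
    ext z
    simp only [Set.mem_univ, Set.mem_iUnion, true_iff]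
    obtain ⟨n, hn⟩ := T.tr_ev z
    exact ⟨n, z, hn⟩
  have h2 : (Set.univ : Set S).Countable := by
    rw [h]
    exact Set.countable_iUnion fun n => (T.tr_fin n).countable
  exact Set.countable_univ_iff.mp h2

theorem KK.compact : CompactSpace (KK T) := by
  let _ : TopologicalSpace S := ⊥
  have : DiscreteTopology S := ⟨rfl⟩
  have hc : IsClosed {y : ℕ → S | Coh T y} := by
    have : {y : ℕ → S | Coh T y} = ⋂ n, ⋂ m, ⋂ (_ : n ≤ m), {y : ℕ → S | T.tr n (y m) = y n} := by
      ext y
      simp only [Set.mem_ofPred_eq, Set.mem_iInter]
      exact Iff.rfl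
    rw [this]
    refine isClosed_iInter fun n => isClosed_iInter fun m => isClosed_iInter fun _ => ?_
    exact isClosed_eq (continuous_of_discreteTopology.comp (continuous_apply m))
      (continuous_apply n)
  have hk : IsCompact (Set.pi Set.univ fun n => Set.range (T.tr n)) :=
    isCompact_univ_pi fun n => (T.tr_fin n).isCompact
  have hK : IsCompact {y : ℕ → S | Coh T y} := by
    refine hk.of_isClosed_subset hc ?_
    intro y hy n _
    exact ⟨y n, hy n n le_rfl⟩
  exact isCompact_iff_compactSpace.mp hK

theorem KK.t2 : T2Space (KK T) := by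
  let _ : TopologicalSpace S := ⊥
  have : DiscreteTopology S := ⟨rfl⟩
  exact (inferInstance : T2Space {y : ℕ → S // Coh T y})

theorem KK.second : SecondCountableTopology (KK T) := by
  let _ : TopologicalSpace S := ⊥
  have : DiscreteTopology S := ⟨rfl⟩
  have : Countable S := T.countable_of
  have h : Topology.IsInducing (fun y : {y : ℕ → S // Coh T y} => y.1) := Topology.IsInducing.subtypeVal
  exact h.secondCountableTopology

theorem KK.metrizable : TopologicalSpace.MetrizableSpace (KK T) := by
  have := KK.compact T
  have := KK.t2 T
  have := KK.second T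
  exact TopologicalSpace.metrizableSpace_of_t3_secondCountable (KK T)

theorem KK.totDisc : TotallyDisconnectedSpace (KK T) := by
  let _ : TopologicalSpace S := ⊥
  have : DiscreteTopology S := ⟨rfl⟩
  exact (inferInstance : TotallyDisconnectedSpace {y : ℕ → S // Coh T y})

/-- locally constant functions of a coordinate are continuous -/
theorem KK.continuous_coord {X : Type*} [TopologicalSpace X] (n : ℕ) (g : S → X) :
    Continuous fun y : KK T => g (y.1 n) := by
  let _ : TopologicalSpace S := ⊥
  have : DiscreteTopology S := ⟨rfl⟩
  have h1 : Continuous fun y : {y : ℕ → S // Coh T y} => y.1 n :=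
    (continuous_apply n).comp continuous_subtype_val
  exact (continuous_of_discreteTopology (f := g)).comp h1

end KKbasic

theorem blk_K1 : Stmt_K1 := fun _ T => ⟨KK.compact T, KK.metrizable T, KK.totDisc T⟩

end Pool.CE
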