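import Mathlib
import Pool.Agent.Work.MP_052a41_ce.Interface

set_option autoImplicit false

/-! # Block K2 (helper47): `KK T` is compact, restriction of continuous functions, convergence -/

namespace Pool.CE

open Filter Topology Set

theorem KK.isInducing {S : Type} (T : Tow S) :
    @Topology.IsInducing (KK T) (ℕ → S) _ (@Pi.topologicalSpace ℕ (fun _ => S) (fun _ => ⊥))
      (fun y : KK T => y.1) := by
  let _ : TopologicalSpace S := ⊥
  exact ⟨rfl⟩

/-- `KK T` is compact -/
theorem KK.compact {S : Type} (T : Tow S) : CompactSpace (KK T) := by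
  let _ : TopologicalSpace S := ⊥
  have : DiscreteTopology S := ⟨rfl⟩
  have hind : Topology.IsInducing (fun y : KK T => (y.1 : ℕ → S)) := ⟨rfl⟩
  have hcl : IsClosed {y : ℕ → S | Coh T y} := by
    have : {y : ℕ → S | Coh T y} = ⋂ n : ℕ, ⋂ m : ℕ, ⋂ _ : n ≤ m, {y | T.tr n (y m) = y n} := by
      ext y; simp only [Coh, mem_ofPred_eq, mem_iInter]
    rw [this]
    refine isClosed_iInter fun n => isClosed_iInter fun m => isClosed_iInter fun _ => ?_
    exact isClosed_eq (continuous_of_discreteTopology.comp (continuous_apply m)) (continuous_apply n)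
  have hcpt : IsCompact (Set.pi univ (fun n : ℕ => Set.range (T.tr n))) :=
    isCompact_univ_pi fun n => (T.tr_fin n).isCompact
  have himg : (fun y : KK T => (y.1 : ℕ → S)) '' univ = {y : ℕ → S | Coh T y} := by
    ext y
    constructor
    · rintro ⟨y', _, rfl⟩; exact y'.2
    · intro h; exact ⟨⟨y, h⟩, trivial, rfl⟩
  refine ⟨hind.isCompact_iff.2 ?_⟩
  rw [himg]
  exact hcpt.of_isClosed_subset hcl fun y hy n _ => ⟨y n, hy n n le_rfl⟩

/-- a basis of neighbourhoods -/
theorem KK.nhds_basis {S : Type} (T : Tow S) (y : KK T) (U : Set (KK T)) (hU : IsOpen U)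
    (hy : y ∈ U) : ∃ n, ∀ y' : KK T, y'.1 n = y.1 n → y' ∈ U := by
  let _ : TopologicalSpace S := ⊥
  have : DiscreteTopology S := ⟨rfl⟩
  have hind : Topology.IsInducing (fun y : KK T => (y.1 : ℕ → S)) := ⟨rfl⟩
  obtain ⟨W, hW, rfl⟩ := hind.isOpen_iff.1 hU
  obtain ⟨I, u, hu, hsub⟩ := isOpen_pi_iff.1 hW y.1 hy
  refine ⟨I.sup id, fun y' hy' => hsub fun i hi => ?_⟩
  have hle : i ≤ I.sup id := Finset.le_sup (f := id) hi
  have : y'.1 i = y.1 i := by
    rw [← y'.2 i _ hle, ← y.2 i _ hle, hy']
  show y'.1 i ∈ u i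
  rw [this]
  exact (hu i hi).2

theorem blk_K2 : Stmt_K2 := by
  intro S T
  constructor
  · intro F
    have := KK.compact T
    constructor
    · obtain ⟨M, hM⟩ := (isCompact_range F.continuous).isBounded.exists_norm_le
      exact ⟨M, fun s => hM _ ⟨_, rfl⟩⟩
    · intro ε hε
      have key : ∀ y : KK T, ∃ n, ∀ y' : KK T, y'.1 n = y.1 n → |F y' - F y| < ε / 2 := by
        intro y
        have hopen : IsOpen {y' : KK T | |F y' - F y| < ε / 2} :=
          isOpen_lt (by fun_prop) continuous_const
        have hmem : |F y - F y| < ε / 2 := by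
          rw [sub_self, abs_zero]; positivity
        exact KK.nhds_basis T y _ hopen hmem
      choose N hN using key
      have hop : ∀ y : KK T, IsOpen {y' : KK T | y'.1 (N y) = y.1 (N y)} := by
        intro y
        let _ : TopologicalSpace S := ⊥
        have : DiscreteTopology S := ⟨rfl⟩
        have hind : Topology.IsInducing (fun y : KK T => (y.1 : ℕ → S)) := ⟨rfl⟩
        have hc : Continuous (fun y' : KK T => y'.1 (N y)) :=
          (continuous_apply (N y)).comp hind.continuous
        exact (isOpen_discrete {y.1 (N y)}).preimage hc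
      obtain ⟨t, ht⟩ := isCompact_univ.elim_finite_subcover _ hop
        (fun y _ => mem_iUnion.2 ⟨y, rfl⟩)
      refine ⟨t.sup N, fun n hn z => ?_⟩
      obtain ⟨y, hy⟩ := mem_iUnion.1 (ht (mem_univ (KK.pt T z)))
      obtain ⟨hyt, hy⟩ := mem_iUnion.1 hy
      have hle : N y ≤ n := (Finset.le_sup (f := N) hyt).trans hn
      have h1 : |F (KK.pt T z) - F y| < ε / 2 := hN y _ hy
      have h2 : |F (KK.pt T (T.tr n z)) - F y| < ε / 2 := by
        refine hN y _ ?_
        show T.tr (N y) (T.tr n z) = y.1 (N y)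
        rw [T.tr_tr, min_eq_left hle]
        exact hy
      have : F (KK.pt T z) - F (KK.pt T (T.tr n z)) =
          (F (KK.pt T z) - F y) - (F (KK.pt T (T.tr n z)) - F y) := by ring
      show |F (KK.pt T z) - F (KK.pt T (T.tr n z))| ≤ ε
      rw [this]
      exact (abs_sub _ _).trans (by linarith)
  · intro y
    let _ : TopologicalSpace S := ⊥
    have : DiscreteTopology S := ⟨rfl⟩
    have hind : Topology.IsInducing (fun y : KK T => (y.1 : ℕ → S)) := ⟨rfl⟩
    rw [hind.tendsto_nhds_iff, tendsto_pi_nhds]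
    intro i
    refine tendsto_const_nhds.congr' ?_
    filter_upwards [eventually_ge_atTop i] with n hn
    exact (y.2 i n hn).symm

end Pool.CE
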