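import Mathlib
import Pool.Agent.Work.MP_052a41_ce.Interface
import Pool.Agent.Work.MP_052a41_ce.B_K1

set_option autoImplicit false

/-! # Block K3 (helper69): extension of functions in `IsE` and the retractions -/

namespace Pool.CE

open Filter Topology Set

section

variable {S : Type} (T : Tow S)

theorem KK.coh_apply (y : KK T) {n m : ℕ} (h : n ≤ m) : T.tr n (y.1 m) = y.1 n := y.2 n m h

/-- the retraction `y ↦ pt (y n)` is continuous -/
theorem KK.continuous_retr (n : ℕ) : Continuous fun y : KK T => KK.pt T (y.1 n) :=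
  KK.continuous_coord T n (KK.pt T)

theorem KK.retr_range_finite (n : ℕ) : (Set.range fun y : KK T => KK.pt T (y.1 n)).Finite := by
  refine ((T.tr_fin n).image (KK.pt T)).subset ?_
  rintro _ ⟨y, rfl⟩
  exact ⟨y.1 n, KK.mem_range T y n, rfl⟩

/-- extension of functions in `IsE` -/
theorem KK.exists_ext {φ : S → ℝ} (hφ : IsE T φ) :
    ∃ F : C(KK T, ℝ), ∀ s, F (KK.pt T s) = φ s := by
  obtain ⟨-, hφ⟩ := hφ
  -- the key estimate
  have key : ∀ ε > 0, ∃ n₀, ∀ n ≥ n₀, ∀ m ≥ n, ∀ y : KK T, |φ (y.1 m) - φ (y.1 n)| ≤ ε := by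
    intro ε hε
    obtain ⟨n₀, h⟩ := hφ ε hε
    refine ⟨n₀, fun n hn m hm y => ?_⟩
    have := h n hn (y.1 m)
    rwa [KK.coh_apply T y hm] at this
  have hcau : ∀ y : KK T, CauchySeq fun n => φ (y.1 n) := by
    intro y
    rw [Metric.cauchySeq_iff']
    intro ε hε
    obtain ⟨n₀, h⟩ := key (ε / 2) (by positivity)
    refine ⟨n₀, fun n hn => ?_⟩
    rw [Real.dist_eq]
    exact lt_of_le_of_lt (h n₀ le_rfl n hn y) (by linarith)
  choose F hF using fun y => cauchySeq_tendsto_of_complete (hcau y)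
  have hunif : TendstoUniformly (fun n (y : KK T) => φ (y.1 n)) F atTop := by
    rw [Metric.tendstoUniformly_iff]
    intro ε hε
    obtain ⟨n₀, h⟩ := key (ε / 2) (by positivity)
    filter_upwards [eventually_ge_atTop n₀] with n hn y
    rw [Real.dist_eq]
    have h1 : Tendsto (fun m => |φ (y.1 m) - φ (y.1 n)|) atTop (𝓝 |F y - φ (y.1 n)|) :=
      ((hF y).sub_const _).abs
    have h2 : |F y - φ (y.1 n)| ≤ ε / 2 :=
      le_of_tendsto h1 (eventually_atTop.mpr ⟨n, fun m hm => h n hn m hm y⟩)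
    linarith
  have hcont : Continuous F :=
    hunif.continuous (Frequently.of_forall fun n => KK.continuous_coord T n φ)
  refine ⟨⟨F, hcont⟩, fun s => ?_⟩
  obtain ⟨n₀, hn₀⟩ := T.tr_ev' s
  have h1 : Tendsto (fun n => φ ((KK.pt T s).1 n)) atTop (𝓝 (φ s)) := by
    refine tendsto_const_nhds.congr' ?_
    filter_upwards [eventually_ge_atTop n₀] with n hn
    show φ s = φ (T.tr n s)
    rw [hn₀ n hn]
  exact tendsto_nhds_unique (hF (KK.pt T s)) h1

end

theorem blk_K3 : Stmt_K3 := fun _ T =>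
  ⟨fun _ hφ => KK.exists_ext T hφ,
    fun n => ⟨⟨_, KK.continuous_retr T n⟩, fun _ => rfl, KK.retr_range_finite T n⟩⟩

end Pool.CE
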