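import Mathlib
import Pool.Agent.Work.MP_052a41_ce.Interface

set_option autoImplicit false

namespace Pool.CE

theorem blk_MA (hK1 : Stmt_K1) (h1 : Stmt_MA1) (h2 : Stmt_MA2) (h3 : Stmt_MA3) : Stmt_MA := by
  intro S F
  obtain ⟨hc, hm, ht⟩ := hK1 _ F.toTow.big
  haveI := hc
  haveI := hm
  haveI := ht
  haveI : T2Space (KK F.toTow.big) := inferInstance
  obtain ⟨P, hPP, hP⟩ := h1 S F
  obtain ⟨j, hj1, hj2, hj3⟩ := h2 S F P hP
  have hsep := h3 S F P hPP hP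
  exact ⟨KK F.toTow.big, TopologicalSpace.metrizableSpaceMetric _, hc, ht, P, j, hPP, hsep,
    hj1, hj2, hj3⟩

end Pool.CE
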