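import Mathlib
import Pool.Agent.Work.MP_052a41_ce.Interface

/-! (MA1) the projection on `C(KK)` (helper75) -/

namespace Pool.CE

open Filter Topology Set

section MA1aux

variable {S : Type} {T : Tow S}

theorem KK.ext_pt_h75 (hT : ∀ y : KK T, Tendsto (fun n => KK.pt T (y.1 n)) atTop (𝓝 y))
    {F G : C(KK T, ℝ)} (h : ∀ s, F (KK.pt T s) = G (KK.pt T s)) : F = G := by
  ext y
  have h1 : Tendsto (fun n => F (KK.pt T (y.1 n))) atTop (𝓝 (F y)) :=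
    (F.continuous.tendsto y).comp (hT y)
  have h2 : Tendsto (fun n => G (KK.pt T (y.1 n))) atTop (𝓝 (G y)) :=
    (G.continuous.tendsto y).comp (hT y)
  refine tendsto_nhds_unique h1 ?_
  exact h2.congr fun n => (h _).symm

theorem KK.norm_le_of_pt_h75 [CompactSpace (KK T)]
    (hT : ∀ y : KK T, Tendsto (fun n => KK.pt T (y.1 n)) atTop (𝓝 y))
    (F : C(KK T, ℝ)) (M : ℝ) (hM : 0 ≤ M) (h : ∀ s, |F (KK.pt T s)| ≤ M) : ‖F‖ ≤ M := by
  rw [ContinuousMap.norm_le _ hM]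
  intro y
  have h1 : Tendsto (fun n => F (KK.pt T (y.1 n))) atTop (𝓝 (F y)) :=
    (F.continuous.tendsto y).comp (hT y)
  exact le_of_tendsto h1.norm (Eventually.of_forall fun n => h _)

end MA1aux

theorem blk_MA1 (h1 : Stmt_K2) (h2 : Stmt_K3) (h3 : Stmt_PE) (h4 : Stmt_PLIN) (h5 : Stmt_PP) :
    Stmt_MA1 := by
  intro S F hc
  set T := F.toTow.big with hT
  have hpt := (h1 _ T).2
  have hE := (h1 _ T).1
  have hex : ∀ Φ : C(KK T, ℝ), ∃ Ψ : C(KK T, ℝ), ∀ s, Ψ (KK.pt T s) =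
      F.Pf (fun s' => Φ (KK.pt T s')) s := fun Φ =>
    (h2 _ T).1 _ (h3 S F _ (hE Φ)).1
  choose P hP using hex
  have hadd : ∀ Φ Ψ, P (Φ + Ψ) = P Φ + P Ψ := by
    intro Φ Ψ
    refine KK.ext_pt_h75 hpt fun s => ?_
    rw [hP, ContinuousMap.add_apply, hP, hP]
    have := (h4 S F _ _ (hE Φ) (hE Ψ)).1
    exact congrFun this s
  have hsmul : ∀ (c : ℝ) Φ, P (c • Φ) = c • P Φ := by
    intro c Φ
    refine KK.ext_pt_h75 hpt fun s => ?_
    rw [hP, ContinuousMap.smul_apply, hP]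
    have := (h4 S F _ _ (hE Φ) (hE Φ)).2 c
    exact congrFun this s
  have hnorm : ∀ Φ, ‖P Φ‖ ≤ 1200 * ‖Φ‖ := by
    intro Φ
    refine KK.norm_le_of_pt_h75 hpt _ _ (by positivity) fun s => ?_
    rw [hP]
    exact (h3 S F _ (hE Φ)).2 _ (fun s' => Φ.norm_coe_le_norm _) s
  refine ⟨LinearMap.mkContinuous ⟨⟨P, hadd⟩, hsmul⟩ 1200 hnorm, fun Φ => ?_, fun Φ s => hP Φ s⟩
  change P (P Φ) = P Φ
  refine KK.ext_pt_h75 hpt fun s => ?_
  rw [hP, hP]
  have e : (fun s' => P Φ (KK.pt T s')) = F.Pf fun s' => Φ (KK.pt T s') := by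
    funext s'
    exact hP Φ s'
  rw [e]
  exact congrFun (h5 S F _ (hE Φ)) s

end Pool.CE
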