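import Mathlib
import Pool.Agent.Work.MP_052a41_ce.Interface

set_option autoImplicit false

namespace Pool.CE

open Filter Topology Set Prog

theorem ma2_ext (hK2 : Stmt_K2) {S : Type} (T : Tow S) (A B : C(KK T, ℝ))
    (h : ∀ s, A (KK.pt T s) = B (KK.pt T s)) : A = B := by
  ext y
  have h1 := (hK2 S T).2 y
  have hA : Tendsto (fun n => A (KK.pt T (y.1 n))) atTop (𝓝 (A y)) :=
    (A.continuous.tendsto y).comp h1
  have hB : Tendsto (fun n => B (KK.pt T (y.1 n))) atTop (𝓝 (B y)) :=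
    (B.continuous.tendsto y).comp h1
  have he : (fun n => A (KK.pt T (y.1 n))) = fun n => B (KK.pt T (y.1 n)) :=
    funext fun n => h (y.1 n)
  rw [he] at hA
  exact tendsto_nhds_unique hA hB

theorem jf_add {S : Type} (F : Fam S) (φ ψ : S → ℝ) :
    F.jf (φ + ψ) = F.jf φ + F.jf ψ := by
  funext s
  rcases s with _ | ⟨q, z⟩
  · show (0 : ℝ) = 0 + 0
    rw [add_zero]
  · show F.f q (φ + ψ) z = F.f q φ z + F.f q ψ z
    rw [map_add]
    rfl

theorem jf_smul {S : Type} (F : Fam S) (c : ℝ) (φ : S → ℝ) :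
    F.jf (c • φ) = c • F.jf φ := by
  funext s
  rcases s with _ | ⟨q, z⟩
  · show (0 : ℝ) = c * 0
    rw [mul_zero]
  · show F.f q (c • φ) z = c * F.f q φ z
    rw [map_smul]
    rfl

theorem blk_MA2 (hK2 : Stmt_K2) (hK3 : Stmt_K3) (hPJ : Stmt_PJ) : Stmt_MA2 := by
  intro S F _ P hP
  have hex : ∀ φ : Esub F.toTow, ∃ A : C(KK F.toTow.big, ℝ),
      ∀ s, A (KK.pt F.toTow.big s) = F.jf φ.1 s := fun φ =>
    (hK3 _ F.toTow.big).1 (F.jf φ.1) (hPJ S F φ.1 φ.2).1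
  choose J hJ using hex
  refine ⟨{ toFun := J, map_add' := ?_, map_smul' := ?_ }, ?_, ?_, ?_⟩
  · intro φ ψ
    refine ma2_ext hK2 _ _ _ fun s => ?_
    show J (φ + ψ) (KK.pt F.toTow.big s) = J φ (KK.pt F.toTow.big s) + J ψ (KK.pt F.toTow.big s)
    rw [hJ, hJ, hJ]
    exact congrFun (jf_add F φ.1 ψ.1) s
  · intro c φ
    refine ma2_ext hK2 _ _ _ fun s => ?_
    show J (c • φ) (KK.pt F.toTow.big s) = c * J φ (KK.pt F.toTow.big s)
    rw [hJ, hJ]
    exact congrFun (jf_smul F c φ.1) s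
  · intro φ
    show P (J φ) = J φ
    refine ma2_ext hK2 _ _ _ fun s => ?_
    rw [hP]
    have h1 : (fun s' => J φ (KK.pt F.toTow.big s')) = F.jf φ.1 := funext fun s' => hJ φ s'
    rw [h1, (hPJ S F φ.1 φ.2).2.1, hJ]
  · intro φ z
    show |F.x 0 φ.1 z| ≤ ‖J φ‖
    have h1 := (J φ).norm_coe_le_norm (KK.pt F.toTow.big (some (0, z)))
    rw [hJ, Real.norm_eq_abs] at h1
    exact h1
  · intro φ M hM h
    show ‖J φ‖ ≤ 2 * M
    rw [ContinuousMap.norm_le _ (by positivity)]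
    intro y
    have h1 := (hK2 _ F.toTow.big).2 y
    have hA : Tendsto (fun n => ‖J φ (KK.pt F.toTow.big (y.1 n))‖) atTop (𝓝 ‖J φ y‖) :=
      (((J φ).continuous.tendsto y).comp h1).norm
    refine le_of_tendsto' hA fun n => ?_
    rw [hJ, Real.norm_eq_abs]
    exact (hPJ S F φ.1 φ.2).2.2 M hM h (y.1 n)

end Pool.CE
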