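import Mathlib
import Pool.Agent.Work.MP_052a41_ce.Interface

set_option autoImplicit false

/-! # Block MA3: separability of the dual of the range -/

namespace Pool.CE

open Filter Topology Set

theorem blk_MA3 (hK2 : Stmt_K2) (hK3 : Stmt_K3) (hSEP : Stmt_SEP) (hPT : Stmt_PT) :
    Stmt_MA3 := by
  intro S F _ _ P hP hPf
  obtain ⟨hE, hpt⟩ := hK2 _ F.toTow.big
  obtain ⟨-, hr⟩ := hK3 _ F.toTow.big
  choose r hr1 hr2 using hr
  refine hSEP (KK F.toTow.big) (LinearMap.range P.toLinearMap) r hr2 ?_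
  intro y ε hε
  obtain ⟨n₀, hn₀⟩ := hPT S F y.1 y.2 ε hε
  refine ⟨n₀, fun n hn G hG => ?_⟩
  have hPG : P G = G := by
    obtain ⟨Φ, hΦ⟩ := hG
    rw [← hΦ]
    exact hP Φ
  rcases eq_or_ne G 0 with h0 | h0
  · subst h0; simp
  have hR : 0 < ‖G‖ := norm_pos_iff.2 h0
  -- the estimate for large `m`
  have key : ∀ m ≥ n, |G (KK.pt F.toTow.big (y.1 m)) - G (KK.pt F.toTow.big (y.1 n))| ≤
      ε * ‖G‖ := by
    intro m hm
    have h1 := hn₀ n hn m hm (fun s => ((‖G‖)⁻¹ • G) (KK.pt F.toTow.big s)) (hE _) (by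
      intro s
      rw [ContinuousMap.smul_apply, smul_eq_mul, abs_mul, abs_inv, abs_norm]
      rw [inv_mul_le_iff₀ hR, mul_one]
      exact G.norm_coe_le_norm _)
    have h2 : ∀ s, F.Pf (fun s' => ((‖G‖)⁻¹ • G) (KK.pt F.toTow.big s')) s =
        (‖G‖)⁻¹ * G (KK.pt F.toTow.big s) := by
      intro s
      rw [← hPf, map_smul, hPG, ContinuousMap.smul_apply, smul_eq_mul]
    rw [h2, h2, ← mul_sub, abs_mul, abs_inv, abs_norm, inv_mul_le_iff₀ hR] at h1
    linarith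
  have hlim : Tendsto (fun m => |G (KK.pt F.toTow.big (y.1 m)) -
      G (KK.pt F.toTow.big (y.1 n))|) atTop (𝓝 |G y - G (KK.pt F.toTow.big (y.1 n))|) := by
    refine (Tendsto.sub_const ?_ _).abs
    exact (G.continuous.tendsto y).comp (hpt y)
  have := le_of_tendsto hlim (eventually_atTop.2 ⟨n, key⟩)
  rw [hr1]
  exact this

end Pool.CE
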