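import Pool.Agent.Work.MP_052a41_ce.Interface

set_option autoImplicit false

namespace Pool.CE

open Filter Topology Set Prog

theorem blk_NJ (hF : Stmt_BFRESH) (hG : Stmt_BGROW) (hT : Stmt_BTR) (hW : Stmt_BWT) :
    Stmt_NJ := by
  intro V _ _ e h1 h2
  obtain ⟨-, -, hmono, -, hpos⟩ := hW
  refine ⟨?_, ?_, ?_⟩
  · intro a b hab
    have h3 : ∀ z : VP, wt (fun k => |b k|) z.1 ≤ 16 * ‖lin e a‖ := fun z =>
      (hmono _ _ _ (fun k _ => hab k)).trans (h1 a z)
    have := h2 b _ h3
    linarith
  · intro δ hδ M a t ht hsupp hnorm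
    -- values outside the support
    have hzero : ∀ i k, ¬ (t i ≤ k ∧ k < t (i + 1)) → a i k = 0 := by
      intro i k hk
      by_contra hne
      exact hk (hsupp i k (Finsupp.mem_support_iff.2 hne))
    have hfr : ∀ i, ∃ z, Valid z ∧ (∀ k, z.Ev k → t i ≤ k ∧ k < t (i + 1)) ∧
        δ / 10 ≤ wt (fun k => |a i k|) z := by
      intro i
      by_contra hcon
      push Not at hcon
      have hfresh : ∀ z, Valid z → (∀ k, z.Ev k → t i ≤ k) →
          wt (fun k => |a i k|) z ≤ δ / 10 := by
        intro z hz hk
        have h3 := hcon (Prog.tr (t (i + 1)) z) (valid_tr _ _ hz)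
          (fun k hk' => ⟨hk k (ev_tr _ _ _ hk').1, (ev_tr _ _ _ hk').2⟩)
        rw [hT _ _ _ hz] at h3
        have h4 : (fun k => if k < t (i + 1) then |a i k| else 0) = fun k => |a i k| := by
          funext k
          split_ifs with h
          · rfl
          · rw [hzero i k (fun h' => h h'.2), abs_zero]
        rw [h4] at h3
        exact h3.le
      have h5 := hF (fun k => |a i k|) (t i) (δ / 10) (fun k => abs_nonneg _)
        (fun k hk => by
          show |a i k| = 0
          rw [hzero i k (fun h' => by omega), abs_zero]) hfresh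
      have h6 := h2 (a i) (3 * (δ / 10)) (fun z => h5 z.1 z.2)
      have h7 := hnorm i
      linarith
    -- growth
    obtain ⟨m, hm⟩ : ∃ m : ℕ, 16 * M < 2 ^ m * (δ / 10) := by
      obtain ⟨m, hm⟩ := pow_unbounded_of_one_lt (16 * M / (δ / 10)) (by norm_num : (1 : ℝ) < 2)
      refine ⟨m, ?_⟩
      rwa [div_lt_iff₀ (by positivity)] at hm
    obtain ⟨n, -, z, hz, -, hval⟩ := hG t (fun i k => |a i k|) (δ / 10) ht
      (fun i k => abs_nonneg _) (by positivity) hfr m 0
    refine ⟨n, ?_⟩
    have hA : (fun k => |(∑ i ∈ Finset.range n, a i) k|)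
        = fun k => ∑ i ∈ Finset.Ico 0 n, |a i k| := by
      funext k
      rw [Finsupp.finset_sum_apply, Nat.Ico_zero_eq_range]
      by_cases hall : ∀ i ∈ Finset.range n, a i k = 0
      · rw [Finset.sum_eq_zero hall, abs_zero]
        exact (Finset.sum_eq_zero fun i hi => by rw [hall i hi, abs_zero]).symm
      · push Not at hall
        obtain ⟨i₀, hi₀, hne⟩ := hall
        have hin : t i₀ ≤ k ∧ k < t (i₀ + 1) := by
          by_contra hcon
          exact hne (hzero i₀ k hcon)
        have hoth : ∀ i, i ≠ i₀ → a i k = 0 := by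
          intro i hi
          refine hzero i k (fun h => ?_)
          rcases lt_or_gt_of_ne hi with h' | h'
          · have := ht.monotone (show i + 1 ≤ i₀ from h')
            omega
          · have := ht.monotone (show i₀ + 1 ≤ i from h')
            omega
        rw [Finset.sum_eq_single_of_mem i₀ hi₀ (fun i _ hi => hoth i hi),
          Finset.sum_eq_single_of_mem i₀ hi₀ (fun i _ hi => by rw [hoth i hi, abs_zero])]
    have h8 := h1 (∑ i ∈ Finset.range n, a i) ⟨z, hz⟩
    rw [hA, map_sum] at h8
    linarith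
  · intro k
    have h := h1 (Finsupp.single k 1) ⟨Prog.leaf k, trivial⟩
    have h' : wt (fun m => |(Finsupp.single k (1 : ℝ)) m|) (Prog.leaf k) = 1 := by
      simp [wt]
    have h'' : lin e (Finsupp.single k 1) = e k := by
      simp [lin]
    rw [h', h''] at h
    linarith

end Pool.CE
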