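import Mathlib

/-!
# Part A, algebra and norms

`x p` = resolvents of a bounded operator at the scales `2^(-p)`; the operators `ff p`, `rr p` with
`∑ ff p * rr p = 1` strongly and `‖ff q * rr p‖ ≤ 200 * 2^(-|p - q|)`.
-/

set_option autoImplicit false

open Filter Topology

namespace Pool.CE

section ring

variable {R : Type*} [CommRing R]

lemma ring_step {a b c : R} {m : R} (h : m * (a * (1 - b)) = (1 - a) * b) (hbc : b * (2 - c) = c) :
    2 * m * (a * (1 - c)) = (1 - a) * c := by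
  linear_combination (2 - c) * h + ((1 - a) + m * a) * hbc

lemma ring_f {a b : R} (h : b * (2 - a) = a) : a - b = (1 - a) * b := by
  linear_combination -h

lemma ring_r {a b : R} (h : b * (2 - a) = a) :
    3 * (a + b) - 2 * (a ^ 2 + a * b + b ^ 2) =
      (1 - a) * b * (9 * (a * b) + 25 * ((1 - a) * b) + 9 * ((1 - a) * (1 - b))) := by
  linear_combination (-3 + 2 * a - 9 * b + 7 * a * b) * h

lemma ring_tel {a b : R} :
    (a - b) * (3 * (a + b) - 2 * (a ^ 2 + a * b + b ^ 2)) =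
      (3 * a ^ 2 - 2 * a ^ 3) - (3 * b ^ 2 - 2 * b ^ 3) := by
  ring

end ring

variable {E : Type*} [NormedAddCommGroup E] [NormedSpace ℝ E]

/-- the resolvents at the scales `2^(-p)` -/
structure Res (x : ℕ → E →L[ℝ] E) : Prop where
  comm : ∀ p q, x p * x q = x q * x p
  norm : ∀ p, ‖x p‖ ≤ 1
  res : ∀ p, x p * (2 - x (p + 1)) = x (p + 1)
  tend : ∀ e, Tendsto (fun p => x p e) atTop (𝓝 e)

/-- first family -/
noncomputable def ff (x : ℕ → E →L[ℝ] E) : ℕ → E →L[ℝ] E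
  | 0 => x 0
  | p + 1 => x (p + 1) - x p

/-- second family -/
noncomputable def rr (x : ℕ → E →L[ℝ] E) : ℕ → E →L[ℝ] E
  | 0 => 3 * x 0 - 2 * x 0 ^ 2
  | p + 1 => 3 * (x (p + 1) + x p) - 2 * (x (p + 1) ^ 2 + x (p + 1) * x p + x p ^ 2)

/-- `h (x n)` -/
noncomputable def hh (x : ℕ → E →L[ℝ] E) (n : ℕ) : E →L[ℝ] E := 3 * x n ^ 2 - 2 * x n ^ 3

namespace Res

variable {x : ℕ → E →L[ℝ] E}

/-- the commutative algebra generated by the resolvents -/
noncomputable abbrev Alg (x : ℕ → E →L[ℝ] E) : Subalgebra ℝ (E →L[ℝ] E) :=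
  Algebra.adjoin ℝ (Set.range x)

/-- its commutative ring structure -/
noncomputable abbrev cr (h : Res x) : CommRing (Alg x) :=
  Algebra.adjoinCommRingOfComm ℝ (by
    rintro _ ⟨p, rfl⟩ _ ⟨q, rfl⟩
    exact h.comm p q)

/-- the generators inside the algebra -/
noncomputable def y (x : ℕ → E →L[ℝ] E) (p : ℕ) : Alg x :=
  ⟨x p, Algebra.subset_adjoin ⟨p, rfl⟩⟩

lemma gap (h : Res x) (p r : ℕ) :
    (2 : E →L[ℝ] E) ^ r * (x p * (1 - x (p + r))) = (1 - x p) * x (p + r) := by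
  letI := h.cr
  have key : ∀ r : ℕ, (2 : Alg x) ^ r * (y x p * (1 - y x (p + r))) = (1 - y x p) * y x (p + r) := by
    intro r
    induction r with
    | zero => simp; ring
    | succ r ih =>
      have h1 : y x (p + r) * (2 - y x (p + r + 1)) = y x (p + r + 1) := Subtype.ext (h.res (p + r))
      have := ring_step ih h1
      rw [← add_assoc, ← this, pow_succ]
      ring
  have := congrArg (Alg x).val (key r)
  simp only [map_mul, map_pow, map_sub, map_one, map_ofNat] at this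
  exact this

lemma comm_mem (h : Res x) {a b : E →L[ℝ] E} (ha : a ∈ Alg x) (hb : b ∈ Alg x) :
    a * b = b * a := by
  letI := h.cr
  have : (⟨a, ha⟩ : Alg x) * ⟨b, hb⟩ = ⟨b, hb⟩ * ⟨a, ha⟩ := mul_comm _ _
  exact congrArg Subtype.val this

lemma x_mem (x : ℕ → E →L[ℝ] E) (p : ℕ) : x p ∈ Alg x := Algebra.subset_adjoin ⟨p, rfl⟩

lemma two_mem (x : ℕ → E →L[ℝ] E) : (2 : E →L[ℝ] E) ∈ Alg x := by
  have : (2 : E →L[ℝ] E) = 1 + 1 := by norm_num
  rw [this]
  exact add_mem (one_mem _) (one_mem _)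

lemma three_mem (x : ℕ → E →L[ℝ] E) : (3 : E →L[ℝ] E) ∈ Alg x := by
  have : (3 : E →L[ℝ] E) = 2 + 1 := by norm_num
  rw [this]
  exact add_mem (two_mem x) (one_mem _)

lemma ff_mem (x : ℕ → E →L[ℝ] E) (p : ℕ) : ff x p ∈ Alg x := by
  cases p with
  | zero => exact x_mem x 0
  | succ p => exact sub_mem (x_mem x _) (x_mem x _)

lemma rr_mem (x : ℕ → E →L[ℝ] E) (p : ℕ) : rr x p ∈ Alg x := by
  have h2 := two_mem x
  have h3 := three_mem x
  cases p with
  | zero => exact sub_mem (mul_mem h3 (x_mem x _)) (mul_mem h2 (pow_mem (x_mem x _) _))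
  | succ p =>
    have a := x_mem x p
    have b := x_mem x (p + 1)
    exact sub_mem (mul_mem h3 (add_mem b a))
      (mul_mem h2 (add_mem (add_mem (pow_mem b _) (mul_mem b a)) (pow_mem a _)))

lemma ff_succ (h : Res x) (p : ℕ) : ff x (p + 1) = (1 - x (p + 1)) * x p := by
  letI := h.cr
  have h1 : y x p * (2 - y x (p + 1)) = y x (p + 1) := Subtype.ext (h.res p)
  have := congrArg (Alg x).val (ring_f h1)
  simp only [map_mul, map_sub, map_one] at this
  exact this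

lemma rr_succ (h : Res x) (p : ℕ) : rr x (p + 1) = (1 - x (p + 1)) * x p *
    (9 * (x (p + 1) * x p) + 25 * ((1 - x (p + 1)) * x p) +
      9 * ((1 - x (p + 1)) * (1 - x p))) := by
  letI := h.cr
  have h1 : y x p * (2 - y x (p + 1)) = y x (p + 1) := Subtype.ext (h.res p)
  have := congrArg (Alg x).val (ring_r h1)
  simp only [map_mul, map_sub, map_one, map_add, map_pow, map_ofNat] at this
  exact this

lemma tel_zero (h : Res x) : ff x 0 * rr x 0 = hh x 0 := by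
  letI := h.cr
  have key : y x 0 * (3 * y x 0 - 2 * y x 0 ^ 2) = 3 * y x 0 ^ 2 - 2 * y x 0 ^ 3 := by ring
  have := congrArg (Alg x).val key
  simp only [map_mul, map_sub, map_pow, map_ofNat] at this
  exact this

lemma tel_succ (h : Res x) (p : ℕ) : ff x (p + 1) * rr x (p + 1) = hh x (p + 1) - hh x p := by
  letI := h.cr
  have := congrArg (Alg x).val (ring_tel (a := y x (p + 1)) (b := y x p))
  simp only [map_mul, map_sub, map_add, map_pow, map_ofNat] at this
  exact this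

lemma tel (h : Res x) (n : ℕ) : ∑ p ∈ Finset.range (n + 1), ff x p * rr x p = hh x n := by
  induction n with
  | zero => simpa using h.tel_zero
  | succ n ih => rw [Finset.sum_range_succ, ih, h.tel_succ]; abel

/-! ### norms -/

lemma one_sub_norm (h : Res x) (p : ℕ) : ‖1 - x p‖ ≤ 2 := by
  calc ‖1 - x p‖ ≤ ‖(1 : E →L[ℝ] E)‖ + ‖x p‖ := norm_sub_le _ _
    _ ≤ 1 + 1 := add_le_add ContinuousLinearMap.norm_id_le (h.norm p)
    _ = 2 := by norm_num

lemma gap_norm (h : Res x) (p r : ℕ) : ‖x p * (1 - x (p + r))‖ ≤ 2 * (1 / 2) ^ r := by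
  have h1 := h.gap p r
  have h2 : (2 : E →L[ℝ] E) ^ r * (x p * (1 - x (p + r))) =
      (2 : ℝ) ^ r • (x p * (1 - x (p + r))) := by
    have : (2 : E →L[ℝ] E) = (2 : ℝ) • 1 := by
      rw [two_smul]; norm_num
    rw [this, smul_pow, one_pow, smul_mul_assoc, one_mul]
  have h3 : (2 : ℝ) ^ r * ‖x p * (1 - x (p + r))‖ ≤ 2 := by
    calc (2 : ℝ) ^ r * ‖x p * (1 - x (p + r))‖ = ‖(2 : ℝ) ^ r • (x p * (1 - x (p + r)))‖ := by
          rw [norm_smul, Real.norm_of_nonneg (by positivity)]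
      _ = ‖(1 - x p) * x (p + r)‖ := by rw [← h2, h1]
      _ ≤ ‖1 - x p‖ * ‖x (p + r)‖ := norm_mul_le _ _
      _ ≤ 2 * 1 := mul_le_mul (h.one_sub_norm p) (h.norm _) (norm_nonneg _) (by norm_num)
      _ = 2 := by norm_num
  have h4 : (0 : ℝ) < 2 ^ r := by positivity
  have h5 : 2 * (1 / 2 : ℝ) ^ r = 2 / 2 ^ r := by rw [div_pow, one_pow]; ring
  rw [h5, le_div_iff₀ h4]
  linarith

/-- the bracket -/
noncomputable def br (x : ℕ → E →L[ℝ] E) (p : ℕ) : E →L[ℝ] E :=
  9 * (x (p + 1) * x p) + 25 * ((1 - x (p + 1)) * x p) + 9 * ((1 - x (p + 1)) * (1 - x p))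

lemma ofNat_norm (n : ℕ) (a : E →L[ℝ] E) : ‖(n : E →L[ℝ] E) * a‖ ≤ n * ‖a‖ := by
  have : (n : E →L[ℝ] E) * a = (n : ℝ) • a := by
    rw [← nsmul_eq_mul, Nat.cast_smul_eq_nsmul]
  rw [this, norm_smul]
  simp

lemma br_norm (h : Res x) (p : ℕ) : ‖br x p‖ ≤ 95 := by
  have a0 := h.norm p
  have a1 := h.norm (p + 1)
  have b0 := h.one_sub_norm p
  have b1 := h.one_sub_norm (p + 1)
  have c1 : ‖9 * (x (p + 1) * x p)‖ ≤ 9 := by
    have := ofNat_norm 9 (x (p + 1) * x p)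
    have h2 : ‖x (p + 1) * x p‖ ≤ 1 * 1 :=
      (norm_mul_le _ _).trans (mul_le_mul a1 a0 (norm_nonneg _) (by norm_num))
    push_cast at this
    linarith
  have c2 : ‖25 * ((1 - x (p + 1)) * x p)‖ ≤ 50 := by
    have := ofNat_norm 25 ((1 - x (p + 1)) * x p)
    have h2 : ‖(1 - x (p + 1)) * x p‖ ≤ 2 * 1 :=
      (norm_mul_le _ _).trans (mul_le_mul b1 a0 (norm_nonneg _) (by norm_num))
    push_cast at this
    linarith
  have c3 : ‖9 * ((1 - x (p + 1)) * (1 - x p))‖ ≤ 36 := by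
    have := ofNat_norm 9 ((1 - x (p + 1)) * (1 - x p))
    have h2 : ‖(1 - x (p + 1)) * (1 - x p)‖ ≤ 2 * 2 :=
      (norm_mul_le _ _).trans (mul_le_mul b1 b0 (norm_nonneg _) (by norm_num))
    push_cast at this
    linarith
  calc ‖br x p‖ ≤ ‖9 * (x (p + 1) * x p)‖ + ‖25 * ((1 - x (p + 1)) * x p)‖ +
        ‖9 * ((1 - x (p + 1)) * (1 - x p))‖ := norm_add₃_le
    _ ≤ 95 := by linarith

end Res

end Pool.CE
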