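import Pool.Agent.Work.MP_052a41_ce.Interface

set_option autoImplicit false

/-! # Block PTR: the operators commute with truncation and are bounded -/

namespace Pool.CE

open Filter Topology Set

namespace PTRaux

variable {S : Type} (F : Fam S)

/-- commutation with truncation -/
def CT (A : (S → ℝ) →L[ℝ] (S → ℝ)) : Prop :=
  ∀ (n : ℕ) (φ : S → ℝ), A (fun z => φ (F.tr n z)) = fun z => A φ (F.tr n z)

/-- boundedness with constant `c` -/
def BD (A : (S → ℝ) →L[ℝ] (S → ℝ)) (c : ℝ) : Prop :=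
  ∀ (φ : S → ℝ) (M : ℝ), (∀ z, |φ z| ≤ M) → ∀ z, |A φ z| ≤ c * M

variable {F}

theorem CT.x (p : ℕ) : CT F (F.x p) := fun n φ => F.x_tr p n φ

theorem CT.add {A B : (S → ℝ) →L[ℝ] (S → ℝ)} (hA : CT F A) (hB : CT F B) : CT F (A + B) := by
  intro n φ
  funext z
  have h1 := congrFun (hA n φ) z
  have h2 := congrFun (hB n φ) z
  simp only [ContinuousLinearMap.add_apply, Pi.add_apply] at h1 h2 ⊢
  rw [h1, h2]

theorem CT.sub {A B : (S → ℝ) →L[ℝ] (S → ℝ)} (hA : CT F A) (hB : CT F B) : CT F (A - B) := by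
  intro n φ
  funext z
  have h1 := congrFun (hA n φ) z
  have h2 := congrFun (hB n φ) z
  simp only [ContinuousLinearMap.sub_apply, Pi.sub_apply] at h1 h2 ⊢
  rw [h1, h2]

theorem CT.smul {A : (S → ℝ) →L[ℝ] (S → ℝ)} (c : ℝ) (hA : CT F A) : CT F (c • A) := by
  intro n φ
  funext z
  have h1 := congrFun (hA n φ) z
  simp only [ContinuousLinearMap.smul_apply, Pi.smul_apply] at h1 ⊢
  rw [h1]

theorem CT.mul {A B : (S → ℝ) →L[ℝ] (S → ℝ)} (hA : CT F A) (hB : CT F B) : CT F (A * B) := by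
  intro n φ
  show A (B (fun z => φ (F.tr n z))) = fun z => A (B φ) (F.tr n z)
  rw [hB n φ]
  exact hA n (B φ)

theorem BD.x (p : ℕ) : BD (F.x p) 1 := by
  intro φ M h z
  rw [one_mul]
  exact F.x_le p φ M h z

theorem BD.add {A B : (S → ℝ) →L[ℝ] (S → ℝ)} {a b : ℝ} (hA : BD A a) (hB : BD B b) :
    BD (A + B) (a + b) := by
  intro φ M h z
  have h1 := hA φ M h z
  have h2 := hB φ M h z
  simp only [ContinuousLinearMap.add_apply, Pi.add_apply]
  rw [add_mul]
  exact (abs_add_le _ _).trans (add_le_add h1 h2)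

theorem BD.sub {A B : (S → ℝ) →L[ℝ] (S → ℝ)} {a b : ℝ} (hA : BD A a) (hB : BD B b) :
    BD (A - B) (a + b) := by
  intro φ M h z
  have h1 := hA φ M h z
  have h2 := hB φ M h z
  simp only [ContinuousLinearMap.sub_apply, Pi.sub_apply]
  rw [add_mul]
  exact (abs_sub _ _).trans (add_le_add h1 h2)

theorem BD.smul {A : (S → ℝ) →L[ℝ] (S → ℝ)} {a : ℝ} (c : ℝ) (hA : BD A a) :
    BD (c • A) (|c| * a) := by
  intro φ M h z
  have h1 := hA φ M h z
  simp only [ContinuousLinearMap.smul_apply, Pi.smul_apply, smul_eq_mul]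
  rw [abs_mul, mul_assoc]
  exact mul_le_mul_of_nonneg_left h1 (abs_nonneg _)

theorem BD.mul {A B : (S → ℝ) →L[ℝ] (S → ℝ)} {a b : ℝ} (hA : BD A a) (hB : BD B b) :
    BD (A * B) (a * b) := by
  intro φ M h z
  show |A (B φ) z| ≤ a * b * M
  rw [mul_assoc]
  exact hA (B φ) (b * M) (hB φ M h) z

theorem BD.mono {A : (S → ℝ) →L[ℝ] (S → ℝ)} {a b : ℝ} (hA : BD A a) (hab : a ≤ b) : BD A b := by
  intro φ M h z
  have h0 : 0 ≤ M := (abs_nonneg _).trans (h z)
  exact (hA φ M h z).trans (mul_le_mul_of_nonneg_right hab h0)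

theorem CT.f (p : ℕ) : CT F (F.f p) := by
  cases p with
  | zero => exact CT.x 0
  | succ p => exact (CT.x (p + 1)).sub (CT.x p)

theorem CT.rho (p : ℕ) : CT F (F.rho p) := by
  cases p with
  | zero => exact ((CT.x 0).smul 3).sub (((CT.x 0).mul (CT.x 0)).smul 2)
  | succ p =>
    exact (((CT.x (p + 1)).add (CT.x p)).smul 3).sub
      (((((CT.x (p + 1)).mul (CT.x (p + 1))).add ((CT.x (p + 1)).mul (CT.x p))).add
        ((CT.x p).mul (CT.x p))).smul 2)

theorem BD.f (p : ℕ) : BD (F.f p) 2 := by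
  cases p with
  | zero => exact (BD.x (F := F) 0).mono (by norm_num)
  | succ p =>
    have h := (BD.x (F := F) (p + 1)).sub (BD.x (F := F) p)
    exact h.mono (by norm_num)

theorem BD.rho (p : ℕ) : BD (F.rho p) 20 := by
  have habs3 : |(3 : ℝ)| = 3 := by norm_num
  have habs2 : |(2 : ℝ)| = 2 := by norm_num
  cases p with
  | zero =>
    have h := ((BD.x (F := F) 0).smul 3).sub (((BD.x (F := F) 0).mul (BD.x (F := F) 0)).smul 2)
    exact BD.mono h (by rw [habs3, habs2]; norm_num)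
  | succ p =>
    have h := (((BD.x (F := F) (p + 1)).add (BD.x (F := F) p)).smul 3).sub
      (((((BD.x (F := F) (p + 1)).mul (BD.x (F := F) (p + 1))).add
        ((BD.x (F := F) (p + 1)).mul (BD.x (F := F) p))).add
        ((BD.x (F := F) p).mul (BD.x (F := F) p))).smul 2)
    exact BD.mono h (by rw [habs3, habs2]; norm_num)

end PTRaux

open PTRaux

theorem blk_PTR : Stmt_PTR := by
  intro S F q p n φ
  refine ⟨?_, ?_, ?_, ?_⟩
  · exact ((CT.f (F := F) q).mul (CT.rho (F := F) p)) n φ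
  · exact CT.f (F := F) q n φ
  · exact CT.rho (F := F) p n φ
  · intro M h
    exact ⟨BD.f (F := F) q φ M h, BD.rho (F := F) p φ M h⟩

end Pool.CE
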