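import Pool.Agent.Work.MP_052a41_ce.Interface
import Pool.Agent.Work.MP_052a41_ce.B_PTR
import Pool.Agent.Work.MP_052a41_ce.B_PROJ1

set_option autoImplicit false

/-! # Block PBD (helper48): the decay of the matrix entries -/

namespace Pool.CE

open Filter Topology Set

namespace PBDaux

open PTRaux

variable {S : Type} (F : Fam S)

/-- the algebra of operators -/
abbrev Op (S : Type) := (S → ℝ) →L[ℝ] (S → ℝ)

/-- the commutative algebra generated by the resolvents -/
noncomputable abbrev Alg : Subalgebra ℝ (Op S) := Algebra.adjoin ℝ (Set.range F.x)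

/-- its commutative ring structure -/
noncomputable abbrev cr : CommRing (Alg F) :=
  Algebra.adjoinCommRingOfComm ℝ (by
    rintro _ ⟨p, rfl⟩ _ ⟨q, rfl⟩
    exact F.x_comm p q)

theorem x_mem (p : ℕ) : F.x p ∈ Alg F := Algebra.subset_adjoin ⟨p, rfl⟩

/-- the generators inside the algebra -/
noncomputable def y (p : ℕ) : Alg F := ⟨F.x p, x_mem F p⟩

theorem comm_mem {a b : Op S} (ha : a ∈ Alg F) (hb : b ∈ Alg F) : a * b = b * a := by
  letI := cr F
  have : (⟨a, ha⟩ : Alg F) * ⟨b, hb⟩ = ⟨b, hb⟩ * ⟨a, ha⟩ := mul_comm _ _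
  exact congrArg Subtype.val this

theorem f_mem (p : ℕ) : F.f p ∈ Alg F := by
  cases p with
  | zero => exact x_mem F 0
  | succ p => exact sub_mem (x_mem F _) (x_mem F _)

theorem rho_mem (p : ℕ) : F.rho p ∈ Alg F := by
  cases p with
  | zero =>
    exact sub_mem (Subalgebra.smul_mem _ (x_mem F _) _)
      (Subalgebra.smul_mem _ (mul_mem (x_mem F _) (x_mem F _)) _)
  | succ p =>
    have a := x_mem F p
    have b := x_mem F (p + 1)
    exact sub_mem (Subalgebra.smul_mem _ (add_mem b a) _)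
      (Subalgebra.smul_mem _ (add_mem (add_mem (mul_mem b b) (mul_mem b a)) (mul_mem a a)) _)

theorem res (p : ℕ) : F.x p * (2 - F.x (p + 1)) = F.x (p + 1) := by
  have h := F.x_res p 1
  rw [pow_one] at h
  have h2 : (2 : ℝ) • (F.x p * (1 - F.x (p + 1))) = (1 - F.x p) * F.x (p + 1) := by
    rw [h, smul_smul]; norm_num
  have e : F.x p * (2 - F.x (p + 1)) =
      (2 : ℝ) • (F.x p * (1 - F.x (p + 1))) + F.x p * F.x (p + 1) := by
    have k2 : F.x p * 2 = (2 : ℝ) • F.x p := by
      rw [two_smul, mul_two]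
    rw [mul_sub, mul_sub, k2, mul_one, smul_sub]
    module
  rw [e, h2, sub_mul, one_mul]
  abel

theorem gap (p r : ℕ) : BD (F.x p * (1 - F.x (p + r))) (2 * (1 / 2) ^ r) := by
  rw [F.x_res p r]
  have h1 : BD ((1 - F.x p) * F.x (p + r)) (2 * 1) := by
    refine BD.mul ?_ (BD.x (F := F) _)
    have h0 : BD (1 : Op S) 1 := by
      intro φ M h z
      rw [one_mul]
      exact h z
    exact (h0.sub (BD.x (F := F) p)).mono (by norm_num)
  refine (BD.smul _ h1).mono ?_
  rw [abs_of_pos (by positivity)]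
  linarith

theorem BD.one_sub (p : ℕ) : BD (1 - F.x p) 2 := by
  have h0 : BD (1 : Op S) 1 := by
    intro φ M h z
    rw [one_mul]
    exact h z
  exact (h0.sub (BD.x (F := F) p)).mono (by norm_num)

theorem f_succ (p : ℕ) : F.f (p + 1) = (1 - F.x (p + 1)) * F.x p := by
  letI := cr F
  have h1 : y F p * (2 - y F (p + 1)) = y F (p + 1) := Subtype.ext (res F p)
  have := congrArg (Alg F).val (ring_f h1)
  simp only [map_mul, map_sub, map_one] at this
  exact this

/-- the bracket -/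
noncomputable def br (p : ℕ) : Op S :=
  (9 : ℝ) • (F.x (p + 1) * F.x p) + (25 : ℝ) • ((1 - F.x (p + 1)) * F.x p) +
    (9 : ℝ) • ((1 - F.x (p + 1)) * (1 - F.x p))

theorem br_mem (p : ℕ) : br F p ∈ Alg F := by
  have a := x_mem F p
  have b := x_mem F (p + 1)
  have o := one_mem (Alg F)
  exact add_mem (add_mem (Subalgebra.smul_mem _ (mul_mem b a) _)
    (Subalgebra.smul_mem _ (mul_mem (sub_mem o b) a) _))
    (Subalgebra.smul_mem _ (mul_mem (sub_mem o b) (sub_mem o a)) _)

theorem rho_succ (p : ℕ) : F.rho (p + 1) = (1 - F.x (p + 1)) * F.x p * br F p := by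
  letI := cr F
  have h1 : y F p * (2 - y F (p + 1)) = y F (p + 1) := Subtype.ext (res F p)
  have key := congrArg (Alg F).val (ring_r h1)
  simp only [map_mul, map_sub, map_one, map_add, map_pow, map_ofNat, pow_two] at key
  simp only [Fam.rho, br, Algebra.smul_def, map_ofNat]
  exact key

theorem BD.br (p : ℕ) : BD (br F p) 95 := by
  have h1 := (((BD.x (F := F) (p + 1)).mul (BD.x (F := F) p)).smul 9).add
    (((BD.one_sub F (p + 1)).mul (BD.x (F := F) p)).smul 25)
  have h2 := h1.add (((BD.one_sub F (p + 1)).mul (BD.one_sub F p)).smul 9)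
  refine PTRaux.BD.mono h2 ?_
  rw [abs_of_pos (by norm_num), abs_of_pos (by norm_num)]
  norm_num

theorem rearr {a b c d e : Op S} (ha : a ∈ Alg F) (hb : b ∈ Alg F)
    (hc : c ∈ Alg F) (hd : d ∈ Alg F) (he : e ∈ Alg F) :
    (a * b) * (c * d * e) = (b * c) * (a * (d * e)) ∧
    (a * b) * (c * d * e) = (d * a) * (b * (c * e)) := by
  letI := cr F
  have k1 : ((⟨a, ha⟩ : Alg F) * ⟨b, hb⟩) * (⟨c, hc⟩ * ⟨d, hd⟩ * ⟨e, he⟩) =
      (⟨b, hb⟩ * ⟨c, hc⟩) * (⟨a, ha⟩ * (⟨d, hd⟩ * ⟨e, he⟩)) := by ring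
  have k2 : ((⟨a, ha⟩ : Alg F) * ⟨b, hb⟩) * (⟨c, hc⟩ * ⟨d, hd⟩ * ⟨e, he⟩) =
      (⟨d, hd⟩ * ⟨a, ha⟩) * (⟨b, hb⟩ * (⟨c, hc⟩ * ⟨e, he⟩)) := by ring
  exact ⟨congrArg Subtype.val k1, congrArg Subtype.val k2⟩

theorem rho_zero : F.rho 0 = F.x 0 * ((3 : ℝ) • (1 : Op S) - (2 : ℝ) • F.x 0) := by
  simp only [Fam.rho, mul_sub, mul_smul_comm, mul_one]

theorem BD.last : BD ((3 : ℝ) • (1 : Op S) - (2 : ℝ) • F.x 0) 5 := by
  have h0 : BD (1 : Op S) 1 := by
    intro φ M h z
    rw [one_mul]
    exact h z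
  refine PTRaux.BD.mono ((h0.smul 3).sub ((BD.x (F := F) 0).smul 2)) ?_
  rw [abs_of_pos (by norm_num), abs_of_pos (by norm_num)]
  norm_num

theorem decay (q p : ℕ) : BD (F.f q * F.rho p) (200 * (1 / 2) ^ dd q p) := by
  have o := one_mem (Alg F)
  rcases Nat.eq_zero_or_pos q with hq | hq
  · subst hq
    rcases Nat.eq_zero_or_pos p with hp | hp
    · subst hp
      refine PTRaux.BD.mono ((BD.f (F := F) 0).mul (BD.rho (F := F) 0)) ?_
      simp [dd]
      norm_num
    · obtain ⟨p, rfl⟩ : ∃ p', p = p' + 1 := ⟨p - 1, by omega⟩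
      have e : F.f 0 * F.rho (p + 1) = (F.x 0 * (1 - F.x (p + 1))) * (F.x p * br F p) := by
        rw [rho_succ]
        simp only [Fam.f, mul_assoc]
      have g := gap F 0 (p + 1)
      rw [zero_add] at g
      rw [e, show dd 0 (p + 1) = p + 1 by unfold dd; omega]
      refine PTRaux.BD.mono (g.mul ((BD.x (F := F) p).mul (BD.br F p))) ?_
      have h0 : (0 : ℝ) < (1 / 2) ^ (p + 1) := by positivity
      nlinarith
  · obtain ⟨q, rfl⟩ : ∃ q', q = q' + 1 := ⟨q - 1, by omega⟩
    rcases Nat.eq_zero_or_pos p with hp | hp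
    · subst hp
      have e : F.f (q + 1) * F.rho 0 = (F.x 0 * (1 - F.x (q + 1))) *
          (F.x q * ((3 : ℝ) • (1 : Op S) - (2 : ℝ) • F.x 0)) := by
        have k := (rearr F (sub_mem o (x_mem F (q + 1))) (x_mem F q) o (x_mem F 0)
          (sub_mem (Subalgebra.smul_mem _ o (3 : ℝ)) (Subalgebra.smul_mem _ (x_mem F 0) (2 : ℝ)))).2
        rw [one_mul, one_mul] at k
        rw [f_succ, rho_zero, k]
      have g := gap F 0 (q + 1)
      rw [zero_add] at g
      rw [e, show dd (q + 1) 0 = q + 1 by unfold dd; omega]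
      refine PTRaux.BD.mono (g.mul ((BD.x (F := F) q).mul (BD.last F))) ?_
      have h0 : (0 : ℝ) < (1 / 2) ^ (q + 1) := by positivity
      nlinarith
    · obtain ⟨p, rfl⟩ : ∃ p', p = p' + 1 := ⟨p - 1, by omega⟩
      have k := rearr F (sub_mem o (x_mem F (q + 1))) (x_mem F q) (sub_mem o (x_mem F (p + 1)))
        (x_mem F p) (br_mem F p)
      rcases lt_trichotomy p q with c | c | c
      · obtain ⟨r, rfl⟩ : ∃ r, q = p + r := ⟨q - p, by omega⟩
        have e : F.f (p + r + 1) * F.rho (p + 1) = (F.x p * (1 - F.x (p + r + 1))) *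
            (F.x (p + r) * ((1 - F.x (p + 1)) * br F p)) := by
          rw [f_succ, rho_succ]
          exact k.2
        have g := gap F p (r + 1)
        rw [← add_assoc] at g
        rw [e, show dd (p + r + 1) (p + 1) = r by unfold dd; omega]
        refine PTRaux.BD.mono
          (g.mul ((BD.x (F := F) (p + r)).mul ((BD.one_sub F (p + 1)).mul (BD.br F p)))) ?_
        have h0 : (0 : ℝ) < (1 / 2) ^ r := by positivity
        rw [pow_succ]
        nlinarith
      · subst c
        refine PTRaux.BD.mono ((BD.f (F := F) (p + 1)).mul (BD.rho (F := F) (p + 1))) ?_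
        simp [dd]
        norm_num
      · obtain ⟨r, rfl⟩ : ∃ r, p = q + r := ⟨p - q, by omega⟩
        have e : F.f (q + 1) * F.rho (q + r + 1) = (F.x q * (1 - F.x (q + r + 1))) *
            ((1 - F.x (q + 1)) * (F.x (q + r) * br F (q + r))) := by
          rw [f_succ, rho_succ]
          exact k.1
        have g := gap F q (r + 1)
        rw [← add_assoc] at g
        rw [e, show dd (q + 1) (q + r + 1) = r by unfold dd; omega]
        refine PTRaux.BD.mono
          (g.mul ((BD.one_sub F (q + 1)).mul ((BD.x (F := F) (q + r)).mul (BD.br F (q + r))))) ?_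
        have h0 : (0 : ℝ) < (1 / 2) ^ r := by positivity
        rw [pow_succ]
        nlinarith

end PBDaux

theorem blk_PBD : Stmt_PBD := by
  intro S F q p φ M h z
  exact PBDaux.decay F q p φ M h z

end Pool.CE
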