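import Pool.Agent.Work.MP_052a41_ce.Interface

set_option autoImplicit false

/-! # Block PE (helper56) -/

namespace Pool.CE

open Filter Topology Set

theorem sum_half_lt (q : ℕ) : ∑ i ∈ Finset.range q, (1 / 2 : ℝ) ^ (q - i) ≤ 1 := by
  induction q with
  | zero => simp
  | succ q ih =>
    rw [Finset.sum_range_succ]
    have h1 : ∑ i ∈ Finset.range q, (1 / 2 : ℝ) ^ (q + 1 - i) =
        (1 / 2) * ∑ i ∈ Finset.range q, (1 / 2 : ℝ) ^ (q - i) := by
      rw [Finset.mul_sum]
      refine Finset.sum_congr rfl fun i hi => ?_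
      have : i < q := Finset.mem_range.mp hi
      rw [show q + 1 - i = (q - i) + 1 by omega, pow_succ]; ring
    rw [h1, show q + 1 - q = 1 by omega]
    linarith

theorem sum_dd (q : ℕ) : ∃ c, HasSum (fun p => (1 / 2 : ℝ) ^ dd q p) c ∧ c ≤ 3 ∧ 0 ≤ c := by
  obtain ⟨g, hg⟩ : ∃ g : ℕ → ℝ, g = fun p => (1 / 2 : ℝ) ^ dd q p := ⟨_, rfl⟩
  rw [← hg]
  have e1 : ∀ n, g (n + q) = (1 / 2 : ℝ) ^ n := by
    intro n
    rw [hg]
    have : dd q (n + q) = n := by unfold dd; omega
    show (1 / 2 : ℝ) ^ dd q (n + q) = _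
    rw [this]
  have e2 : ∀ i ∈ Finset.range q, g i = (1 / 2 : ℝ) ^ (q - i) := by
    intro i hi
    have hi' : i < q := Finset.mem_range.mp hi
    rw [hg]
    have : dd q i = q - i := by unfold dd; omega
    show (1 / 2 : ℝ) ^ dd q i = _
    rw [this]
  have h2 : HasSum (fun n : ℕ => g (n + q)) 2 := by
    rw [funext e1]; exact hasSum_geometric_two
  have h3 : HasSum g (2 + ∑ i ∈ Finset.range q, g i) := (hasSum_nat_add_iff q).mp h2
  have h4 : ∑ i ∈ Finset.range q, g i ≤ 1 := by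
    rw [Finset.sum_congr rfl e2]; exact sum_half_lt q
  have h5 : 0 ≤ ∑ i ∈ Finset.range q, g i :=
    Finset.sum_nonneg fun i hi => by rw [e2 i hi]; positivity
  exact ⟨_, h3, by linarith, by linarith⟩

variable {S : Type}

/-- the centred coordinate functions -/
def cc (Φ : Option (ℕ × S) → ℝ) (p : ℕ) (w : S) : ℝ := Φ (some (p, w)) - Φ none

theorem Pf_some (F : Fam S) (Φ : Option (ℕ × S) → ℝ) (q : ℕ) (z : S) :
    F.Pf Φ (some (q, z)) = ∑' p, F.T q p (cc Φ p) z := rfl

theorem cc_le {Φ : Option (ℕ × S) → ℝ} {M : ℝ} (h : ∀ s, |Φ s| ≤ M) (p : ℕ) (w : S) :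
    |cc Φ p w| ≤ 2 * M := by
  unfold cc
  have h1 := h (some (p, w))
  have h2 := h none
  rw [abs_le] at *
  constructor <;> linarith

theorem Pf_summable (hPBD : Stmt_PBD) (F : Fam S) {Φ : Option (ℕ × S) → ℝ} {M : ℝ}
    (h : ∀ s, |Φ s| ≤ M) (q : ℕ) (z : S) : Summable (fun p => F.T q p (cc Φ p) z) := by
  obtain ⟨c, hc, _, _⟩ := sum_dd q
  refine Summable.of_norm_bounded (g := fun p => 200 * (2 * M) * (1 / 2 : ℝ) ^ dd q p)
    (hc.summable.mul_left _) fun p => ?_
  rw [Real.norm_eq_abs]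
  exact (hPBD S F q p _ _ (cc_le h p) z).trans (le_of_eq (by ring))

theorem big_tr_some_lt (F : Fam S) {n q : ℕ} (z : S) (h : q < n) :
    F.toTow.big.tr n (some (q, z)) = some (q, F.tr n z) := by
  show (some (q, z)).bind (fun qz : ℕ × S => if qz.1 < n then some (qz.1, F.tr n qz.2) else none) = _
  simp [h]

theorem big_tr_some_ge (F : Fam S) {n q : ℕ} (z : S) (h : ¬ q < n) :
    F.toTow.big.tr n (some (q, z)) = none := by
  show (some (q, z)).bind (fun qz : ℕ × S => if qz.1 < n then some (qz.1, F.tr n qz.2) else none) = _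
  simp [h]

theorem big_tr_none (F : Fam S) (n : ℕ) : F.toTow.big.tr n none = none := rfl

theorem blk_PE (hPBD : Stmt_PBD) (hPTR : Stmt_PTR) : Stmt_PE := by
  intro S F Φ hΦ
  have hbd : ∀ M, (∀ s, |Φ s| ≤ M) → ∀ s, |F.Pf Φ s| ≤ 1200 * M := by
    intro M hM s
    have hM0 : 0 ≤ M := (abs_nonneg _).trans (hM none)
    rcases s with _ | ⟨q, z⟩
    · show |(0 : ℝ)| ≤ _
      rw [abs_zero]; positivity
    · rw [Pf_some]
      obtain ⟨c, hc, hc3, hc0⟩ := sum_dd q
      have := tsum_of_norm_bounded (hc.mul_left (200 * (2 * M))) (f := fun p => F.T q p (cc Φ p) z)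
        fun p => by
          rw [Real.norm_eq_abs]
          exact (hPBD S F q p _ _ (cc_le hM p) z).trans (le_of_eq (by ring))
      rw [Real.norm_eq_abs] at this
      refine this.trans ?_
      calc 200 * (2 * M) * c ≤ 200 * (2 * M) * 3 := by gcongr
        _ = 1200 * M := by ring
  refine ⟨⟨?_, ?_⟩, hbd⟩
  · obtain ⟨M, hM⟩ := hΦ.1
    exact ⟨_, hbd M hM⟩
  intro ε hε
  obtain ⟨M, hM⟩ := hΦ.1
  have hM0 : 0 ≤ M := (abs_nonneg _).trans (hM none)
  obtain ⟨N, hN⟩ := hΦ.2 (ε / 1200) (by positivity)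
  -- a power which is small
  obtain ⟨k, hk⟩ := exists_pow_lt_of_lt_one (show 0 < ε / (2 * (1200 * M + 1)) by positivity)
    (show (1 / 2 : ℝ) < 1 by norm_num)
  refine ⟨N + k, fun n hn s => ?_⟩
  rcases s with _ | ⟨q, z⟩
  · rw [big_tr_none]
    rw [sub_self, abs_zero]; exact hε.le
  by_cases hq : q < n
  · rw [big_tr_some_lt F z hq, Pf_some, Pf_some,
      ← (Pf_summable hPBD F hM q z).tsum_sub (Pf_summable hPBD F hM q (F.tr n z))]
    have key : ∀ p, F.T q p (cc Φ p) z - F.T q p (cc Φ p) (F.tr n z) =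
        F.T q p (fun w => cc Φ p w - cc Φ p (F.tr n w)) z := by
      intro p
      have e1 : F.T q p (fun w => cc Φ p (F.tr n w)) z = F.T q p (cc Φ p) (F.tr n z) := by
        rw [(hPTR S F q p n (cc Φ p)).1]
      have e2 : (fun w => cc Φ p w - cc Φ p (F.tr n w)) =
          cc Φ p - (fun w => cc Φ p (F.tr n w)) := rfl
      rw [e2, map_sub, Pi.sub_apply, e1]
    have small : ∀ p w, |cc Φ p w - cc Φ p (F.tr n w)| ≤ 2 * (ε / 1200) := by
      intro p w
      have e : cc Φ p w - cc Φ p (F.tr n w) = Φ (some (p, w)) - Φ (some (p, F.tr n w)) := by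
        unfold cc; ring
      rw [e]
      have hpos : 0 ≤ ε / 1200 := by positivity
      by_cases hp : p < n
      · have := hN n (by omega) (some (p, w))
        rw [big_tr_some_lt F w hp] at this
        linarith
      · have h1 := hN n (by omega) (some (p, w))
        have h2 := hN n (by omega) (some (p, F.tr n w))
        rw [big_tr_some_ge F _ hp] at h1 h2
        rw [abs_le] at *
        constructor <;> linarith
    obtain ⟨c, hc, hc3, hc0⟩ := sum_dd q
    have := tsum_of_norm_bounded (hc.mul_left (200 * (2 * (ε / 1200))))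
      (f := fun p => F.T q p (cc Φ p) z - F.T q p (cc Φ p) (F.tr n z)) fun p => by
        rw [Real.norm_eq_abs, key]
        exact (hPBD S F q p _ _ (small p) z).trans (le_of_eq (by ring))
    rw [Real.norm_eq_abs] at this
    refine this.trans ?_
    calc 200 * (2 * (ε / 1200)) * c ≤ 200 * (2 * (ε / 1200)) * 3 := by gcongr
      _ = ε := by ring
  · rw [big_tr_some_ge F z hq]
    show |F.Pf Φ (some (q, z)) - 0| ≤ ε
    rw [sub_zero, Pf_some]
    have hqN : N + k ≤ q := by omega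
    obtain ⟨c, hc, hc3, hc0⟩ := sum_dd q
    obtain ⟨c', hc', hc3', hc0'⟩ := sum_dd N
    have term : ∀ p, ‖F.T q p (cc Φ p) z‖ ≤ 200 * (ε / 1200) * (1 / 2) ^ dd q p +
        400 * M * (1 / 2) ^ (q - N) * (1 / 2) ^ dd N p := by
      intro p
      rw [Real.norm_eq_abs]
      by_cases hp : p < N
      · have h1 := hPBD S F q p _ _ (cc_le hM p) z
        have e : dd q p = (q - N) + dd N p := by unfold dd; omega
        have e2 : (1 / 2 : ℝ) ^ dd q p = (1 / 2) ^ (q - N) * (1 / 2) ^ dd N p := by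
          rw [e, pow_add]
        have h3 : 0 ≤ 200 * (ε / 1200) * (1 / 2 : ℝ) ^ dd q p := by positivity
        calc |F.T q p (cc Φ p) z| ≤ 200 * (1 / 2) ^ dd q p * (2 * M) := h1
          _ = 400 * M * (1 / 2) ^ (q - N) * (1 / 2) ^ dd N p := by rw [e2]; ring
          _ ≤ _ := by linarith
      · have hs : ∀ w, |cc Φ p w| ≤ ε / 1200 := by
          intro w
          have := hN N le_rfl (some (p, w))
          rw [big_tr_some_ge F _ hp] at this
          exact this
        have h1 := hPBD S F q p _ _ hs z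
        have h3 : 0 ≤ 400 * M * (1 / 2) ^ (q - N) * (1 / 2 : ℝ) ^ dd N p := by positivity
        calc |F.T q p (cc Φ p) z| ≤ 200 * (1 / 2) ^ dd q p * (ε / 1200) := h1
          _ = 200 * (ε / 1200) * (1 / 2) ^ dd q p := by ring
          _ ≤ _ := by linarith
    have := tsum_of_norm_bounded ((hc.mul_left (200 * (ε / 1200))).add
      (hc'.mul_left (400 * M * (1 / 2) ^ (q - N)))) term
    rw [Real.norm_eq_abs] at this
    refine this.trans ?_
    have hpw : (1 / 2 : ℝ) ^ (q - N) ≤ (1 / 2) ^ k :=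
      pow_le_pow_of_le_one (by norm_num) (by norm_num) (by omega)
    have h4 : (1200 * M + 1) * (1 / 2 : ℝ) ^ k ≤ ε / 2 := by
      have : (1 / 2 : ℝ) ^ k ≤ ε / (2 * (1200 * M + 1)) := hk.le
      calc (1200 * M + 1) * (1 / 2 : ℝ) ^ k ≤ (1200 * M + 1) * (ε / (2 * (1200 * M + 1))) := by
            gcongr
        _ = ε / 2 := by field_simp
    have h5 : 0 ≤ (1 / 2 : ℝ) ^ k := by positivity
    calc 200 * (ε / 1200) * c + 400 * M * (1 / 2) ^ (q - N) * c'
        ≤ 200 * (ε / 1200) * 3 + 400 * M * (1 / 2) ^ k * 3 := by gcongr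
      _ = ε / 2 + 1200 * M * (1 / 2) ^ k := by ring
      _ ≤ ε := by nlinarith

end Pool.CE
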