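import Mathlib
import Pool.Agent.Work.MP_052a41_ce.Interface

set_option autoImplicit false

/-! # Block PLIM (helper99): the reproducing formula -/

namespace Pool.CE

open Filter Topology Set

namespace PLIM

variable {S : Type}

/-- `x_n φ → φ` uniformly for `φ` in `IsE` -/
theorem unif (F : Fam S) (φ : S → ℝ) (hφ : IsE F.toTow φ) (ε : ℝ) (hε : 0 < ε) :
    ∃ N, ∀ n ≥ N, ∀ z, |F.x n φ z - φ z| ≤ ε := by
  obtain ⟨_, h2⟩ := hφ
  obtain ⟨m, hm⟩ := h2 (ε / 3) (by positivity)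
  have hm := hm m le_rfl
  -- the finitely many points
  have hfin : (Set.range (F.tr m)).Finite := F.tr_fin m
  have hpt : ∀ w ∈ Set.range (F.tr m), ∀ᶠ n in atTop, |F.x n φ w - φ w| ≤ ε / 3 := by
    intro w _
    have h := F.x_lim φ w
    have h' := (Metric.tendsto_nhds.1 h) (ε / 3) (by positivity)
    filter_upwards [h'] with n hn
    rw [Real.dist_eq] at hn
    exact hn.le
  have hev : ∀ᶠ n in atTop, ∀ w ∈ Set.range (F.tr m), |F.x n φ w - φ w| ≤ ε / 3 :=
    (hfin.eventually_all).2 hpt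
  obtain ⟨N, hN⟩ := eventually_atTop.1 hev
  refine ⟨N, fun n hn z => ?_⟩
  have h1 : |F.x n φ z - F.x n (fun z => φ (F.tr m z)) z| ≤ ε / 3 := by
    have : F.x n φ z - F.x n (fun z => φ (F.tr m z)) z =
        F.x n (φ - fun z => φ (F.tr m z)) z := by
      rw [map_sub]; rfl
    rw [this]
    exact F.x_le n _ _ (fun z => hm z) z
  have h2 : |F.x n (fun z => φ (F.tr m z)) z - φ (F.tr m z)| ≤ ε / 3 := by
    rw [F.x_tr n m φ]
    exact hN n hn _ ⟨z, rfl⟩
  have h3 : |φ (F.tr m z) - φ z| ≤ ε / 3 := by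
    rw [abs_sub_comm]; exact hm z
  have e : F.x n φ z - φ z = (F.x n φ z - F.x n (fun z => φ (F.tr m z)) z) +
      ((F.x n (fun z => φ (F.tr m z)) z - φ (F.tr m z)) + (φ (F.tr m z) - φ z)) := by ring
  rw [e]
  have a1 := abs_add_le (F.x n φ z - F.x n (fun z => φ (F.tr m z)) z)
      ((F.x n (fun z => φ (F.tr m z)) z - φ (F.tr m z)) + (φ (F.tr m z) - φ z))
  have a2 := abs_add_le (F.x n (fun z => φ (F.tr m z)) z - φ (F.tr m z)) (φ (F.tr m z) - φ z)
  linarith

/-- the telescoping sum -/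
theorem tele (F : Fam S) (n : ℕ) :
    (∑ q ∈ Finset.range (n + 1), F.rho q * F.f q) =
      (3 : ℝ) • (F.x n * F.x n) - (2 : ℝ) • (F.x n * F.x n * F.x n) := by
  induction n with
  | zero =>
    rw [Finset.sum_range_one]
    show ((3 : ℝ) • F.x 0 - (2 : ℝ) • (F.x 0 * F.x 0)) * F.x 0 = _
    rw [sub_mul, smul_mul_assoc, smul_mul_assoc]
  | succ n ih =>
    rw [Finset.sum_range_succ, ih]
    show _ + ((3 : ℝ) • (F.x (n + 1) + F.x n) -
      (2 : ℝ) • (F.x (n + 1) * F.x (n + 1) + F.x (n + 1) * F.x n + F.x n * F.x n)) *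
        (F.x (n + 1) - F.x n) = _
    have hc := F.x_comm n (n + 1)
    generalize F.x n = a at *
    generalize F.x (n + 1) = b at *
    have h1 : b * a * b = b * b * a := by rw [mul_assoc, hc, ← mul_assoc]
    have h2 : a * a * b = b * a * a := by rw [mul_assoc, hc, ← mul_assoc, hc]
    simp only [sub_mul, mul_sub, add_mul, smul_mul_assoc, smul_add]
    rw [h1, h2, hc]
    module

end PLIM

theorem blk_PLIM : Stmt_PLIM := by
  intro S F φ hφ ε hε
  obtain ⟨N, hN⟩ := PLIM.unif F φ hφ (ε / 12) (by positivity)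
  refine ⟨N + 1, fun n hn z => ?_⟩
  obtain ⟨n, rfl⟩ : ∃ k, n = k + 1 := ⟨n - 1, by omega⟩
  rw [PLIM.tele]
  have h0 := hN n (by omega)
  -- x (x φ) - x φ
  have h1 : ∀ z, |F.x n (F.x n φ) z - F.x n φ z| ≤ ε / 12 := by
    intro z
    have : F.x n (F.x n φ) z - F.x n φ z = F.x n (F.x n φ - φ) z := by rw [map_sub]; rfl
    rw [this]
    exact F.x_le n _ _ (fun z => h0 z) z
  have h2 : ∀ z, |F.x n (F.x n (F.x n φ)) z - F.x n (F.x n φ) z| ≤ ε / 12 := by
    intro z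
    have : F.x n (F.x n (F.x n φ)) z - F.x n (F.x n φ) z =
        F.x n (F.x n (F.x n φ) - F.x n φ) z := by rw [map_sub]; rfl
    rw [this]
    exact F.x_le n _ _ (fun z => h1 z) z
  have e : ((3 : ℝ) • (F.x n * F.x n) - (2 : ℝ) • (F.x n * F.x n * F.x n)) φ z =
      3 * F.x n (F.x n φ) z - 2 * F.x n (F.x n (F.x n φ)) z := rfl
  rw [e]
  have a0 := abs_le.1 (h0 z)
  have a1 := abs_le.1 (h1 z)
  have a2 := abs_le.1 (h2 z)
  rw [abs_le]
  constructor <;> linarith [a0.1, a0.2, a1.1, a1.2, a2.1, a2.2]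

end Pool.CE
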