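import Mathlib
import Pool.Agent.Work.MP_052a41_ce.Interface
import Pool.Agent.Work.MP_052a41_ce.B_PLIM

set_option autoImplicit false

/-! # Block PJ (helper99): the embedding `j` -/

namespace Pool.CE

open Filter Topology Set

namespace PJ

variable {S : Type}

theorem x_comm' (F : Fam S) (p q : ℕ) : Commute (F.x p) (F.x q) := F.x_comm p q

theorem f_comm_x (F : Fam S) (q p : ℕ) : Commute (F.f q) (F.x p) := by
  cases q with
  | zero => exact x_comm' F 0 p
  | succ q => exact (x_comm' F (q + 1) p).sub_left (x_comm' F q p)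

theorem f_comm_f (F : Fam S) (q p : ℕ) : Commute (F.f q) (F.f p) := by
  cases p with
  | zero => exact f_comm_x F q 0
  | succ p => exact (f_comm_x F q (p + 1)).sub_right (f_comm_x F q p)

theorem f_comm_rho (F : Fam S) (q p : ℕ) : Commute (F.f q) (F.rho p) := by
  cases p with
  | zero =>
    exact ((f_comm_x F q 0).smul_right (3 : ℝ)).sub_right
      (((f_comm_x F q 0).mul_right (f_comm_x F q 0)).smul_right (2 : ℝ))
  | succ p =>
    have a := f_comm_x F q (p + 1)
    have b := f_comm_x F q p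
    exact ((a.add_right b).smul_right (3 : ℝ)).sub_right
      ((((a.mul_right a).add_right (a.mul_right b)).add_right (b.mul_right b)).smul_right (2 : ℝ))

/-- `f q φ` is small, uniformly -/
theorem f_small (F : Fam S) (φ : S → ℝ) (hφ : IsE F.toTow φ) (ε : ℝ) (hε : 0 < ε) :
    ∃ N, ∀ q ≥ N, ∀ z, |F.f q φ z| ≤ ε := by
  obtain ⟨N, hN⟩ := PLIM.unif F φ hφ (ε / 2) (by positivity)
  refine ⟨N + 1, fun q hq z => ?_⟩
  obtain ⟨q, rfl⟩ : ∃ k, q = k + 1 := ⟨q - 1, by omega⟩
  have e : F.f (q + 1) φ z = (F.x (q + 1) φ z - φ z) - (F.x q φ z - φ z) := by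
    show F.x (q + 1) φ z - F.x q φ z = _
    ring
  rw [e]
  have a := abs_le.1 (hN (q + 1) (by omega) z)
  have b := abs_le.1 (hN q (by omega) z)
  rw [abs_le]
  constructor <;> linarith [a.1, a.2, b.1, b.2]

/-- the difference of `f q φ` and its truncation -/
theorem f_tr_sub (h2 : Stmt_PTR) (F : Fam S) (q n : ℕ) (φ : S → ℝ) (M : ℝ)
    (hM : ∀ z, |φ z - φ (F.tr n z)| ≤ M) (z : S) :
    |F.f q φ z - F.f q φ (F.tr n z)| ≤ 2 * M := by
  have e : F.f q φ z - F.f q φ (F.tr n z) = F.f q (φ - fun z => φ (F.tr n z)) z := by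
    have h := congrFun (h2 S F q 0 n φ).2.1 z
    rw [map_sub]
    show _ = F.f q φ z - F.f q (fun z => φ (F.tr n z)) z
    rw [h]
  rw [e]
  exact ((h2 S F q 0 n _).2.2.2 M (fun z => hM z)).1 z

theorem isE_f (h2 : Stmt_PTR) (F : Fam S) (q : ℕ) (φ : S → ℝ) (hφ : IsE F.toTow φ) :
    IsE F.toTow (F.f q φ) := by
  obtain ⟨⟨M, hM⟩, h⟩ := hφ
  refine ⟨⟨2 * M, ((h2 S F q 0 0 φ).2.2.2 M hM).1⟩, fun ε hε => ?_⟩
  obtain ⟨n₀, h⟩ := h (ε / 2) (by positivity)
  refine ⟨n₀, fun n hn z => ?_⟩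
  have := f_tr_sub h2 F q n φ (ε / 2) (h n hn) z
  linarith

/-- summability of the geometric weights -/
theorem summable_dd (q : ℕ) : Summable (fun p => ((1 : ℝ) / 2) ^ dd q p) := by
  rw [← summable_nat_add_iff q]
  have : (fun n : ℕ => ((1 : ℝ) / 2) ^ dd q (n + q)) = fun n : ℕ => ((1 : ℝ) / 2) ^ n := by
    funext n
    congr 1
    unfold dd
    omega
  rw [this]
  exact summable_geometric_two

end PJ

/-- the corrected form of the statement (the third clause for `0 ≤ M`) -/
theorem PJ.main (h1 : Stmt_PBD) (h2 : Stmt_PTR) (h3 : Stmt_PLIM) (S : Type) (F : Fam S)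
    (φ : S → ℝ) (hφ : IsE F.toTow φ) :
    IsE F.toTow.big (F.jf φ) ∧ F.Pf (F.jf φ) = F.jf φ ∧
    ∀ M, 0 ≤ M → (∀ z, |φ z| ≤ M) → ∀ s, |F.jf φ s| ≤ 2 * M := by
  have hbd : ∀ M, 0 ≤ M → (∀ z, |φ z| ≤ M) → ∀ s, |F.jf φ s| ≤ 2 * M := by
    rintro M hM0 hM (_ | ⟨q, z⟩)
    · show |(0 : ℝ)| ≤ 2 * M
      rw [abs_zero]; positivity
    · exact ((h2 S F q 0 0 φ).2.2.2 M hM).1 z
  obtain ⟨⟨M, hM⟩, htr⟩ := hφ
  have hM' : ∀ z, |φ z| ≤ max M 0 := fun z => (hM z).trans (le_max_left _ _)
  have hM0 : 0 ≤ max M 0 := le_max_right _ _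
  have hφ : IsE F.toTow φ := ⟨⟨M, hM⟩, htr⟩
  refine ⟨⟨⟨2 * max M 0, hbd _ hM0 hM'⟩, fun ε hε => ?_⟩, ?_, hbd⟩
  · obtain ⟨n₁, hn₁⟩ := htr (ε / 2) (by positivity)
    obtain ⟨n₂, hn₂⟩ := PJ.f_small F φ hφ ε hε
    refine ⟨max n₁ n₂, fun n hn s => ?_⟩
    rcases s with _ | ⟨q, z⟩
    · show |(0 : ℝ) - 0| ≤ ε
      simpa using hε.le
    · by_cases hq : q < n
      · have e : F.toTow.big.tr n (some (q, z)) = some (q, F.tr n z) := by
          show (if q < n then some (q, F.tr n z) else none) = _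
          rw [if_pos hq]
        rw [e]
        show |F.f q φ z - F.f q φ (F.tr n z)| ≤ ε
        have := PJ.f_tr_sub h2 F q n φ (ε / 2) (hn₁ n (le_trans (le_max_left _ _) hn)) z
        linarith
      · have e : F.toTow.big.tr n (some (q, z)) = none := by
          show (if q < n then some (q, F.tr n z) else none) = _
          rw [if_neg hq]
        rw [e]
        show |F.f q φ z - 0| ≤ ε
        rw [sub_zero]
        exact hn₂ q (by have := le_max_right n₁ n₂; omega) z
  · funext s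
    rcases s with _ | ⟨q, z⟩
    · rfl
    · show ∑' p, F.T q p (fun w => F.jf φ (some (p, w)) - F.jf φ none) z = F.f q φ z
      have e1 : ∀ p, F.T q p (fun w => F.jf φ (some (p, w)) - F.jf φ none) z =
          (F.rho p * F.f p) (F.f q φ) z := by
        intro p
        have : (fun w => F.jf φ (some (p, w)) - F.jf φ none) = F.f p φ := by
          funext w
          show F.f p φ w - 0 = _
          rw [sub_zero]
        rw [this]
        have e2 : F.T q p * F.f p = F.rho p * F.f p * F.f q := by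
          show F.f q * F.rho p * F.f p = _
          rw [(PJ.f_comm_rho F q p).eq, mul_assoc, (PJ.f_comm_f F q p).eq, mul_assoc]
        have e3 := congrArg (fun L : (S → ℝ) →L[ℝ] (S → ℝ) => L φ z) e2
        exact e3
      have hsum : Summable (fun p => (F.rho p * F.f p) (F.f q φ) z) := by
        have e4 : ∀ p, (F.rho p * F.f p) (F.f q φ) z = F.T q p (F.f p φ) z := by
          intro p
          have e2 : F.T q p * F.f p = F.rho p * F.f p * F.f q := by
            show F.f q * F.rho p * F.f p = _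
            rw [(PJ.f_comm_rho F q p).eq, mul_assoc, (PJ.f_comm_f F q p).eq, mul_assoc]
          exact (congrArg (fun L : (S → ℝ) →L[ℝ] (S → ℝ) => L φ z) e2).symm
        refine Summable.of_norm_bounded (g := fun p => 200 * (1 / 2) ^ dd q p * (2 * max M 0))
          (((PJ.summable_dd q).mul_left 200).mul_right _) fun p => ?_
        rw [e4, Real.norm_eq_abs]
        exact h1 S F q p (F.f p φ) (2 * max M 0)
          (((h2 S F p 0 0 φ).2.2.2 _ hM').1) z
      rw [tsum_congr e1]
      have t1 := hsum.hasSum.tendsto_sum_nat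
      have hE := PJ.isE_f h2 F q φ hφ
      have t2 : Tendsto (fun n => ∑ p ∈ Finset.range n, (F.rho p * F.f p) (F.f q φ) z) atTop
          (𝓝 (F.f q φ z)) := by
        rw [Metric.tendsto_atTop]
        intro ε hε
        obtain ⟨N, hN⟩ := h3 S F (F.f q φ) hE (ε / 2) (by positivity)
        refine ⟨N, fun n hn => ?_⟩
        have := hN n hn z
        rw [Real.dist_eq]
        have e5 : (∑ p ∈ Finset.range n, F.rho p * F.f p) (F.f q φ) z =
            ∑ p ∈ Finset.range n, (F.rho p * F.f p) (F.f q φ) z := by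
          rw [ContinuousLinearMap.sum_apply, Finset.sum_apply]
        rw [← e5]
        linarith
      exact tendsto_nhds_unique t1 t2

/-- block PJ -/
theorem blk_PJ (h1 : Stmt_PBD) (h2 : Stmt_PTR) (h3 : Stmt_PLIM) : Stmt_PJ :=
  fun S F φ hφ => PJ.main h1 h2 h3 S F φ hφ

end Pool.CE
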