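import Mathlib
import Pool.Agent.Work.MP_052a41_ce.Interface

/-! (PLIN) linearity of `Pf` (helper75) -/

namespace Pool.CE

open Filter Topology Set

theorem half_pow_dd_le_h75 (q p : ℕ) : (1 / 2 : ℝ) ^ dd q p ≤ 2 ^ q * (1 / 2) ^ p := by
  have h : p ≤ dd q p + q := by unfold dd; omega
  have h1 : (1 / 2 : ℝ) ^ (dd q p + q) ≤ (1 / 2) ^ p :=
    pow_le_pow_of_le_one (by norm_num) (by norm_num) h
  have h2 : (2 : ℝ) ^ q * (1 / 2) ^ (dd q p + q) = (1 / 2) ^ dd q p := by
    rw [pow_add, mul_comm, mul_assoc, ← mul_pow]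
    norm_num
  rw [← h2]
  exact mul_le_mul_of_nonneg_left h1 (by positivity)

theorem summable_half_pow_dd_h75 (q : ℕ) : Summable fun p => (1 / 2 : ℝ) ^ dd q p := by
  refine Summable.of_nonneg_of_le (fun p => by positivity) (half_pow_dd_le_h75 q) ?_
  exact (summable_geometric_of_lt_one (by norm_num) (by norm_num)).mul_left _

theorem summable_T_h75 (h1 : Stmt_PBD) (S : Type) (F : Fam S) (Φ : Option (ℕ × S) → ℝ) (M : ℝ)
    (hΦ : ∀ s, |Φ s| ≤ M) (q : ℕ) (z : S) :
    Summable fun p => F.T q p (fun w => Φ (some (p, w)) - Φ none) z := by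
  refine Summable.of_norm_bounded (g := fun p => (1 / 2 : ℝ) ^ dd q p * (200 * (2 * M)))
    ((summable_half_pow_dd_h75 q).mul_right _) fun p => ?_
  have := h1 S F q p (fun w => Φ (some (p, w)) - Φ none) (2 * M) (fun w => by
    have e1 := hΦ (some (p, w))
    have e2 := hΦ none
    have e3 := abs_sub (Φ (some (p, w))) (Φ none)
    linarith) z
  rw [Real.norm_eq_abs]
  linarith

theorem blk_PLIN (h1 : Stmt_PBD) : Stmt_PLIN := by
  intro S F Φ Ψ hΦ hΨ
  obtain ⟨M, hM⟩ := hΦ.1
  obtain ⟨N, hN⟩ := hΨ.1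
  refine ⟨?_, fun c => ?_⟩
  · funext s
    rcases s with _ | ⟨q, z⟩
    · simp [Fam.Pf]
    · have e : ∀ p, F.T q p (fun w => (Φ + Ψ) (some (p, w)) - (Φ + Ψ) none) z =
          F.T q p (fun w => Φ (some (p, w)) - Φ none) z +
            F.T q p (fun w => Ψ (some (p, w)) - Ψ none) z := by
        intro p
        have : (fun w => (Φ + Ψ) (some (p, w)) - (Φ + Ψ) none) =
            (fun w => Φ (some (p, w)) - Φ none) + fun w => Ψ (some (p, w)) - Ψ none := by
          funext w
          simp only [Pi.add_apply]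
          ring
        rw [this, map_add]
        rfl
      change ∑' p, F.T q p (fun w => (Φ + Ψ) (some (p, w)) - (Φ + Ψ) none) z =
        (∑' p, F.T q p (fun w => Φ (some (p, w)) - Φ none) z) +
          ∑' p, F.T q p (fun w => Ψ (some (p, w)) - Ψ none) z
      rw [tsum_congr e]
      exact (summable_T_h75 h1 S F Φ M hM q z).tsum_add (summable_T_h75 h1 S F Ψ N hN q z)
  · funext s
    rcases s with _ | ⟨q, z⟩
    · simp [Fam.Pf]
    · have e : ∀ p, F.T q p (fun w => (c • Φ) (some (p, w)) - (c • Φ) none) z =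
          c * F.T q p (fun w => Φ (some (p, w)) - Φ none) z := by
        intro p
        have : (fun w => (c • Φ) (some (p, w)) - (c • Φ) none) =
            c • (fun w => Φ (some (p, w)) - Φ none) := by
          funext w
          simp only [Pi.smul_apply, smul_eq_mul]
          ring
        rw [this, map_smul]
        rfl
      change ∑' p, F.T q p (fun w => (c • Φ) (some (p, w)) - (c • Φ) none) z =
        c * ∑' p, F.T q p (fun w => Φ (some (p, w)) - Φ none) z
      rw [tsum_congr e, tsum_mul_left]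

end Pool.CE
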