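import Pool.Agent.Work.MP_052a41_ce.B_PE

set_option autoImplicit false

/-! # Block PT (helper56) -/

namespace Pool.CE

open Filter Topology Set

variable {S : Type}

/-- tail estimate for `f q` -/
theorem tail_f (F : Fam S) (q : ℕ) (y : ℕ → S) (hy : Coh F.toTow y) (ε : ℝ) (hε : 0 < ε) :
    ∃ n₀, ∀ n ≥ n₀, ∀ m, ∀ φ : S → ℝ, (∀ z, |φ z| ≤ 1) →
      |F.f q (fun z => φ z - φ (F.tr n z)) (y m)| ≤ ε := by
  rcases q with _ | q
  · exact F.tail 0 y hy ε hε
  · obtain ⟨n₁, h1⟩ := F.tail (q + 1) y hy (ε / 2) (by positivity)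
    obtain ⟨n₂, h2⟩ := F.tail q y hy (ε / 2) (by positivity)
    refine ⟨max n₁ n₂, fun n hn m φ hφ => ?_⟩
    have e1 := h1 n (le_trans (le_max_left _ _) hn) m φ hφ
    have e2 := h2 n (le_trans (le_max_right _ _) hn) m φ hφ
    have e : F.f (q + 1) (fun z => φ z - φ (F.tr n z)) (y m) =
        F.x (q + 1) (fun z => φ z - φ (F.tr n z)) (y m) -
          F.x q (fun z => φ z - φ (F.tr n z)) (y m) := rfl
    rw [e]
    have := abs_sub (F.x (q + 1) (fun z => φ z - φ (F.tr n z)) (y m))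
      (F.x q (fun z => φ z - φ (F.tr n z)) (y m))
    linarith

theorem tail_fM (F : Fam S) (q : ℕ) (y : ℕ → S) (hy : Coh F.toTow y) (M : ℝ) (hM : 0 < M)
    (ε : ℝ) (hε : 0 < ε) :
    ∃ n₀, ∀ n ≥ n₀, ∀ m, ∀ φ : S → ℝ, (∀ z, |φ z| ≤ M) →
      |F.f q (fun z => φ z - φ (F.tr n z)) (y m)| ≤ ε := by
  obtain ⟨n₀, h⟩ := tail_f F q y hy (ε / M) (by positivity)
  refine ⟨n₀, fun n hn m φ hφ => ?_⟩
  have h1 : ∀ z, |(M⁻¹ • φ) z| ≤ 1 := by
    intro z
    rw [Pi.smul_apply, smul_eq_mul, abs_mul, abs_of_pos (inv_pos.mpr hM)]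
    rw [inv_mul_le_iff₀ hM, mul_one]
    exact hφ z
  have h2 := h n hn m _ h1
  have e : (fun z => (M⁻¹ • φ) z - (M⁻¹ • φ) (F.tr n z)) =
      M⁻¹ • (fun z => φ z - φ (F.tr n z)) := by
    funext z
    simp only [Pi.smul_apply, smul_eq_mul]; ring
  rw [e, map_smul, Pi.smul_apply, smul_eq_mul, abs_mul, abs_of_pos (inv_pos.mpr hM),
    inv_mul_le_iff₀ hM] at h2
  calc _ ≤ M * (ε / M) := h2
    _ = ε := by field_simp

/-- the second component at the time `k` -/
theorem exists_second (F : Fam S) (y : ℕ → Option (ℕ × S)) (hy : Coh F.toTow.big y)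
    (h : ∃ n, y n ≠ none) : ∃ (q n₁ : ℕ) (zz : ℕ → S), ∀ n ≥ n₁, y n = some (q, zz n) := by
  obtain ⟨n₁, h1⟩ := h
  obtain ⟨⟨q, z₁⟩, h2⟩ := Option.ne_none_iff_exists'.mp h1
  have hex : ∀ n, ∃ z, n₁ ≤ n → y n = some (q, z) := by
    intro n
    by_cases hn : n₁ ≤ n
    · have hc := hy n₁ n hn
      rcases hyn : y n with _ | ⟨q', z'⟩
      · rw [hyn, big_tr_none, h2] at hc
        exact absurd hc (by simp)
      · rw [hyn] at hc
        by_cases hq : q' < n₁
        · rw [big_tr_some_lt F z' hq, h2] at hc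
          have : q' = q := by
            have := Option.some.inj hc
            exact congrArg Prod.fst this
          exact ⟨z', fun _ => by rw [this]⟩
        · rw [big_tr_some_ge F z' hq, h2] at hc
          exact absurd hc (by simp)
    · exact ⟨z₁, fun h => absurd h hn⟩
  choose zz hzz using hex
  exact ⟨q, n₁, zz, hzz⟩

theorem blk_PT (hPBD : Stmt_PBD) (hPTR : Stmt_PTR) : Stmt_PT := by
  intro S F y hy ε hε
  by_cases hne : ∃ n, y n ≠ none
  · obtain ⟨q, n₁, zz, hzz⟩ := exists_second F y hy hne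
    -- coherence of the second components
    have hq1 : ∀ n ≥ n₁, q < n ∧ F.tr n (zz n) = zz n := by
      intro n hn
      have hc := hy n n le_rfl
      rw [hzz n hn] at hc
      by_cases hq : q < n
      · rw [big_tr_some_lt F _ hq] at hc
        exact ⟨hq, congrArg Prod.snd (Option.some.inj hc)⟩
      · rw [big_tr_some_ge F _ hq] at hc
        exact absurd hc (by simp)
    have hq2 : ∀ n ≥ n₁, ∀ m ≥ n, F.tr n (zz m) = zz n := by
      intro n hn m hm
      have hc := hy n m hm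
      rw [hzz m (le_trans hn hm), hzz n hn, big_tr_some_lt F _ (hq1 n hn).1] at hc
      exact congrArg Prod.snd (Option.some.inj hc)
    obtain ⟨z', hz'⟩ : ∃ z' : ℕ → S, z' = fun n => F.tr n (zz (max n n₁)) := ⟨_, rfl⟩
    have hcoh : Coh F.toTow z' := by
      intro n m hnm
      have e1 : z' m = F.tr m (zz (max m n₁)) := by rw [hz']
      have e2 : z' n = F.tr n (zz (max n n₁)) := by rw [hz']
      have hj : F.tr (max n n₁) (zz (max m n₁)) = zz (max n n₁) :=
        hq2 _ (le_max_right _ _) _ (max_le_max hnm le_rfl)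
      rw [e1, e2, ← hj]
      rw [F.tr_tr, F.tr_tr, min_eq_left hnm, min_eq_left (le_max_left _ _)]
    have hz'n : ∀ n ≥ n₁, z' n = zz n := by
      intro n hn
      have e2 : z' n = F.tr n (zz (max n n₁)) := by rw [hz']
      rw [e2, max_eq_left hn]
      exact (hq1 n hn).2
    -- the level where the geometric tail is small
    obtain ⟨k, hk⟩ := exists_pow_lt_of_lt_one (show 0 < ε / 2400 by positivity)
      (show (1 / 2 : ℝ) < 1 by norm_num)
    obtain ⟨P, hP⟩ : ∃ P, P = q + k := ⟨_, rfl⟩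
    have hP0 : (0 : ℝ) ≤ P := Nat.cast_nonneg _
    obtain ⟨n₂, hn₂⟩ := tail_fM F q z' hcoh 40 (by norm_num) (ε / (2 * (P + 1))) (by positivity)
    refine ⟨max n₁ n₂, fun n hn m hm Φ hΦE hΦ => ?_⟩
    have hn1 : n₁ ≤ n := le_trans (le_max_left _ _) hn
    have hn2 : n₂ ≤ n := le_trans (le_max_right _ _) hn
    have hm1 : n₁ ≤ m := le_trans hn1 hm
    rw [hzz n hn1, hzz m hm1, Pf_some, Pf_some,
      ← (Pf_summable hPBD F hΦ q (zz m)).tsum_sub (Pf_summable hPBD F hΦ q (zz n))]
    have hzn : zz n = F.tr n (zz m) := (hq2 n hn1 m hm).symm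
    have key : ∀ p, F.T q p (cc Φ p) (zz m) - F.T q p (cc Φ p) (zz n) =
        F.T q p (fun w => cc Φ p w - cc Φ p (F.tr n w)) (zz m) := by
      intro p
      have e1 : F.T q p (fun w => cc Φ p (F.tr n w)) (zz m) = F.T q p (cc Φ p) (F.tr n (zz m)) := by
        rw [(hPTR S F q p n (cc Φ p)).1]
      have e2 : (fun w => cc Φ p w - cc Φ p (F.tr n w)) =
          cc Φ p - (fun w => cc Φ p (F.tr n w)) := rfl
      rw [e2, map_sub, Pi.sub_apply, e1, hzn]
    have hcc : ∀ p w, |cc Φ p w| ≤ 2 := fun p w => by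
      have := cc_le hΦ p w
      linarith
    obtain ⟨c, hc, hc3, hc0⟩ := sum_dd P
    -- the two estimates
    have t1 : ∀ p, |F.T q p (fun w => cc Φ p w - cc Φ p (F.tr n w)) (zz m)| ≤
        ε / (2 * (P + 1)) := by
      intro p
      have e : F.T q p (fun w => cc Φ p w - cc Φ p (F.tr n w)) =
          F.f q (fun w => F.rho p (cc Φ p) w - F.rho p (cc Φ p) (F.tr n w)) := by
        have e2 : (fun w => cc Φ p w - cc Φ p (F.tr n w)) =
          cc Φ p - (fun w => cc Φ p (F.tr n w)) := rfl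
        have e3 : F.T q p (cc Φ p - (fun w => cc Φ p (F.tr n w))) =
          F.f q (F.rho p (cc Φ p - (fun w => cc Φ p (F.tr n w)))) := rfl
        rw [e2, e3, map_sub, (hPTR S F q p n (cc Φ p)).2.2.1]
        rfl
      rw [e, ← hz'n m hm1]
      refine hn₂ n hn2 m _ fun w => ?_
      have := ((hPTR S F q p n (cc Φ p)).2.2.2 2 (hcc p)).2 w
      linarith
    have t2 : ∀ p, |F.T q p (fun w => cc Φ p w - cc Φ p (F.tr n w)) (zz m)| ≤
        200 * (1 / 2) ^ dd q p * 2 := by
      intro p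
      refine hPBD S F q p _ _ (fun w => ?_) (zz m)
      have e : cc Φ p w - cc Φ p (F.tr n w) = Φ (some (p, w)) - Φ (some (p, F.tr n w)) := by
        unfold cc; ring
      rw [e]
      have h1 := hΦ (some (p, w))
      have h2 := hΦ (some (p, F.tr n w))
      rw [abs_le] at *
      constructor <;> linarith
    have term : ∀ p, ‖F.T q p (cc Φ p) (zz m) - F.T q p (cc Φ p) (zz n)‖ ≤
        (if p ∈ Finset.range P then ε / (2 * (P + 1)) else 0) +
          400 * (1 / 2) ^ k * (1 / 2) ^ dd P p := by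
      intro p
      rw [Real.norm_eq_abs, key]
      by_cases hp : p < P
      · rw [if_pos (Finset.mem_range.mpr hp)]
        have := t1 p
        have h3 : 0 ≤ 400 * (1 / 2 : ℝ) ^ k * (1 / 2) ^ dd P p := by positivity
        linarith
      · rw [if_neg (fun h => hp (Finset.mem_range.mp h)), zero_add]
        refine (t2 p).trans (le_of_eq ?_)
        have e : dd q p = k + dd P p := by unfold dd; omega
        rw [e, pow_add]; ring
    have hs1 : HasSum (fun p => if p ∈ Finset.range P then ε / (2 * ((P : ℝ) + 1)) else 0)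
        (∑ p ∈ Finset.range P, if p ∈ Finset.range P then ε / (2 * ((P : ℝ) + 1)) else 0) :=
      hasSum_sum_of_ne_finset_zero fun p hp => if_neg hp
    have := tsum_of_norm_bounded (hs1.add (hc.mul_left (400 * (1 / 2) ^ k))) term
    rw [Real.norm_eq_abs] at this
    refine this.trans ?_
    have s1 : (∑ p ∈ Finset.range P, if p ∈ Finset.range P then ε / (2 * ((P : ℝ) + 1)) else 0) =
        P * (ε / (2 * (P + 1))) := by
      rw [Finset.sum_congr rfl (fun p hp => if_pos hp), Finset.sum_const, Finset.card_range,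
        nsmul_eq_mul]
    rw [s1]
    have s2 : (P : ℝ) * (ε / (2 * (P + 1))) ≤ ε / 2 := by
      rw [mul_div_assoc', div_le_div_iff₀ (by positivity) (by norm_num)]
      nlinarith
    have s3 : 400 * (1 / 2 : ℝ) ^ k * c ≤ 400 * (ε / 2400) * 3 := by
      have : (1 / 2 : ℝ) ^ k ≤ ε / 2400 := hk.le
      gcongr
    linarith
  · replace hne : ∀ n, y n = none := fun n => by_contra fun h => hne ⟨n, h⟩
    refine ⟨0, fun n _ m _ Φ _ _ => ?_⟩
    rw [hne n, hne m, sub_self, abs_zero]
    exact hε.le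

end Pool.CE
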