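import Pool.Agent.Work.MP_052a41_ce.Interface

set_option autoImplicit false

/-! # Block RBC: an unconditional sequence whose blocks grow is boundedly complete -/

namespace Pool.CE

namespace RBC

/-- the sequence `a` cut to the finite set `F` -/
noncomputable def cut (a : ℕ → ℝ) (F : Finset ℕ) : ℕ →₀ ℝ :=
  Finsupp.onFinset F (fun k => if k ∈ F then a k else 0) (by
    intro k hk
    by_contra h
    exact hk (if_neg h))

theorem cut_apply (a : ℕ → ℝ) (F : Finset ℕ) (k : ℕ) :
    cut a F k = if k ∈ F then a k else 0 := rfl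

theorem mem_of_mem_support {a : ℕ → ℝ} {F : Finset ℕ} {k : ℕ} (h : k ∈ (cut a F).support) :
    k ∈ F := Finsupp.support_onFinset_subset h

variable {V : Type} [NormedAddCommGroup V] [NormedSpace ℝ V]

theorem lin_cut (e : ℕ → V) (a : ℕ → ℝ) (F : Finset ℕ) :
    lin e (cut a F) = ∑ k ∈ F, a k • e k := by
  unfold lin
  rw [Finsupp.linearCombination_apply,
    Finsupp.sum_of_support_subset _ (fun k hk => mem_of_mem_support hk) _ (by simp)]
  refine Finset.sum_congr rfl fun k hk => ?_
  rw [cut_apply, if_pos hk]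

end RBC

open RBC

theorem blk_RBC : Stmt_RBC := by
  intro V _ _ e C hU hG a ⟨M, hM⟩
  set s : ℕ → V := fun n => ∑ k ∈ Finset.range n, a k • e k with hs
  have hIco : ∀ m n, m ≤ n → ∑ k ∈ Finset.Ico m n, a k • e k = s n - s m := by
    intro m n hmn
    exact Finset.sum_Ico_eq_sub _ hmn
  rw [Metric.cauchySeq_iff']
  by_contra hcon
  push Not at hcon
  obtain ⟨δ, hδ, hN⟩ := hcon
  choose g hg1 hg2 using hN
  have hlt : ∀ N, N < g N := by
    intro N
    rcases (hg1 N).lt_or_eq with h | h
    · exact h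
    · exfalso
      have := hg2 N
      rw [← h, dist_self] at this
      linarith
  let t : ℕ → ℕ := fun i => g^[i] 0
  have ht : ∀ i, t (i + 1) = g (t i) := fun i => Function.iterate_succ_apply' g i 0
  have htm : StrictMono t := strictMono_nat_of_lt_succ fun i => by rw [ht]; exact hlt _
  let b : ℕ → (ℕ →₀ ℝ) := fun i => cut a (Finset.Ico (t i) (t (i + 1)))
  have hb1 : ∀ i, ∀ k ∈ (b i).support, t i ≤ k ∧ k < t (i + 1) := by
    intro i k hk
    exact Finset.mem_Ico.1 (mem_of_mem_support hk)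
  have hb2 : ∀ i, lin e (b i) = s (t (i + 1)) - s (t i) := by
    intro i
    rw [lin_cut, hIco _ _ (htm.monotone (Nat.le_succ i))]
  have hb3 : ∀ i, δ ≤ ‖lin e (b i)‖ := by
    intro i
    rw [hb2, ← dist_eq_norm, ht]
    exact hg2 (t i)
  obtain ⟨n, hn⟩ := hG δ hδ (2 * M) b t htm hb1 hb3
  have : ∑ i ∈ Finset.range n, lin e (b i) = s (t n) - s (t 0) := by
    rw [Finset.sum_congr rfl fun i _ => hb2 i, Finset.sum_range_sub (fun i => s (t i))]
  rw [this] at hn
  have h1 := norm_sub_le (s (t n)) (s (t 0))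
  have h2 := hM (t n)
  have h3 := hM (t 0)
  change ‖s (t n)‖ ≤ M at h2
  change ‖s (t 0)‖ ≤ M at h3
  linarith

end Pool.CE
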