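import Mathlib
import Pool.Agent.Work.MP_052a41_ce.Interface

set_option autoImplicit false

/-! # Block RFL: reflexivity -/

namespace Pool.CE

open Filter Topology Set

theorem blk_RFL (hRQ : Stmt_RQ) (hRSH : Stmt_RSH) (hRBC : Stmt_RBC) : Stmt_RFL := by
  intro V _ _ _ e C hU hD hc hG hsep φ
  obtain ⟨c, hcpos, hce⟩ := hc
  have hene : ∀ k, e k ≠ 0 := fun k h => by
    have := hce k; rw [h, norm_zero] at this; linarith
  choose Q hQ1 hQ2 hQ3 using hRQ V e C hU hD ⟨c, hcpos, hce⟩
  -- coordinate functionals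
  have hg : ∀ k, ∃ g : V →L[ℝ] ℝ, g (e k) = 1 := fun k => SeparatingDual.exists_eq_one (hene k)
  choose g hg using hg
  let fc : ℕ → (V →L[ℝ] ℝ) := fun k => (g k).comp (Q {k})
  have hfc1 : ∀ k, fc k (e k) = 1 := by
    intro k
    show g k (Q {k} (e k)) = 1
    rw [hQ1 {k} k rfl, hg]
  have hfc0 : ∀ k j, j ≠ k → fc k (e j) = 0 := by
    intro k j hj
    show g k (Q {k} (e j)) = 0
    rw [hQ2 {k} j (by simpa using hj), map_zero]
  let P : ℕ → (V →L[ℝ] V) := fun n => Q {k | k < n}
  have hC : 1 ≤ C := by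
    have h1 := hU (Finsupp.single 0 1) (Finsupp.single 0 1) (fun k => le_refl _)
    have h2 : lin e (Finsupp.single 0 1) = e 0 := by simp [lin]
    rw [h2] at h1
    have h3 : 0 < ‖e 0‖ := norm_pos_iff.mpr (hene 0)
    by_contra h
    push Not at h
    have : C * ‖e 0‖ < 1 * ‖e 0‖ := mul_lt_mul_of_pos_right h h3
    linarith
  -- two continuous linear maps agreeing on the e k are equal
  have hext : ∀ (W : Type) [NormedAddCommGroup W] [NormedSpace ℝ W] (A B : V →L[ℝ] W),
      (∀ k, A (e k) = B (e k)) → A = B := by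
    intro W _ _ A B h
    refine ContinuousLinearMap.ext_on (s := Set.range e) hD ?_
    rintro _ ⟨k, rfl⟩
    exact h k
  have hfP : ∀ (f : V →L[ℝ] ℝ) n, f.comp (P n) = ∑ k ∈ Finset.range n, f (e k) • fc k := by
    intro f n
    refine hext ℝ _ _ fun j => ?_
    rw [ContinuousLinearMap.sum_apply]
    by_cases hj : j < n
    · rw [Finset.sum_eq_single j]
      · show f (Q {k | k < n} (e j)) = f (e j) * fc j (e j)
        rw [hQ1 _ j hj, hfc1, mul_one]
      · intro k _ hk
        show f (e k) * fc k (e j) = 0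
        rw [hfc0 k j hk.symm, mul_zero]
      · intro h
        exact absurd (Finset.mem_range.mpr hj) h
    · rw [Finset.sum_eq_zero]
      · show f (Q {k | k < n} (e j)) = 0
        rw [hQ2 _ j hj, map_zero]
      · intro k hk
        show f (e k) * fc k (e j) = 0
        rw [hfc0 k j, mul_zero]
        rintro rfl
        exact hj (Finset.mem_range.mp hk)
  let a : ℕ → ℝ := fun k => φ (fc k)
  let y : ℕ → V := fun n => ∑ k ∈ Finset.range n, a k • e k
  have hfy : ∀ (f : V →L[ℝ] ℝ) n, f (y n) = φ (f.comp (P n)) := by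
    intro f n
    rw [hfP f n]
    simp only [y, map_sum, map_smul, smul_eq_mul]
    exact Finset.sum_congr rfl fun k _ => mul_comm _ _
  have hPn : ∀ n (v : V), ‖P n v‖ ≤ C * ‖v‖ := fun n v => hQ3 _ v
  have hPop : ∀ n, ‖P n‖ ≤ C := fun n =>
    ContinuousLinearMap.opNorm_le_bound _ (by linarith) (hPn n)
  have hyb : ∀ n, ‖y n‖ ≤ C * ‖φ‖ := by
    intro n
    refine NormedSpace.norm_le_dual_bound ℝ (y n) (by positivity) fun f => ?_
    rw [hfy f n]
    calc ‖φ (f.comp (P n))‖ ≤ ‖φ‖ * ‖f.comp (P n)‖ := φ.le_opNorm _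
      _ ≤ ‖φ‖ * (‖f‖ * ‖P n‖) := by gcongr; exact ContinuousLinearMap.opNorm_comp_le _ _
      _ ≤ ‖φ‖ * (‖f‖ * C) := by gcongr; exact hPop n
      _ = C * ‖φ‖ * ‖f‖ := by ring
  have hcau : CauchySeq y := hRBC V e C hU hG a ⟨C * ‖φ‖, hyb⟩
  obtain ⟨v, hv⟩ := cauchySeq_tendsto_of_complete hcau
  -- f ∘ P n → f
  have hshr : ∀ (f : V →L[ℝ] ℝ), Tendsto (fun n => f.comp (P n)) atTop (𝓝 f) := by
    intro f
    rw [Metric.tendsto_atTop]
    intro ε hε
    obtain ⟨N, hN⟩ := hRSH V e C hU hD ⟨c, hcpos, hce⟩ hsep f (ε / (2 * (1 + C))) (by positivity)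
    refine ⟨N, fun n hn => ?_⟩
    rw [dist_eq_norm, norm_sub_rev]
    have hbd : ∀ x : V, ‖(f - f.comp (P n)) x‖ ≤ ε / 2 * ‖x‖ := by
      intro x
      have hcl : IsClosed {x : V | ‖(f - f.comp (P n)) x‖ ≤ ε / 2 * ‖x‖} :=
        isClosed_le (by fun_prop) (by fun_prop)
      have hsub : ((Submodule.span ℝ (Set.range e) : Submodule ℝ V) : Set V) ⊆
          {x : V | ‖(f - f.comp (P n)) x‖ ≤ ε / 2 * ‖x‖} := by
        intro x hx
        rw [SetLike.mem_coe, Finsupp.mem_span_range_iff_exists_finsupp] at hx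
        obtain ⟨b, rfl⟩ := hx
        have hx' : (b.sum fun i a => a • e i) = lin e b := by
          rw [lin, Finsupp.linearCombination_apply]
        rw [hx']
        show ‖(f - f.comp (P n)) (lin e b)‖ ≤ ε / 2 * ‖lin e b‖
        set b' : ℕ →₀ ℝ := b.filter (fun k => n ≤ k) with hb'
        have hbb : lin e b - P n (lin e b) = lin e b' := by
          simp only [lin, Finsupp.linearCombination_apply, hb']
          rw [Finsupp.sum_filter_index, Finsupp.support_filter]
          simp only [Finsupp.sum, map_sum, map_smul]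
          rw [Finset.sum_filter, ← Finset.sum_sub_distrib]
          refine Finset.sum_congr rfl fun k _ => ?_
          by_cases hk : n ≤ k
          · rw [if_pos hk, show P n (e k) = 0 from hQ2 _ k (by simpa using hk), smul_zero, sub_zero]
          · rw [if_neg hk, show P n (e k) = e k from hQ1 _ k (by simpa using hk), sub_self]
        have h1 : (f - f.comp (P n)) (lin e b) = f (lin e b') := by
          show f (lin e b) - f (P n (lin e b)) = _
          rw [← map_sub, hbb]
        have h2 := hN b' (fun k hk => by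
          rw [hb', Finsupp.support_filter, Finset.mem_filter] at hk
          exact hn.trans hk.2)
        have h3 : ‖lin e b'‖ ≤ (1 + C) * ‖lin e b‖ := by
          rw [← hbb]
          calc ‖lin e b - P n (lin e b)‖ ≤ ‖lin e b‖ + ‖P n (lin e b)‖ := norm_sub_le _ _
            _ ≤ ‖lin e b‖ + C * ‖lin e b‖ := by gcongr; exact hPn n _
            _ = (1 + C) * ‖lin e b‖ := by ring
        rw [h1, Real.norm_eq_abs]
        calc |f (lin e b')| ≤ ε / (2 * (1 + C)) * ‖lin e b'‖ := h2
          _ ≤ ε / (2 * (1 + C)) * ((1 + C) * ‖lin e b‖) := by gcongr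
          _ = ε / 2 * ‖lin e b‖ := by
            have : (1 + C) ≠ 0 := by positivity
            field_simp
      have : x ∈ closure ((Submodule.span ℝ (Set.range e) : Submodule ℝ V) : Set V) := hD x
      exact (closure_minimal hsub hcl) this
    have := ContinuousLinearMap.opNorm_le_bound (f - f.comp (P n)) (by positivity) hbd
    linarith
  refine ⟨v, ?_⟩
  ext f
  show f v = φ f
  have h1 : Tendsto (fun n => f (y n)) atTop (𝓝 (f v)) := (f.continuous.tendsto v).comp hv
  have h2 : Tendsto (fun n => f (y n)) atTop (𝓝 (φ f)) := by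
    simp only [hfy f]
    exact (φ.continuous.tendsto f).comp (hshr f)
  exact tendsto_nhds_unique h1 h2

end Pool.CE
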