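import Mathlib
import Pool.Agent.Work.MP_052a41_ce.Interface

set_option autoImplicit false

/-! Block RID (helper90): infinite dimension. -/

namespace Pool.CE

theorem blk_RID : Stmt_RID := by
  intro V _ _ e C hU hc hfin
  obtain ⟨c, hc, hce⟩ := hc
  have hli : LinearIndependent ℝ e := by
    unfold LinearIndependent
    rw [injective_iff_map_eq_zero]
    intro a ha
    ext k
    have h1 := hU a (Finsupp.single k (a k)) (by
      intro j
      by_cases hj : k = j
      · subst hj; rw [Finsupp.single_eq_same]
      · rw [Finsupp.single_eq_of_ne' hj, abs_zero]; exact abs_nonneg _)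
    have h2 : lin e a = 0 := ha
    rw [h2, norm_zero, mul_zero] at h1
    have h3 : lin e (Finsupp.single k (a k)) = a k • e k := by
      unfold lin; rw [Finsupp.linearCombination_single]
    rw [h3, norm_smul] at h1
    have h4 : 0 < ‖e k‖ := lt_of_lt_of_le hc (hce k)
    have h5 : ‖a k‖ ≤ 0 := by
      by_contra hcon
      push Not at hcon
      nlinarith [mul_pos hcon h4]
    exact norm_le_zero_iff.1 h5
  have := hli.finite
  exact not_finite ℕ

end Pool.CE
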