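import Mathlib
import Pool.Agent.Work.MP_052a41_ce.Interface

set_option autoImplicit false

/-! # Block RSH: shrinking -/

namespace Pool.CE

open Filter Topology Set

namespace RSH

theorem exists_blocks {V : Type} [NormedAddCommGroup V] [NormedSpace ℝ V] (e : ℕ → V)
    (f : V →L[ℝ] ℝ) (ε : ℝ)
    (h : ∀ N, ∃ a : ℕ →₀ ℝ, (∀ k ∈ a.support, N ≤ k) ∧ ε * ‖lin e a‖ < |f (lin e a)|) :
    ∃ (a : ℕ → (ℕ →₀ ℝ)), (∀ i j, i ≠ j → Disjoint (a i).support (a j).support) ∧
      ∀ i, ε * ‖lin e (a i)‖ < |f (lin e (a i))| := by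
  choose b hb1 hb2 using h
  let t : ℕ → ℕ := fun i => Nat.rec 0 (fun _ s => max s ((b s).support.sup id) + 1) i
  have ht : ∀ i, t (i + 1) = max (t i) ((b (t i)).support.sup id) + 1 := fun i => rfl
  have htm : StrictMono t := strictMono_nat_of_lt_succ fun i => by
    rw [ht i]; exact Nat.lt_succ_of_le (le_max_left _ _)
  have hlt : ∀ i, ∀ k ∈ (b (t i)).support, t i ≤ k ∧ k < t (i + 1) := by
    intro i k hk
    refine ⟨hb1 _ k hk, ?_⟩
    rw [ht i]
    have : k ≤ (b (t i)).support.sup id := Finset.le_sup (f := id) hk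
    exact Nat.lt_succ_of_le (this.trans (le_max_right _ _))
  refine ⟨fun i => b (t i), ?_, fun i => hb2 _⟩
  have key : ∀ i j, i < j → Disjoint (b (t i)).support (b (t j)).support := by
    intro i j hij
    rw [Finset.disjoint_left]
    intro k hk hk'
    have h1 := (hlt i k hk).2
    have h2 := (hlt j k hk').1
    have h3 : t (i + 1) ≤ t j := htm.monotone hij
    omega
  intro i j hij
  rcases lt_or_gt_of_ne hij with h | h
  · exact key i j h
  · exact (key j i h).symm

end RSH

theorem blk_RSH (hRQ : Stmt_RQ) : Stmt_RSH := by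
  intro V _ _ _ e C hU hD hc hsep f ε hε
  by_contra hcon
  push Not at hcon
  obtain ⟨a, hdis, hbig⟩ := RSH.exists_blocks e f ε hcon
  choose Q hQ1 hQ2 hQ3 using hRQ V e C hU hD hc
  let U : Set ℕ → Set ℕ := fun E => {k | ∃ i ∈ E, k ∈ (a i).support}
  let F : Set ℕ → (V →L[ℝ] ℝ) := fun E => f.comp (Q (U E))
  have hin : ∀ E : Set ℕ, ∀ i ∈ E, Q (U E) (lin e (a i)) = lin e (a i) := by
    intro E i hi
    simp only [lin, Finsupp.linearCombination_apply, Finsupp.sum, map_sum, map_smul]
    refine Finset.sum_congr rfl fun k hk => ?_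
    rw [hQ1 (U E) k ⟨i, hi, hk⟩]
  have hout : ∀ E : Set ℕ, ∀ i ∉ E, Q (U E) (lin e (a i)) = 0 := by
    intro E i hi
    simp only [lin, Finsupp.linearCombination_apply, Finsupp.sum, map_sum, map_smul]
    refine Finset.sum_eq_zero fun k hk => ?_
    rw [hQ2 (U E) k, smul_zero]
    rintro ⟨j, hj, hk'⟩
    have hij : i ≠ j := fun h => hi (h ▸ hj)
    exact (Finset.disjoint_left.mp (hdis i j hij)) hk hk'
  have hpos : ∀ i, 0 < ‖lin e (a i)‖ := by
    intro i
    rcases (norm_nonneg (lin e (a i))).eq_or_lt with h | h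
    · exfalso
      have h1 := hbig i
      rw [← h] at h1
      have h2 : lin e (a i) = 0 := norm_eq_zero.mp h.symm
      rw [h2, map_zero] at h1
      simp at h1
    · exact h
  have hsepd : ∀ E E' : Set ℕ, ∀ i, i ∈ E → i ∉ E' → ε < ‖F E - F E'‖ := by
    intro E E' i hi hi'
    have h1 : (F E - F E') (lin e (a i)) = f (lin e (a i)) := by
      show f (Q (U E) (lin e (a i))) - f (Q (U E') (lin e (a i))) = _
      rw [hin E i hi, hout E' i hi', map_zero, sub_zero]
    have h2 := (F E - F E').le_opNorm (lin e (a i))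
    rw [h1, Real.norm_eq_abs] at h2
    have h3 := (hbig i).trans_le h2
    exact lt_of_mul_lt_mul_right h3 (norm_nonneg _)
  have hsepd' : ∀ E E' : Set ℕ, E ≠ E' → ε < ‖F E - F E'‖ := by
    intro E E' hne
    have : ∃ i, (i ∈ E ∧ i ∉ E') ∨ (i ∈ E' ∧ i ∉ E) := by
      by_contra hno
      push Not at hno
      exact hne (Set.ext fun i => ⟨fun h => (hno i).1 h, fun h => (hno i).2 h⟩)
    obtain ⟨i, ⟨h1, h2⟩ | ⟨h1, h2⟩⟩ := this
    · exact hsepd E E' i h1 h2
    · rw [norm_sub_rev]; exact hsepd E' E i h1 h2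
  have hcount : (Set.univ : Set (Set ℕ)).Countable := by
    refine Set.PairwiseDisjoint.countable_of_isOpen (s := fun E => Metric.ball (F E) (ε / 2))
      ?_ (fun _ _ => Metric.isOpen_ball) (fun E _ => ⟨F E, Metric.mem_ball_self (by positivity)⟩)
    intro E _ E' _ hne
    refine Metric.ball_disjoint_ball ?_
    rw [dist_eq_norm]
    have := hsepd' E E' hne
    linarith
  rw [Set.countable_univ_iff] at hcount
  obtain ⟨g, hg⟩ := exists_injective_nat (Set ℕ)
  exact Function.cantor_injective g hg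

end Pool.CE
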