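import Mathlib

/-!
# Bounded functionals on `C(K, ℝ)` are dominated by finite measures
-/

namespace Pool.Agent.Work.MP_052a41_ce

open MeasureTheory CompactlySupported
open scoped NNReal Pointwise

namespace Dom

variable {K : Type*} [TopologicalSpace K]

/-- the values of `ν` on `{g : |g| ≤ f}`. -/
def valSet (ν : C(K, ℝ) →L[ℝ] ℝ) (f : K → ℝ≥0) : Set ℝ :=
  {r | ∃ g : C(K, ℝ), (∀ x, |g x| ≤ f x) ∧ ν g = r}

theorem zero_mem (ν : C(K, ℝ) →L[ℝ] ℝ) (f : K → ℝ≥0) : (0 : ℝ) ∈ valSet ν f :=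
  ⟨0, fun x => by simp, by simp⟩

variable [CompactSpace K]

theorem bdd (ν : C(K, ℝ) →L[ℝ] ℝ) (f : C_c(K, ℝ≥0)) : BddAbove (valSet ν f) := by
  obtain ⟨C, hC⟩ := (isCompact_univ.image f.continuous).bddAbove
  refine ⟨‖ν‖ * C, ?_⟩
  rintro _ ⟨g, hg, rfl⟩
  have h1 : ‖g‖ ≤ C := by
    rw [ContinuousMap.norm_le _ C.coe_nonneg]
    intro x
    rw [Real.norm_eq_abs]
    refine (hg x).trans ?_
    exact_mod_cast hC ⟨x, Set.mem_univ x, rfl⟩
  calc ν g ≤ ‖ν g‖ := Real.le_norm_self _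
    _ ≤ ‖ν‖ * ‖g‖ := ν.le_opNorm g
    _ ≤ ‖ν‖ * C := by gcongr

theorem valSet_add (ν : C(K, ℝ) →L[ℝ] ℝ) (f₁ f₂ : C_c(K, ℝ≥0)) :
    valSet ν (f₁ + f₂ : C_c(K, ℝ≥0)) = valSet ν f₁ + valSet ν f₂ := by
  ext r
  rw [Set.mem_add]
  constructor
  · rintro ⟨g, hg, rfl⟩
    let F : C(K, ℝ) := ⟨fun x => (f₁ x : ℝ), by
      exact NNReal.continuous_coe.comp f₁.continuous⟩
    let g₁ : C(K, ℝ) := (g ⊓ F) ⊔ (-F)
    have hg₁ : ∀ x, g₁ x = max (min (g x) (f₁ x : ℝ)) (-(f₁ x : ℝ)) := by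
      intro x; rfl
    refine ⟨ν g₁, ⟨g₁, ?_, rfl⟩, ν (g - g₁), ⟨g - g₁, ?_, rfl⟩, ?_⟩
    · intro x
      rw [hg₁, abs_le]
      have := (f₁ x).coe_nonneg
      constructor
      · exact le_max_right _ _
      · exact max_le (min_le_right _ _) (by linarith)
    · intro x
      have h1 := hg x
      have h2 := (f₁ x).coe_nonneg
      have h3 := (f₂ x).coe_nonneg
      rw [CompactlySupportedContinuousMap.coe_add, Pi.add_apply, NNReal.coe_add, abs_le] at h1
      rw [ContinuousMap.sub_apply, hg₁, abs_le]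
      rcases le_total (g x) (f₁ x : ℝ) with h | h
      · rw [min_eq_left h]
        rcases le_total (g x) (-(f₁ x : ℝ)) with h' | h'
        · rw [max_eq_right h']; constructor <;> linarith
        · rw [max_eq_left h']; constructor <;> linarith
      · rw [min_eq_right h, max_eq_left (by linarith)]
        constructor <;> linarith
    · rw [map_sub]; ring
  · rintro ⟨_, ⟨g₁, h₁, rfl⟩, _, ⟨g₂, h₂, rfl⟩, rfl⟩
    refine ⟨g₁ + g₂, ?_, map_add _ _ _⟩
    intro x
    rw [CompactlySupportedContinuousMap.coe_add, Pi.add_apply, NNReal.coe_add,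
      ContinuousMap.add_apply]
    exact (abs_add_le _ _).trans (add_le_add (h₁ x) (h₂ x))

theorem valSet_smul (ν : C(K, ℝ) →L[ℝ] ℝ) (c : ℝ≥0) (f : C_c(K, ℝ≥0)) :
    valSet ν (c • f : C_c(K, ℝ≥0)) = (c : ℝ) • valSet ν f := by
  ext r
  rw [Set.mem_smul_set]
  constructor
  · rintro ⟨g, hg, rfl⟩
    by_cases hc : c = 0
    · subst hc
      have : g = 0 := by
        ext x
        have := hg x
        rw [zero_smul] at this
        simpa using this
      subst this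
      exact ⟨0, zero_mem ν f, by simp⟩
    · have hc' : (c : ℝ) ≠ 0 := by exact_mod_cast hc
      have hc0 : (0 : ℝ) < c := lt_of_le_of_ne c.coe_nonneg (Ne.symm hc')
      refine ⟨ν ((c : ℝ)⁻¹ • g), ⟨(c : ℝ)⁻¹ • g, ?_, rfl⟩, ?_⟩
      · intro x
        have := hg x
        rw [CompactlySupportedContinuousMap.coe_smul, Pi.smul_apply, smul_eq_mul,
          NNReal.coe_mul] at this
        rw [ContinuousMap.smul_apply, smul_eq_mul, abs_mul, abs_of_pos (inv_pos.2 hc0),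
          inv_mul_le_iff₀ hc0]
        exact this
      · rw [map_smul, smul_smul, mul_inv_cancel₀ hc', one_smul]
  · rintro ⟨_, ⟨g, hg, rfl⟩, rfl⟩
    refine ⟨(c : ℝ) • g, ?_, map_smul _ _ _⟩
    intro x
    rw [CompactlySupportedContinuousMap.coe_smul, Pi.smul_apply, smul_eq_mul,
          NNReal.coe_mul, ContinuousMap.smul_apply, smul_eq_mul, abs_mul,
          abs_of_nonneg c.coe_nonneg]
    exact mul_le_mul_of_nonneg_left (hg x) c.coe_nonneg

/-- the absolute value of `ν`. -/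
noncomputable def absLin (ν : C(K, ℝ) →L[ℝ] ℝ) : C_c(K, ℝ≥0) →ₗ[ℝ≥0] ℝ≥0 where
  toFun f := ⟨sSup (valSet ν f), le_csSup (bdd ν f) (zero_mem ν f)⟩
  map_add' f₁ f₂ := by
    apply NNReal.eq
    change sSup (valSet ν (f₁ + f₂ : C_c(K, ℝ≥0))) = sSup (valSet ν f₁) + sSup (valSet ν f₂)
    rw [valSet_add, csSup_add ⟨0, zero_mem ν f₁⟩ (bdd ν f₁) ⟨0, zero_mem ν f₂⟩ (bdd ν f₂)]
  map_smul' c f := by
    apply NNReal.eq
    change sSup (valSet ν (c • f : C_c(K, ℝ≥0))) = (c : ℝ) * sSup (valSet ν f)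
    rw [valSet_smul, Real.sSup_smul_of_nonneg c.coe_nonneg, smul_eq_mul]

end Dom

/-- Every bounded functional on `C(K, ℝ)` is dominated by a finite measure. -/
theorem exists_dominating_measure {K : Type*} [TopologicalSpace K] [CompactSpace K] [T2Space K]
    [MeasurableSpace K] [BorelSpace K] (ν : C(K, ℝ) →L[ℝ] ℝ) :
    ∃ μ : Measure K, IsFiniteMeasure μ ∧ ∀ g : C(K, ℝ), |ν g| ≤ ∫ x, |g x| ∂μ := by
  refine ⟨NNRealRMK.rieszMeasure (Dom.absLin ν), ?_, ?_⟩
  · constructor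
    let o : C_c(K, ℝ≥0) := ⟨1, HasCompactSupport.of_compactSpace 1⟩
    have h := NNRealRMK.lintegral_rieszMeasure (Dom.absLin ν) o
    have h1 : ∫⁻ (x : K), (o x : ENNReal) ∂(NNRealRMK.rieszMeasure (Dom.absLin ν)) =
        NNRealRMK.rieszMeasure (Dom.absLin ν) Set.univ := by
      have : ∀ x, (o x : ENNReal) = 1 := fun x => by
        change ((1 : ℝ≥0) : ENNReal) = 1
        simp
      simp only [this, lintegral_const, one_mul]
    rw [h1] at h
    rw [h]
    exact ENNReal.coe_lt_top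
  · intro g
    let a : C_c(K, ℝ≥0) := ⟨⟨fun x => ⟨|g x|, abs_nonneg _⟩, by
      exact Continuous.subtype_mk (continuous_abs.comp g.continuous) _⟩,
      HasCompactSupport.of_compactSpace _⟩
    have ha : ∀ x, (a x : ℝ) = |g x| := fun x => rfl
    have h := NNRealRMK.integral_rieszMeasure (Dom.absLin ν) a
    simp only [ha] at h
    rw [h]
    change |ν g| ≤ sSup (Dom.valSet ν a)
    rcases abs_choice (ν g) with h | h
    · rw [h]
      exact le_csSup (Dom.bdd ν a) ⟨g, fun x => (ha x).ge, rfl⟩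
    · rw [h, ← map_neg]
      refine le_csSup (Dom.bdd ν a) ⟨-g, fun x => ?_, rfl⟩
      rw [ha, ContinuousMap.neg_apply, abs_neg]

end Pool.Agent.Work.MP_052a41_ce
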