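import Pool.Agent.Work.MP_052a41_ce.Interface
import Pool.Agent.Work.MP_052a41_ce.Dom

set_option autoImplicit false

/-! # SEP: separability of the dual -/

namespace Pool.CE

namespace SEP

open MeasureTheory Filter Topology Set

variable {K : Type} [TopologicalSpace K] [CompactSpace K]

/-- the oscillation function. -/
noncomputable def osc (X : Submodule ℝ C(K, ℝ)) (r : C(K, K)) (x : K) : ENNReal :=
  ⨆ F : {F : X // ‖F‖ ≤ 1}, ENNReal.ofReal |F.1.1 x - F.1.1 (r x)|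

theorem osc_lsc (X : Submodule ℝ C(K, ℝ)) (r : C(K, K)) : LowerSemicontinuous (osc X r) := by
  apply lowerSemicontinuous_iSup
  intro F
  apply Continuous.lowerSemicontinuous
  apply ENNReal.continuous_ofReal.comp
  exact continuous_abs.comp (F.1.1.continuous.sub (F.1.1.continuous.comp r.continuous))

theorem osc_le (X : Submodule ℝ C(K, ℝ)) (r : C(K, K)) (x : K) : osc X r x ≤ 2 := by
  apply iSup_le
  intro F
  have h1 : |F.1.1 x| ≤ 1 := (F.1.1.norm_coe_le_norm x).trans F.2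
  have h2 : |F.1.1 (r x)| ≤ 1 := (F.1.1.norm_coe_le_norm (r x)).trans F.2
  have h3 : |F.1.1 x - F.1.1 (r x)| ≤ 2 := by
    refine (abs_sub _ _).trans ?_
    linarith
  calc ENNReal.ofReal |F.1.1 x - F.1.1 (r x)| ≤ ENNReal.ofReal 2 := ENNReal.ofReal_le_ofReal h3
    _ = 2 := by simp

theorem osc_tendsto (X : Submodule ℝ C(K, ℝ)) (r : ℕ → C(K, K)) (x : K)
    (h : ∀ ε > 0, ∃ n₀, ∀ n ≥ n₀, ∀ F ∈ X, |F x - F (r n x)| ≤ ε * ‖F‖) :
    Tendsto (fun n => osc X (r n) x) atTop (𝓝 0) := by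
  rw [ENNReal.tendsto_atTop_zero]
  intro ε hε
  obtain ⟨δ, hδ0, hδ⟩ := ENNReal.lt_iff_exists_nnreal_btwn.1 hε
  have hδ0' : (0 : ℝ) < δ := by exact_mod_cast hδ0
  obtain ⟨n₀, hn⟩ := h δ hδ0'
  refine ⟨n₀, fun n hn' => ?_⟩
  apply iSup_le
  intro F
  refine le_trans ?_ hδ.le
  rw [← ENNReal.ofReal_coe_nnreal]
  apply ENNReal.ofReal_le_ofReal
  refine (hn n hn' F.1.1 F.1.2).trans ?_
  have : ‖F.1.1‖ ≤ 1 := F.2
  nlinarith

theorem integral_le [MeasurableSpace K] [BorelSpace K] (μ : Measure K) [IsFiniteMeasure μ]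
    (X : Submodule ℝ C(K, ℝ)) (r : C(K, K)) (F : C(K, ℝ)) (hF : F ∈ X) (h1 : ‖F‖ ≤ 1) :
    ∫ x, |(F - F.comp r) x| ∂μ ≤ (∫⁻ x, osc X r x ∂μ).toReal := by
  have hfin : ∫⁻ x, osc X r x ∂μ ≠ ⊤ := by
    have h2 : ∫⁻ x, osc X r x ∂μ ≤ ∫⁻ _, 2 ∂μ := lintegral_mono fun x => osc_le X r x
    rw [lintegral_const] at h2
    exact ne_top_of_le_ne_top (ENNReal.mul_ne_top (by simp) (measure_ne_top μ univ)) h2
  rw [integral_eq_lintegral_of_nonneg_ae (Eventually.of_forall fun x => abs_nonneg _)]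
  · apply ENNReal.toReal_mono hfin
    apply lintegral_mono
    intro x
    exact le_iSup (fun F : {F : X // ‖F‖ ≤ 1} => ENNReal.ofReal |F.1.1 x - F.1.1 (r x)|)
      ⟨⟨F, hF⟩, h1⟩
  · exact (continuous_abs.comp (F - F.comp r).continuous).aestronglyMeasurable

theorem tendsto_lintegral [MeasurableSpace K] [BorelSpace K] (μ : Measure K) [IsFiniteMeasure μ]
    (X : Submodule ℝ C(K, ℝ)) (r : ℕ → C(K, K))
    (h : ∀ x : K, ∀ ε > 0, ∃ n₀, ∀ n ≥ n₀, ∀ F ∈ X, |F x - F (r n x)| ≤ ε * ‖F‖) :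
    Tendsto (fun n => (∫⁻ x, osc X (r n) x ∂μ).toReal) atTop (𝓝 0) := by
  have h0 : Tendsto (fun n => ∫⁻ x, osc X (r n) x ∂μ) atTop (𝓝 (∫⁻ _, 0 ∂μ)) := by
    apply tendsto_lintegral_of_dominated_convergence (fun _ => (2 : ENNReal))
    · intro n
      exact (osc_lsc X (r n)).measurable
    · intro n
      exact Eventually.of_forall fun x => osc_le X (r n) x
    · rw [lintegral_const]
      exact ENNReal.mul_ne_top (by simp) (measure_ne_top μ univ)
    · exact Eventually.of_forall fun x => osc_tendsto X r x (h x)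
  rw [lintegral_zero] at h0
  have := (ENNReal.tendsto_toReal ENNReal.zero_ne_top).comp h0
  rw [ENNReal.toReal_zero] at this
  exact this

/-- evaluation. -/
noncomputable def ev (x : K) : C(K, ℝ) →L[ℝ] ℝ := ContinuousMap.evalCLM ℝ x

theorem ev_apply (x : K) (F : C(K, ℝ)) : ev x F = F x := rfl

/-- composition with `r`. -/
noncomputable def cr (r : C(K, K)) : C(K, ℝ) →L[ℝ] C(K, ℝ) :=
  ⟨(ContinuousMap.compRightAlgHom ℝ ℝ r).toLinearMap,
    ContinuousMap.compRightAlgHom_continuous ℝ ℝ r⟩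

theorem cr_apply (r : C(K, K)) (F : C(K, ℝ)) : cr r F = F.comp r := rfl

theorem push_mem (ν : C(K, ℝ) →L[ℝ] ℝ) (r : C(K, K)) (hr : (Set.range r).Finite) :
    ν.comp (cr r) ∈ Submodule.span ℝ (Set.range fun y : Set.range r => ev y.1) := by
  have : Finite (Set.range r) := hr
  have h := mem_span_of_iInf_ker_le_ker (𝕜 := ℝ)
    (L := fun y : Set.range r => (ev y.1 : C(K, ℝ) →L[ℝ] ℝ).toLinearMap)
    (K := (ν.comp (cr r)).toLinearMap) (by
      intro F hF
      simp only [Submodule.mem_iInf, LinearMap.mem_ker] at hF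
      rw [LinearMap.mem_ker]
      change ν (F.comp r) = 0
      have : F.comp r = 0 := by
        ext x
        exact hF ⟨r x, x, rfl⟩
      rw [this, map_zero])
  obtain ⟨c, hc⟩ := Finsupp.mem_span_range_iff_exists_finsupp.1 h
  rw [Finsupp.mem_span_range_iff_exists_finsupp]
  refine ⟨c, ?_⟩
  ext F
  have := LinearMap.congr_fun hc F
  rw [Finsupp.sum, LinearMap.sum_apply] at this
  rw [Finsupp.sum, sum_apply]
  exact this

/-- the abstract criterion. -/
theorem sep_abs {E : Type*} [NormedAddCommGroup E] [NormedSpace ℝ E] (X : Submodule ℝ E)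
    {ι : Type*} [Countable ι] (e : ι → E →L[ℝ] ℝ)
    (h : ∀ ν : E →L[ℝ] ℝ, ∀ ε > 0, ∃ φ ∈ Submodule.span ℝ (Set.range e),
      ∀ F ∈ X, ‖F‖ = 1 → |ν F - φ F| ≤ ε) :
    TopologicalSpace.SeparableSpace (X →L[ℝ] ℝ) := by
  let R : (E →L[ℝ] ℝ) →ₗ[ℝ] (X →L[ℝ] ℝ) :=
    { toFun := fun φ => φ.comp X.subtypeL
      map_add' := fun _ _ => rfl
      map_smul' := fun _ _ => rfl }
  let C : Set (X →L[ℝ] ℝ) := Set.range fun i => R (e i)
  have hC : C.Countable := Set.countable_range _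
  have hsep : TopologicalSpace.IsSeparable (closure (Submodule.span ℝ C : Set (X →L[ℝ] ℝ))) :=
    hC.isSeparable.span.closure
  rw [← TopologicalSpace.isSeparable_univ_iff]
  refine hsep.mono ?_
  intro ν' _
  obtain ⟨ν, hν, -⟩ := exists_extension_norm_eq X ν'
  refine (Metric.mem_closure_iff (α := StrongDual ℝ X)
    (s := (Submodule.span ℝ C : Set (X →L[ℝ] ℝ))) (a := ν')).2 ?_
  intro ε hε
  obtain ⟨φ, hφ, hle⟩ := h ν (ε / 2) (half_pos hε)
  refine ⟨R φ, ?_, ?_⟩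
  · have h1 : R φ ∈ (Submodule.span ℝ (Set.range e)).map R := Submodule.mem_map_of_mem hφ
    rw [Submodule.map_span, ← Set.range_comp] at h1
    exact h1
  · refine lt_of_eq_of_lt (dist_eq_norm (E := StrongDual ℝ X) ν' (R φ)) ?_
    refine lt_of_le_of_lt ?_ (half_lt_self hε)
    apply ContinuousLinearMap.opNorm_le_of_unit_norm (half_pos hε).le
    intro F hF
    have h1 : (ν' - R φ) F = ν F.1 - φ F.1 := by
      rw [sub_apply, hν]
      rfl
    rw [h1, Real.norm_eq_abs]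
    exact hle F.1 F.2 hF

theorem main [T2Space K] (X : Submodule ℝ C(K, ℝ)) (r : ℕ → C(K, K)) (hr : ∀ n, (Set.range (r n)).Finite)
    (h : ∀ x : K, ∀ ε > 0, ∃ n₀, ∀ n ≥ n₀, ∀ F ∈ X, |F x - F (r n x)| ≤ ε * ‖F‖) :
    TopologicalSpace.SeparableSpace (X →L[ℝ] ℝ) := by
  let Y : Set K := ⋃ n, Set.range (r n)
  have hY : Countable Y := (Set.countable_iUnion fun n => (hr n).countable).to_subtype
  refine sep_abs (E := C(K, ℝ)) X (fun y : Y => ev y.1) ?_
  intro ν ε hε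
  borelize K
  obtain ⟨μ, hμ, hdom⟩ :=
    Pool.Agent.Work.MP_052a41_ce.exists_dominating_measure (K := K) ν
  have hlim := tendsto_lintegral μ X r h
  obtain ⟨n, hn⟩ := (hlim.eventually (gt_mem_nhds hε)).exists
  refine ⟨ν.comp (cr (r n)), ?_, ?_⟩
  · refine Submodule.span_mono ?_ (push_mem ν (r n) (hr n))
    rintro _ ⟨y, rfl⟩
    exact ⟨⟨y.1, Set.mem_iUnion.2 ⟨n, y.2⟩⟩, rfl⟩
  · intro F hF h1
    have h2 : ν F - (ν.comp (cr (r n))) F = ν (F - F.comp (r n)) := by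
      rw [map_sub]
      rfl
    rw [h2]
    exact ((hdom _).trans (integral_le μ X (r n) F hF h1.le)).trans hn.le

end SEP

theorem blk_SEP : Stmt_SEP := fun _ _ _ _ X r hr h => SEP.main X r hr h

end Pool.CE
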