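import Mathlib
import Pool.Agent.Work.MP_052a41_ce.Interface

set_option autoImplicit false

/-! # Block TAIL: the tail estimate -/

namespace Pool.CE

namespace TAIL

open Prog Filter

theorem evi_le_one (κ : ℕ) (z : Prog) : evi κ z ≤ 1 := by
  unfold evi; split_ifs <;> norm_num

theorem evi_nonneg (κ : ℕ) (z : Prog) : 0 ≤ evi κ z := by
  unfold evi; split_ifs <;> norm_num

theorem evi_eq_one {κ : ℕ} {z : Prog} (h : z.Ev κ) : evi κ z = 1 := by
  unfold evi; rw [if_pos h]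

theorem evi_eq_zero {κ : ℕ} {z : Prog} (h : ¬ z.Ev κ) : evi κ z = 0 := by
  unfold evi; rw [if_neg h]

theorem rank_stepsV (h1 : Stmt_BRK) : ∀ z : VP, ∀ w ∈ stepsV z, rank w.1 < rank z.1 :=
  fun z w hw => h1 z.1 w.1 (mem_stepsV.mp hw)

theorem aop_smul {S : Type} (steps : S → List S) (c : ℝ) (φ : S → ℝ) (z : S) :
    Aop steps (fun w => c * φ w) z = c * Aop steps φ z := by
  unfold Aop
  have h : ((steps z).map fun w => c * φ z - c * φ w).sum =
      c * ((steps z).map fun w => φ z - φ w).sum := by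
    rw [← List.sum_map_mul_left]
    congr 1
    refine List.map_congr_left fun w _ => ?_
    ring
  rw [h]
  ring

/-- the function vanishes on the reachable set -/
theorem case_A (h1 : Stmt_BRK) (h2 : Stmt_GCMP) (h6 : Stmt_BEV) {V : ℝ} (hV : 0 < V)
    {G : (VP → ℝ) →L[ℝ] (VP → ℝ)} (hG : IsG stepsV V G) {n₀ : ℕ} {y : VP}
    (hy : Prog.tr n₀ y.1 = y.1) {n : ℕ} (hn : n₀ ≤ n) (φ : VP → ℝ) :
    G (fun z => φ z - φ (trV n z)) y = 0 := by
  have hT : ∀ z ∈ {w : VP | ∀ k, w.1.Ev k → k < n₀}, ∀ w ∈ stepsV z,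
      w ∈ {w : VP | ∀ k, w.1.Ev k → k < n₀} := by
    intro z hz w hw k hk
    exact hz k ((valid_steps z.1 z.2 w.1 (mem_stepsV.mp hw)).2 k hk)
  have hf : ∀ z ∈ {w : VP | ∀ k, w.1.Ev k → k < n₀}, φ z - φ (trV n z) = 0 := by
    intro z hz
    have h3 : trV n z = z := Subtype.ext (h6.2 z.1 n fun k hk => (hz k hk).trans_le hn)
    rw [h3, sub_self]
  have hA : ∀ z : VP, Aop stepsV (fun _ => (0 : ℝ)) z = 0 := by
    intro z
    unfold Aop
    simp
  have hy' : y ∈ {w : VP | ∀ k, w.1.Ev k → k < n₀} := by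
    intro k hk
    rw [← hy] at hk
    exact (ev_tr _ _ _ hk).2
  obtain ⟨h4, h5⟩ := h2 VP stepsV (fun z => rank z.1) (rank_stepsV h1) V hV.le G hG
    {w : VP | ∀ k, w.1.Ev k → k < n₀} hT (fun z => φ z - φ (trV n z)) (fun _ => 0)
  refine le_antisymm (h5 ?_ y hy') (h4 ?_ y hy')
  · intro z hz
    rw [hA, hf z hz]
    simp
  · intro z hz
    rw [hA, hf z hz]
    simp

theorem case_B (h1 : Stmt_BRK) (h2 : Stmt_GCMP) (h3 : Stmt_TSD) (h4 : Stmt_TBEL) (h6 : Stmt_BEV)
    {V : ℝ} (hV : 0 < V)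
    {G : (VP → ℝ) →L[ℝ] (VP → ℝ)} (hG : IsG stepsV V G) {n₀ κ d : ℕ} {y : VP}
    (hy : InD κ d y.1) (hy2 : Below κ n₀ y.1) {n : ℕ} (hn : n₀ ≤ n) (φ : VP → ℝ)
    (hφ : ∀ z, |φ z| ≤ 1) :
    |G (fun z => φ z - φ (trV n z)) y| ≤ 2 / (1 + d * V / 2) := by
  set T : Set VP := {w : VP | Below κ n₀ w.1 ∧ (w.1.Ev κ → InD κ d w.1)} with hTdef
  have hT : ∀ z ∈ T, ∀ w ∈ stepsV z, w ∈ T := by
    intro z hz w hw
    have hw' := mem_stepsV.mp hw
    refine ⟨(h4 z.1 κ n₀ hz.1).1 w.1 hw', fun hk => ?_⟩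
    have h7 := (valid_steps z.1 z.2 w.1 hw').2 κ hk
    exact (h3 z.1 κ d z.2 (hz.2 h7)).1 w.1 hw' hk
  have hD : (0 : ℝ) < 1 + d * V / 2 := by positivity
  set ψ : VP → ℝ := fun w => 2 / (1 + d * V / 2) * evi κ w.1 with hψ
  have hAe : ∀ z ∈ T, (d : ℝ) / 2 * evi κ z.1 ≤ Aop stepsV (fun w => evi κ w.1) z := by
    intro z hz
    rw [Aop_val]
    by_cases hk : z.1.Ev κ
    · have h7 := (h3 z.1 κ d z.2 (hz.2 hk)).2
      have h8 : ∀ l : List Prog, (l.map fun w => 1 - evi κ w).sum =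
          (l.length : ℝ) - (l.map (evi κ)).sum := by
        intro l
        induction l with
        | nil => simp
        | cons a l ih =>
          rw [List.map_cons, List.sum_cons, ih, List.map_cons, List.sum_cons, List.length_cons]
          push_cast
          ring
      unfold Aop
      rw [evi_eq_one hk, h8]
      linarith
    · rw [evi_eq_zero hk, mul_zero]
      unfold Aop
      refine mul_nonneg (by norm_num) (List.sum_nonneg ?_)
      intro x hx
      rw [List.mem_map] at hx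
      obtain ⟨w, hw, rfl⟩ := hx
      rw [evi_eq_zero hk, evi_eq_zero fun h => hk ((valid_steps z.1 z.2 w hw).2 κ h)]
      norm_num
  have hψA : ∀ z, Aop stepsV ψ z = 2 / (1 + d * V / 2) * Aop stepsV (fun w => evi κ w.1) z :=
    fun z => aop_smul stepsV _ _ z
  have hψ2 : ∀ z ∈ T, 2 * evi κ z.1 ≤ ψ z + V * Aop stepsV ψ z := by
    intro z hz
    rw [hψA]
    have h7 := hAe z hz
    have h8 : 2 / (1 + d * V / 2) * (evi κ z.1 + V * ((d : ℝ) / 2 * evi κ z.1)) =
        2 * evi κ z.1 := by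
      field_simp
    calc 2 * evi κ z.1 = 2 / (1 + d * V / 2) * (evi κ z.1 + V * ((d : ℝ) / 2 * evi κ z.1)) := h8.symm
      _ ≤ 2 / (1 + d * V / 2) * (evi κ z.1 + V * Aop stepsV (fun w => evi κ w.1) z) := by
          refine mul_le_mul_of_nonneg_left ?_ (by positivity)
          have := mul_le_mul_of_nonneg_left h7 hV.le
          linarith
      _ = ψ z + V * (2 / (1 + d * V / 2) * Aop stepsV (fun w => evi κ w.1) z) := by
          rw [hψ]; ring
  have hf : ∀ z ∈ T, |φ z - φ (trV n z)| ≤ 2 * evi κ z.1 := by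
    intro z hz
    by_cases hk : z.1.Ev κ
    · rw [evi_eq_one hk]
      have h7 := abs_sub (φ z) (φ (trV n z))
      have h8 := hφ z
      have h9 := hφ (trV n z)
      linarith
    · have h7 : trV n z = z := Subtype.ext (h6.2 z.1 n fun k hk' => by
        by_contra hcon
        push Not at hcon
        exact hk ((h4 z.1 κ n₀ hz.1).2 k (hn.trans hcon) hk'))
      rw [h7, sub_self, abs_zero, evi_eq_zero hk, mul_zero]
  have hyT : y ∈ T := ⟨hy2, fun _ => hy⟩
  have hG1 := (h2 VP stepsV (fun z => rank z.1) (rank_stepsV h1) V hV.le G hG T hT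
    (fun z => φ z - φ (trV n z)) ψ).2 (fun z hz => (le_abs_self _).trans
      ((hf z hz).trans (hψ2 z hz))) y hyT
  have hneg : ∀ z, Aop stepsV (fun w => -ψ w) z = -Aop stepsV ψ z := by
    intro z
    have := aop_smul stepsV (-1) ψ z
    simpa using this
  have hG2 := (h2 VP stepsV (fun z => rank z.1) (rank_stepsV h1) V hV.le G hG T hT
    (fun z => φ z - φ (trV n z)) (fun w => -ψ w)).1 (fun z hz => by
      rw [hneg]
      have h7 := (hf z hz).trans (hψ2 z hz)
      have h8 := neg_abs_le (φ z - φ (trV n z))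
      linarith) y hyT
  have hψy : ψ y ≤ 2 / (1 + d * V / 2) := by
    rw [hψ]
    have h7 := mul_le_mul_of_nonneg_left (evi_le_one κ y.1)
      (show (0 : ℝ) ≤ 2 / (1 + d * V / 2) by positivity)
    linarith
  rw [abs_le]
  constructor <;> linarith

end TAIL

theorem blk_TAIL (h1 : Stmt_BRK) (h2 : Stmt_GCMP) (h3 : Stmt_TSD) (h4 : Stmt_TBEL)
    (h5 : Stmt_TCOMB) (h6 : Stmt_BEV) : Stmt_TAIL := by
  intro V hV G hG y hy ε hε
  obtain ⟨u, hu⟩ := exists_nat_gt (4 / (ε * V))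
  have hu' : 2 / (1 + u * V / 2) ≤ ε := by
    rw [div_le_iff₀ (by positivity)]
    rw [div_lt_iff₀ (by positivity)] at hu
    nlinarith
  obtain ⟨n₀, h⟩ := h5 u (fun m => (y m).1) (fun n m hnm => congrArg Subtype.val (hy n m hnm))
    (fun m => (y m).2)
  refine ⟨n₀, fun n hn m φ hφ => ?_⟩
  rcases h with h | ⟨κ, d, hd, h⟩
  · rw [TAIL.case_A h1 h2 h6 hV hG (h m) hn φ, abs_zero]
    exact hε.le
  · rcases h m with h | ⟨h, h'⟩
    · rw [TAIL.case_A h1 h2 h6 hV hG h hn φ, abs_zero]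
      exact hε.le
    · refine (TAIL.case_B h1 h2 h3 h4 h6 hV hG h h' hn φ hφ).trans (le_trans ?_ hu')
      have hd' : (u : ℝ) ≤ d := by exact_mod_cast hd
      gcongr

end Pool.CE
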