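import Mathlib
import Pool.Agent.Work.MP_052a41_ce.Interface

set_option autoImplicit false

/-! # Block TBEL (helper7) -/

namespace Pool.CE

open Prog

theorem below_half (κ n κ' : ℕ) (ξ : Fin 2) (l : ℕ) (c : Fin (2 ^ l) → Prog)
    (h : Below κ n (avg κ' l c)) : Below κ n (half κ' ξ l c) := by
  cases l with
  | zero => exact trivial
  | succ l =>
    rcases h with h | ⟨h1, h2⟩
    · exact Or.inl h
    · exact Or.inr ⟨h1, fun j => h2 _⟩

/-- Below is preserved by steps and forces the presence of the event. -/
theorem blk_TBEL : Stmt_TBEL := by
  intro z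
  induction z with
  | nil =>
    intro κ n _
    exact ⟨fun w hw => by simp [steps] at hw, fun k _ h => h.elim⟩
  | leaf m =>
    intro κ n h
    refine ⟨fun w hw => by simp [steps] at hw, fun k hk h' => ?_⟩
    have h1 : m < n := h
    have h2 : k = m := h'
    omega
  | avg κ' l c ih =>
    intro κ n h
    constructor
    · intro w hw
      rw [mem_steps_avg] at hw
      rcases hw with hw | hw | ⟨j, w', hw', hw⟩
      · subst hw; exact below_half _ _ _ _ _ _ h
      · subst hw; exact below_half _ _ _ _ _ _ h
      · subst hw
        rcases h with h | ⟨h1, h2⟩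
        · exact Or.inl h
        · refine Or.inr ⟨h1, fun i => ?_⟩
          by_cases hi : i = j
          · subst hi
            rw [Function.update_self]
            exact (ih i κ n (h2 i)).1 w' hw'
          · rw [Function.update_of_ne hi]
            exact h2 i
    · intro k hk hev
      rcases h with h | ⟨h1, h2⟩
      · exact Or.inl h.symm
      · rcases hev with hev | ⟨j, hev⟩
        · omega
        · exact Or.inr ⟨j, (ih j κ n (h2 j)).2 k hk hev⟩

end Pool.CE
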