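import Mathlib
import Pool.Agent.Work.MP_052a41_ce.Interface

set_option autoImplicit false

namespace Pool.CE

open Prog

theorem tcomb_below_of (κ n : ℕ) (z : Prog) (h : ∀ k, z.Ev k → k < n) : Below κ n z := by
  induction z with
  | nil => exact trivial
  | leaf k => exact h k rfl
  | avg κ' l c ih =>
    exact Or.inr ⟨h κ' (Or.inl rfl), fun j => ih j fun k hk => h k (Or.inr ⟨j, hk⟩)⟩

theorem tcomb_below_mono (κ : ℕ) {n m : ℕ} (hnm : n ≤ m) (z : Prog) (h : Below κ n z) :
    Below κ m z := by
  induction z with
  | nil => exact trivial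
  | leaf k => exact lt_of_lt_of_le h hnm
  | avg κ' l c ih =>
    rcases h with h | ⟨h1, h2⟩
    · exact Or.inl h
    · exact Or.inr ⟨lt_of_lt_of_le h1 hnm, fun j => ih j (h2 j)⟩

theorem tcomb_ev_of_inD (κ : ℕ) (z : Prog) : ∀ d, InD κ d z → z.Ev κ := by
  induction z with
  | nil => intro d h; cases d <;> exact h.elim
  | leaf k =>
    intro d h
    have h' : k = κ ∧ d = 0 := by cases d <;> exact h
    exact h'.1.symm
  | avg κ' l c ih =>
    intro d h
    have h' : (κ' = κ ∧ d = 0) ∨ ∃ d', d = d' + 1 ∧ ∃ j, InD κ d' (c j) := by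
      cases d <;> exact h
    rcases h' with h' | ⟨d', -, j, hj⟩
    · exact Or.inl h'.1.symm
    · exact Or.inr ⟨j, ih j d' hj⟩

theorem tcomb_nil_of (z : Prog) (h : ∀ k, ¬ z.Ev k) : z = Prog.nil := by
  cases z with
  | nil => rfl
  | leaf k => exact absurd rfl (h k)
  | avg κ l c => exact absurd (Or.inl rfl) (h κ)

theorem tcomb_tr_leaf (n k : ℕ) (z : Prog) (h : Prog.tr n z = Prog.leaf k) :
    z = Prog.leaf k ∧ k < n := by
  cases z with
  | nil => exact absurd h (by simp [Prog.tr])
  | leaf k' =>
    unfold Prog.tr at h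
    split_ifs at h with h1
    · injection h with h2
      subst h2
      exact ⟨rfl, h1⟩
  | avg κ l c =>
    unfold Prog.tr at h
    split_ifs at h

theorem tcomb_tr_avg (n κ l : ℕ) (c : Fin (2 ^ l) → Prog) (z : Prog)
    (h : Prog.tr n z = Prog.avg κ l c) :
    κ < n ∧ ∃ c', z = Prog.avg κ l c' ∧ ∀ j, Prog.tr n (c' j) = c j := by
  cases z with
  | nil => exact absurd h (by simp [Prog.tr])
  | leaf k' =>
    unfold Prog.tr at h
    split_ifs at h
  | avg κ' l' c' =>
    unfold Prog.tr at h
    split_ifs at h with h1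
    injection h with h2 h3 h4
    subst h2
    subst h3
    have h5 := eq_of_heq h4
    exact ⟨h1, c', rfl, fun j => congrFun h5 j⟩

theorem tcomb_bev_aux (z : Prog) : ∀ (n : ℕ), (∀ k, z.Ev k → k < n) → Prog.tr n z = z := by
  induction z with
  | nil => intro n _; rfl
  | leaf m =>
    intro n h
    have h1 : m < n := h m rfl
    show Prog.tr n (leaf m) = leaf m
    unfold Prog.tr
    rw [if_pos h1]
  | avg κ l c ih =>
    intro n h
    have h1 : κ < n := h κ (Or.inl rfl)
    show Prog.tr n (avg κ l c) = avg κ l c
    unfold Prog.tr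
    rw [if_pos h1]
    congr 1
    funext j
    exact ih j n fun k hk => h k (Or.inr ⟨j, hk⟩)

theorem blk_TCOMB : Stmt_TCOMB := by
  intro u
  induction u with
  | zero =>
    intro y hcoh hval
    by_cases hall : ∀ m, y m = Prog.nil
    · exact ⟨0, Or.inl fun m => by rw [hall m]; rfl⟩
    push Not at hall
    obtain ⟨m₀, hm₀⟩ := hall
    have hle : ∀ n m, m ≤ n → Prog.tr n (y m) = y m := by
      intro n m h
      conv_lhs => rw [← hcoh m m le_rfl]
      rw [Prog.tr_tr, min_eq_right h, hcoh m m le_rfl]
    cases hy : y m₀ with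
    | nil => exact absurd hy hm₀
    | leaf k =>
      refine ⟨m₀, Or.inl fun m => ?_⟩
      rcases le_total m m₀ with h | h
      · exact hle _ _ h
      · have h1 := hcoh m₀ m h
        rw [hy] at h1
        obtain ⟨h2, h3⟩ := tcomb_tr_leaf _ _ _ h1
        rw [h1, h2]
    | avg κ' l c₀ =>
      refine ⟨m₀, Or.inr ⟨κ', 0, le_rfl, fun m => ?_⟩⟩
      rcases le_total m m₀ with h | h
      · exact Or.inl (hle _ _ h)
      · have h1 := hcoh m₀ m h
        rw [hy] at h1
        obtain ⟨h2, c', h3, h4⟩ := tcomb_tr_avg _ _ _ _ _ h1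
        right
        rw [h3]
        exact ⟨Or.inl ⟨rfl, rfl⟩, Or.inl rfl⟩
  | succ u ih =>
    intro y hcoh hval
    by_cases hall : ∀ m, y m = Prog.nil
    · exact ⟨0, Or.inl fun m => by rw [hall m]; rfl⟩
    push Not at hall
    obtain ⟨m₀, hm₀⟩ := hall
    have hle : ∀ n m, m ≤ n → Prog.tr n (y m) = y m := by
      intro n m h
      conv_lhs => rw [← hcoh m m le_rfl]
      rw [Prog.tr_tr, min_eq_right h, hcoh m m le_rfl]
    cases hy : y m₀ with
    | nil => exact absurd hy hm₀
    | leaf k =>
      refine ⟨m₀, Or.inl fun m => ?_⟩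
      rcases le_total m m₀ with h | h
      · exact hle _ _ h
      · have h1 := hcoh m₀ m h
        rw [hy] at h1
        obtain ⟨h2, h3⟩ := tcomb_tr_leaf _ _ _ h1
        rw [h1, h2]
    | avg κ' l c₀ =>
      have hch : ∀ m, ∃ c : Fin (2 ^ l) → Prog, m₀ ≤ m → y m = Prog.avg κ' l c := by
        intro m
        by_cases h : m₀ ≤ m
        · have h1 := hcoh m₀ m h
          rw [hy] at h1
          obtain ⟨-, c', h3, -⟩ := tcomb_tr_avg _ _ _ _ _ h1
          exact ⟨c', fun _ => h3⟩
        · exact ⟨c₀, fun h' => absurd h' h⟩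
      choose c hc using hch
      have hκ : κ' < m₀ := by
        have h1 := hcoh m₀ m₀ le_rfl
        rw [hy] at h1
        exact (tcomb_tr_avg _ _ _ _ _ h1).1
      have hcc : ∀ n m, m₀ ≤ n → n ≤ m → ∀ j, Prog.tr n (c m j) = c n j := by
        intro n m hn hm j
        have h1 := hcoh n m hm
        rw [hc m (hn.trans hm), hc n hn] at h1
        unfold Prog.tr at h1
        rw [if_pos (lt_of_lt_of_le hκ hn)] at h1
        injection h1 with h2 h3 h4
        exact congrFun h4 j
      let yy : Fin (2 ^ l) → ℕ → Prog := fun j m => Prog.tr m (c (max m m₀) j)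
      have hyy : ∀ j m, m₀ ≤ m → yy j m = c m j := by
        intro j m hm
        show Prog.tr m (c (max m m₀) j) = c m j
        rw [max_eq_left hm]
        exact hcc m m hm le_rfl j
      have hyc : ∀ j n m, n ≤ m → Prog.tr n (yy j m) = yy j n := by
        intro j n m hnm
        show Prog.tr n (Prog.tr m (c (max m m₀) j)) = Prog.tr n (c (max n m₀) j)
        rw [Prog.tr_tr, min_eq_left hnm,
          ← hcc (max n m₀) (max m m₀) (le_max_right _ _) (max_le_max_right _ hnm) j,
          Prog.tr_tr, min_eq_left (le_max_left _ _)]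
      have hvc : ∀ m, m₀ ≤ m → Valid (Prog.avg κ' l (c m)) := by
        intro m hm
        rw [← hc m hm]
        exact hval m
      have hyv : ∀ j m, Valid (yy j m) := by
        intro j m
        exact Prog.valid_tr _ _ ((hvc (max m m₀) (le_max_right _ _)).2.1 j)
      by_cases hconst : ∀ j, ∃ n₁, ∀ m, Prog.tr n₁ (yy j m) = yy j m
      · choose N hN using hconst
        refine ⟨m₀ + ∑ j, N j, Or.inl fun m => ?_⟩
        rcases le_total m m₀ with h | h
        · exact hle _ _ (h.trans (Nat.le_add_right _ _))
        · rw [hc m h]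
          unfold Prog.tr
          rw [if_pos (lt_of_lt_of_le hκ (Nat.le_add_right _ _))]
          congr 1
          funext j
          have h1 := hN j m
          rw [hyy j m h] at h1
          have h2 : N j ≤ ∑ j, N j :=
            Finset.single_le_sum (fun i _ => Nat.zero_le _) (Finset.mem_univ j)
          conv_lhs => rw [← h1]
          rw [Prog.tr_tr, min_eq_right (by omega), h1]
      · push Not at hconst
        obtain ⟨j, hj⟩ := hconst
        obtain ⟨n₁, hn₁⟩ := ih (yy j) (hyc j) (hyv j)
        rcases hn₁ with h | ⟨κ, d, hud, hκd⟩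
        · obtain ⟨m, hm⟩ := hj n₁
          exact absurd (h m) hm
        obtain ⟨m₂, hm₂⟩ := hj n₁
        have hge : ∀ m, m₂ ≤ m → InD κ d (yy j m) ∧ Below κ n₁ (yy j m) := by
          intro m hm
          refine (hκd m).resolve_left ?_
          intro h
          apply hm₂
          have h1 := hyc j m₂ m hm
          rw [← h1, Prog.tr_tr, min_comm, ← Prog.tr_tr, h]
        have hκ2 : κ < m₂ := by
          have h1 := tcomb_ev_of_inD κ _ d (hge m₂ le_rfl).1
          exact (Prog.ev_tr _ _ _ h1).2
        refine ⟨max (max m₀ m₂) n₁, Or.inr ⟨κ, d + 1, by omega, fun m => ?_⟩⟩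
        rcases le_total m (max (max m₀ m₂) n₁) with h | h
        · exact Or.inl (hle _ _ h)
        right
        have hm0 : m₀ ≤ m := by omega
        have hm2 : m₂ ≤ m := by omega
        obtain ⟨g1, g2⟩ := hge m hm2
        rw [hyy j m hm0] at g1 g2
        rw [hc m hm0]
        refine ⟨Or.inr ⟨d, rfl, j, g1⟩, Or.inr ⟨by omega, fun i => ?_⟩⟩
        have hv := hvc m hm0
        rcases lt_trichotomy i j with hij | hij | hij
        · refine tcomb_below_of _ _ _ ?_
          intro k hk
          have h1 := hv.2.2.2 i j hij k κ hk (tcomb_ev_of_inD κ _ d g1)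
          omega
        · rw [hij]
          exact tcomb_below_mono κ (le_max_right _ _) _ g2
        · have hnil : c m i = Prog.nil := by
            refine tcomb_nil_of _ ?_
            intro a ha
            obtain ⟨m', hm'⟩ := hj a
            apply hm'
            -- all events of `yy j m'` are smaller than `a`
            refine (tcomb_bev_aux : ∀ (z : Prog) (n : ℕ), (∀ k, z.Ev k → k < n) →
              Prog.tr n z = z) _ _ ?_
            intro k hk
            have h1 : (c (max m' m) j).Ev k := by
              have h2 := hyc j m' (max m' m) (le_max_left _ _)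
              rw [← h2] at hk
              have h3 := (Prog.ev_tr _ _ _ hk).1
              rw [hyy j _ (hm0.trans (le_max_right _ _))] at h3
              exact h3
            have h2 : (c (max m' m) i).Ev a := by
              have h3 := hcc m (max m' m) hm0 (le_max_right _ _) i
              rw [← h3] at ha
              exact (Prog.ev_tr _ _ _ ha).1
            exact (hvc (max m' m) (hm0.trans (le_max_right _ _))).2.2.2 j i hij k a h1 h2
          rw [hnil]
          exact trivial

end Pool.CE
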