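import Mathlib

/-!
Block DS (helper65): separability of duals.
* `separable_dual_of_boundedBelow`: if `S : Y → X` is bounded below and the dual of `X` is
  separable, so is the dual of `Y`;
* `countable_of_separable_dual`: `L` compact Hausdorff and the dual of `C(L, ℝ)` separable imply
  `L` countable.
-/

set_option autoImplicit false

open Set Filter Topology TopologicalSpace

namespace Pool.Agent.CE

theorem exists_dual_extension {Y X : Type*} [NormedAddCommGroup Y] [NormedSpace ℝ Y]
    [NormedAddCommGroup X] [NormedSpace ℝ X] (S : Y →L[ℝ] X) (c : ℝ) (hc : 0 < c)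
    (hS : ∀ y, c * ‖y‖ ≤ ‖S y‖) (g : StrongDual ℝ Y) :
    ∃ h : StrongDual ℝ X, ∀ y, h (S y) = g y := by
  have hinj : Function.Injective (S : Y →ₗ[ℝ] X) := by
    rw [← LinearMap.ker_eq_bot, LinearMap.ker_eq_bot']
    intro y hy
    have h1 := hS y
    have h2 : S y = 0 := hy
    rw [h2, norm_zero] at h1
    have h3 : ‖y‖ ≤ 0 := by
      by_contra h4
      push Not at h4
      have := mul_pos hc h4
      linarith
    exact norm_le_zero_iff.mp h3
  let e : Y ≃ₗ[ℝ] LinearMap.range (S : Y →ₗ[ℝ] X) := LinearEquiv.ofInjective _ hinj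
  let g' : StrongDual ℝ (LinearMap.range (S : Y →ₗ[ℝ] X)) :=
    LinearMap.mkContinuous ((g : Y →ₗ[ℝ] ℝ).comp (e.symm : _ →ₗ[ℝ] Y)) (‖g‖ / c) (by
      intro z
      obtain ⟨y, rfl⟩ := e.surjective z
      have h1 : ‖(e y : X)‖ = ‖S y‖ := rfl
      have h2 := hS y
      have h3 : ‖y‖ ≤ ‖(e y : X)‖ / c := by
        rw [h1, le_div_iff₀ hc]
        linarith [mul_comm c ‖y‖]
      calc ‖((g : Y →ₗ[ℝ] ℝ).comp (e.symm : _ →ₗ[ℝ] Y)) (e y)‖ = ‖g y‖ := by simp
        _ ≤ ‖g‖ * ‖y‖ := g.le_opNorm y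
        _ ≤ ‖g‖ * (‖(e y : X)‖ / c) := mul_le_mul_of_nonneg_left h3 (norm_nonneg _)
        _ = ‖g‖ / c * ‖e y‖ := by rw [Submodule.coe_norm]; ring)
  obtain ⟨h, hh, -⟩ := exists_extension_norm_eq _ g'
  refine ⟨h, fun y => ?_⟩
  have h1 := hh (e y)
  have h2 : g' (e y) = g y := by
    change g (e.symm (e y)) = g y
    rw [LinearEquiv.symm_apply_apply]
  rw [h2] at h1
  exact h1

theorem separable_dual_of_boundedBelow {Y X : Type*} [NormedAddCommGroup Y] [NormedSpace ℝ Y]
    [NormedAddCommGroup X] [NormedSpace ℝ X] [SeparableSpace (StrongDual ℝ X)]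
    (S : Y →L[ℝ] X) (c : ℝ) (hc : 0 < c)
    (hS : ∀ y, c * ‖y‖ ≤ ‖S y‖) : SeparableSpace (StrongDual ℝ Y) := by
  have hcont : Continuous fun h : StrongDual ℝ X => (h.comp S : StrongDual ℝ Y) := by
    fun_prop
  have hsurj : Function.Surjective fun h : StrongDual ℝ X => (h.comp S : StrongDual ℝ Y) := by
    intro g
    obtain ⟨h, hh⟩ := exists_dual_extension S c hc hS g
    exact ⟨h, ContinuousLinearMap.ext hh⟩
  exact hsurj.denseRange.separableSpace hcont

theorem separable_dual_of_equiv {Y X : Type*} [NormedAddCommGroup Y] [NormedSpace ℝ Y]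
    [NormedAddCommGroup X] [NormedSpace ℝ X] [SeparableSpace (StrongDual ℝ X)]
    (e : Y ≃L[ℝ] X) : SeparableSpace (StrongDual ℝ Y) := by
  have hcont : Continuous fun h : StrongDual ℝ X =>
      (h.comp (e : Y →L[ℝ] X) : StrongDual ℝ Y) := by fun_prop
  have hsurj : Function.Surjective fun h : StrongDual ℝ X =>
      (h.comp (e : Y →L[ℝ] X) : StrongDual ℝ Y) := by
    intro g
    refine ⟨g.comp (e.symm : X →L[ℝ] Y), ?_⟩
    ext y
    simp
  exact hsurj.denseRange.separableSpace hcont

theorem countable_of_separable_dual {L : Type*} [TopologicalSpace L] [CompactSpace L]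
    [T2Space L] [SeparableSpace (StrongDual ℝ C(L, ℝ))] : Countable L := by
  let δ : L → StrongDual ℝ C(L, ℝ) := fun l => ContinuousMap.evalCLM ℝ l
  have hsep : ∀ l l' : L, l ≠ l' → 1 ≤ dist (δ l) (δ l') := by
    intro l l' hll
    obtain ⟨u, hu0, hu1, hu⟩ := exists_continuous_zero_one_of_isClosed
      (isClosed_singleton (x := l)) (isClosed_singleton (x := l'))
      (disjoint_singleton.mpr hll)
    have hnorm : ‖u‖ ≤ 1 := by
      rw [ContinuousMap.norm_le _ zero_le_one]
      intro x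
      rw [Real.norm_eq_abs, abs_le]
      exact ⟨by linarith [(hu x).1], (hu x).2⟩
    have h0 : u l = 0 := hu0 rfl
    have h1 : u l' = 1 := hu1 rfl
    have hd : dist (δ l) (δ l') = ‖δ l - δ l'‖ := dist_eq_norm (δ l) (δ l')
    rw [hd]
    have h2 := (δ l - δ l').le_opNorm u
    have h3 : (δ l - δ l') u = u l - u l' := rfl
    rw [h3, h0, h1] at h2
    have h4 : ‖(0 : ℝ) - 1‖ = 1 := by norm_num
    rw [h4] at h2
    have hN : 0 ≤ ‖δ l - δ l'‖ := (δ l - δ l').opNorm_nonneg
    nlinarith
  have hdisj : (univ : Set L).PairwiseDisjoint fun l => Metric.ball (δ l) (1 / 2) := by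
    intro l _ l' _ hll
    apply Metric.ball_disjoint_ball
    have := hsep l l' hll
    linarith
  have hc := hdisj.countable_of_isOpen (fun l _ => Metric.isOpen_ball)
    (fun l _ => ⟨δ l, Metric.mem_ball_self (by norm_num)⟩)
  exact countable_univ_iff.mp hc

/-- `C(L)` does not embed into a space with separable dual unless `L` is countable. -/
theorem countable_of_embed {L : Type*} [TopologicalSpace L] [CompactSpace L] [T2Space L]
    {X : Type*} [NormedAddCommGroup X] [NormedSpace ℝ X] [SeparableSpace (StrongDual ℝ X)]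
    (S : C(L, ℝ) →L[ℝ] X) (c : ℝ) (hc : 0 < c) (hS : ∀ y, c * ‖y‖ ≤ ‖S y‖) : Countable L := by
  have := separable_dual_of_boundedBelow S c hc hS
  exact countable_of_separable_dual

theorem countable_of_equiv {L : Type*} [TopologicalSpace L] [CompactSpace L] [T2Space L]
    {X : Type*} [NormedAddCommGroup X] [NormedSpace ℝ X] [SeparableSpace (StrongDual ℝ X)]
    (e : X ≃L[ℝ] C(L, ℝ)) : Countable L := by
  have := separable_dual_of_equiv e.symm
  exact countable_of_separable_dual

/-- A space with separable dual is not isomorphic to `C[0,1]`. -/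
theorem not_equiv_Icc {X : Type*} [NormedAddCommGroup X] [NormedSpace ℝ X]
    [SeparableSpace (StrongDual ℝ X)] : ¬ Nonempty (X ≃L[ℝ] C(Set.Icc (0 : ℝ) 1, ℝ)) := by
  rintro ⟨e⟩
  have h1 : Countable (Set.Icc (0 : ℝ) 1) := countable_of_equiv e
  exact (Cardinal.Real.Icc_countable_iff.mp (Set.countable_coe_iff.mp h1)).not_gt one_pos

end Pool.Agent.CE
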