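import Mathlib
import Pool.Agent.Work.MP_052a41_ce.Interface
import Pool.Agent.Work.MP_052a41_ce.B_DS

set_option autoImplicit false

/-! # Block UNC (helper65) -/

namespace Pool.CE

theorem blk_UNC : Stmt_UNC := by
  intro L _ _ _ hL hsep
  apply hL
  have : TopologicalSpace.SeparableSpace (StrongDual ℝ C(L, ℝ)) := hsep
  exact Pool.Agent.CE.countable_of_separable_dual

end Pool.CE
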