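import Mathlib
import Pool.Agent.Work.MP_052a41_ce.Interface
import Pool.Agent.Work.MP_052a41_ce.B_GEX
import Pool.Agent.Work.MP_052a41_ce.B_GCMP
import Pool.Agent.Work.MP_052a41_ce.B_GALG
import Pool.Agent.Work.MP_052a41_ce.B_GPOS
import Pool.Agent.Work.MP_052a41_ce.B_GLIM
import Pool.Agent.Work.MP_052a41_ce.B_GTR
import Pool.Agent.Work.MP_052a41_ce.B_BRK
import Pool.Agent.Work.MP_052a41_ce.B_BATR
import Pool.Agent.Work.MP_052a41_ce.B_BARS
import Pool.Agent.Work.MP_052a41_ce.B_BFIN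
import Pool.Agent.Work.MP_052a41_ce.B_BEV
import Pool.Agent.Work.MP_052a41_ce.B_BWT
import Pool.Agent.Work.MP_052a41_ce.B_BTR
import Pool.Agent.Work.MP_052a41_ce.B_BBD
import Pool.Agent.Work.MP_052a41_ce.B_BH
import Pool.Agent.Work.MP_052a41_ce.B_BGOOD
import Pool.Agent.Work.MP_052a41_ce.B_BREM
import Pool.Agent.Work.MP_052a41_ce.B_BFRESH
import Pool.Agent.Work.MP_052a41_ce.B_BGROW
import Pool.Agent.Work.MP_052a41_ce.B_BLOW
import Pool.Agent.Work.MP_052a41_ce.B_TSD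
import Pool.Agent.Work.MP_052a41_ce.B_TBEL
import Pool.Agent.Work.MP_052a41_ce.B_TCOMB
import Pool.Agent.Work.MP_052a41_ce.B_TAIL
import Pool.Agent.Work.MP_052a41_ce.B_FAM
import Pool.Agent.Work.MP_052a41_ce.B_BE
import Pool.Agent.Work.MP_052a41_ce.B_PBD
import Pool.Agent.Work.MP_052a41_ce.B_PTR
import Pool.Agent.Work.MP_052a41_ce.B_PLIM
import Pool.Agent.Work.MP_052a41_ce.B_PE
import Pool.Agent.Work.MP_052a41_ce.B_PLIN
import Pool.Agent.Work.MP_052a41_ce.B_PP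
import Pool.Agent.Work.MP_052a41_ce.B_PJ
import Pool.Agent.Work.MP_052a41_ce.B_PT
import Pool.Agent.Work.MP_052a41_ce.B_K1
import Pool.Agent.Work.MP_052a41_ce.B_K2
import Pool.Agent.Work.MP_052a41_ce.B_K3
import Pool.Agent.Work.MP_052a41_ce.B_SEP
import Pool.Agent.Work.MP_052a41_ce.B_MA1
import Pool.Agent.Work.MP_052a41_ce.B_MA2
import Pool.Agent.Work.MP_052a41_ce.B_MA3
import Pool.Agent.Work.MP_052a41_ce.B_MA
import Pool.Agent.Work.MP_052a41_ce.B_RQ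
import Pool.Agent.Work.MP_052a41_ce.B_RSH
import Pool.Agent.Work.MP_052a41_ce.B_RBC
import Pool.Agent.Work.MP_052a41_ce.B_RFL
import Pool.Agent.Work.MP_052a41_ce.B_RID
import Pool.Agent.Work.MP_052a41_ce.B_NJ
import Pool.Agent.Work.MP_052a41_ce.B_CORE
import Pool.Agent.Work.MP_052a41_ce.B_DSEP
import Pool.Agent.Work.MP_052a41_ce.B_UNC
import Pool.Agent.Work.MP_052a41_ce.B_F1

set_option autoImplicit false

/-! # Assembly of the counterexample to Rosenthal's question (helper50) -/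

namespace Pool.CE

theorem final_FAM : Stmt_FAM :=
  blk_FAM blk_BRK blk_GEX (blk_GALG blk_GCMP) (blk_GPOS blk_GCMP) blk_GLIM
    (blk_GTR blk_GCMP) blk_BATR blk_BFIN blk_BEV
    (blk_TAIL blk_BRK blk_GCMP blk_TSD blk_TBEL blk_TCOMB blk_BEV)

theorem final_BLOW : Stmt_BLOW :=
  blk_BLOW blk_BRK blk_GCMP (blk_GTR blk_GCMP) blk_BARS (blk_BH blk_BWT) (blk_BGOOD blk_BWT)
    (blk_BREM blk_BWT) blk_BWT

theorem final_MA : Stmt_MA :=
  blk_MA blk_K1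
    (blk_MA1 blk_K2 blk_K3 (blk_PE blk_PBD blk_PTR) (blk_PLIN blk_PBD)
      (blk_PP blk_PBD blk_PTR blk_PLIM))
    (blk_MA2 blk_K2 blk_K3 (blk_PJ blk_PBD blk_PTR blk_PLIM))
    (blk_MA3 blk_K2 blk_K3 blk_SEP (blk_PT blk_PBD blk_PTR))

theorem final_NJ : Stmt_NJ :=
  blk_NJ (blk_BFRESH blk_BWT) (blk_BGROW blk_BWT) blk_BTR blk_BWT

theorem final_CORE : Stmt_CORE :=
  blk_CORE final_MA final_FAM final_BLOW (blk_BE blk_BTR blk_BBD blk_BWT) blk_BWT blk_BBD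
    final_NJ (blk_RFL blk_RQ (blk_RSH blk_RQ) blk_RBC) blk_RID blk_DSEP

theorem final_F1 : Stmt_F1 := blk_F1 final_CORE blk_DSEP blk_UNC

end Pool.CE
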