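import Mathlib
import Pool.Agent.Work.MP_052a41_ce.Interface

set_option autoImplicit false

/-! Block BFIN (helper90): finitely many valid programs with all events `< n`. -/

namespace Pool.CE

open Prog

theorem bfin_aux (n : ℕ) : ∀ m t : ℕ, n ≤ t + m →
    {z : Prog | Valid z ∧ ∀ k, z.Ev k → t ≤ k ∧ k < n}.Finite := by
  intro m
  induction m with
  | zero =>
    intro t ht
    refine (Set.finite_singleton Prog.nil).subset ?_
    rintro z ⟨-, hz⟩
    cases z with
    | nil => rfl
    | leaf k =>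
      have := hz k rfl
      omega
    | avg κ l c =>
      have := hz κ (Or.inl rfl)
      omega
  | succ m ih =>
    intro t ht
    have h1 : (({Prog.nil} : Set Prog) ∪ (fun k => Prog.leaf k) '' (Set.Iio n)).Finite :=
      (Set.finite_singleton _).union ((Set.finite_Iio n).image _)
    have h2 : (⋃ κ ∈ Set.Ico t n, ⋃ l ∈ Set.Iic (4 ^ (κ + 1)),
        (fun c : Fin (2 ^ l) → Prog => Prog.avg κ l c) ''
          (Set.univ.pi fun _ => {z : Prog | Valid z ∧ ∀ k, z.Ev k → κ + 1 ≤ k ∧ k < n})).Finite := by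
      refine (Set.finite_Ico t n).biUnion fun κ hκ => ?_
      refine (Set.finite_Iic _).biUnion fun l _ => ?_
      refine Set.Finite.image _ (Set.Finite.pi fun _ => ih (κ + 1) ?_)
      have := hκ.1
      omega
    refine (h1.union h2).subset ?_
    rintro z ⟨hv, hz⟩
    cases z with
    | nil => exact Or.inl (Or.inl rfl)
    | leaf k => exact Or.inl (Or.inr ⟨k, (hz k rfl).2, rfl⟩)
    | avg κ l c =>
      right
      rw [Set.mem_iUnion₂]
      refine ⟨κ, hz κ (Or.inl rfl), ?_⟩
      rw [Set.mem_iUnion₂]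
      refine ⟨l, hv.1, c, ?_, rfl⟩
      intro j _
      refine ⟨hv.2.1 j, fun k hk => ⟨hv.2.2.1 j k hk, (hz k (Or.inr ⟨j, hk⟩)).2⟩⟩

theorem blk_BFIN : Stmt_BFIN := by
  intro n
  refine (bfin_aux n n 0 (by omega)).subset ?_
  rintro z ⟨hv, hz⟩
  exact ⟨hv, fun k hk => ⟨Nat.zero_le k, hz k hk⟩⟩

end Pool.CE
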