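import Mathlib
import Pool.Agent.Work.MP_052a41_ce.Interface

set_option autoImplicit false

namespace Pool.CE

theorem blk_CVP (hfin : Stmt_BFIN) (hev : Stmt_BEV) : Stmt_CVP := by
  have hcount : (⋃ n : ℕ, {z : Prog | Prog.Valid z ∧ ∀ k, z.Ev k → k < n}).Countable :=
    Set.countable_iUnion fun n => (hfin n).countable
  have hsub : {z : Prog | z.Valid} ⊆
      ⋃ n : ℕ, {z : Prog | Prog.Valid z ∧ ∀ k, z.Ev k → k < n} := by
    intro z hz
    obtain ⟨n, hn⟩ := hev.1 z
    exact Set.mem_iUnion.2 ⟨n, hz, hn⟩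
  exact (hcount.mono hsub).to_subtype

end Pool.CE
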