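import Mathlib

/-!
MP_052a41_ce: linear extension operators C(K) -> C(M) for a compact subset K of a compact
metric space M, embedding of zero dimensional compact metrizable spaces into [0,1],
transfer of complemented subspaces of C(K) to C[0,1].
-/

set_option autoImplicit false
set_option linter.unusedSectionVars false

open TopologicalSpace Set Filter Topology

namespace Pool.Agent.CEExt

section ExtOp

variable {K M : Type*} [TopologicalSpace K] [CompactSpace K] [MetricSpace M] [CompactSpace M]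

/-- Distance to the image of `e`. -/
noncomputable def dF (e : K → M) (x : M) : ℝ := Metric.infDist x (range e)

/-- The weight of the point `a i` in the value at `x` of the extension. -/
noncomputable def wt (e : K → M) (a : ℕ → K) (i : ℕ) (x : M) : ℝ :=
  (1 / 2 : ℝ) ^ i * max 0 (2 * dF e x - dist x (e (a i)))

/-- Total weight. -/
noncomputable def W (e : K → M) (a : ℕ → K) (x : M) : ℝ := ∑' i, wt e a i x

/-- Weighted sum of the values of `f`. -/
noncomputable def Nf (e : K → M) (a : ℕ → K) (f : K → ℝ) (x : M) : ℝ :=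
  ∑' i, wt e a i x * f (a i)

lemma dF_nonneg (e : K → M) (x : M) : 0 ≤ dF e x := Metric.infDist_nonneg

lemma continuous_dF (e : K → M) : Continuous (dF e) := Metric.continuous_infDist_pt _

lemma wt_nonneg (e : K → M) (a : ℕ → K) (i : ℕ) (x : M) : 0 ≤ wt e a i x := by
  unfold wt
  positivity

lemma wt_le (e : K → M) (a : ℕ → K) (i : ℕ) (x : M) :
    wt e a i x ≤ (1 / 2 : ℝ) ^ i * (2 * dF e x) := by
  unfold wt
  have h0 := dF_nonneg e x
  have h1 : (0 : ℝ) ≤ dist x (e (a i)) := dist_nonneg
  apply mul_le_mul_of_nonneg_left _ (by positivity)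
  apply max_le <;> linarith

lemma continuous_wt (e : K → M) (a : ℕ → K) (i : ℕ) : Continuous (wt e a i) := by
  unfold wt
  have h := continuous_dF e
  fun_prop

lemma exists_dF_bound (e : K → M) : ∃ C : ℝ, 0 ≤ C ∧ ∀ x, dF e x ≤ C := by
  obtain ⟨C, hC⟩ := isCompact_univ.exists_bound_of_continuousOn (f := dF e)
    (continuous_dF e).continuousOn
  refine ⟨max C 0, le_max_right _ _, fun x => ?_⟩
  have := hC x (mem_univ _)
  rw [Real.norm_eq_abs, abs_of_nonneg (dF_nonneg e x)] at this
  exact le_max_of_le_left this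

lemma summable_geo (c : ℝ) : Summable (fun i : ℕ => (1 / 2 : ℝ) ^ i * c) :=
  (summable_geometric_of_lt_one (by norm_num) (by norm_num)).mul_right c

lemma summable_wt (e : K → M) (a : ℕ → K) (x : M) : Summable (fun i => wt e a i x) :=
  Summable.of_nonneg_of_le (fun i => wt_nonneg e a i x) (fun i => wt_le e a i x) (summable_geo _)

lemma abs_wt_mul_le (e : K → M) (a : ℕ → K) (f : K → ℝ) (B : ℝ) (hB : ∀ y, |f y| ≤ B)
    (i : ℕ) (x : M) : ‖wt e a i x * f (a i)‖ ≤ wt e a i x * B := by
  rw [Real.norm_eq_abs, abs_mul, abs_of_nonneg (wt_nonneg e a i x)]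
  exact mul_le_mul_of_nonneg_left (hB _) (wt_nonneg e a i x)

lemma summable_wt_mul (e : K → M) (a : ℕ → K) (f : K → ℝ) (B : ℝ) (hB : ∀ y, |f y| ≤ B)
    (x : M) : Summable (fun i => wt e a i x * f (a i)) := by
  apply Summable.of_norm_bounded (g := fun i => wt e a i x * B)
  · exact (summable_wt e a x).mul_right B
  · intro i
    exact abs_wt_mul_le e a f B hB i x

lemma continuous_W (e : K → M) (a : ℕ → K) : Continuous (W e a) := by
  obtain ⟨C, hC0, hC⟩ := exists_dF_bound e
  apply continuous_tsum (u := fun i : ℕ => (1 / 2 : ℝ) ^ i * (2 * C))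
    (fun i => continuous_wt e a i) (summable_geo _)
  intro i x
  rw [Real.norm_eq_abs, abs_of_nonneg (wt_nonneg e a i x)]
  refine (wt_le e a i x).trans (mul_le_mul_of_nonneg_left ?_ (by positivity))
  linarith [hC x]

lemma continuous_Nf (e : K → M) (a : ℕ → K) (f : K → ℝ) (B : ℝ) (hB : ∀ y, |f y| ≤ B) :
    Continuous (Nf e a f) := by
  obtain ⟨C, hC0, hC⟩ := exists_dF_bound e
  by_cases hK : IsEmpty K
  · exact (hK.false (a 0)).elim
  have hB0 : 0 ≤ B := (abs_nonneg _).trans (hB (a 0))
  apply continuous_tsum (u := fun i : ℕ => (1 / 2 : ℝ) ^ i * (2 * C * B))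
    (fun i => (continuous_wt e a i).mul continuous_const) (summable_geo _)
  intro i x
  refine (abs_wt_mul_le e a f B hB i x).trans ?_
  rw [← mul_assoc]
  refine mul_le_mul_of_nonneg_right ?_ hB0
  refine (wt_le e a i x).trans (mul_le_mul_of_nonneg_left ?_ (by positivity))
  linarith [hC x]

lemma W_pos (e : K → M) (he : Continuous e) (a : ℕ → K) (ha : DenseRange a) (x : M)
    (hx : x ∉ range e) : 0 < W e a x := by
  have hcl : IsClosed (range e) := (isCompact_range he).isClosed
  have hne : (range e).Nonempty := ⟨e (a 0), mem_range_self _⟩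
  have hd : 0 < dF e x := (hcl.notMem_iff_infDist_pos hne).1 hx
  have h1 : Metric.infDist x (range e) < 2 * dF e x := by
    unfold dF at hd ⊢
    linarith
  obtain ⟨y, ⟨k, rfl⟩, hy⟩ := (Metric.infDist_lt_iff hne).1 h1
  have hopen : IsOpen {z : K | dist x (e z) < 2 * dF e x} :=
    isOpen_lt (by fun_prop) continuous_const
  obtain ⟨z, hz, ⟨i, rfl⟩⟩ := ha.inter_open_nonempty _ hopen ⟨k, hy⟩
  have hwi : 0 < wt e a i x := by
    unfold wt
    have : 0 < max 0 (2 * dF e x - dist x (e (a i))) := by
      apply lt_max_of_lt_right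
      have hz' : dist x (e (a i)) < 2 * dF e x := hz
      linarith
    positivity
  exact (summable_wt e a x).tsum_pos (fun j => wt_nonneg e a j x) i hwi

lemma Nf_sub_bound (e : K → M) (a : ℕ → K) (f : K → ℝ) (B : ℝ) (hB : ∀ y, |f y| ≤ B) (x : M)
    (c ε : ℝ) (h : ∀ i, wt e a i x ≠ 0 → |f (a i) - c| ≤ ε) :
    |Nf e a f x - c * W e a x| ≤ ε * W e a x := by
  have h1 : Nf e a f x - c * W e a x = ∑' i, wt e a i x * (f (a i) - c) := by
    unfold Nf W
    rw [← tsum_mul_left, ← (summable_wt_mul e a f B hB x).tsum_sub ((summable_wt e a x).mul_left c)]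
    congr 1
    ext i
    ring
  rw [h1, ← Real.norm_eq_abs]
  have hterm : ∀ i, ‖wt e a i x * (f (a i) - c)‖ ≤ ε * wt e a i x := by
    intro i
    rw [Real.norm_eq_abs, abs_mul, abs_of_nonneg (wt_nonneg e a i x)]
    by_cases hw : wt e a i x = 0
    · simp [hw]
    · rw [mul_comm ε]
      exact mul_le_mul_of_nonneg_left (h i hw) (wt_nonneg e a i x)
  have hs : HasSum (fun i => ε * wt e a i x) (ε * W e a x) := by
    unfold W
    exact ((summable_wt e a x).hasSum).mul_left ε
  exact tsum_of_norm_bounded hs hterm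

open Classical in
/-- The extension of `f`. -/
noncomputable def Efun (e : K → M) (a : ℕ → K) (f : K → ℝ) (x : M) : ℝ :=
  if h : x ∈ range e then f h.choose else Nf e a f x / W e a x

lemma Efun_apply (e : K → M) (hinj : Function.Injective e) (a : ℕ → K) (f : K → ℝ) (y : K) :
    Efun e a f (e y) = f y := by
  unfold Efun
  rw [dif_pos (mem_range_self y)]
  have h : e (mem_range_self (f := e) y).choose = e y := (mem_range_self (f := e) y).choose_spec
  rw [hinj h]

lemma Efun_of_notMem (e : K → M) (a : ℕ → K) (f : K → ℝ) (x : M) (hx : x ∉ range e) :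
    Efun e a f x = Nf e a f x / W e a x := by
  unfold Efun
  rw [dif_neg hx]

lemma abs_Efun_le (e : K → M) (he : Continuous e) (hinj : Function.Injective e) (a : ℕ → K)
    (ha : DenseRange a) (f : K → ℝ) (B : ℝ) (hB : ∀ y, |f y| ≤ B) (x : M) :
    |Efun e a f x| ≤ B := by
  by_cases hx : x ∈ range e
  · obtain ⟨y, rfl⟩ := hx
    rw [Efun_apply e hinj]
    exact hB y
  · rw [Efun_of_notMem e a f x hx]
    have hW := W_pos e he a ha x hx
    have h := Nf_sub_bound e a f B hB x 0 B (fun i _ => by simpa using hB (a i))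
    rw [zero_mul, sub_zero] at h
    rw [abs_div, abs_of_pos hW, div_le_iff₀ hW]
    exact h

lemma Efun_near (e : K → M) (he : Continuous e) (hinj : Function.Injective e) (a : ℕ → K)
    (ha : DenseRange a) (f : K → ℝ) (B : ℝ) (hB : ∀ y, |f y| ≤ B) (y₀ : K) (ε δ : ℝ)
    (hδ : ∀ y, dist (e y) (e y₀) < δ → |f y - f y₀| ≤ ε) (x : M)
    (hx : 3 * dist x (e y₀) < δ) : |Efun e a f x - f y₀| ≤ ε := by
  by_cases hxr : x ∈ range e
  · obtain ⟨y, rfl⟩ := hxr
    rw [Efun_apply e hinj]
    apply hδ
    have : (0 : ℝ) ≤ dist (e y) (e y₀) := dist_nonneg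
    linarith
  · rw [Efun_of_notMem e a f x hxr]
    have hW := W_pos e he a ha x hxr
    have h := Nf_sub_bound e a f B hB x (f y₀) ε (by
      intro i hi
      apply hδ
      have h1 : dist x (e (a i)) < 2 * dF e x := by
        by_contra hcon
        apply hi
        unfold wt
        rw [max_eq_left (by linarith [not_lt.1 hcon]), mul_zero]
      have h2 : dF e x ≤ dist x (e y₀) := Metric.infDist_le_dist_of_mem (mem_range_self _)
      have h3 : dist (e (a i)) (e y₀) ≤ dist x (e (a i)) + dist x (e y₀) := by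
        rw [dist_comm x (e (a i))]
        exact dist_triangle _ _ _
      linarith)
    have heq : Nf e a f x / W e a x - f y₀ = (Nf e a f x - f y₀ * W e a x) / W e a x := by
      field_simp
    rw [heq, abs_div, abs_of_pos hW, div_le_iff₀ hW]
    exact h

lemma continuous_Efun (e : K → M) (he : Continuous e) (hinj : Function.Injective e) (a : ℕ → K)
    (ha : DenseRange a) (f : C(K, ℝ)) : Continuous (Efun e a f) := by
  obtain ⟨B, hB'⟩ := isCompact_univ.exists_bound_of_continuousOn (f := f) f.continuous.continuousOn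
  have hB : ∀ y, |f y| ≤ B := fun y => by simpa using hB' y (mem_univ _)
  rw [continuous_iff_continuousAt]
  intro x
  by_cases hx : x ∈ range e
  · obtain ⟨y₀, rfl⟩ := hx
    rw [Metric.continuousAt_iff]
    intro ε hε
    have hemb : IsClosedEmbedding e := he.isClosedEmbedding hinj
    -- there is δ
    have hf : ∀ᶠ y in 𝓝 y₀, |f y - f y₀| < ε / 2 := by
      have := f.continuous.continuousAt (x := y₀)
      rw [Metric.continuousAt_iff'] at this
      exact this (ε / 2) (half_pos hε)
    rw [hemb.isInducing.nhds_eq_comap, Filter.eventually_comap] at hf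
    obtain ⟨δ, hδ0, hδ⟩ := Metric.eventually_nhds_iff.1 hf
    refine ⟨δ / 3, by positivity, ?_⟩
    intro x hx
    rw [Efun_apply e hinj, Real.dist_eq]
    refine lt_of_le_of_lt (Efun_near e he hinj a ha f B hB y₀ (ε / 2) δ ?_ x ?_) (half_lt_self hε)
    · intro y hy
      exact (hδ hy y rfl).le
    · linarith
  · have hcl : IsClosed (range e) := (isCompact_range he).isClosed
    have hW := W_pos e he a ha x hx
    have hev : (fun z => Nf e a f z / W e a z) =ᶠ[𝓝 x] Efun e a f := by
      filter_upwards [hcl.isOpen_compl.mem_nhds hx] with z hz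
      exact (Efun_of_notMem e a f z hz).symm
    refine ContinuousAt.congr ?_ hev
    exact (continuous_Nf e a f B hB).continuousAt.div (continuous_W e a).continuousAt hW.ne'

lemma Nf_add (e : K → M) (a : ℕ → K) (f g : K → ℝ) (B : ℝ) (hB : ∀ y, |f y| ≤ B)
    (B' : ℝ) (hB' : ∀ y, |g y| ≤ B') (x : M) :
    Nf e a (fun y => f y + g y) x = Nf e a f x + Nf e a g x := by
  unfold Nf
  rw [← (summable_wt_mul e a f B hB x).tsum_add (summable_wt_mul e a g B' hB' x)]
  congr 1
  ext i
  ring

lemma Nf_smul (e : K → M) (a : ℕ → K) (f : K → ℝ) (c : ℝ) (x : M) :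
    Nf e a (fun y => c * f y) x = c * Nf e a f x := by
  unfold Nf
  rw [← tsum_mul_left]
  congr 1
  ext i
  ring

/-- A norm one linear extension operator. -/
theorem exists_extension_operator [SeparableSpace K] [Nonempty K] (e : K → M)
    (he : Continuous e) (hinj : Function.Injective e) :
    ∃ E : C(K, ℝ) →L[ℝ] C(M, ℝ), (∀ f y, E f (e y) = f y) ∧ ∀ f, ‖E f‖ ≤ ‖f‖ := by
  set a : ℕ → K := denseSeq K with ha_def
  have ha : DenseRange a := denseRange_denseSeq K
  have hbd : ∀ (f : C(K, ℝ)) (y : K), |f y| ≤ ‖f‖ := fun f y => f.norm_coe_le_norm y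
  let L : C(K, ℝ) →ₗ[ℝ] C(M, ℝ) :=
    { toFun := fun f => ⟨Efun e a f, continuous_Efun e he hinj a ha f⟩
      map_add' := by
        intro f g
        ext x
        show Efun e a (fun y => f y + g y) x = Efun e a f x + Efun e a g x
        by_cases hx : x ∈ range e
        · obtain ⟨y, rfl⟩ := hx
          rw [Efun_apply e hinj, Efun_apply e hinj, Efun_apply e hinj]
        · rw [Efun_of_notMem e a _ x hx, Efun_of_notMem e a _ x hx, Efun_of_notMem e a _ x hx,
            Nf_add e a f g ‖f‖ (hbd f) ‖g‖ (hbd g) x, add_div]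
      map_smul' := by
        intro c f
        ext x
        show Efun e a (fun y => c * f y) x = c * Efun e a f x
        by_cases hx : x ∈ range e
        · obtain ⟨y, rfl⟩ := hx
          rw [Efun_apply e hinj, Efun_apply e hinj]
        · rw [Efun_of_notMem e a _ x hx, Efun_of_notMem e a _ x hx, Nf_smul, mul_div_assoc] }
  have hL : ∀ f, ‖L f‖ ≤ 1 * ‖f‖ := by
    intro f
    rw [one_mul, ContinuousMap.norm_le _ (norm_nonneg f)]
    intro x
    exact abs_Efun_le e he hinj a ha f ‖f‖ (hbd f) x
  refine ⟨L.mkContinuous 1 hL, ?_, ?_⟩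
  · intro f y
    exact Efun_apply e hinj a f y
  · intro f
    have := hL f
    rw [one_mul] at this
    exact this

end ExtOp

section Emb

/-- Zero dimensional compact metrizable spaces embed in `[0,1]`. -/
theorem exists_embedding_nat_bool (K : Type*) [TopologicalSpace K] [CompactSpace K] [T2Space K]
    [TotallyDisconnectedSpace K] [SecondCountableTopology K] :
    ∃ e : K → (ℕ → Bool), Continuous e ∧ Function.Injective e := by
  classical
  have hbasis : IsTopologicalBasis {s : Set K | IsClopen s} :=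
    loc_compact_Haus_tot_disc_of_zero_dim
  obtain ⟨B, hBsub, hBc, hB⟩ := hbasis.exists_countable
  obtain ⟨b, hb⟩ := (hBc.insert univ).exists_eq_range (insert_nonempty _ _)
  have hclopen : ∀ n, IsClopen (b n) := by
    intro n
    have : b n ∈ insert univ B := by
      rw [hb]
      exact mem_range_self n
    rcases this with h | h
    · rw [h]
      exact isClopen_univ
    · exact hBsub h
  refine ⟨fun x n => decide (x ∈ b n), ?_, ?_⟩
  · refine continuous_pi fun n => ?_
    rw [continuous_discrete_rng]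
    intro c
    cases c
    · have h : (fun x => decide (x ∈ b n)) ⁻¹' {false} = (b n)ᶜ := by
        ext x
        simp
      rw [h]
      exact (hclopen n).compl.isOpen
    · have h : (fun x => decide (x ∈ b n)) ⁻¹' {true} = b n := by
        ext x
        simp
      rw [h]
      exact (hclopen n).isOpen
  · intro x y hxy
    by_contra hne
    obtain ⟨u, v, hu, hv, hxu, hyv, huv⟩ := t2_separation hne
    obtain ⟨s, hs, hxs, hsu⟩ := hB.exists_subset_of_mem_open hxu hu
    have : s ∈ range b := by
      rw [← hb]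
      exact mem_insert_of_mem _ hs
    obtain ⟨n, rfl⟩ := this
    have h := congrFun hxy n
    simp only [hxs, decide_true] at h
    have hy : y ∈ b n := of_decide_eq_true h.symm
    exact (disjoint_left.1 huv (hsu hy)) hyv

/-- Zero dimensional compact metrizable spaces embed in `[0,1]`. -/
theorem exists_embedding_unitInterval (K : Type*) [TopologicalSpace K] [CompactSpace K]
    [T2Space K] [TotallyDisconnectedSpace K] [SecondCountableTopology K] :
    ∃ e : K → Set.Icc (0 : ℝ) 1, Continuous e ∧ Function.Injective e := by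
  obtain ⟨e, he, hinj⟩ := exists_embedding_nat_bool K
  refine ⟨fun x => ⟨(cantorSetHomeomorphNatToBool.symm (e x) : ℝ),
    cantorSet_subset_unitInterval (cantorSetHomeomorphNatToBool.symm (e x)).2⟩, ?_, ?_⟩
  · refine Continuous.subtype_mk ?_ _
    exact continuous_subtype_val.comp (cantorSetHomeomorphNatToBool.symm.continuous.comp he)
  · intro x y hxy
    have h1 : (cantorSetHomeomorphNatToBool.symm (e x) : ℝ) =
        (cantorSetHomeomorphNatToBool.symm (e y) : ℝ) :=
      congrArg (fun z : Set.Icc (0 : ℝ) 1 => (z : ℝ)) hxy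
    exact hinj (cantorSetHomeomorphNatToBool.symm.injective (Subtype.ext h1))

end Emb

section Transfer

/-- The extension operator into `C[0,1]` together with the restriction operator. -/
theorem exists_ext_res (K : Type*) [TopologicalSpace K] [CompactSpace K] [Nonempty K]
    [T2Space K] [TotallyDisconnectedSpace K] [SecondCountableTopology K] :
    ∃ (E : C(K, ℝ) →L[ℝ] C(Set.Icc (0 : ℝ) 1, ℝ)) (R : C(Set.Icc (0 : ℝ) 1, ℝ) →L[ℝ] C(K, ℝ)),
      (∀ f, R (E f) = f) ∧ (∀ f, ‖E f‖ = ‖f‖) ∧ (∀ g, ‖R g‖ ≤ ‖g‖) := by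
  obtain ⟨e, he, hinj⟩ := exists_embedding_unitInterval K
  obtain ⟨E, hE, hEn⟩ := exists_extension_operator e he hinj
  let R0 : C(Set.Icc (0 : ℝ) 1, ℝ) →ₗ[ℝ] C(K, ℝ) :=
    { toFun := fun g => g.comp ⟨e, he⟩
      map_add' := fun g h => rfl
      map_smul' := fun c g => rfl }
  have hR0 : ∀ g, ‖R0 g‖ ≤ 1 * ‖g‖ := by
    intro g
    rw [one_mul, ContinuousMap.norm_le _ (norm_nonneg g)]
    intro y
    exact g.norm_coe_le_norm (e y)
  have hRE : ∀ f, (R0.mkContinuous 1 hR0) (E f) = f := by
    intro f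
    ext y
    exact hE f y
  have hRn : ∀ g, ‖(R0.mkContinuous 1 hR0) g‖ ≤ ‖g‖ := by
    intro g
    have := hR0 g
    rw [one_mul] at this
    exact this
  refine ⟨E, R0.mkContinuous 1 hR0, hRE, ?_, hRn⟩
  intro f
  apply le_antisymm (hEn f)
  calc ‖f‖ = ‖(R0.mkContinuous 1 hR0) (E f)‖ := by rw [hRE]
    _ ≤ ‖E f‖ := hRn _

/-- A complemented subspace of `C(K)`, `K` compact metrizable zero dimensional, is isomorphic to a
complemented subspace of `C[0,1]`. -/
theorem complemented_transfer (K : Type*) [TopologicalSpace K] [CompactSpace K] [Nonempty K]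
    [T2Space K] [TotallyDisconnectedSpace K] [SecondCountableTopology K]
    (X : Submodule ℝ C(K, ℝ)) (hX : X.ClosedComplemented) :
    ∃ p : Submodule ℝ C(Set.Icc (0 : ℝ) 1, ℝ),
      p.ClosedComplemented ∧ Nonempty (X ≃L[ℝ] p) := by
  obtain ⟨E, R, hRE, hEn, hRn⟩ := exists_ext_res K
  obtain ⟨f, hf⟩ := hX
  -- the isomorphism
  let p : Submodule ℝ C(Set.Icc (0 : ℝ) 1, ℝ) := X.map (E : C(K, ℝ) →ₗ[ℝ] C(Set.Icc (0 : ℝ) 1, ℝ))
  have hmem : ∀ x : X, E (x : C(K, ℝ)) ∈ p := fun x => ⟨x, x.2, rfl⟩
  have hmemR : ∀ y : p, R (y : C(Set.Icc (0 : ℝ) 1, ℝ)) ∈ X := by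
    rintro ⟨y, x, hx, rfl⟩
    show R (E x) ∈ X
    rw [hRE]
    exact hx
  have hER : ∀ y : p, E (R (y : C(Set.Icc (0 : ℝ) 1, ℝ))) = y := by
    rintro ⟨y, x, hx, rfl⟩
    show E (R (E x)) = E x
    rw [hRE]
  let A : X →L[ℝ] p := (E.comp X.subtypeL).codRestrict p hmem
  let B : p →L[ℝ] X := (R.comp p.subtypeL).codRestrict X hmemR
  refine ⟨p, ⟨A.comp (f.comp R), ?_⟩, ⟨ContinuousLinearEquiv.equivOfInverse A B ?_ ?_⟩⟩
  · intro y
    apply Subtype.ext
    show E ((f (R (y : C(Set.Icc (0 : ℝ) 1, ℝ))) : X) : C(K, ℝ)) = y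
    have h := hf ⟨R y, hmemR y⟩
    rw [h]
    exact hER y
  · intro x
    apply Subtype.ext
    show R (E (x : C(K, ℝ))) = x
    exact hRE x
  · intro y
    apply Subtype.ext
    show E (R (y : C(Set.Icc (0 : ℝ) 1, ℝ))) = y
    exact hER y

end Transfer

end Pool.Agent.CEExt

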