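import Mathlib
import Pool.Agent.Work.MP_052a41_ce.Interface
import Pool.Agent.Work.MP_052a41_ce.Ext

set_option autoImplicit false

namespace Pool.CE

open Filter Topology Set

theorem blk_EXT : Stmt_EXT := by
  intro K _ _ _
  rcases isEmpty_or_nonempty K with h | h
  · refine ⟨0, 0, fun F => ?_⟩
    ext x
    exact (h.false x).elim
  · obtain ⟨E, R, hRE, -, -⟩ := Pool.Agent.CEExt.exists_ext_res K
    exact ⟨E, R, hRE⟩

end Pool.CE
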