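import Mathlib

/-!
Block LP (helper65): an infinite-dimensional reflexive real normed space does not embed into
`C(L, ℝ)`, `L` countable and compact (Lindenstrauss-Phelps, by Baire's theorem in the weakly
compact unit ball of an equivalent norm).
-/

set_option autoImplicit false

open Set Filter Topology

namespace Pool.Agent.CE

theorem exists_ker_finset {Y : Type*} [NormedAddCommGroup Y] [NormedSpace ℝ Y]
    (hY : ¬ FiniteDimensional ℝ Y) (I : Finset (StrongDual ℝ Y)) :
    ∃ v : Y, v ≠ 0 ∧ ∀ g ∈ I, g v = 0 := by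
  by_contra hcon
  push Not at hcon
  apply hY
  let F : Y →ₗ[ℝ] (I → ℝ) := LinearMap.pi (fun g => (g.1 : Y →L[ℝ] ℝ).toLinearMap)
  have hinj : Function.Injective F := by
    rw [← LinearMap.ker_eq_bot, LinearMap.ker_eq_bot']
    intro v hv
    by_contra hne
    obtain ⟨g, hg, hgv⟩ := hcon v hne
    exact hgv (congrFun hv ⟨g, hg⟩)
  exact Module.Finite.of_injective F hinj

/-- The sup norm on `C(L)` is attained. -/
theorem exists_abs_apply_eq_norm {L : Type*} [TopologicalSpace L] [CompactSpace L] [Nonempty L]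
    (u : C(L, ℝ)) : ∃ l, |u l| = ‖u‖ := by
  obtain ⟨l, -, hl⟩ := isCompact_univ.exists_isMaxOn (univ_nonempty (α := L))
    (f := fun l => |u l|) (u.continuous.abs.continuousOn)
  refine ⟨l, le_antisymm (by simpa using u.norm_coe_le_norm l) ?_⟩
  rw [ContinuousMap.norm_le _ (abs_nonneg _)]
  intro x
  exact hl (mem_univ x)

theorem no_embed_countable {Y : Type*} [NormedAddCommGroup Y] [NormedSpace ℝ Y]
    (hY : ¬ FiniteDimensional ℝ Y)
    (hrefl : Function.Surjective (NormedSpace.inclusionInDoubleDual ℝ Y))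
    {L : Type*} [TopologicalSpace L] [CompactSpace L] [Countable L]
    (T : Y →L[ℝ] C(L, ℝ)) (c : ℝ) (hc : 0 < c) : ¬ (∀ x, c * ‖x‖ ≤ ‖T x‖) := by
  intro hT
  -- `L` is nonempty
  have hLne : Nonempty L := by
    by_contra hL
    rw [not_nonempty_iff] at hL
    obtain ⟨v, hv, -⟩ := exists_ker_finset hY ∅
    have h1 := hT v
    have h2 : T v = 0 := by ext l; exact (hL.false l).elim
    rw [h2, norm_zero] at h1
    have : 0 < c * ‖v‖ := mul_pos hc (norm_pos_iff.mpr hv)
    linarith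
  let f : L → StrongDual ℝ Y := fun l => (ContinuousMap.evalCLM ℝ l).comp T
  have hf : ∀ l x, f l x = T x l := fun l x => rfl
  let J : Y → WeakDual ℝ (StrongDual ℝ Y) := fun x =>
    StrongDual.toWeakDual (NormedSpace.inclusionInDoubleDual ℝ Y x)
  have hJ : ∀ x (g : StrongDual ℝ Y), J x g = g x := fun x g => rfl
  have hJs : ∀ φ : WeakDual ℝ (StrongDual ℝ Y), ∃ x, J x = φ := by
    intro φ
    obtain ⟨x, hx⟩ := hrefl (WeakDual.toStrongDual φ)
    exact ⟨x, by
      apply ContinuousLinearMap.ext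
      intro g
      have := congrArg (fun ψ : StrongDual ℝ (StrongDual ℝ Y) => ψ g) hx
      exact this⟩
  have hle : ∀ (x : Y) (r : ℝ), 0 ≤ r → ((∀ l, |f l x| ≤ r) ↔ ‖T x‖ ≤ r) := by
    intro x r hr
    rw [ContinuousMap.norm_le _ hr]
    exact Iff.rfl
  let B : Set (WeakDual ℝ (StrongDual ℝ Y)) := {φ | ∀ l, |φ (f l)| ≤ 1}
  have hBJ : ∀ x, J x ∈ B ↔ ‖T x‖ ≤ 1 := fun x => (hle x 1 zero_le_one)
  have hclosed : ∀ r : ℝ, IsClosed {φ : WeakDual ℝ (StrongDual ℝ Y) | ∀ l, |φ (f l)| ≤ r} := by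
    intro r
    rw [setOf_forall]
    exact isClosed_iInter fun l => isClosed_le ((WeakDual.eval_continuous (f l)).abs)
      continuous_const
  have hBcl : IsClosed B := hclosed 1
  have hBc : IsCompact B := by
    apply (WeakDual.isCompact_closedBall (𝕜 := ℝ) (E := StrongDual ℝ Y) 0 (1 / c)).of_isClosed_subset
      hBcl
    intro φ hφ
    obtain ⟨x, rfl⟩ := hJs φ
    have h1 := (hBJ x).mp hφ
    have h2 := hT x
    have h3 : ‖x‖ ≤ 1 / c := by
      rw [le_div_iff₀ hc]
      linarith [mul_comm c ‖x‖]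
    rw [mem_preimage, mem_closedBall_zero_iff]
    exact (NormedSpace.double_dual_bound ℝ Y x).trans h3
  haveI : CompactSpace B := isCompact_iff_compactSpace.mp hBc
  haveI : Nonempty B := ⟨⟨J 0, (hBJ 0).mpr (by simp)⟩⟩
  let F : ℕ ⊕ L → Set B := fun i => match i with
    | Sum.inl n => {φ : B | ∀ l, |φ.1 (f l)| ≤ 1 - 1 / ((n : ℝ) + 2)}
    | Sum.inr l => {φ : B | |φ.1 (f l)| = 1}
  have hFcl : ∀ i, IsClosed (F i) := by
    rintro (n | l)
    · exact (hclosed (1 - 1 / ((n : ℝ) + 2))).preimage continuous_subtype_val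
    · exact isClosed_eq ((WeakDual.eval_continuous (f l)).abs.comp continuous_subtype_val)
        continuous_const
  have hFU : ⋃ i, F i = univ := by
    rw [eq_univ_iff_forall]
    rintro ⟨φ, hφ⟩
    obtain ⟨x, rfl⟩ := hJs φ
    have h1 := (hBJ x).mp hφ
    rcases h1.lt_or_eq with h | h
    · obtain ⟨n, hn⟩ := exists_nat_gt (1 / (1 - ‖T x‖))
      have hpos : 0 < 1 - ‖T x‖ := by linarith
      refine mem_iUnion.mpr ⟨Sum.inl n, ?_⟩
      have h3 : 1 / ((n : ℝ) + 2) ≤ 1 - ‖T x‖ := by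
        rw [div_lt_iff₀ hpos] at hn
        rw [div_le_iff₀ (by positivity)]
        nlinarith
      have h4 : ‖T x‖ ≤ 1 - 1 / ((n : ℝ) + 2) := by linarith
      exact (hle x _ ((norm_nonneg _).trans h4)).mpr h4
    · obtain ⟨l, hl⟩ := exists_abs_apply_eq_norm (T x)
      exact mem_iUnion.mpr ⟨Sum.inr l, by
        change |f l x| = 1
        rw [hf, hl, h]⟩
  obtain ⟨i, φ0, hφ0⟩ := nonempty_interior_of_iUnion_of_closed hFcl hFU
  obtain ⟨O, hOF, hO, hφO⟩ := mem_interior.mp hφ0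
  obtain ⟨V, hV, rfl⟩ := isOpen_induced_iff.mp hO
  obtain ⟨x0, hx0⟩ := hJs φ0.1
  have hx0B : ‖T x0‖ ≤ 1 := (hBJ x0).mp (by rw [hx0]; exact φ0.2)
  rcases i with n | l
  · -- move along a line until the norm is one
    obtain ⟨W', hW', hWV⟩ := isOpen_induced_iff.mp hV
    have hmem : (fun g : StrongDual ℝ Y => g x0) ∈ W' := by
      have h1 : φ0.1 ∈ V := hφO
      rw [← hWV, ← hx0] at h1
      exact h1
    obtain ⟨I, u, hu, hIu⟩ := isOpen_pi_iff.mp hW' _ hmem
    obtain ⟨v, hv0, hv⟩ := exists_ker_finset hY I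
    have hline : ∀ t : ℝ, J (x0 + t • v) ∈ V := by
      intro t
      rw [← hWV]
      apply hIu
      intro a ha
      have h2 : a (x0 + t • v) = a x0 := by
        rw [map_add, map_smul, hv a ha, smul_zero, add_zero]
      change a (x0 + t • v) ∈ u a
      rw [h2]
      exact (hu a ha).2
    have hvpos : 0 < ‖v‖ := norm_pos_iff.mpr hv0
    let t1 : ℝ := (1 / c + ‖x0‖) / ‖v‖
    have ht1 : 0 ≤ t1 := by positivity
    have hcont : Continuous fun t : ℝ => ‖T (x0 + t • v)‖ := by fun_prop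
    have hend : 1 ≤ ‖T (x0 + t1 • v)‖ := by
      have h3 : 1 / c ≤ ‖x0 + t1 • v‖ := by
        have h4 : ‖t1 • v‖ = 1 / c + ‖x0‖ := by
          rw [norm_smul, Real.norm_of_nonneg ht1]
          exact div_mul_cancel₀ _ hvpos.ne'
        have h5 : ‖t1 • v‖ ≤ ‖x0 + t1 • v‖ + ‖x0‖ := by
          have := norm_sub_le (x0 + t1 • v) x0
          simpa using this
        linarith
      have h6 := hT (x0 + t1 • v)
      have h7 : c * (1 / c) ≤ c * ‖x0 + t1 • v‖ := mul_le_mul_of_nonneg_left h3 hc.le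
      rw [mul_one_div_cancel hc.ne'] at h7
      linarith
    have hstart : ‖T (x0 + (0 : ℝ) • v)‖ ≤ 1 := by simpa using hx0B
    obtain ⟨t, -, ht⟩ := intermediate_value_Icc ht1 hcont.continuousOn ⟨hstart, hend⟩
    simp only at ht
    have hmemB : J (x0 + t • v) ∈ B := (hBJ _).mpr ht.le
    have hmemF : (⟨J (x0 + t • v), hmemB⟩ : B) ∈ F (Sum.inl n) := hOF (hline t)
    have hpos2 : (0 : ℝ) < 1 / ((n : ℝ) + 2) := by positivity
    have hnn : (0 : ℝ) ≤ 1 - 1 / ((n : ℝ) + 2) := by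
      rw [sub_nonneg, div_le_one (by positivity)]
      have : (0 : ℝ) ≤ (n : ℝ) := Nat.cast_nonneg n
      linarith
    have h8 := (hle (x0 + t • v) _ hnn).mp hmemF
    rw [ht] at h8
    linarith
  · -- shrink the point
    have hcs : Continuous fun t : ℝ => t • φ0.1 := continuous_id.smul continuous_const
    have hmem1 : (1 : ℝ) ∈ (fun t : ℝ => t • φ0.1) ⁻¹' V := by
      change (1 : ℝ) • φ0.1 ∈ V
      rw [one_smul]
      exact hφO
    obtain ⟨ε, hε, hball⟩ := Metric.isOpen_iff.mp (hV.preimage hcs) 1 hmem1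
    let t : ℝ := 1 - min ε 1 / 2
    have hm : 0 < min ε 1 := lt_min hε one_pos
    have hm1 : min ε 1 ≤ 1 := min_le_right _ _
    have hm2 : min ε 1 ≤ ε := min_le_left _ _
    have ht0 : 0 < t := by change 0 < 1 - min ε 1 / 2; linarith
    have ht1 : t < 1 := by change 1 - min ε 1 / 2 < 1; linarith
    have htV : t • φ0.1 ∈ V := by
      apply hball
      rw [Metric.mem_ball, Real.dist_eq, abs_lt]
      constructor <;> change _ < _ <;> simp only [t] <;> linarith
    have happ : ∀ g, (t • φ0.1) g = t * φ0.1 g := fun g => rfl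
    have htB : t • φ0.1 ∈ B := by
      intro l'
      rw [happ, abs_mul, abs_of_pos ht0]
      have := φ0.2 l'
      nlinarith [abs_nonneg (φ0.1 (f l'))]
    have h9 : (⟨t • φ0.1, htB⟩ : B) ∈ F (Sum.inr l) := hOF htV
    have h10 : |(t • φ0.1) (f l)| = 1 := h9
    have h11 : |φ0.1 (f l)| = 1 := hOF hφO
    rw [happ, abs_mul, h11, abs_of_pos ht0] at h10
    linarith

end Pool.Agent.CE
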