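import Pool.Agent.Work.MP_052a41_ce.B_PROJ2

/-!
# Part A: operator matrices with off-diagonal decay act on `C₀(ℕ, E)`
-/

set_option autoImplicit false

open Filter Topology
open scoped ZeroAtInfty

namespace Pool.CE

/-- the weight `2^(-|p - q|)` -/
noncomputable def ww (q p : ℕ) : ℝ := (1 / 2 : ℝ) ^ (p - q + (q - p))

lemma ww_pos (q p : ℕ) : 0 < ww q p := by unfold ww; positivity

lemma ww_comm (q p : ℕ) : ww q p = ww p q := by unfold ww; rw [add_comm]

lemma ww_shift (q i : ℕ) : ww q (i + q) = (1 / 2 : ℝ) ^ i := by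
  unfold ww; congr 1; omega

lemma ww_lt {q p : ℕ} (h : p < q) : ww q p = (1 / 2 : ℝ) ^ (q - p) := by
  unfold ww; congr 1; omega

lemma ww_summable (q : ℕ) : Summable (ww q) := by
  rw [← summable_nat_add_iff q]
  simp only [ww_shift]
  exact summable_geometric_two

lemma ww_tsum (q : ℕ) : ∑' p, ww q p ≤ 3 := by
  rw [← (ww_summable q).sum_add_tsum_nat_add q]
  simp only [ww_shift]
  rw [tsum_geometric_two]
  have h1 : ∑ i ∈ Finset.range q, ww q i ≤ 1 := by
    have h2 : ∑ i ∈ Finset.range q, ww q i = ∑ i ∈ Finset.range q, (1 / 2 : ℝ) ^ (i + 1) := by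
      rw [← Finset.sum_range_reflect]
      refine Finset.sum_congr rfl fun i hi => ?_
      rw [Finset.mem_range] at hi
      rw [ww_lt (by omega)]
      congr 1
      omega
    rw [h2]
    have h3 : ∀ n : ℕ, ∑ i ∈ Finset.range n, (1 / 2 : ℝ) ^ (i + 1) = 1 - (1 / 2) ^ n := by
      intro n
      induction n with
      | zero => simp
      | succ n ih => rw [Finset.sum_range_succ, ih, pow_succ]; ring
    rw [h3]
    have : (0 : ℝ) < (1 / 2) ^ q := by positivity
    linarith
  linarith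

lemma ww_tendsto (p : ℕ) : Tendsto (fun q => ww q p) atTop (𝓝 0) := by
  rw [← tendsto_add_atTop_iff_nat p]
  simp only [ww_comm _ p, ww_shift]
  exact tendsto_pow_atTop_nhds_zero_of_lt_one (by norm_num) (by norm_num)

lemma conv_summable {a : ℕ → ℝ} {M : ℝ} (ha0 : ∀ p, 0 ≤ a p) (ha : ∀ p, a p ≤ M) (q : ℕ) :
    Summable fun p => ww q p * a p := by
  refine Summable.of_nonneg_of_le (fun p => mul_nonneg (ww_pos q p).le (ha0 p))
    (fun p => mul_le_mul_of_nonneg_left (ha p) (ww_pos q p).le) ((ww_summable q).mul_right M)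

lemma conv_le {a : ℕ → ℝ} {M : ℝ} (ha0 : ∀ p, 0 ≤ a p) (ha : ∀ p, a p ≤ M) (q : ℕ) :
    ∑' p, ww q p * a p ≤ 3 * M := by
  have hM : 0 ≤ M := (ha0 0).trans (ha 0)
  calc ∑' p, ww q p * a p ≤ ∑' p, ww q p * M :=
        (conv_summable ha0 ha q).tsum_le_tsum
          (fun p => mul_le_mul_of_nonneg_left (ha p) (ww_pos q p).le) ((ww_summable q).mul_right M)
    _ = (∑' p, ww q p) * M := tsum_mul_right
    _ ≤ 3 * M := mul_le_mul_of_nonneg_right (ww_tsum q) hM

lemma conv_tendsto {a : ℕ → ℝ} {M : ℝ} (ha0 : ∀ p, 0 ≤ a p) (ha : ∀ p, a p ≤ M)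
    (h : Tendsto a atTop (𝓝 0)) : Tendsto (fun q => ∑' p, ww q p * a p) atTop (𝓝 0) := by
  rw [Metric.tendsto_atTop]
  intro ε hε
  obtain ⟨N, hN⟩ := (Metric.tendsto_atTop.1 h) (ε / 8) (by positivity)
  have hfin : Tendsto (fun q => ∑ p ∈ Finset.range N, ww q p * a p) atTop (𝓝 0) := by
    have : Tendsto (fun q => ∑ p ∈ Finset.range N, ww q p * a p) atTop
        (𝓝 (∑ p ∈ Finset.range N, 0 * a p)) :=
      tendsto_finset_sum _ fun p _ => (ww_tendsto p).mul_const _
    simpa using this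
  obtain ⟨N2, hN2⟩ := (Metric.tendsto_atTop.1 hfin) (ε / 2) (by positivity)
  refine ⟨N2, fun q hq => ?_⟩
  have h1 := hN2 q hq
  rw [Real.dist_eq, sub_zero] at h1 ⊢
  have hs := conv_summable ha0 ha q
  have h0 : 0 ≤ ∑' p, ww q p * a p := tsum_nonneg fun p => mul_nonneg (ww_pos q p).le (ha0 p)
  rw [abs_of_nonneg h0, ← hs.sum_add_tsum_nat_add N]
  have h2 : ∑' p, ww q (p + N) * a (p + N) ≤ 3 * (ε / 8) := by
    calc ∑' p, ww q (p + N) * a (p + N) ≤ ∑' p, ww q (p + N) * (ε / 8) := by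
          refine Summable.tsum_le_tsum (fun p => ?_) ((summable_nat_add_iff N).2 hs)
            (((summable_nat_add_iff N).2 (ww_summable q)).mul_right _)
          refine mul_le_mul_of_nonneg_left ?_ (ww_pos _ _).le
          have := hN (p + N) (by omega)
          rw [Real.dist_eq, sub_zero] at this
          exact (le_abs_self _).trans this.le
      _ = (∑' p, ww q (p + N)) * (ε / 8) := tsum_mul_right
      _ ≤ 3 * (ε / 8) := by
          refine mul_le_mul_of_nonneg_right ?_ (by positivity)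
          have h3 := ww_tsum q
          rw [← (ww_summable q).sum_add_tsum_nat_add N] at h3
          have h4 : 0 ≤ ∑ i ∈ Finset.range N, ww q i := Finset.sum_nonneg fun i _ => (ww_pos _ _).le
          linarith
  have h3 := le_abs_self (∑ p ∈ Finset.range N, ww q p * a p)
  linarith

variable {E : Type*} [NormedAddCommGroup E] [NormedSpace ℝ E]

lemma C0_norm_apply (F : C₀(ℕ, E)) (p : ℕ) : ‖F p‖ ≤ ‖F‖ := F.toBCF.norm_coe_le_norm p

lemma C0_norm_le {F : C₀(ℕ, E)} {M : ℝ} (hM : 0 ≤ M) (h : ∀ p, ‖F p‖ ≤ M) : ‖F‖ ≤ M :=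
  (BoundedContinuousFunction.norm_le hM).2 h

lemma C0_tendsto (F : C₀(ℕ, E)) : Tendsto (fun p => ‖F p‖) atTop (𝓝 0) := by
  have h := F.zero_at_infty'
  rw [cocompact_eq_atTop] at h
  simpa using h.norm

/-- kernels with decay -/
structure Ker (K : ℕ → ℕ → E →L[ℝ] E) (C : ℝ) : Prop where
  bd : ∀ q p, ‖K q p‖ ≤ C * ww q p

namespace Ker

variable {K : ℕ → ℕ → E →L[ℝ] E} {C : ℝ}

lemma nonneg (h : Ker K C) : 0 ≤ C := by
  have h1 := (norm_nonneg _).trans (h.bd 0 0)
  have h2 := ww_pos 0 0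
  by_contra h3
  push Not at h3
  nlinarith

lemma term (h : Ker K C) (F : C₀(ℕ, E)) (q p : ℕ) : ‖K q p (F p)‖ ≤ C * (ww q p * ‖F p‖) := by
  calc ‖K q p (F p)‖ ≤ ‖K q p‖ * ‖F p‖ := (K q p).le_opNorm _
    _ ≤ (C * ww q p) * ‖F p‖ := mul_le_mul_of_nonneg_right (h.bd q p) (norm_nonneg _)
    _ = C * (ww q p * ‖F p‖) := by ring

lemma summ_norm (h : Ker K C) (F : C₀(ℕ, E)) (q : ℕ) : Summable fun p => ‖K q p (F p)‖ := by
  refine Summable.of_nonneg_of_le (fun p => norm_nonneg _) (h.term F q)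
    ((conv_summable (fun p => norm_nonneg (F p)) (fun p => C0_norm_apply F p) q).mul_left C)

variable [CompleteSpace E]

lemma summ (h : Ker K C) (F : C₀(ℕ, E)) (q : ℕ) : Summable fun p => K q p (F p) :=
  (h.summ_norm F q).of_norm

lemma norm_tsum_le' (h : Ker K C) (F : C₀(ℕ, E)) (q : ℕ) :
    ‖∑' p, K q p (F p)‖ ≤ C * ∑' p, ww q p * ‖F p‖ := by
  have hs := conv_summable (fun p => norm_nonneg (F p)) (fun p => C0_norm_apply F p) q
  calc ‖∑' p, K q p (F p)‖ ≤ ∑' p, ‖K q p (F p)‖ := norm_tsum_le_tsum_norm (h.summ_norm F q)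
    _ ≤ ∑' p, C * (ww q p * ‖F p‖) := (h.summ_norm F q).tsum_le_tsum (h.term F q) (hs.mul_left C)
    _ = C * ∑' p, ww q p * ‖F p‖ := tsum_mul_left

/-- the operator of a kernel on a single function -/
noncomputable def fn (h : Ker K C) (F : C₀(ℕ, E)) : C₀(ℕ, E) where
  toFun q := ∑' p, K q p (F p)
  continuous_toFun := continuous_of_discreteTopology
  zero_at_infty' := by
    rw [cocompact_eq_atTop, tendsto_zero_iff_norm_tendsto_zero]
    have h1 : Tendsto (fun q => C * ∑' p, ww q p * ‖F p‖) atTop (𝓝 0) := by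
      have := (conv_tendsto (fun p => norm_nonneg (F p)) (fun p => C0_norm_apply F p)
        (C0_tendsto F)).const_mul C
      simpa using this
    exact squeeze_zero (fun q => norm_nonneg _) (h.norm_tsum_le' F) h1

/-- the operator of a kernel -/
noncomputable def op (h : Ker K C) : C₀(ℕ, E) →L[ℝ] C₀(ℕ, E) :=
  LinearMap.mkContinuous
    { toFun := h.fn
      map_add' := fun F G => by
        ext q
        show ∑' p, K q p ((F + G) p) = ∑' p, K q p (F p) + ∑' p, K q p (G p)
        rw [← (h.summ F q).tsum_add (h.summ G q)]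
        simp
      map_smul' := fun c F => by
        ext q
        show ∑' p, K q p ((c • F) p) = c • ∑' p, K q p (F p)
        rw [← (h.summ F q).tsum_const_smul c]
        simp }
    (C * 3) (fun F => by
      refine C0_norm_le (by have := h.nonneg; positivity) fun q => ?_
      show ‖∑' p, K q p (F p)‖ ≤ C * 3 * ‖F‖
      refine (h.norm_tsum_le' F q).trans ?_
      rw [mul_assoc]
      exact mul_le_mul_of_nonneg_left (conv_le (fun p => norm_nonneg (F p))
        (fun p => C0_norm_apply F p) q) h.nonneg)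

lemma op_apply (h : Ker K C) (F : C₀(ℕ, E)) (q : ℕ) : h.op F q = ∑' p, K q p (F p) := rfl

end Ker

end Pool.CE
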