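import Pool.Agent.Work.MP_052a41_ce.Interface
import Pool.Agent.Work.MP_052a41_ce.B_PBD
import Pool.Agent.Work.MP_052a41_ce.B_PROJ3

set_option autoImplicit false

/-! # Block PP (helper48): `Pf` is idempotent -/

namespace Pool.CE

open Filter Topology Set

namespace PPaux

variable {S : Type} (F : Fam S)

theorem half_dd (q p : ℕ) : (1 / 2 : ℝ) ^ dd q p = ww q p := by
  unfold dd ww
  rw [add_comm]

/-- the `p`-th component of `Φ` -/
def comp (Φ : Option (ℕ × S) → ℝ) (p : ℕ) : S → ℝ := fun w => Φ (some (p, w)) - Φ none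

theorem comp_le {Φ : Option (ℕ × S) → ℝ} {M : ℝ} (hM : ∀ s, |Φ s| ≤ M) (p : ℕ) (w : S) :
    |comp Φ p w| ≤ 2 * M := by
  have e1 := hM (some (p, w))
  have e2 := hM none
  have e3 := abs_sub (Φ (some (p, w))) (Φ none)
  unfold comp
  linarith

theorem comp_IsE {Φ : Option (ℕ × S) → ℝ} (h : IsE F.toTow.big Φ) (p : ℕ) :
    IsE F.toTow (comp Φ p) := by
  obtain ⟨⟨M, hM⟩, h2⟩ := h
  refine ⟨⟨2 * M, comp_le hM p⟩, fun ε hε => ?_⟩
  obtain ⟨n₀, hn⟩ := h2 ε hε
  refine ⟨max n₀ (p + 1), fun n hn' z => ?_⟩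
  have h1 := hn n (le_trans (le_max_left _ _) hn') (some (p, z))
  have hp : p < n := by
    have := le_trans (le_max_right n₀ (p + 1)) hn'
    omega
  have e : F.toTow.big.tr n (some (p, z)) = some (p, F.tr n z) := by
    simp only [Tow.big, Option.bind_some, hp, if_true]
  rw [e] at h1
  have : comp Φ p z - comp Φ p (F.tr n z) = Φ (some (p, z)) - Φ (some (p, F.tr n z)) := by
    unfold comp; ring
  rw [this]
  exact h1

theorem T_IsE (hPBD : Stmt_PBD) (hPTR : Stmt_PTR) {φ : S → ℝ} (h : IsE F.toTow φ) (q p : ℕ) :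
    IsE F.toTow (F.T q p φ) := by
  obtain ⟨⟨M, hM⟩, h2⟩ := h
  refine ⟨⟨_, fun z => hPBD S F q p φ M hM z⟩, fun ε hε => ?_⟩
  obtain ⟨n₀, hn⟩ := h2 (ε / 200) (by positivity)
  refine ⟨n₀, fun n hn' z => ?_⟩
  have h1 := hn n hn'
  have e : F.T q p φ z - F.T q p φ (F.tr n z) = F.T q p (fun w => φ w - φ (F.tr n w)) z := by
    have h3 := congrFun (hPTR S F q p n φ).1 z
    have h4 : (fun w => φ w - φ (F.tr n w)) = φ - fun w => φ (F.tr n w) := rfl
    rw [h4, map_sub, Pi.sub_apply, h3]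
  rw [e]
  have h5 := hPBD S F q p (fun w => φ w - φ (F.tr n w)) (ε / 200) h1 z
  have h6 : (1 / 2 : ℝ) ^ dd q p ≤ 1 := pow_le_one₀ (by norm_num) (by norm_num)
  calc |F.T q p (fun w => φ w - φ (F.tr n w)) z| ≤ 200 * (1 / 2) ^ dd q p * (ε / 200) := h5
    _ ≤ 200 * 1 * (ε / 200) := by gcongr
    _ = ε := by ring

theorem mul4 (r q p : ℕ) : F.T r q * F.T q p = (F.rho q * F.f q) * F.T r p := by
  letI := PBDaux.cr F
  have k : ((⟨_, PBDaux.f_mem F r⟩ : PBDaux.Alg F) * ⟨_, PBDaux.rho_mem F q⟩) *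
      (⟨_, PBDaux.f_mem F q⟩ * ⟨_, PBDaux.rho_mem F p⟩) =
      (⟨_, PBDaux.rho_mem F q⟩ * ⟨_, PBDaux.f_mem F q⟩) *
        (⟨_, PBDaux.f_mem F r⟩ * ⟨_, PBDaux.rho_mem F p⟩) := by ring
  exact congrArg Subtype.val k

theorem tsum_rf (hPLIM : Stmt_PLIM) {φ : S → ℝ} (h : IsE F.toTow φ) (z : S)
    (hs : Summable fun q => (F.rho q * F.f q) φ z) : ∑' q, (F.rho q * F.f q) φ z = φ z := by
  have h1 := hs.hasSum.tendsto_sum_nat
  have h3 : Tendsto (fun n => ∑ q ∈ Finset.range n, (F.rho q * F.f q) φ z) atTop (𝓝 (φ z)) := by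
    rw [Metric.tendsto_atTop]
    intro ε hε
    obtain ⟨N, hN⟩ := hPLIM S F φ h (ε / 2) (by positivity)
    refine ⟨N, fun n hn => ?_⟩
    have h4 := hN n hn z
    have e : (∑ q ∈ Finset.range n, F.rho q * F.f q) φ z =
        ∑ q ∈ Finset.range n, (F.rho q * F.f q) φ z := by
      rw [ContinuousLinearMap.sum_apply, Finset.sum_apply]
    rw [e] at h4
    rw [Real.dist_eq]
    linarith
  exact tendsto_nhds_unique h1 h3

end PPaux

open PPaux in
theorem blk_PP (hPBD : Stmt_PBD) (hPTR : Stmt_PTR) (hPLIM : Stmt_PLIM) : Stmt_PP := by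
  intro S F Φ hΦ
  obtain ⟨M, hM⟩ := hΦ.1
  have hM0 : 0 ≤ M := (abs_nonneg _).trans (hM none)
  have hc := comp_le (S := S) hM
  funext s
  rcases s with _ | ⟨r, z⟩
  · rfl
  have w0 := fun q p => (ww_pos q p).le
  have bd1 : ∀ q p w, |F.T q p (comp Φ p) w| ≤ 400 * M * ww q p := by
    intro q p w
    have := hPBD S F q p (comp Φ p) (2 * M) (hc p) w
    rw [half_dd] at this
    linarith
  have sm1 : ∀ q w, Summable fun p => F.T q p (comp Φ p) w := by
    intro q w
    refine Summable.of_norm_bounded ((ww_summable q).mul_left (400 * M)) fun p => ?_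
    rw [Real.norm_eq_abs]
    exact bd1 q p w
  have bd2 : ∀ q p, |F.T r q (F.T q p (comp Φ p)) z| ≤ 80000 * M * (ww r q * ww q p) := by
    intro q p
    have := hPBD S F r q (F.T q p (comp Φ p)) (400 * M * ww q p) (bd1 q p) z
    rw [half_dd] at this
    linarith
  have hsum2 : Summable fun rp : ℕ × ℕ => ww r rp.1 * ww rp.1 rp.2 := by
    rw [summable_prod_of_nonneg (fun rp => mul_nonneg (w0 _ _) (w0 _ _))]
    refine ⟨fun q => (ww_summable q).mul_left (ww r q), ?_⟩
    simp only [tsum_mul_left]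
    refine Summable.of_nonneg_of_le (fun q => mul_nonneg (w0 _ _)
      (tsum_nonneg fun p => w0 _ _)) (fun q => ?_) ((ww_summable r).mul_right 3)
    exact mul_le_mul_of_nonneg_left (ww_tsum q) (w0 _ _)
  have hsum : Summable (Function.uncurry fun q p => F.T r q (F.T q p (comp Φ p)) z) := by
    refine Summable.of_norm_bounded (hsum2.mul_left (80000 * M)) fun rp => ?_
    rw [Real.norm_eq_abs]
    exact bd2 rp.1 rp.2
  have step1 : F.Pf (F.Pf Φ) (some (r, z)) = ∑' q, ∑' p, F.T r q (F.T q p (comp Φ p)) z := by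
    show ∑' q, F.T r q (fun w => F.Pf Φ (some (q, w)) - F.Pf Φ none) z = _
    refine tsum_congr fun q => ?_
    have hs : HasSum (fun p => F.T q p (comp Φ p))
        (fun w => F.Pf Φ (some (q, w)) - F.Pf Φ none) := by
      rw [Pi.hasSum]
      intro w
      have : F.Pf Φ (some (q, w)) - F.Pf Φ none = ∑' p, F.T q p (comp Φ p) w := by
        show (∑' p, F.T q p (comp Φ p) w) - 0 = _
        rw [sub_zero]
      rw [this]
      exact (sm1 q w).hasSum
    have h2 := hs.mapL (F.T r q)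
    rw [Pi.hasSum] at h2
    exact (h2 z).tsum_eq.symm
  rw [step1, (hsum.tsum_comm).symm]
  show ∑' p, ∑' q, F.T r q (F.T q p (comp Φ p)) z = ∑' p, F.T r p (comp Φ p) z
  refine tsum_congr fun p => ?_
  have e : ∀ q, F.T r q (F.T q p (comp Φ p)) z = (F.rho q * F.f q) (F.T r p (comp Φ p)) z := by
    intro q
    exact congrArg (fun A : (S → ℝ) →L[ℝ] (S → ℝ) => A (comp Φ p) z) (mul4 F r q p)
  have hs : Summable fun q => F.T r q (F.T q p (comp Φ p)) z := by
    refine Summable.of_norm_bounded (g := fun q => 80000 * M * ww r q)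
      ((ww_summable r).mul_left _) fun q => ?_
    rw [Real.norm_eq_abs]
    refine (bd2 q p).trans ?_
    have w1 := ww_pos r q
    have w2 : ww q p ≤ 1 := pow_le_one₀ (by norm_num) (by norm_num)
    exact mul_le_mul_of_nonneg_left (by nlinarith) (by positivity)
  rw [tsum_congr e]
  refine tsum_rf F hPLIM (T_IsE F hPBD hPTR (comp_IsE F hΦ p) r p) z ?_
  exact hs.congr e

end Pool.CE
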