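import Pool.Agent.Work.MP_052a41_ce.B_PROJ1

/-!
# Part A: the off-diagonal decay `‖ff q * rr p‖ ≤ 200 * 2^(-|p - q|)`
-/

set_option autoImplicit false

open Filter Topology

namespace Pool.CE

variable {E : Type*} [NormedAddCommGroup E] [NormedSpace ℝ E]

namespace Res

variable {x : ℕ → E →L[ℝ] E}

lemma rearr (h : Res x) {a b c d e : E →L[ℝ] E} (ha : a ∈ Alg x) (hb : b ∈ Alg x)
    (hc : c ∈ Alg x) (hd : d ∈ Alg x) (he : e ∈ Alg x) :
    (a * b) * (c * d * e) = (b * c) * (a * (d * e)) ∧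
    (a * b) * (c * d * e) = (d * a) * (b * (c * e)) := by
  letI := h.cr
  have k1 : ((⟨a, ha⟩ : Alg x) * ⟨b, hb⟩) * (⟨c, hc⟩ * ⟨d, hd⟩ * ⟨e, he⟩) =
      (⟨b, hb⟩ * ⟨c, hc⟩) * (⟨a, ha⟩ * (⟨d, hd⟩ * ⟨e, he⟩)) := by ring
  have k2 : ((⟨a, ha⟩ : Alg x) * ⟨b, hb⟩) * (⟨c, hc⟩ * ⟨d, hd⟩ * ⟨e, he⟩) =
      (⟨d, hd⟩ * ⟨a, ha⟩) * (⟨b, hb⟩ * (⟨c, hc⟩ * ⟨e, he⟩)) := by ring
  exact ⟨congrArg Subtype.val k1, congrArg Subtype.val k2⟩

lemma ofNat_mem (x : ℕ → E →L[ℝ] E) (n : ℕ) : (n : E →L[ℝ] E) ∈ Alg x := natCast_mem _ n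

lemma br_mem (x : ℕ → E →L[ℝ] E) (p : ℕ) : br x p ∈ Alg x := by
  have a := x_mem x p
  have b := x_mem x (p + 1)
  have o := one_mem (Alg x)
  have n9 := ofNat_mem x 9
  have n25 := ofNat_mem x 25
  push_cast at n9 n25
  exact add_mem (add_mem (mul_mem n9 (mul_mem b a)) (mul_mem n25 (mul_mem (sub_mem o b) a)))
    (mul_mem n9 (mul_mem (sub_mem o b) (sub_mem o a)))

lemma prod_norm {a b c : E →L[ℝ] E} {A B C : ℝ} (ha : ‖a‖ ≤ A) (hb : ‖b‖ ≤ B) (hc : ‖c‖ ≤ C) :
    ‖a * (b * c)‖ ≤ A * (B * C) := by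
  have hB : 0 ≤ B := (norm_nonneg _).trans hb
  have hA : 0 ≤ A := (norm_nonneg _).trans ha
  have h1 : ‖b * c‖ ≤ B * C := (norm_mul_le _ _).trans (mul_le_mul hb hc (norm_nonneg _) hB)
  exact (norm_mul_le _ _).trans (mul_le_mul ha h1 (norm_nonneg _) hA)

lemma hh_norm (h : Res x) (n : ℕ) : ‖hh x n‖ ≤ 5 := by
  have a0 := h.norm n
  have c1 : ‖3 * x n ^ 2‖ ≤ 3 := by
    have := ofNat_norm 3 (x n ^ 2)
    have h2 : ‖x n ^ 2‖ ≤ 1 := by
      rw [pow_two]
      exact (norm_mul_le _ _).trans (by nlinarith [norm_nonneg (x n)])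
    push_cast at this
    linarith
  have c2 : ‖2 * x n ^ 3‖ ≤ 2 := by
    have := ofNat_norm 2 (x n ^ 3)
    have h2 : ‖x n ^ 3‖ ≤ 1 := by
      have e : x n ^ 3 = x n * (x n * x n) := by rw [pow_succ, pow_two, mul_assoc]
      rw [e]
      have := prod_norm a0 a0 a0
      linarith
    push_cast at this
    linarith
  calc ‖hh x n‖ ≤ ‖3 * x n ^ 2‖ + ‖2 * x n ^ 3‖ := norm_sub_le _ _
    _ ≤ 5 := by linarith

lemma rr_zero_norm (h : Res x) : ‖3 - 2 * x 0‖ ≤ 5 := by
  have c1 : ‖(3 : E →L[ℝ] E)‖ ≤ 3 := by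
    have := ofNat_norm 3 (1 : E →L[ℝ] E)
    have h1 : ‖(1 : E →L[ℝ] E)‖ ≤ 1 := ContinuousLinearMap.norm_id_le
    push_cast at this
    rw [mul_one] at this
    linarith
  have c2 : ‖2 * x 0‖ ≤ 2 := by
    have := ofNat_norm 2 (x 0)
    have := h.norm 0
    push_cast at *
    linarith
  calc ‖3 - 2 * x 0‖ ≤ ‖(3 : E →L[ℝ] E)‖ + ‖2 * x 0‖ := norm_sub_le _ _
    _ ≤ 5 := by linarith

/-- off-diagonal decay -/
theorem decay (h : Res x) (q p : ℕ) :
    ‖ff x q * rr x p‖ ≤ 200 * (1 / 2 : ℝ) ^ (p - q + (q - p)) := by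
  have o := one_mem (Alg x)
  rcases Nat.eq_zero_or_pos q with hq | hq
  · subst hq
    rcases Nat.eq_zero_or_pos p with hp | hp
    · subst hp
      rw [h.tel_zero]
      have := h.hh_norm 0
      simp
      linarith
    · obtain ⟨p, rfl⟩ : ∃ p', p = p' + 1 := ⟨p - 1, by omega⟩
      have e : ff x 0 * rr x (p + 1) = (x 0 * (1 - x (p + 1))) * (x p * br x p) := by
        rw [h.rr_succ]
        simp only [ff, br, mul_assoc]
      have g := h.gap_norm 0 (p + 1)
      rw [zero_add] at g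
      have := prod_norm g (h.norm p) (h.br_norm p)
      rw [e, show p + 1 - 0 + (0 - (p + 1)) = p + 1 by omega]
      have h0 : (0 : ℝ) < (1 / 2) ^ (p + 1) := by positivity
      nlinarith
  · obtain ⟨q, rfl⟩ : ∃ q', q = q' + 1 := ⟨q - 1, by omega⟩
    rcases Nat.eq_zero_or_pos p with hp | hp
    · subst hp
      have e : ff x (q + 1) * rr x 0 = (x 0 * (1 - x (q + 1))) * (x q * (3 - 2 * x 0)) := by
        have k := (h.rearr (sub_mem o (x_mem x (q + 1))) (x_mem x q) (x_mem x 0) o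
          (sub_mem (three_mem x) (mul_mem (two_mem x) (x_mem x 0)))).1
        have k2 := h.comm_mem (mul_mem (x_mem x q) (x_mem x 0)) (sub_mem o (x_mem x (q + 1)))
        have k3 := h.comm_mem (x_mem x q) (x_mem x 0)
        have k4 : rr x 0 = x 0 * 1 * (3 - 2 * x 0) := by
          have h3 := h.comm_mem (three_mem x) (x_mem x 0)
          have h2 := h.comm_mem (two_mem x) (x_mem x 0)
          simp only [rr, mul_one, mul_sub]
          rw [h3, pow_two, ← mul_assoc 2 (x 0) (x 0), h2, mul_assoc (x 0) 2 (x 0), h2]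
        rw [h.ff_succ, k4, k, one_mul, ← mul_assoc, mul_assoc (x q) (x 0), h.comm_mem (x_mem x q)
          (mul_mem (x_mem x 0) (sub_mem o (x_mem x (q + 1)))), mul_assoc]
      have g := h.gap_norm 0 (q + 1)
      rw [zero_add] at g
      have := prod_norm g (h.norm q) h.rr_zero_norm
      rw [e, show 0 - (q + 1) + (q + 1 - 0) = q + 1 by omega]
      have h0 : (0 : ℝ) < (1 / 2) ^ (q + 1) := by positivity
      nlinarith
    · obtain ⟨p, rfl⟩ : ∃ p', p = p' + 1 := ⟨p - 1, by omega⟩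
      have k := h.rearr (sub_mem o (x_mem x (q + 1))) (x_mem x q) (sub_mem o (x_mem x (p + 1)))
        (x_mem x p) (br_mem x p)
      rcases lt_trichotomy p q with c | c | c
      · obtain ⟨r, rfl⟩ : ∃ r, q = p + r := ⟨q - p, by omega⟩
        have e : ff x (p + r + 1) * rr x (p + 1) = (x p * (1 - x (p + r + 1))) *
            (x (p + r) * ((1 - x (p + 1)) * br x p)) := by
          rw [h.ff_succ, h.rr_succ]
          exact k.2
        have g := h.gap_norm p (r + 1)
        rw [← add_assoc] at g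
        have h4 : ‖x (p + r) * ((1 - x (p + 1)) * br x p)‖ ≤ 1 * (2 * 95) :=
          prod_norm (h.norm _) (h.one_sub_norm _) (h.br_norm _)
        rw [e, show p + 1 - (p + r + 1) + (p + r + 1 - (p + 1)) = r by omega]
        have h0 : (0 : ℝ) < (1 / 2) ^ r := by positivity
        have h5 := (norm_mul_le (x p * (1 - x (p + r + 1))) (x (p + r) * ((1 - x (p + 1)) * br x p)))
        have h6 : 2 * (1 / 2 : ℝ) ^ (r + 1) = (1 / 2) ^ r := by rw [pow_succ]; ring
        rw [h6] at g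
        have := mul_le_mul g h4 (norm_nonneg _) h0.le
        linarith
      · subst c
        rw [h.tel_succ]
        have a := h.hh_norm p
        have b := h.hh_norm (p + 1)
        have := norm_sub_le (hh x (p + 1)) (hh x p)
        rw [show p + 1 - (p + 1) + (p + 1 - (p + 1)) = 0 by omega]
        simp
        linarith
      · obtain ⟨r, rfl⟩ : ∃ r, p = q + r := ⟨p - q, by omega⟩
        have e : ff x (q + 1) * rr x (q + r + 1) = (x q * (1 - x (q + r + 1))) *
            ((1 - x (q + 1)) * (x (q + r) * br x (q + r))) := by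
          rw [h.ff_succ, h.rr_succ]
          exact k.1
        have g := h.gap_norm q (r + 1)
        rw [← add_assoc] at g
        have h4 : ‖(1 - x (q + 1)) * (x (q + r) * br x (q + r))‖ ≤ 2 * (1 * 95) :=
          prod_norm (h.one_sub_norm _) (h.norm _) (h.br_norm _)
        rw [e, show q + r + 1 - (q + 1) + (q + 1 - (q + r + 1)) = r by omega]
        have h0 : (0 : ℝ) < (1 / 2) ^ r := by positivity
        have h5 := (norm_mul_le (x q * (1 - x (q + r + 1)))
          ((1 - x (q + 1)) * (x (q + r) * br x (q + r))))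
        have h6 : 2 * (1 / 2 : ℝ) ^ (r + 1) = (1 / 2) ^ r := by rw [pow_succ]; ring
        rw [h6] at g
        have := mul_le_mul g h4 (norm_nonneg _) h0.le
        linarith

end Res

end Pool.CE
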