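import Pool.Agent.Work.MP_052a41_ce.B_PROJ3

/-!
# Part A: the projection on `C₀(ℕ, E)`
-/

set_option autoImplicit false

open Filter Topology
open scoped ZeroAtInfty


namespace Pool.CE

variable {E : Type*} [NormedAddCommGroup E] [NormedSpace ℝ E]

namespace Res

variable {x : ℕ → E →L[ℝ] E}

/-- the kernel of the projection -/
lemma ker (h : Res x) : Ker (fun q p => ff x q * rr x p) 200 := ⟨fun q p => h.decay q p⟩

lemma tend2 (h : Res x) {u : ℕ → E} {g : E} (hu : Tendsto u atTop (𝓝 g)) :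
    Tendsto (fun n => x n (u n)) atTop (𝓝 g) := by
  have h1 : Tendsto (fun n => x n (u n - g)) atTop (𝓝 0) := by
    refine squeeze_zero_norm (a := fun n => ‖u n - g‖) (fun n => ?_) ?_
    · calc ‖x n (u n - g)‖ ≤ ‖x n‖ * ‖u n - g‖ := (x n).le_opNorm _
        _ ≤ 1 * ‖u n - g‖ := mul_le_mul_of_nonneg_right (h.norm n) (norm_nonneg _)
        _ = ‖u n - g‖ := one_mul _
    · have := (hu.sub_const g).norm
      simpa using this
  have h2 := h1.add (h.tend g)
  simpa using h2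

lemma hh_tend (h : Res x) (g : E) : Tendsto (fun n => hh x n g) atTop (𝓝 g) := by
  have a1 := h.tend g
  have a2 := h.tend2 a1
  have a3 := h.tend2 a2
  have h1 := (a2.const_smul (3 : ℝ)).sub (a3.const_smul (2 : ℝ))
  have e : (3 : ℝ) • g - (2 : ℝ) • g = g := by module
  rw [e] at h1
  refine h1.congr fun n => ?_
  have k3 : (3 : E →L[ℝ] E) = (3 : ℝ) • 1 := by
    ext; simp [ofNat_smul_eq_nsmul, ContinuousLinearMap.ofNat_apply]
  have k2 : (2 : E →L[ℝ] E) = (2 : ℝ) • 1 := by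
    ext; simp [ofNat_smul_eq_nsmul, ContinuousLinearMap.ofNat_apply]
  simp only [hh, k3, k2, pow_succ, pow_zero, one_mul, smul_mul_assoc]
  rfl

/-- the partial sums of `∑ ff r * rr r` -/
lemma tsum_id (h : Res x) (g : E) (hs : Summable fun r => (ff x r * rr x r) g) :
    ∑' r, (ff x r * rr x r) g = g := by
  have h1 := hs.hasSum.tendsto_sum_nat
  have h2 := (tendsto_add_atTop_iff_nat 1).2 h1
  have h3 : Tendsto (fun n => ∑ i ∈ Finset.range (n + 1), (ff x i * rr x i) g) atTop (𝓝 g) := by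
    refine (h.hh_tend g).congr fun n => ?_
    rw [← h.tel n]
    simp
  exact tendsto_nhds_unique h2 h3

lemma swap4 (h : Res x) (q r p : ℕ) : (ff x q * rr x r) * (ff x r * rr x p) =
    (ff x r * rr x r) * (ff x q * rr x p) := by
  letI := h.cr
  have k : ((⟨_, ff_mem x q⟩ : Alg x) * ⟨_, rr_mem x r⟩) * (⟨_, ff_mem x r⟩ * ⟨_, rr_mem x p⟩) =
      (⟨_, ff_mem x r⟩ * ⟨_, rr_mem x r⟩) * (⟨_, ff_mem x q⟩ * ⟨_, rr_mem x p⟩) := by ring
  exact congrArg Subtype.val k

lemma swap3 (h : Res x) (q p : ℕ) : (ff x q * rr x p) * ff x p = (ff x p * rr x p) * ff x q := by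
  letI := h.cr
  have k : ((⟨_, ff_mem x q⟩ : Alg x) * ⟨_, rr_mem x p⟩) * ⟨_, ff_mem x p⟩ =
      (⟨_, ff_mem x p⟩ * ⟨_, rr_mem x p⟩) * ⟨_, ff_mem x q⟩ := by ring
  exact congrArg Subtype.val k

lemma ff_norm (h : Res x) (p : ℕ) : ‖ff x p‖ ≤ 2 := by
  cases p with
  | zero => exact (h.norm 0).trans (by norm_num)
  | succ p =>
    calc ‖x (p + 1) - x p‖ ≤ ‖x (p + 1)‖ + ‖x p‖ := norm_sub_le _ _
      _ ≤ 1 + 1 := add_le_add (h.norm _) (h.norm _)
      _ = 2 := by norm_num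

lemma rr_norm (h : Res x) (p : ℕ) : ‖rr x p‖ ≤ 190 := by
  cases p with
  | zero =>
    have c1 : ‖3 * x 0‖ ≤ 3 := by
      have := ofNat_norm 3 (x 0)
      have := h.norm 0
      push_cast at *
      linarith
    have c2 : ‖2 * x 0 ^ 2‖ ≤ 2 := by
      have := ofNat_norm 2 (x 0 ^ 2)
      have h2 : ‖x 0 ^ 2‖ ≤ 1 := by
        rw [pow_two]
        exact (norm_mul_le _ _).trans (by nlinarith [norm_nonneg (x 0), h.norm 0])
      push_cast at this
      linarith
    calc ‖3 * x 0 - 2 * x 0 ^ 2‖ ≤ ‖3 * x 0‖ + ‖2 * x 0 ^ 2‖ := norm_sub_le _ _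
      _ ≤ 190 := by linarith
  | succ p =>
    have h1 : rr x (p + 1) = (1 - x (p + 1)) * (x p * br x p) := by
      rw [h.rr_succ, mul_assoc]; rfl
    rw [h1]
    exact (prod_norm (h.one_sub_norm _) (h.norm p) (h.br_norm p)).trans (by norm_num)

variable [CompleteSpace E]

/-- the projection -/
noncomputable def P (h : Res x) : C₀(ℕ, E) →L[ℝ] C₀(ℕ, E) := h.ker.op

lemma P_apply (h : Res x) (F : C₀(ℕ, E)) (q : ℕ) :
    h.P F q = ∑' p, (ff x q * rr x p) (F p) := rfl

lemma P_P (h : Res x) (F : C₀(ℕ, E)) : h.P (h.P F) = h.P F := by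
  ext q
  rw [h.P_apply, h.P_apply]
  have bound : ∀ r p, ‖(ff x q * rr x r) ((ff x r * rr x p) (F p))‖ ≤
      40000 * ‖F‖ * (ww q r * ww r p) := by
    intro r p
    have k1 := h.ker.bd q r
    have k2 := h.ker.bd r p
    have k3 := C0_norm_apply F p
    have w1 := ww_pos q r
    have w2 := ww_pos r p
    calc ‖(ff x q * rr x r) ((ff x r * rr x p) (F p))‖
        ≤ ‖ff x q * rr x r‖ * ‖(ff x r * rr x p) (F p)‖ := ContinuousLinearMap.le_opNorm _ _
      _ ≤ ‖ff x q * rr x r‖ * (‖ff x r * rr x p‖ * ‖F p‖) :=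
          mul_le_mul_of_nonneg_left (ContinuousLinearMap.le_opNorm _ _) (norm_nonneg _)
      _ ≤ (200 * ww q r) * ((200 * ww r p) * ‖F‖) := by
          refine mul_le_mul k1 (mul_le_mul k2 k3 (norm_nonneg _) (by positivity))
            (by positivity) (by positivity)
      _ = 40000 * ‖F‖ * (ww q r * ww r p) := by ring
  have hsum2 : Summable fun rp : ℕ × ℕ => ww q rp.1 * ww rp.1 rp.2 := by
    rw [summable_prod_of_nonneg (fun rp => mul_nonneg (ww_pos _ _).le (ww_pos _ _).le)]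
    refine ⟨fun r => (ww_summable r).mul_left (ww q r), ?_⟩
    simp only [tsum_mul_left]
    refine Summable.of_nonneg_of_le (fun r => mul_nonneg (ww_pos _ _).le
      (tsum_nonneg fun p => (ww_pos _ _).le)) (fun r => ?_) ((ww_summable q).mul_right 3)
    exact mul_le_mul_of_nonneg_left (ww_tsum r) (ww_pos _ _).le
  have hsum : Summable (Function.uncurry fun r p => (ff x q * rr x r) ((ff x r * rr x p) (F p))) :=
    Summable.of_norm_bounded (hsum2.mul_left (40000 * ‖F‖)) fun rp => bound rp.1 rp.2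
  calc ∑' r, (ff x q * rr x r) (h.P F r)
      = ∑' r, ∑' p, (ff x q * rr x r) ((ff x r * rr x p) (F p)) := by
        refine tsum_congr fun r => ?_
        rw [h.P_apply, ContinuousLinearMap.map_tsum _ (h.ker.summ F r)]
    _ = ∑' p, ∑' r, (ff x q * rr x r) ((ff x r * rr x p) (F p)) := (hsum.tsum_comm).symm
    _ = ∑' p, (ff x q * rr x p) (F p) := by
        refine tsum_congr fun p => ?_
        have e : ∀ r, (ff x q * rr x r) ((ff x r * rr x p) (F p)) =
            (ff x r * rr x r) ((ff x q * rr x p) (F p)) := by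
          intro r
          have := congrArg (fun T : E →L[ℝ] E => T (F p)) (h.swap4 q r p)
          exact this
        simp only [e]
        refine h.tsum_id _ ?_
        have hs : Summable fun r => (ff x q * rr x r) ((ff x r * rr x p) (F p)) := by
          refine Summable.of_norm_bounded (g := fun r => 40000 * ‖F‖ * ww q r)
            ((ww_summable q).mul_left _) fun r => ?_
          refine (bound r p).trans ?_
          have w1 := ww_pos q r
          have w2 : ww r p ≤ 1 := pow_le_one₀ (by norm_num) (by norm_num)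
          exact mul_le_mul_of_nonneg_left (by nlinarith) (by positivity)
        exact hs.congr e

/-- the embedding -/
noncomputable def j (h : Res x) : E →L[ℝ] C₀(ℕ, E) :=
  LinearMap.mkContinuous
    { toFun := fun Φ =>
        { toFun := fun p => ff x p Φ
          continuous_toFun := continuous_of_discreteTopology
          zero_at_infty' := by
            rw [cocompact_eq_atTop, ← tendsto_add_atTop_iff_nat 1]
            have h1 := (tendsto_add_atTop_iff_nat 1).2 (h.tend Φ)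
            have h2 := h1.sub (h.tend Φ)
            simpa [ff] using h2 }
      map_add' := fun F G => by ext q; simp
      map_smul' := fun c F => by ext q; simp }
    2 (fun Φ => by
      refine C0_norm_le (by positivity) fun q => ?_
      exact (ContinuousLinearMap.le_opNorm _ _).trans
        (mul_le_mul_of_nonneg_right (h.ff_norm q) (norm_nonneg _)))

lemma j_apply (h : Res x) (Φ : E) (p : ℕ) : h.j Φ p = ff x p Φ := rfl

lemma j_le (h : Res x) (Φ : E) : ‖h.j Φ‖ ≤ 2 * ‖Φ‖ := by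
  refine C0_norm_le (by positivity) fun q => ?_
  exact ((ff x q).le_opNorm _).trans (mul_le_mul_of_nonneg_right (h.ff_norm q) (norm_nonneg _))

lemma le_j (h : Res x) (Φ : E) : ‖x 0 Φ‖ ≤ ‖h.j Φ‖ := C0_norm_apply (h.j Φ) 0

lemma P_j (h : Res x) (Φ : E) : h.P (h.j Φ) = h.j Φ := by
  ext q
  rw [h.P_apply, h.j_apply]
  have e : ∀ p, (ff x q * rr x p) (h.j Φ p) = (ff x p * rr x p) (ff x q Φ) := by
    intro p
    exact congrArg (fun T : E →L[ℝ] E => T Φ) (h.swap3 q p)
  simp only [e]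
  refine h.tsum_id _ ?_
  exact (h.ker.summ (h.j Φ) q).congr e

/-- cofactor of `x (q - 1)` in `ff x q` -/
lemma ff_factor (h : Res x) (q : ℕ) : ∃ u : E →L[ℝ] E, ‖u‖ ≤ 2 ∧ ff x q = x (q - 1) * u := by
  cases q with
  | zero => exact ⟨1, ContinuousLinearMap.norm_id_le.trans (by norm_num), by simp [ff]⟩
  | succ q =>
    refine ⟨1 - x (q + 1), h.one_sub_norm _, ?_⟩
    rw [h.ff_succ, h.comm_mem (sub_mem (one_mem _) (x_mem x _)) (x_mem x _)]
    simp

/-- **tail lemma** for the range of the projection -/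
theorem tail (h : Res x) (q : ℕ) {ε : ℝ} (hε : 0 < ε) : ∃ δ > 0, ∀ ℓ : E →L[ℝ] ℝ, ‖ℓ‖ ≤ 2 →
    (∀ Ψ, |ℓ (x (q - 1) Ψ)| ≤ δ * ‖Ψ‖) → ∀ F : C₀(ℕ, E), h.P F = F → |ℓ (F q)| ≤ ε * ‖F‖ := by
  obtain ⟨u, hu, hfu⟩ := h.ff_factor q
  have ht := tendsto_sum_nat_add (ww q)
  obtain ⟨N, hN⟩ := (Metric.tendsto_atTop.1 ht) (ε / 800) (by positivity)
  have hN' := hN N le_rfl
  rw [Real.dist_eq, sub_zero] at hN'
  have hN2 : ∑' k, ww q (k + N) ≤ ε / 800 := (le_abs_self _).trans hN'.le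
  refine ⟨ε / (760 * (N + 1)), by positivity, fun ℓ hℓ hΨ F hF => ?_⟩
  have key : F q = ∑' p, (ff x q * rr x p) (F p) := by
    rw [← h.P_apply, hF]
  have hs := h.ker.summ F q
  have hl : Summable fun p => ℓ ((ff x q * rr x p) (F p)) := hs.mapL ℓ
  have b1 : ∀ p, ‖ℓ ((ff x q * rr x p) (F p))‖ ≤ 400 * ‖F‖ * ww q p := by
    intro p
    have k1 := h.ker.term F q p
    have k3 := C0_norm_apply F p
    have w1 := ww_pos q p
    calc ‖ℓ ((ff x q * rr x p) (F p))‖ ≤ ‖ℓ‖ * ‖(ff x q * rr x p) (F p)‖ := ℓ.le_opNorm _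
      _ ≤ 2 * (200 * (ww q p * ‖F p‖)) := mul_le_mul hℓ k1 (norm_nonneg _) (by norm_num)
      _ ≤ 2 * (200 * (ww q p * ‖F‖)) := by
          have := mul_le_mul_of_nonneg_left k3 w1.le
          linarith
      _ = 400 * ‖F‖ * ww q p := by ring
  have b2 : ∀ p, ‖ℓ ((ff x q * rr x p) (F p))‖ ≤ ε / (2 * (N + 1)) * ‖F‖ := by
    intro p
    have e : (ff x q * rr x p) (F p) = x (q - 1) (u (rr x p (F p))) := by rw [hfu]; rfl
    rw [e]
    have k3 := C0_norm_apply F p
    have k4 : ‖u (rr x p (F p))‖ ≤ 2 * (190 * ‖F‖) := by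
      calc ‖u (rr x p (F p))‖ ≤ ‖u‖ * ‖rr x p (F p)‖ := u.le_opNorm _
        _ ≤ 2 * (190 * ‖F‖) := by
            refine mul_le_mul hu ?_ (norm_nonneg _) (by norm_num)
            exact ((rr x p).le_opNorm _).trans (mul_le_mul (h.rr_norm p) k3 (norm_nonneg _)
              (by norm_num))
    calc ‖ℓ (x (q - 1) (u (rr x p (F p))))‖ ≤ ε / (760 * (N + 1)) * ‖u (rr x p (F p))‖ :=
          hΨ _
      _ ≤ ε / (760 * (N + 1)) * (2 * (190 * ‖F‖)) := mul_le_mul_of_nonneg_left k4 (by positivity)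
      _ = ε / (2 * (N + 1)) * ‖F‖ := by field_simp; ring
  have hl2 : Summable fun p => ‖ℓ ((ff x q * rr x p) (F p))‖ :=
    Summable.of_nonneg_of_le (fun p => norm_nonneg _) b1 ((ww_summable q).mul_left _)
  rw [key, ContinuousLinearMap.map_tsum _ hs]
  have t1 : |∑' p, ℓ ((ff x q * rr x p) (F p))| ≤ ∑' p, ‖ℓ ((ff x q * rr x p) (F p))‖ :=
    norm_tsum_le_tsum_norm hl2
  refine t1.trans ?_
  rw [← hl2.sum_add_tsum_nat_add N]
  have t2 : ∑ p ∈ Finset.range N, ‖ℓ ((ff x q * rr x p) (F p))‖ ≤ ε / 2 * ‖F‖ := by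
    calc ∑ p ∈ Finset.range N, ‖ℓ ((ff x q * rr x p) (F p))‖
        ≤ ∑ p ∈ Finset.range N, ε / (2 * (N + 1)) * ‖F‖ := Finset.sum_le_sum fun p _ => b2 p
      _ = N * (ε / (2 * (N + 1)) * ‖F‖) := by simp
      _ ≤ ε / 2 * ‖F‖ := by
          have hN0 : (0 : ℝ) ≤ N := Nat.cast_nonneg N
          have : (N : ℝ) * (ε / (2 * (N + 1))) ≤ ε / 2 := by
            rw [mul_div_assoc', div_le_div_iff₀ (by positivity) (by norm_num)]
            nlinarith
          calc (N : ℝ) * (ε / (2 * (N + 1)) * ‖F‖) = (N * (ε / (2 * (N + 1)))) * ‖F‖ := by ring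
            _ ≤ ε / 2 * ‖F‖ := mul_le_mul_of_nonneg_right this (norm_nonneg _)
  have t3 : ∑' p, ‖ℓ ((ff x q * rr x (p + N)) (F (p + N)))‖ ≤ ε / 2 * ‖F‖ := by
    calc ∑' p, ‖ℓ ((ff x q * rr x (p + N)) (F (p + N)))‖
        ≤ ∑' p, 400 * ‖F‖ * ww q (p + N) :=
          ((summable_nat_add_iff N).2 hl2).tsum_le_tsum (fun p => b1 (p + N))
            (((summable_nat_add_iff N).2 (ww_summable q)).mul_left _)
      _ = 400 * ‖F‖ * ∑' p, ww q (p + N) := tsum_mul_left
      _ ≤ 400 * ‖F‖ * (ε / 800) := mul_le_mul_of_nonneg_left hN2 (by positivity)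
      _ = ε / 2 * ‖F‖ := by ring
  linarith

end Res

end Pool.CE
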