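import Mathlib

/-!
Block REFL (helper65): a Banach space with separable dual and an unconditional basis with a
growth condition (no `c_0`) is reflexive.
-/

set_option autoImplicit false

open Set Filter Topology TopologicalSpace

namespace Pool.Agent.CE

/-- `e` behaves like a `1`-unconditional basis for the norm `N`, equivalent to the norm of `Y`;
`N` grows without bound along sums of successive blocks. -/
structure UncBasis (Y : Type*) [NormedAddCommGroup Y] [NormedSpace ℝ Y] (e : ℕ → Y)
    (N : (ℕ →₀ ℝ) → ℝ) (c1 c2 : ℝ) : Prop where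
  c1pos : 0 < c1
  mono : ∀ a b : ℕ →₀ ℝ, (∀ k, |b k| ≤ |a k|) → N b ≤ N a
  one : ∀ k, 1 ≤ N (Finsupp.single k 1)
  hom : ∀ (t : ℝ) (a : ℕ →₀ ℝ), N (t • a) = |t| * N a
  low : ∀ a, c1 * N a ≤ ‖Finsupp.linearCombination ℝ e a‖
  up : ∀ a, ‖Finsupp.linearCombination ℝ e a‖ ≤ c2 * N a
  dense : Dense ((Submodule.span ℝ (Set.range e) : Submodule ℝ Y) : Set Y)
  growth : ∀ (n : ℕ → ℕ), StrictMono n → ∀ (b : ℕ → ℕ →₀ ℝ),
    (∀ i k, b i k ≠ 0 → n i ≤ k ∧ k < n (i + 1)) → ∀ δ : ℝ, 0 < δ → (∀ i, δ ≤ N (b i)) →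
    ∀ M : ℝ, ∃ m, M ≤ N (∑ i ∈ Finset.range m, b i)

namespace UncBasis

variable {Y : Type*} [NormedAddCommGroup Y] [NormedSpace ℝ Y] {e : ℕ → Y}
  {N : (ℕ →₀ ℝ) → ℝ} {c1 c2 : ℝ} (H : UncBasis Y e N c1 c2)

include H

theorem abs_le (a : ℕ →₀ ℝ) (k : ℕ) : |a k| ≤ N a := by
  have h1 : N (Finsupp.single k (a k)) ≤ N a := by
    apply H.mono
    intro j
    by_cases hj : j = k
    · subst hj; simp
    · rw [Finsupp.single_eq_of_ne hj]; simp
  have h2 : Finsupp.single k (a k) = (a k) • Finsupp.single k (1 : ℝ) := by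
    rw [Finsupp.smul_single, smul_eq_mul, mul_one]
  rw [h2, H.hom] at h1
  have h3 := H.one k
  nlinarith [abs_nonneg (a k)]

theorem nonneg (a : ℕ →₀ ℝ) : 0 ≤ N a := (abs_nonneg _).trans (H.abs_le a 0)

theorem pos {a : ℕ →₀ ℝ} (ha : a ≠ 0) : 0 < N a := by
  obtain ⟨k, hk⟩ := Finsupp.ne_iff.mp ha
  have hk' : a k ≠ 0 := by simpa using hk
  exact (abs_pos.mpr hk').trans_le (H.abs_le a k)

theorem c2pos : 0 < c2 := by
  have h1 := H.low (Finsupp.single 0 1)
  have h2 := H.up (Finsupp.single 0 1)
  have h3 := H.one 0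
  have h4 := H.c1pos
  by_contra h5
  push Not at h5
  nlinarith [mul_pos h4 (lt_of_lt_of_le one_pos h3)]

theorem injective : Function.Injective (Finsupp.linearCombination ℝ e) := by
  rw [← LinearMap.ker_eq_bot, LinearMap.ker_eq_bot']
  intro a ha
  by_contra hne
  have h1 := H.low a
  rw [ha, norm_zero] at h1
  have := mul_pos H.c1pos (H.pos hne)
  linarith

theorem not_finiteDimensional : ¬ FiniteDimensional ℝ Y := by
  intro hfin
  have h1 : Module.Finite ℝ (ℕ →₀ ℝ) := Module.Finite.of_injective _ H.injective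
  rw [Module.finite_finsupp_self_iff] at h1
  rcases h1 with h | h
  · exact not_subsingleton ℝ h
  · exact not_finite ℕ

theorem denseRange : DenseRange (Finsupp.linearCombination ℝ e) := by
  have h1 : Set.range (Finsupp.linearCombination ℝ e) =
      ((Submodule.span ℝ (Set.range e) : Submodule ℝ Y) : Set Y) := by
    rw [← Finsupp.range_linearCombination]
    rfl
  unfold DenseRange
  rw [h1]
  exact H.dense

/-- Norm of a functional can be computed on the span. -/
theorem norm_le_of {h : StrongDual ℝ Y} {C : ℝ} (hC : 0 ≤ C)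
    (hh : ∀ a, |h (Finsupp.linearCombination ℝ e a)| ≤ C * N a) : ‖h‖ ≤ C / c1 := by
  apply ContinuousLinearMap.opNorm_le_bound _ (div_nonneg hC H.c1pos.le)
  intro y
  refine H.denseRange.induction_on (p := fun y => ‖h y‖ ≤ C / c1 * ‖y‖) y ?_ ?_
  · exact isClosed_le (by fun_prop) (by fun_prop)
  · intro a
    rw [Real.norm_eq_abs]
    refine (hh a).trans ?_
    have h1 := H.low a
    rw [div_mul_eq_mul_div, le_div_iff₀ H.c1pos]
    calc C * N a * c1 = C * (c1 * N a) := by ring
      _ ≤ C * _ := mul_le_mul_of_nonneg_left h1 hC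

/-- Existence of functionals with prescribed values on the span. -/
theorem exists_functional (g : (ℕ →₀ ℝ) →ₗ[ℝ] ℝ) (C : ℝ) (hC : 0 ≤ C)
    (hg : ∀ a, |g a| ≤ C * N a) :
    ∃ h : StrongDual ℝ Y, (∀ a, h (Finsupp.linearCombination ℝ e a) = g a) ∧ ‖h‖ ≤ C / c1 := by
  let E : (ℕ →₀ ℝ) ≃ₗ[ℝ] LinearMap.range (Finsupp.linearCombination ℝ e) :=
    LinearEquiv.ofInjective _ H.injective
  let g' : StrongDual ℝ (LinearMap.range (Finsupp.linearCombination ℝ e)) :=
    LinearMap.mkContinuous (g.comp (E.symm : _ →ₗ[ℝ] (ℕ →₀ ℝ))) (C / c1) (by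
      intro z
      obtain ⟨a, rfl⟩ := E.surjective z
      have h1 : ‖E a‖ = ‖Finsupp.linearCombination ℝ e a‖ := rfl
      have h2 := H.low a
      rw [h1]
      calc ‖(g.comp (E.symm : _ →ₗ[ℝ] (ℕ →₀ ℝ))) (E a)‖ = |g a| := by simp
        _ ≤ C * N a := hg a
        _ ≤ C / c1 * ‖Finsupp.linearCombination ℝ e a‖ := by
          rw [div_mul_eq_mul_div, le_div_iff₀ H.c1pos]
          calc C * N a * c1 = C * (c1 * N a) := by ring
            _ ≤ C * _ := mul_le_mul_of_nonneg_left h2 hC)
  obtain ⟨h, hh, -⟩ := exists_extension_norm_eq _ g'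
  have key : ∀ a, h (Finsupp.linearCombination ℝ e a) = g a := by
    intro a
    have h1 := hh (E a)
    have h2 : g' (E a) = g a := by
      change g (E.symm (E a)) = g a
      rw [LinearEquiv.symm_apply_apply]
    rw [h2] at h1
    exact h1
  exact ⟨h, key, H.norm_le_of hC (fun a => by rw [key a]; exact hg a)⟩

theorem N_filter_le (a : ℕ →₀ ℝ) (p : ℕ → Prop) [DecidablePred p] : N (a.filter p) ≤ N a := by
  apply H.mono
  intro k
  rw [Finsupp.filter_apply]
  split_ifs with h
  · exact le_rfl
  · simp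

/-- The functional `f` restricted to the coordinates in `A`. -/
theorem exists_restrict (f : StrongDual ℝ Y) (A : Set ℕ) :
    ∃ h : StrongDual ℝ Y, ∀ a : ℕ →₀ ℝ, h (Finsupp.linearCombination ℝ e a) =
      f (Finsupp.linearCombination ℝ e (@Finsupp.filter ℕ ℝ _ (fun k => k ∈ A) (Classical.decPred _) a)) := by
  classical
  let g : (ℕ →₀ ℝ) →ₗ[ℝ] ℝ :=
    { toFun := fun a => f (Finsupp.linearCombination ℝ e (a.filter (fun k => k ∈ A)))
      map_add' := fun a b => by simp only [Finsupp.filter_add, map_add]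
      map_smul' := fun t a => by simp only [Finsupp.filter_smul, map_smul, RingHom.id_apply] }
  obtain ⟨h, hh, -⟩ := H.exists_functional g (‖f‖ * c2)
    (mul_nonneg (norm_nonneg _) H.c2pos.le) (by
      intro a
      change |f (Finsupp.linearCombination ℝ e (a.filter (fun k => k ∈ A)))| ≤ _
      rw [← Real.norm_eq_abs]
      refine (f.le_opNorm _).trans ?_
      rw [mul_assoc]
      refine mul_le_mul_of_nonneg_left ?_ (norm_nonneg _)
      exact (H.up _).trans (mul_le_mul_of_nonneg_left (H.N_filter_le a _) H.c2pos.le))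
  refine ⟨h, fun a => ?_⟩
  rw [hh a]
  change f (Finsupp.linearCombination ℝ e (a.filter (fun k => k ∈ A))) = _
  congr!

/-- Shrinking. -/
theorem shrinking [SeparableSpace (StrongDual ℝ Y)] (f : StrongDual ℝ Y) (ε : ℝ) (hε : 0 < ε) :
    ∃ n : ℕ, ∀ a : ℕ →₀ ℝ, (∀ k, a k ≠ 0 → n ≤ k) →
      |f (Finsupp.linearCombination ℝ e a)| ≤ ε * N a := by
  classical
  by_contra hcon
  push Not at hcon
  choose u hu hfu using hcon
  let nn : ℕ → ℕ := fun i => Nat.rec 0 (fun _ m => max (m + 1) ((u m).support.sup id + 1)) i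
  have hnn : ∀ i, nn (i + 1) = max (nn i + 1) ((u (nn i)).support.sup id + 1) := fun i => rfl
  have hmono : StrictMono nn := strictMono_nat_of_lt_succ fun i => by
    rw [hnn]; exact lt_of_lt_of_le (Nat.lt_succ_self _) (le_max_left _ _)
  have hsupp : ∀ i k, u (nn i) k ≠ 0 → nn i ≤ k ∧ k < nn (i + 1) := by
    intro i k hk
    refine ⟨hu _ k hk, ?_⟩
    rw [hnn]
    have h1 : k ≤ (u (nn i)).support.sup id :=
      Finset.le_sup (f := id) (Finsupp.mem_support_iff.mpr hk)
    exact lt_of_lt_of_le (Nat.lt_succ_of_le h1) (le_max_right _ _)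
  let A : Set ℕ → Set ℕ := fun E => {k | ∃ i ∈ E, nn i ≤ k ∧ k < nn (i + 1)}
  choose h hh using fun E : Set ℕ => H.exists_restrict f (A E)
  -- values on the blocks
  have hval1 : ∀ (E : Set ℕ) (i : ℕ), i ∈ E →
      h E (Finsupp.linearCombination ℝ e (u (nn i))) =
        f (Finsupp.linearCombination ℝ e (u (nn i))) := by
    intro E i hi
    rw [hh]
    congr 2
    rw [Finsupp.filter_eq_self_iff]
    intro k hk
    exact ⟨i, hi, hsupp i k hk⟩
  have hval0 : ∀ (E : Set ℕ) (i : ℕ), i ∉ E →
      h E (Finsupp.linearCombination ℝ e (u (nn i))) = 0 := by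
    intro E i hi
    rw [hh]
    have h0 : @Finsupp.filter ℕ ℝ _ (fun k => k ∈ A E) (Classical.decPred _) (u (nn i)) = 0 := by
      ext k
      rw [Finsupp.filter_apply]
      rcases Classical.em (k ∈ A E) with hk | hk
      · rw [if_pos hk]
        by_contra hne
        obtain ⟨j, hj, h1, h2⟩ := hk
        obtain ⟨h3, h4⟩ := hsupp i k hne
        rcases lt_trichotomy i j with hij | hij | hij
        · have := hmono.monotone (Nat.succ_le_of_lt hij)
          have h5 : nn (i + 1) ≤ nn j := this
          omega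
        · exact hi (hij ▸ hj)
        · have h5 : nn (j + 1) ≤ nn i := hmono.monotone (Nat.succ_le_of_lt hij)
          omega
      · rw [if_neg hk]; rfl
    rw [h0, map_zero, map_zero]
  have hsep : ∀ E E' : Set ℕ, E ≠ E' → ε / c2 ≤ dist (h E) (h E') := by
    intro E E' hne
    have hd : dist (h E) (h E') = ‖h E - h E'‖ := dist_eq_norm (h E) (h E')
    rw [hd]
    have key : ∀ i, |(h E - h E') (Finsupp.linearCombination ℝ e (u (nn i)))| =
        |f (Finsupp.linearCombination ℝ e (u (nn i)))| → ε / c2 ≤ ‖h E - h E'‖ := by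
      intro i hi
      have h1 := (h E - h E').le_opNorm (Finsupp.linearCombination ℝ e (u (nn i)))
      rw [Real.norm_eq_abs, hi] at h1
      have h2 := hfu (nn i)
      have h3 := H.up (u (nn i))
      have hN : 0 ≤ ‖h E - h E'‖ := (h E - h E').opNorm_nonneg
      have hNu : 0 < N (u (nn i)) := by
        apply H.pos
        rintro h0
        rw [h0, map_zero, map_zero, abs_zero] at h2
        have h6 := H.nonneg 0
        nlinarith
      have h4 : ‖h E - h E'‖ * ‖Finsupp.linearCombination ℝ e (u (nn i))‖ ≤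
          ‖h E - h E'‖ * (c2 * N (u (nn i))) := mul_le_mul_of_nonneg_left h3 hN
      have h5 : ε * N (u (nn i)) < ‖h E - h E'‖ * c2 * N (u (nn i)) := by
        calc ε * N (u (nn i)) < _ := h2
          _ ≤ _ := h1
          _ ≤ _ := h4
          _ = _ := by ring
      rw [div_le_iff₀ H.c2pos]
      exact (lt_of_mul_lt_mul_right h5 hNu.le).le
    have : ∃ i, ¬ (i ∈ E ↔ i ∈ E') := by
      by_contra hc
      push Not at hc
      exact hne (Set.ext hc)
    obtain ⟨i, hi⟩ := this
    apply key i
    rw [ContinuousLinearMap.sub_apply]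
    by_cases h1 : i ∈ E
    · have h2 : i ∉ E' := fun h2 => hi ⟨fun _ => h2, fun _ => h1⟩
      rw [hval1 E i h1, hval0 E' i h2, sub_zero]
    · have h2 : i ∈ E' := by
        by_contra h2
        exact hi ⟨fun h => (h1 h).elim, fun h => (h2 h).elim⟩
      rw [hval0 E i h1, hval1 E' i h2, zero_sub, abs_neg]
  have hpos : 0 < ε / c2 := div_pos hε H.c2pos
  have hdisj : (univ : Set (Set ℕ)).PairwiseDisjoint fun E => Metric.ball (h E) (ε / c2 / 2) := by
    intro E _ E' _ hEE
    apply Metric.ball_disjoint_ball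
    have := hsep E E' hEE
    linarith
  have hc := hdisj.countable_of_isOpen (fun l _ => Metric.isOpen_ball)
    (fun l _ => ⟨h l, Metric.mem_ball_self (by positivity)⟩)
  have hcount : Countable (Set ℕ) := countable_univ_iff.mp hc
  obtain ⟨F, hF⟩ := exists_surjective_nat (Set ℕ)
  exact Function.cantor_surjective F hF

/-- Coordinate functionals. -/
theorem exists_coord (k : ℕ) :
    ∃ h : StrongDual ℝ Y, ∀ a : ℕ →₀ ℝ, h (Finsupp.linearCombination ℝ e a) = a k := by
  obtain ⟨h, hh, -⟩ := H.exists_functional (Finsupp.lapply k) 1 zero_le_one (by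
    intro a
    rw [one_mul]
    exact H.abs_le a k)
  exact ⟨h, hh⟩

theorem reflexive [CompleteSpace Y] [SeparableSpace (StrongDual ℝ Y)] :
    Function.Surjective (NormedSpace.inclusionInDoubleDual ℝ Y) := by
  classical
  intro φ
  choose es hes using H.exists_coord
  let S := Finsupp.linearCombination ℝ e
  -- partial sums
  let s : ℕ → ℕ →₀ ℝ := fun n => ∑ k ∈ Finset.range n, Finsupp.single k (φ (es k))
  have hs : ∀ n k, s n k = if k < n then φ (es k) else 0 := by
    intro n k
    simp only [s, Finsupp.finset_sum_apply, Finsupp.single_apply]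
    rw [Finset.sum_ite_eq' (Finset.range n) k]
    simp
  -- restricted functionals
  let r : StrongDual ℝ Y → ℕ → StrongDual ℝ Y := fun f n => ∑ k ∈ Finset.range n, f (e k) • es k
  have hr : ∀ f n (a : ℕ →₀ ℝ), r f n (S a) = f (S (a.filter (fun k => k < n))) := by
    intro f n a
    have h1 : r f n (S a) = ∑ k ∈ Finset.range n, f (e k) * a k := by
      simp only [r, ContinuousLinearMap.sum_apply, ContinuousLinearMap.smul_apply, smul_eq_mul]
      apply Finset.sum_congr rfl
      intro k _
      rw [hes]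
    have h2 : a.filter (fun k => k < n) = ∑ k ∈ Finset.range n, Finsupp.single k (a k) := by
      ext k
      rw [Finsupp.filter_apply, Finsupp.finset_sum_apply]
      simp only [Finsupp.single_apply]
      rw [Finset.sum_ite_eq' (Finset.range n) k]
      simp
    rw [h1, h2, map_sum, map_sum]
    apply Finset.sum_congr rfl
    intro k _
    change _ = f (Finsupp.linearCombination ℝ e _)
    rw [Finsupp.linearCombination_single, map_smul, smul_eq_mul, mul_comm]
  have hφr : ∀ f n, φ (r f n) = f (S (s n)) := by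
    intro f n
    simp only [r, s, map_sum, map_smul, smul_eq_mul]
    apply Finset.sum_congr rfl
    intro k _
    change _ = f (Finsupp.linearCombination ℝ e _)
    rw [Finsupp.linearCombination_single, map_smul, smul_eq_mul, mul_comm]
  have hrn : ∀ f n, ‖r f n‖ ≤ ‖f‖ * c2 / c1 := by
    intro f n
    apply H.norm_le_of (mul_nonneg (norm_nonneg _) H.c2pos.le)
    intro a
    have h1 := hr f n a
    change |r f n (S a)| ≤ _
    rw [h1, ← Real.norm_eq_abs]
    refine (f.le_opNorm _).trans ?_
    rw [mul_assoc]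
    refine mul_le_mul_of_nonneg_left ?_ (norm_nonneg _)
    exact (H.up _).trans (mul_le_mul_of_nonneg_left (H.N_filter_le a _) H.c2pos.le)
  -- boundedness of the partial sums
  let C : ℝ := ‖φ‖ * (c2 / c1) / c1
  have hsb : ∀ n, N (s n) ≤ C := by
    intro n
    obtain ⟨f, hf1, hf2⟩ := exists_dual_vector'' ℝ (S (s n))
    have h1 : ‖S (s n)‖ ≤ ‖φ‖ * (c2 / c1) := by
      have h2 : ‖S (s n)‖ = φ (r f n) := by
        rw [hφr, hf2]
        rfl
      rw [h2]
      calc φ (r f n) ≤ ‖φ (r f n)‖ := Real.le_norm_self _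
        _ ≤ ‖φ‖ * ‖r f n‖ := φ.le_opNorm _
        _ ≤ ‖φ‖ * (c2 / c1) := by
          refine mul_le_mul_of_nonneg_left ?_ φ.opNorm_nonneg
          refine (hrn f n).trans ?_
          have h3 : ‖f‖ * c2 ≤ c2 := by nlinarith [H.c2pos]
          exact div_le_div_of_nonneg_right h3 H.c1pos.le
    have h3 := H.low (s n)
    change N (s n) ≤ ‖φ‖ * (c2 / c1) / c1
    rw [le_div_iff₀ H.c1pos]
    calc N (s n) * c1 = c1 * N (s n) := mul_comm _ _
      _ ≤ _ := h3
      _ ≤ _ := h1
  -- Cauchy
  have hcau : CauchySeq fun n => S (s n) := by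
    rw [Metric.cauchySeq_iff']
    intro ε hε
    by_contra hcon
    push Not at hcon
    -- for every `n` some `m ≥ n` with `dist ≥ ε`
    choose m hm hmd using hcon
    let δ : ℝ := ε / c2
    have hδ : 0 < δ := div_pos hε H.c2pos
    have hNd : ∀ n, δ ≤ N (s (m n) - s n) := by
      intro n
      have h1 := hmd n
      rw [dist_eq_norm, ← map_sub] at h1
      have h2 := H.up (s (m n) - s n)
      change ε / c2 ≤ _
      rw [div_le_iff₀ H.c2pos]
      linarith [mul_comm c2 (N (s (m n) - s n))]
    have hmlt : ∀ n, n < m n := by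
      intro n
      rcases (hm n).lt_or_eq with h | h
      · exact h
      · exfalso
        have h1 := hmd n
        rw [← h, dist_self] at h1
        linarith
    let nn : ℕ → ℕ := fun i => Nat.rec 0 (fun _ q => m q) i
    have hnn : ∀ i, nn (i + 1) = m (nn i) := fun i => rfl
    have hmono : StrictMono nn := strictMono_nat_of_lt_succ fun i => by
      rw [hnn]; exact hmlt _
    let b : ℕ → ℕ →₀ ℝ := fun i => s (nn (i + 1)) - s (nn i)
    have hb : ∀ i k, b i k ≠ 0 → nn i ≤ k ∧ k < nn (i + 1) := by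
      intro i k hk
      have hlt : nn i < nn (i + 1) := hmono (Nat.lt_succ_self i)
      have hk1 : s (nn (i + 1)) k - s (nn i) k ≠ 0 := hk
      rw [hs, hs] at hk1
      rcases Nat.lt_or_ge k (nn i) with h1 | h1
      · have h2 : k < nn (i + 1) := h1.trans hlt
        rw [if_pos h1, if_pos h2, sub_self] at hk1
        exact (hk1 rfl).elim
      · rcases Nat.lt_or_ge k (nn (i + 1)) with h2 | h2
        · exact ⟨h1, h2⟩
        · rw [if_neg (not_lt.mpr h1), if_neg (not_lt.mpr h2), sub_self] at hk1
          exact (hk1 rfl).elim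
    obtain ⟨q, hq⟩ := H.growth nn hmono b hb δ hδ (fun i => by
      change δ ≤ N (s (nn (i + 1)) - s (nn i))
      rw [hnn]; exact hNd _) (C + 1)
    have hsum : ∑ i ∈ Finset.range q, b i = s (nn q) - s (nn 0) := by
      exact Finset.sum_range_sub (fun i => s (nn i)) q
    have hs0 : s (nn 0) = 0 := by
      change s 0 = 0
      simp [s]
    rw [hsum, hs0, sub_zero] at hq
    have := hsb (nn q)
    linarith
  obtain ⟨y, hy⟩ := cauchySeq_tendsto_of_complete hcau
  refine ⟨y, ?_⟩
  apply ContinuousLinearMap.ext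
  intro f
  rw [NormedSpace.dual_def]
  have h1 : Tendsto (fun n => f (S (s n))) atTop (𝓝 (f y)) :=
    (f.continuous.tendsto y).comp hy
  have h2 : Tendsto (fun n => r f n) atTop (𝓝 f) := by
    rw [Metric.tendsto_atTop]
    intro ε hε
    obtain ⟨n0, hn0⟩ := H.shrinking f (ε * c1 / 2) (by have := H.c1pos; positivity)
    refine ⟨n0, fun n hn => ?_⟩
    have hd : dist (r f n) f = ‖r f n - f‖ := dist_eq_norm (r f n) f
    rw [hd]
    have h3 : ‖r f n - f‖ ≤ ε * c1 / 2 / c1 := by
      apply H.norm_le_of (by have := H.c1pos; positivity)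
      intro a
      change |(r f n - f) (S a)| ≤ _
      have h4 : (r f n - f) (S a) = - f (S (a.filter (fun k => ¬ k < n))) := by
        rw [ContinuousLinearMap.sub_apply, hr]
        have h5 : S (a.filter (fun k => k < n)) + S (a.filter (fun k => ¬ k < n)) = S a := by
          rw [← map_add]
          congr 1
          ext k
          rw [Finsupp.add_apply, Finsupp.filter_apply, Finsupp.filter_apply]
          by_cases hk : k < n
          · simp [hk]
          · simp [hk]
        have h6 : f (S a) = f (S (a.filter (fun k => k < n))) + f (S (a.filter (fun k => ¬ k < n))) := by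
          rw [← map_add, h5]
        rw [h6]
        ring
      rw [h4, abs_neg]
      refine (hn0 _ ?_).trans ?_
      · intro k hk
        rw [Finsupp.filter_apply] at hk
        by_cases h6 : k < n
        · rw [if_neg (not_not.mpr h6)] at hk
          exact (hk rfl).elim
        · omega
      · exact mul_le_mul_of_nonneg_left (H.N_filter_le a _) (by have := H.c1pos; positivity)
    have h7 : ε * c1 / 2 / c1 = ε / 2 := by
      have := H.c1pos.ne'
      field_simp
    rw [h7] at h3
    linarith
  have h3 : Tendsto (fun n => φ (r f n)) atTop (𝓝 (φ f)) := (φ.continuous.tendsto f).comp h2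
  have h4 : (fun n => φ (r f n)) = fun n => f (S (s n)) := funext fun n => hφr f n
  rw [h4] at h3
  exact tendsto_nhds_unique h1 h3

end UncBasis

end Pool.Agent.CE
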