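import Mathlib
import Pool.Agent.Work.MP_052a41_ce.Interface

set_option autoImplicit false

/-! # Block RQ (helper7): coordinate projections -/

namespace Pool.CE

open Filter Topology Set

/-- Coordinate projections of an unconditional basic sequence with dense span. -/
theorem blk_RQ : Stmt_RQ := by
  classical
  intro V _ _ _ e C hU hD _ E
  -- the linear map `a ↦ lin e (a.filter (· ∈ E))`
  let g : (ℕ →₀ ℝ) →ₗ[ℝ] V :=
    (lin e).comp ((Finsupp.supported ℝ ℝ E).subtype.comp (Finsupp.restrictDom ℝ ℝ E))
  have hg : ∀ a, g a = lin e (a.filter (· ∈ E)) := fun a => rfl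
  have hle : ∀ a, ‖g a‖ ≤ C * ‖lin e a‖ := by
    intro a
    rw [hg]
    refine hU a _ fun k => ?_
    rw [Finsupp.filter_apply]
    split_ifs
    · exact le_refl _
    · rw [abs_zero]; exact abs_nonneg _
  have hdense : DenseRange (lin e) := by
    have h1 : Set.range (lin e) = ((Submodule.span ℝ (Set.range e) : Submodule ℝ V) : Set V) := by
      rw [← LinearMap.coe_range]
      unfold lin
      rw [Finsupp.range_linearCombination]
    unfold DenseRange
    rw [h1]
    exact hD
  have hsingle : ∀ k, lin e (Finsupp.single k 1) = e k := by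
    intro k
    unfold lin
    rw [Finsupp.linearCombination_single, one_smul]
  refine ⟨g.extendOfNorm (lin e), fun k hk => ?_, fun k hk => ?_, fun v => ?_⟩
  · have h := LinearMap.extendOfNorm_eq hdense ⟨C, hle⟩ (Finsupp.single k 1)
    rw [hsingle, hg, Finsupp.filter_single_of_pos _ hk, hsingle] at h
    exact h
  · have h := LinearMap.extendOfNorm_eq hdense ⟨C, hle⟩ (Finsupp.single k 1)
    rw [hsingle, hg, Finsupp.filter_single_of_neg _ hk, map_zero] at h
    exact h
  · exact LinearMap.norm_extendOfNorm_apply_le hdense C hle v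

end Pool.CE
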