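import Mathlib

/-!
# Abstract layer 1: terminating generators and their resolvents

`Gen S` = a type with a finite list of steps out of every point, each lowering a rank.
`A φ z = ∑_{w ∈ steps z} (φ z - φ w) / 2`; `G V = (1 + V A)⁻¹` on ALL functions `S → ℝ` for `V ≥ 0`.
-/

set_option autoImplicit false

open Filter Topology

namespace Pool.CE

/-- a terminating system of steps -/
structure Gen (S : Type) where
  steps : S → List S
  rank : S → ℕ
  rank_lt : ∀ z w, w ∈ steps z → rank w < rank z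

namespace Gen

variable {S : Type} (Γ : Gen S)

/-- the generator -/
noncomputable def A (φ : S → ℝ) (z : S) : ℝ :=
  ((Γ.steps z).map (fun w => (φ z - φ w) / 2)).sum

/-- a set closed under steps -/
def Closed (R : Set S) : Prop := ∀ z ∈ R, ∀ w ∈ Γ.steps z, w ∈ R

lemma closed_univ : Γ.Closed Set.univ := fun _ _ _ _ => trivial

/-- the points reachable from `z` -/
def reach (z : S) : Set S := {w | Relation.ReflTransGen (fun a b => b ∈ Γ.steps a) z w}

lemma mem_reach (z : S) : z ∈ Γ.reach z := Relation.ReflTransGen.refl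

lemma closed_reach (z : S) : Γ.Closed (Γ.reach z) := fun _ hw _ hv =>
  Relation.ReflTransGen.tail hw hv

lemma reach_subset {R : Set S} (hR : Γ.Closed R) {z : S} (hz : z ∈ R) : Γ.reach z ⊆ R := by
  intro w hw
  induction hw with
  | refl => exact hz
  | tail _ h ih => exact hR _ ih _ h

lemma finite_reach (z : S) : (Γ.reach z).Finite := by
  induction hn : Γ.rank z using Nat.strong_induction_on generalizing z with
  | _ n ih =>
    subst hn
    have hfin : (insert z (⋃ w ∈ {w | w ∈ Γ.steps z}, Γ.reach w)).Finite := by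
      refine Set.Finite.insert _ (Set.Finite.biUnion (List.finite_toSet _) ?_)
      intro w hw
      exact ih _ (Γ.rank_lt z w hw) w rfl
    refine hfin.subset ?_
    intro w hw
    rcases Relation.ReflTransGen.cases_head hw with h | ⟨v, hv, hvw⟩
    · left; exact h.symm
    · right
      exact Set.mem_biUnion (show v ∈ {w | w ∈ Γ.steps z} from hv) hvw

lemma A_eq (φ : S → ℝ) (z : S) :
    Γ.A φ z = (Γ.steps z).length / 2 * φ z - ((Γ.steps z).map φ).sum / 2 := by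
  unfold A
  induction (Γ.steps z) with
  | nil => simp
  | cons a l ih => simp only [List.map_cons, List.sum_cons, ih, List.length_cons]; push_cast; ring

lemma A_add (φ ψ : S → ℝ) (z : S) : Γ.A (fun w => φ w + ψ w) z = Γ.A φ z + Γ.A ψ z := by
  unfold A
  induction (Γ.steps z) with
  | nil => simp
  | cons a l ih => simp only [List.map_cons, List.sum_cons, ih]; ring

lemma A_smul (c : ℝ) (φ : S → ℝ) (z : S) : Γ.A (fun w => c * φ w) z = c * Γ.A φ z := by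
  unfold A
  induction (Γ.steps z) with
  | nil => simp
  | cons a l ih => simp only [List.map_cons, List.sum_cons, ih]; ring

lemma A_sub (φ ψ : S → ℝ) (z : S) : Γ.A (fun w => φ w - ψ w) z = Γ.A φ z - Γ.A ψ z := by
  unfold A
  induction (Γ.steps z) with
  | nil => simp
  | cons a l ih => simp only [List.map_cons, List.sum_cons, ih]; ring

lemma A_const (c : ℝ) (z : S) : Γ.A (fun _ => c) z = 0 := by
  unfold A
  induction (Γ.steps z) with
  | nil => simp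
  | cons a l ih => simp only [List.map_cons, List.sum_cons, ih]; ring

lemma A_congr {φ ψ : S → ℝ} {z : S} (hz : φ z = ψ z) (h : ∀ w ∈ Γ.steps z, φ w = ψ w) :
    Γ.A φ z = Γ.A ψ z := by
  unfold A
  congr 1
  refine List.map_congr_left ?_
  intro w hw
  rw [hz, h w hw]

/-- **comparison principle** on a closed set -/
lemma cmp {V : ℝ} (hV : 0 ≤ V) {R : Set S} (hR : Γ.Closed R) {φ ψ : S → ℝ}
    (h : ∀ z ∈ R, φ z + V * Γ.A φ z ≤ ψ z + V * Γ.A ψ z) : ∀ z ∈ R, φ z ≤ ψ z := by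
  intro z
  induction hn : Γ.rank z using Nat.strong_induction_on generalizing z with
  | _ n ih =>
    subst hn
    intro hz
    have h1 := h z hz
    rw [A_eq, A_eq] at h1
    have h2 : ((Γ.steps z).map φ).sum ≤ ((Γ.steps z).map ψ).sum := by
      refine List.sum_le_sum ?_
      intro w hw
      exact ih _ (Γ.rank_lt z w hw) w rfl (hR z hz w hw)
    have h3 : (0 : ℝ) ≤ (Γ.steps z).length := by positivity
    by_contra hcon
    push Not at hcon
    have h4 : 0 < (φ z - ψ z) * (1 + V * ((Γ.steps z).length / 2)) := by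
      refine mul_pos (by linarith) (by positivity)
    nlinarith

/-- the resolvent -/
noncomputable def G (V : ℝ) (φ : S → ℝ) (z : S) : ℝ :=
  (φ z + V / 2 * ((Γ.steps z).attach.map (fun w => G V φ w.1)).sum) /
    (1 + V / 2 * (Γ.steps z).length)
termination_by Γ.rank z
decreasing_by exact Γ.rank_lt z w.1 w.2

lemma G_eq (V : ℝ) (φ : S → ℝ) (z : S) :
    Γ.G V φ z = (φ z + V / 2 * ((Γ.steps z).map (Γ.G V φ)).sum) /
      (1 + V / 2 * (Γ.steps z).length) := by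
  rw [G]
  congr 3
  rw [show (fun w : {x // x ∈ Γ.steps z} => Γ.G V φ w.1) = Γ.G V φ ∘ Subtype.val from rfl,
    ← List.map_map, List.attach_map_subtype_val]

lemma G_spec {V : ℝ} (hV : 0 ≤ V) (φ : S → ℝ) (z : S) :
    Γ.G V φ z + V * Γ.A (Γ.G V φ) z = φ z := by
  have h3 : (0 : ℝ) ≤ (Γ.steps z).length := by positivity
  have h4 : (1 + V / 2 * (Γ.steps z).length : ℝ) ≠ 0 := by positivity
  have h5 := G_eq Γ V φ z
  rw [eq_div_iff h4] at h5
  rw [A_eq]
  linarith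

lemma G_unique {V : ℝ} (hV : 0 ≤ V) {R : Set S} (hR : Γ.Closed R) {φ ψ : S → ℝ}
    (h : ∀ z ∈ R, ψ z + V * Γ.A ψ z = φ z) : ∀ z ∈ R, ψ z = Γ.G V φ z := by
  intro z hz
  apply le_antisymm
  · exact cmp Γ hV hR (fun z hz => by rw [h z hz, G_spec Γ hV]) z hz
  · exact cmp Γ hV hR (fun z hz => by rw [h z hz, G_spec Γ hV]) z hz

lemma G_unique' {V : ℝ} (hV : 0 ≤ V) {φ ψ : S → ℝ}
    (h : ∀ z, ψ z + V * Γ.A ψ z = φ z) : ψ = Γ.G V φ :=
  funext fun z => G_unique Γ hV Γ.closed_univ (fun z _ => h z) z trivial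

/-- comparison: `(1 + V A) H ≤ φ` implies `H ≤ G_V φ` -/
lemma le_G {V : ℝ} (hV : 0 ≤ V) {R : Set S} (hR : Γ.Closed R) {φ H : S → ℝ}
    (h : ∀ z ∈ R, H z + V * Γ.A H z ≤ φ z) : ∀ z ∈ R, H z ≤ Γ.G V φ z :=
  cmp Γ hV hR (fun z hz => by rw [G_spec Γ hV]; exact h z hz)

/-- comparison: `φ ≤ (1 + V A) H` implies `G_V φ ≤ H` -/
lemma G_le {V : ℝ} (hV : 0 ≤ V) {R : Set S} (hR : Γ.Closed R) {φ H : S → ℝ}
    (h : ∀ z ∈ R, φ z ≤ H z + V * Γ.A H z) : ∀ z ∈ R, Γ.G V φ z ≤ H z :=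
  cmp Γ hV hR (fun z hz => by rw [G_spec Γ hV]; exact h z hz)

lemma G_mono {V : ℝ} (hV : 0 ≤ V) {R : Set S} (hR : Γ.Closed R) {φ ψ : S → ℝ}
    (h : ∀ z ∈ R, φ z ≤ ψ z) : ∀ z ∈ R, Γ.G V φ z ≤ Γ.G V ψ z :=
  cmp Γ hV hR (fun z hz => by rw [G_spec Γ hV, G_spec Γ hV]; exact h z hz)

lemma G_congr {V : ℝ} (hV : 0 ≤ V) {R : Set S} (hR : Γ.Closed R) {φ ψ : S → ℝ}
    (h : ∀ z ∈ R, φ z = ψ z) : ∀ z ∈ R, Γ.G V φ z = Γ.G V ψ z := fun z hz =>
  le_antisymm (G_mono Γ hV hR (fun z hz => (h z hz).le) z hz)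
    (G_mono Γ hV hR (fun z hz => (h z hz).ge) z hz)

lemma G_const {V : ℝ} (hV : 0 ≤ V) (c : ℝ) : Γ.G V (fun _ => c) = fun _ => c :=
  (G_unique' Γ hV (fun z => by rw [A_const]; ring)).symm

lemma G_add {V : ℝ} (hV : 0 ≤ V) (φ ψ : S → ℝ) :
    Γ.G V (fun w => φ w + ψ w) = fun w => Γ.G V φ w + Γ.G V ψ w :=
  (G_unique' Γ hV (fun z => by
    rw [A_add]
    have h1 := G_spec Γ hV φ z
    have h2 := G_spec Γ hV ψ z
    linear_combination h1 + h2)).symm

lemma G_sub {V : ℝ} (hV : 0 ≤ V) (φ ψ : S → ℝ) :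
    Γ.G V (fun w => φ w - ψ w) = fun w => Γ.G V φ w - Γ.G V ψ w :=
  (G_unique' Γ hV (fun z => by
    rw [A_sub]
    have h1 := G_spec Γ hV φ z
    have h2 := G_spec Γ hV ψ z
    linear_combination h1 - h2)).symm

lemma G_smul {V : ℝ} (hV : 0 ≤ V) (c : ℝ) (φ : S → ℝ) :
    Γ.G V (fun w => c * φ w) = fun w => c * Γ.G V φ w :=
  (G_unique' Γ hV (fun z => by
    rw [A_smul]
    have h1 := G_spec Γ hV φ z
    linear_combination c * h1)).symm

lemma G_nonneg {V : ℝ} (hV : 0 ≤ V) {R : Set S} (hR : Γ.Closed R) {φ : S → ℝ}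
    (h : ∀ z ∈ R, 0 ≤ φ z) : ∀ z ∈ R, 0 ≤ Γ.G V φ z := by
  intro z hz
  have := G_mono Γ hV hR (φ := fun _ => 0) (ψ := φ) h z hz
  rwa [G_const Γ hV] at this

lemma G_le_const {V : ℝ} (hV : 0 ≤ V) {R : Set S} (hR : Γ.Closed R) {φ : S → ℝ} {C : ℝ}
    (h : ∀ z ∈ R, φ z ≤ C) : ∀ z ∈ R, Γ.G V φ z ≤ C := by
  intro z hz
  have := G_mono Γ hV hR (φ := φ) (ψ := fun _ => C) h z hz
  rwa [G_const Γ hV] at this

lemma const_le_G {V : ℝ} (hV : 0 ≤ V) {R : Set S} (hR : Γ.Closed R) {φ : S → ℝ} {C : ℝ}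
    (h : ∀ z ∈ R, C ≤ φ z) : ∀ z ∈ R, C ≤ Γ.G V φ z := by
  intro z hz
  have := G_mono Γ hV hR (φ := fun _ => C) (ψ := φ) h z hz
  rwa [G_const Γ hV] at this

lemma abs_G_le {V : ℝ} (hV : 0 ≤ V) {R : Set S} (hR : Γ.Closed R) {φ : S → ℝ} {C : ℝ}
    (h : ∀ z ∈ R, |φ z| ≤ C) : ∀ z ∈ R, |Γ.G V φ z| ≤ C := fun z hz =>
  abs_le.mpr ⟨const_le_G Γ hV hR (fun z hz => (abs_le.mp (h z hz)).1) z hz,
    G_le_const Γ hV hR (fun z hz => (abs_le.mp (h z hz)).2) z hz⟩

lemma abs_G_le' {V : ℝ} (hV : 0 ≤ V) {R : Set S} (hR : Γ.Closed R) {φ ψ : S → ℝ}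
    (h : ∀ z ∈ R, |φ z| ≤ ψ z) : ∀ z ∈ R, |Γ.G V φ z| ≤ Γ.G V ψ z := by
  intro z hz
  refine abs_le.mpr ⟨?_, G_mono Γ hV hR (fun z hz => (abs_le.mp (h z hz)).2) z hz⟩
  have h1 := G_mono Γ hV hR (φ := fun w => (-1) * ψ w) (ψ := φ)
    (fun z hz => by have := (abs_le.mp (h z hz)).1; linarith) z hz
  rw [G_smul Γ hV] at h1
  linarith

/-- if `A e ≥ c e` then `G_V e ≤ e / (1 + c V)` -/
lemma G_decay {V c : ℝ} (hV : 0 ≤ V) (hc : 0 ≤ c) {R : Set S} (hR : Γ.Closed R) {e : S → ℝ}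
    (h : ∀ z ∈ R, c * e z ≤ Γ.A e z) : ∀ z ∈ R, Γ.G V e z ≤ e z / (1 + c * V) := by
  have h0 : 0 < 1 + c * V := by positivity
  refine G_le Γ hV hR (H := fun z => e z / (1 + c * V)) ?_
  intro z hz
  have h1 : Γ.A (fun z => e z / (1 + c * V)) z = Γ.A e z / (1 + c * V) := by
    have := A_smul Γ (1 + c * V)⁻¹ e z
    rw [div_eq_inv_mul, ← this]
    congr 1
    funext w
    rw [div_eq_inv_mul]
  rw [h1, ← mul_div_assoc, ← add_div, le_div_iff₀ h0]
  have := mul_le_mul_of_nonneg_left (h z hz) hV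
  linarith

lemma A_G_comm {V : ℝ} (hV : 0 ≤ V) (φ : S → ℝ) (z : S) :
    Γ.A (Γ.G V φ) z = Γ.G V (Γ.A φ) z := by
  have : Γ.A (Γ.G V φ) = Γ.G V (Γ.A φ) := by
    refine G_unique' Γ hV ?_
    intro z
    have h1 : Γ.A (fun w => Γ.G V φ w + V * Γ.A (Γ.G V φ) w) z = Γ.A φ z := by
      congr 1
      funext w
      exact G_spec Γ hV φ w
    rw [A_add, A_smul] at h1
    exact h1
  rw [this]

lemma G_comm {V W : ℝ} (hV : 0 ≤ V) (hW : 0 ≤ W) (φ : S → ℝ) :
    Γ.G V (Γ.G W φ) = Γ.G W (Γ.G V φ) := by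
  symm
  refine G_unique' Γ hV ?_
  intro z
  rw [A_G_comm Γ hW]
  have h1 : Γ.G W φ z = Γ.G W (fun w => Γ.G V φ w + V * Γ.A (Γ.G V φ) w) z := by
    congr 1
    funext w
    exact (G_spec Γ hV φ w).symm
  rw [h1, G_add Γ hW, G_smul Γ hW]

/-- resolvent identity at the scales `V`, `V / 2` -/
lemma G_res {V : ℝ} (hV : 0 ≤ V) (φ : S → ℝ) :
    Γ.G V (fun w => 2 * φ w - Γ.G (V / 2) φ w) = Γ.G (V / 2) φ := by
  symm
  refine G_unique' Γ hV ?_
  intro z
  have h := G_spec Γ (show 0 ≤ V / 2 by positivity) φ z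
  linear_combination 2 * h

/-- the resolvent commutes with maps that commute with the generator -/
lemma G_comp {V : ℝ} (hV : 0 ≤ V) (τ : S → S)
    (hτ : ∀ (φ : S → ℝ) z, Γ.A (fun w => φ (τ w)) z = Γ.A φ (τ z)) (φ : S → ℝ) (z : S) :
    Γ.G V (fun w => φ (τ w)) z = Γ.G V φ (τ z) := by
  have : (fun w => Γ.G V φ (τ w)) = Γ.G V (fun w => φ (τ w)) := by
    refine G_unique' Γ hV ?_
    intro z
    have h1 := hτ (Γ.G V φ) z
    rw [h1]
    exact G_spec Γ hV φ (τ z)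
  rw [← this]

/-- `G_V φ → φ` with a rate -/
lemma abs_G_sub_le {V C : ℝ} (hV : 0 ≤ V) {R : Set S} (hR : Γ.Closed R) {φ : S → ℝ}
    (h : ∀ z ∈ R, |φ z| ≤ C) : ∀ z ∈ R, |Γ.G V φ z - φ z| ≤ V * ((Γ.steps z).length * C) := by
  intro z hz
  have h1 := G_spec Γ hV φ z
  have h2 := abs_G_le Γ hV hR h
  have h3 : |Γ.A (Γ.G V φ) z| ≤ (Γ.steps z).length * C := by
    rw [A_eq]
    have h4 : |((Γ.steps z).map (Γ.G V φ)).sum| ≤ (Γ.steps z).length * C := by
      have hst := hR z hz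
      revert hst
      generalize Γ.steps z = L
      intro hst
      induction L with
      | nil => simp
      | cons a l ih =>
        simp only [List.map_cons, List.sum_cons, List.length_cons]
        have h5 := ih (fun w hw => hst w (List.mem_cons_of_mem _ hw))
        have h6 := h2 a (hst a (List.mem_cons_self ..))
        push_cast
        calc _ ≤ |Γ.G V φ a| + |(l.map (Γ.G V φ)).sum| := abs_add_le _ _
          _ ≤ _ := by linarith
    have h7 := h2 z hz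
    have h8 : (0 : ℝ) ≤ (Γ.steps z).length := by positivity
    rw [abs_le] at h4 h7 ⊢
    constructor
    · nlinarith [mul_le_mul_of_nonneg_left h7.1 h8]
    · nlinarith [mul_le_mul_of_nonneg_left h7.2 h8]
  have h9 : Γ.G V φ z - φ z = - (V * Γ.A (Γ.G V φ) z) := by linarith
  rw [h9, abs_neg, abs_mul, abs_of_nonneg hV]
  exact mul_le_mul_of_nonneg_left h3 hV

end Gen

end Pool.CE
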