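import Mathlib
import Pool.Agent.Work.MP_052a41_ce.B_SYS1
import Pool.Agent.Work.MP_052a41_ce.B_PROJ1

/-!
# Abstract layer 2: the inverse limit `Khat` and the resolvents on `C(Khat)`

`Sys S` = a terminating system of steps with truncations `tr n` (finite ranges) commuting with the
generator.  `Khat` is the inverse limit of the ranges (compact metric), `ι : S → Khat` has dense
range, `op V` is the resolvent on `C(Khat, ℝ)`: `(op V Φ) (ι z) = G V (Φ ∘ ι) z`.
`T.res : Res T.xx` with `xx p = op (1/2)^p`.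
-/

set_option autoImplicit false

open Filter Topology

namespace Pool.CE

/-- a system with truncations -/
structure Sys (S : Type) extends Gen S where
  tr : ℕ → S → S
  tr_tr : ∀ m n z, tr m (tr n z) = tr (min m n) z
  fin : ∀ n, (Set.range (tr n)).Finite
  ev : ∀ z, ∃ n, tr n z = z
  A_tr : ∀ n (φ : S → ℝ) z, toGen.A (fun w => φ (tr n w)) z = toGen.A φ (tr n z)

namespace Sys

variable {S : Type} (T : Sys S)

lemma ev' (z : S) : ∃ n, ∀ m, n ≤ m → T.tr m z = z := by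
  obtain ⟨n, hn⟩ := T.ev z
  refine ⟨n, fun m hm => ?_⟩
  conv_lhs => rw [← hn]
  rw [T.tr_tr, min_eq_right hm, hn]

/-- the inverse limit -/
def Khat : Type := {x : ℕ → S // ∀ n, T.tr n (x (n + 1)) = x n}

noncomputable instance : MetricSpace T.Khat :=
  letI : TopologicalSpace S := ⊥
  haveI : DiscreteTopology S := ⟨rfl⟩
  MetricSpace.induced (fun x : T.Khat => x.1) Subtype.val_injective
    (PiNat.metricSpace (E := fun _ : ℕ => S))

lemma Khat.ext' {x y : T.Khat} (h : ∀ n, x.1 n = y.1 n) : x = y := Subtype.ext (funext h)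

lemma dist_le_iff (x y : T.Khat) (n : ℕ) : dist x y ≤ (1 / 2 : ℝ) ^ n ↔ ∀ i < n, x.1 i = y.1 i := by
  let _ : TopologicalSpace S := ⊥
  have _ : DiscreteTopology S := ⟨rfl⟩
  let _ := PiNat.metricSpace (E := fun _ : ℕ => S)
  have h : dist x y = dist x.1 y.1 := rfl
  rw [h]
  exact (PiNat.mem_cylinder_iff_dist_le (x := y.1) (y := x.1) (n := n)).symm

lemma eq_of_dist_lt (x y : T.Khat) (n : ℕ) (h : dist x y < (1 / 2 : ℝ) ^ n) : x.1 n = y.1 n := by
  let _ : TopologicalSpace S := ⊥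
  have _ : DiscreteTopology S := ⟨rfl⟩
  let _ := PiNat.metricSpace (E := fun _ : ℕ => S)
  have h' : dist x y = dist x.1 y.1 := rfl
  rw [h'] at h
  exact PiNat.apply_eq_of_dist_lt h le_rfl

lemma tr_coord (x : T.Khat) {m n : ℕ} (h : m ≤ n) : T.tr m (x.1 n) = x.1 m := by
  induction n, h using Nat.le_induction with
  | base => rw [← x.2 m, T.tr_tr, min_self]
  | succ n hmn ih =>
    rw [← ih, ← x.2 n, T.tr_tr, min_eq_left hmn]

lemma tr_coord' (x : T.Khat) {m n : ℕ} (h : n ≤ m) : T.tr m (x.1 n) = x.1 n := by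
  rw [← x.2 n, T.tr_tr, min_eq_right h]

/-- finite programs as points of the inverse limit -/
def ι (z : S) : T.Khat := ⟨fun n => T.tr n z, fun n => by
  rw [T.tr_tr, min_eq_left (Nat.le_succ n)]⟩

@[simp] lemma ι_apply (z : S) (n : ℕ) : (T.ι z).1 n = T.tr n z := rfl

/-- the retraction to the `n`-th level -/
def r (n : ℕ) (x : T.Khat) : T.Khat := T.ι (x.1 n)

lemma r_apply (n : ℕ) (x : T.Khat) (m : ℕ) : (T.r n x).1 m = x.1 (min m n) := by
  rcases le_total m n with h | h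
  · rw [min_eq_left h]; exact T.tr_coord x h
  · rw [min_eq_right h]; exact T.tr_coord' x h

lemma r_ι (n : ℕ) (z : S) : T.r n (T.ι z) = T.ι (T.tr n z) := rfl

lemma dist_r_le (n : ℕ) (x : T.Khat) : dist x (T.r n x) ≤ (1 / 2 : ℝ) ^ n := by
  rw [dist_le_iff]
  intro i hi
  rw [r_apply, min_eq_left hi.le]

lemma tendsto_r (x : T.Khat) : Tendsto (fun n => T.r n x) atTop (𝓝 x) := by
  rw [tendsto_iff_dist_tendsto_zero]
  refine squeeze_zero (fun _ => dist_nonneg) (fun n => ?_)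
    (tendsto_pow_atTop_nhds_zero_of_lt_one (by norm_num : (0 : ℝ) ≤ 1 / 2) (by norm_num))
  rw [dist_comm]
  exact T.dist_r_le n x

lemma finite_range_r (n : ℕ) : (Set.range (T.r n)).Finite := by
  refine ((T.fin n).image T.ι).subset ?_
  rintro _ ⟨x, rfl⟩
  exact ⟨x.1 n, ⟨x.1 (n + 1), x.2 n⟩, rfl⟩

lemma dense_ι : DenseRange T.ι := fun x =>
  mem_closure_of_tendsto (T.tendsto_r x) (Eventually.of_forall fun _ => ⟨_, rfl⟩)

lemma continuous_coord {β : Type*} [TopologicalSpace β] (f : S → β) (n : ℕ) :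
    Continuous (fun x : T.Khat => f (x.1 n)) := by
  rw [continuous_iff_continuousAt]
  intro x
  have h : (fun y : T.Khat => f (y.1 n)) =ᶠ[𝓝 x] fun _ => f (x.1 n) := by
    have h0 : Metric.ball x ((1 / 2 : ℝ) ^ n) ∈ 𝓝 x := Metric.ball_mem_nhds x (by positivity)
    filter_upwards [h0] with y hy
    rw [T.eq_of_dist_lt y x n hy]
  exact (continuousAt_const).congr h.symm

lemma continuous_r (n : ℕ) : Continuous (T.r n) := T.continuous_coord T.ι n

instance : CompactSpace T.Khat := by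
  let _ : TopologicalSpace S := ⊥
  have _ : DiscreteTopology S := ⟨rfl⟩
  let _ := PiNat.metricSpace (E := fun _ : ℕ => S)
  have hind : Topology.IsInducing (fun x : T.Khat => x.1) := ⟨rfl⟩
  rw [← isCompact_univ_iff, hind.isCompact_iff, Set.image_univ]
  have hcl : IsClosed (Set.range (fun x : T.Khat => x.1)) := by
    have : Set.range (fun x : T.Khat => x.1) = ⋂ n, {x : ℕ → S | T.tr n (x (n + 1)) = x n} := by
      ext x
      simp only [Set.mem_range, Set.mem_iInter, Set.mem_setOf_eq]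
      constructor
      · rintro ⟨y, rfl⟩
        exact y.2
      · intro h
        exact ⟨⟨x, h⟩, rfl⟩
    rw [this]
    refine isClosed_iInter fun n => ?_
    exact isClosed_eq ((continuous_of_discreteTopology (f := T.tr n)).comp (continuous_apply _))
      (continuous_apply _)
  have hco : IsCompact (Set.pi Set.univ (fun n : ℕ => Set.range (T.tr n))) :=
    isCompact_univ_pi fun n => (T.fin n).isCompact
  refine hco.of_isClosed_subset hcl ?_
  rintro _ ⟨x, rfl⟩ n _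
  exact ⟨x.1 (n + 1), x.2 n⟩

/-- uniform approximation by functions of finitely many coordinates -/
lemma approx (Φ : C(T.Khat, ℝ)) {ε : ℝ} (hε : 0 < ε) :
    ∃ n0, ∀ n, n0 ≤ n → ∀ x, |Φ x - Φ (T.r n x)| ≤ ε := by
  have hu : UniformContinuous Φ := CompactSpace.uniformContinuous_of_continuous Φ.continuous
  obtain ⟨δ, hδ, h⟩ := Metric.uniformContinuous_iff.mp hu ε hε
  obtain ⟨n0, hn0⟩ := exists_pow_lt_of_lt_one hδ (by norm_num : (1 / 2 : ℝ) < 1)
  refine ⟨n0, fun n hn x => ?_⟩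
  have h1 : dist x (T.r n x) < δ :=
    lt_of_le_of_lt ((T.dist_r_le n x).trans
      (pow_le_pow_of_le_one (by norm_num) (by norm_num) hn)) hn0
  have h2 := h h1
  rw [Real.dist_eq] at h2
  exact h2.le

/-- the values of a continuous function at the finite programs -/
noncomputable def pull (Φ : C(T.Khat, ℝ)) (z : S) : ℝ := Φ (T.ι z)

lemma abs_pull_le (Φ : C(T.Khat, ℝ)) (z : S) : |T.pull Φ z| ≤ ‖Φ‖ := Φ.norm_coe_le_norm _

lemma ext_ι {Φ Ψ : C(T.Khat, ℝ)} (h : ∀ z, Φ (T.ι z) = Ψ (T.ι z)) : Φ = Ψ := by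
  have := T.dense_ι.equalizer Φ.continuous Ψ.continuous (funext h)
  exact DFunLike.coe_injective this

lemma norm_le_of_ι {Φ : C(T.Khat, ℝ)} {C : ℝ} (hC : 0 ≤ C) (h : ∀ z, |Φ (T.ι z)| ≤ C) :
    ‖Φ‖ ≤ C := by
  rw [ContinuousMap.norm_le _ hC]
  intro x
  have hcl : IsClosed {x : T.Khat | ‖Φ x‖ ≤ C} :=
    isClosed_le (by fun_prop) continuous_const
  have : Set.range T.ι ⊆ {x : T.Khat | ‖Φ x‖ ≤ C} := by
    rintro _ ⟨z, rfl⟩
    exact h z
  exact (hcl.closure_subset_iff.mpr this) (T.dense_ι x)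

lemma G_tr {V : ℝ} (hV : 0 ≤ V) (n : ℕ) (φ : S → ℝ) (z : S) :
    T.G V (fun w => φ (T.tr n w)) z = T.G V φ (T.tr n z) :=
  T.toGen.G_comp hV (T.tr n) (T.A_tr n) φ z

/-- oscillation of the resolvent -/
lemma osc {V : ℝ} (hV : 0 ≤ V) {φ : S → ℝ} {n : ℕ} {ε : ℝ}
    (h : ∀ z, |φ z - φ (T.tr n z)| ≤ ε) (z : S) :
    |T.G V φ z - T.G V φ (T.tr n z)| ≤ ε := by
  rw [← G_tr T hV]
  have h1 := T.toGen.G_sub hV φ (fun w => φ (T.tr n w))
  have h2 := congrFun h1 z
  rw [← h2]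
  exact T.toGen.abs_G_le hV T.toGen.closed_univ (fun z _ => h z) z trivial

/-- functions on `S` that are uniformly approximated by their truncations extend to `Khat` -/
lemma exists_ext {ψ : S → ℝ} (h : ∀ ε > 0, ∃ n0, ∀ n, n0 ≤ n → ∀ z, |ψ z - ψ (T.tr n z)| ≤ ε) :
    ∃ L : C(T.Khat, ℝ), ∀ z, L (T.ι z) = ψ z := by
  let F : ℕ → C(T.Khat, ℝ) := fun n => ⟨fun x => ψ (x.1 n), T.continuous_coord ψ n⟩
  have hF : CauchySeq F := by
    rw [Metric.cauchySeq_iff']
    intro ε hε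
    obtain ⟨n0, hn0⟩ := h (ε / 2) (by positivity)
    refine ⟨n0, fun n hn => ?_⟩
    rw [dist_eq_norm]
    refine lt_of_le_of_lt ?_ (half_lt_self hε)
    rw [ContinuousMap.norm_le _ (by positivity)]
    intro x
    have h1 := hn0 n0 le_rfl (x.1 n)
    rw [T.tr_coord x hn] at h1
    exact h1
  obtain ⟨L, hL⟩ := cauchySeq_tendsto_of_complete hF
  refine ⟨L, fun z => ?_⟩
  have h1 : Tendsto (fun n => F n (T.ι z)) atTop (𝓝 (L (T.ι z))) :=
    ((continuous_eval_const (T.ι z)).tendsto L).comp hL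
  obtain ⟨n0, hn0⟩ := T.ev' z
  have h2 : Tendsto (fun n => F n (T.ι z)) atTop (𝓝 (ψ z)) := by
    refine tendsto_const_nhds.congr' ?_
    filter_upwards [eventually_ge_atTop n0] with n hn
    change ψ z = ψ (T.tr n z)
    rw [hn0 n hn]
  exact tendsto_nhds_unique h1 h2

lemma exists_op {V : ℝ} (hV : 0 ≤ V) (Φ : C(T.Khat, ℝ)) :
    ∃ L : C(T.Khat, ℝ), ∀ z, L (T.ι z) = T.G V (T.pull Φ) z := by
  refine T.exists_ext fun ε hε => ?_
  obtain ⟨n0, hn0⟩ := T.approx Φ hε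
  refine ⟨n0, fun n hn z => T.osc hV (fun w => ?_) z⟩
  exact hn0 n hn (T.ι w)

/-- the resolvent as a function on `C(Khat)` -/
noncomputable def opF {V : ℝ} (hV : 0 ≤ V) (Φ : C(T.Khat, ℝ)) : C(T.Khat, ℝ) :=
  (T.exists_op hV Φ).choose

lemma opF_ι {V : ℝ} (hV : 0 ≤ V) (Φ : C(T.Khat, ℝ)) (z : S) :
    T.opF hV Φ (T.ι z) = T.G V (T.pull Φ) z := (T.exists_op hV Φ).choose_spec z

/-- the resolvent as an operator on `C(Khat)` -/
noncomputable def op {V : ℝ} (hV : 0 ≤ V) : C(T.Khat, ℝ) →L[ℝ] C(T.Khat, ℝ) :=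
  LinearMap.mkContinuous
    { toFun := T.opF hV
      map_add' := fun Φ Ψ => T.ext_ι fun z => by
        rw [ContinuousMap.add_apply, opF_ι, opF_ι, opF_ι]
        have := T.toGen.G_add hV (T.pull Φ) (T.pull Ψ)
        exact congrFun this z
      map_smul' := fun c Φ => T.ext_ι fun z => by
        rw [RingHom.id_apply, ContinuousMap.smul_apply, opF_ι, opF_ι]
        have := T.toGen.G_smul hV c (T.pull Φ)
        exact congrFun this z } 1 (fun Φ => by
      rw [one_mul]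
      refine T.norm_le_of_ι (norm_nonneg _) fun z => ?_
      change |T.opF hV Φ (T.ι z)| ≤ _
      rw [opF_ι]
      exact T.toGen.abs_G_le hV T.toGen.closed_univ (fun w _ => T.abs_pull_le Φ w) z trivial)

lemma op_ι {V : ℝ} (hV : 0 ≤ V) (Φ : C(T.Khat, ℝ)) (z : S) :
    T.op hV Φ (T.ι z) = T.G V (T.pull Φ) z := T.opF_ι hV Φ z

lemma pull_op {V : ℝ} (hV : 0 ≤ V) (Φ : C(T.Khat, ℝ)) :
    T.pull (T.op hV Φ) = T.G V (T.pull Φ) := funext fun z => T.op_ι hV Φ z

lemma norm_op_le {V : ℝ} (hV : 0 ≤ V) : ‖T.op hV‖ ≤ 1 :=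
  LinearMap.mkContinuous_norm_le _ zero_le_one _

lemma tendsto_op {V : ℕ → ℝ} (hV : ∀ p, 0 ≤ V p) (hV0 : Tendsto V atTop (𝓝 0))
    (Φ : C(T.Khat, ℝ)) : Tendsto (fun p => T.op (hV p) Φ) atTop (𝓝 Φ) := by
  rw [tendsto_iff_norm_sub_tendsto_zero, Metric.tendsto_atTop]
  intro ε hε
  obtain ⟨n, hn⟩ := T.approx Φ (show 0 < ε / 4 by positivity)
  have hn := hn n le_rfl
  let M : ℝ := ∑ w ∈ (T.fin n).toFinset, ((T.steps w).length : ℝ)
  have hM : ∀ z, ((T.steps (T.tr n z)).length : ℝ) ≤ M := fun z =>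
    Finset.single_le_sum (f := fun w => ((T.steps w).length : ℝ)) (fun _ _ => by positivity)
      ((T.fin n).mem_toFinset.mpr ⟨z, rfl⟩)
  have hM0 : 0 ≤ M := Finset.sum_nonneg fun _ _ => by positivity
  have hlim : Tendsto (fun p => V p * (M * ‖Φ‖)) atTop (𝓝 0) := by
    have := hV0.mul_const (M * ‖Φ‖)
    rwa [zero_mul] at this
  obtain ⟨p0, hp0⟩ := (Metric.tendsto_atTop.mp hlim) (ε / 4) (by positivity)
  refine ⟨p0, fun p hp => ?_⟩
  have h1 := hp0 p hp
  rw [Real.dist_eq, sub_zero] at h1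
  have h1' := (abs_lt.mp h1).2
  rw [Real.dist_eq, sub_zero, abs_of_nonneg (norm_nonneg _)]
  refine lt_of_le_of_lt ?_ (show ε * (3 / 4) < ε by linarith)
  refine T.norm_le_of_ι (by positivity) fun z => ?_
  rw [ContinuousMap.sub_apply, op_ι]
  have h2 : |T.G (V p) (T.pull Φ) z - T.G (V p) (T.pull Φ) (T.tr n z)| ≤ ε / 4 :=
    T.osc (hV p) (fun w => hn (T.ι w)) z
  have h3 : |T.G (V p) (T.pull Φ) (T.tr n z) - T.pull Φ (T.tr n z)| ≤
      V p * ((T.steps (T.tr n z)).length * ‖Φ‖) :=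
    T.toGen.abs_G_sub_le (hV p) T.toGen.closed_univ (fun w _ => T.abs_pull_le Φ w) _ trivial
  have h4 : |Φ (T.ι z) - T.pull Φ (T.tr n z)| ≤ ε / 4 := hn (T.ι z)
  have h5 : V p * ((T.steps (T.tr n z)).length * ‖Φ‖) ≤ V p * (M * ‖Φ‖) :=
    mul_le_mul_of_nonneg_left (mul_le_mul_of_nonneg_right (hM z) (norm_nonneg _)) (hV p)
  rw [abs_le] at h2 h3 h4 ⊢
  constructor <;> linarith [h2.1, h2.2, h3.1, h3.2, h4.1, h4.2]

/-- the scales `(1/2)^p` -/
noncomputable def xx (p : ℕ) : C(T.Khat, ℝ) →L[ℝ] C(T.Khat, ℝ) :=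
  T.op (V := (1 / 2 : ℝ) ^ p) (by positivity)

lemma xx_ι (p : ℕ) (Φ : C(T.Khat, ℝ)) (z : S) :
    T.xx p Φ (T.ι z) = T.G ((1 / 2 : ℝ) ^ p) (T.pull Φ) z := T.op_ι _ Φ z

lemma pull_xx (p : ℕ) (Φ : C(T.Khat, ℝ)) :
    T.pull (T.xx p Φ) = T.G ((1 / 2 : ℝ) ^ p) (T.pull Φ) := T.pull_op _ Φ

lemma xx_zero_ι (Φ : C(T.Khat, ℝ)) (z : S) :
    T.xx 0 Φ (T.ι z) = T.G 1 (T.pull Φ) z := by
  rw [xx_ι, pow_zero]

theorem res : Res T.xx where
  comm p q := by
    ext1 Φ
    refine T.ext_ι fun z => ?_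
    change T.xx p (T.xx q Φ) (T.ι z) = T.xx q (T.xx p Φ) (T.ι z)
    rw [xx_ι, xx_ι, pull_xx, pull_xx, T.toGen.G_comm (by positivity) (by positivity)]
  norm p := T.norm_op_le _
  res p := by
    ext1 Φ
    refine T.ext_ι fun z => ?_
    change T.xx p ((2 - T.xx (p + 1)) Φ) (T.ι z) = T.xx (p + 1) Φ (T.ι z)
    rw [xx_ι, xx_ι]
    have h : T.pull ((2 - T.xx (p + 1)) Φ) =
        fun w => 2 * T.pull Φ w - T.G ((1 / 2 : ℝ) ^ p / 2) (T.pull Φ) w := by
      funext w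
      have h2 : (2 - T.xx (p + 1)) Φ = Φ + Φ - T.xx (p + 1) Φ := by
        rw [ContinuousLinearMap.sub_apply]
        congr 1
        rw [← one_add_one_eq_two, ContinuousLinearMap.add_apply]
        rfl
      unfold pull
      rw [h2, ContinuousMap.sub_apply, ContinuousMap.add_apply, xx_ι, pow_succ]
      have h3 : (1 / 2 : ℝ) ^ p * (1 / 2) = (1 / 2 : ℝ) ^ p / 2 := by ring
      rw [h3]
      unfold pull
      ring
    rw [h, T.toGen.G_res (by positivity)]
    have h3 : (1 / 2 : ℝ) ^ p / 2 = (1 / 2 : ℝ) ^ (p + 1) := by ring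
    rw [h3]
  tend Φ := by
    refine T.tendsto_op (V := fun p => (1 / 2 : ℝ) ^ p) (fun p => by positivity) ?_ Φ
    exact tendsto_pow_atTop_nhds_zero_of_lt_one (by norm_num) (by norm_num)

end Sys

end Pool.CE
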