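import Mathlib
import Pool.Agent.Work.MP_052a41_ce.B_SYS2

/-!
# Abstract layer 3: the tail property

`T.Tail` = at every point of `Khat` outside `ι S` the resolvent puts small mass on the programs that
are changed by `tr n`.  Consequence: evaluations of `op V Ψ` at `x` and at `r n x` are close,
uniformly in the unit ball.
-/

set_option autoImplicit false

open Filter Topology

namespace Pool.CE

namespace Sys

variable {S : Type} (T : Sys S)

open Classical in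
/-- indicator of the programs changed by `tr n` -/
noncomputable def bad (n : ℕ) (w : S) : ℝ := if T.tr n w = w then 0 else 1

lemma bad_nonneg (n : ℕ) (w : S) : 0 ≤ T.bad n w := by
  unfold bad; split_ifs <;> norm_num

/-- the tail property at the infinite programs -/
def Tail : Prop := ∀ x : T.Khat, (∀ z, T.ι z ≠ x) → ∀ V : ℝ, 0 < V → ∀ ε : ℝ, 0 < ε →
  ∀ᶠ n in atTop, ∀ᶠ m in atTop, T.G V (T.bad n) (x.1 m) ≤ ε

/-- the tail property at every point -/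
lemma Tail.all (hT : T.Tail) (x : T.Khat) {V : ℝ} (hV : 0 < V) {ε : ℝ} (hε : 0 < ε) :
    ∀ᶠ n in atTop, ∀ᶠ m in atTop, T.G V (T.bad n) (x.1 m) ≤ ε := by
  by_cases hx : ∀ z, T.ι z ≠ x
  · exact hT x hx V hV ε hε
  push Not at hx
  obtain ⟨z, rfl⟩ := hx
  have h1 : ∃ N, ∀ w ∈ T.reach z, ∀ m, N ≤ m → T.tr m w = w := by
    have hfin := T.toGen.finite_reach z
    choose f hf using fun w => T.ev' w
    refine ⟨∑ w ∈ hfin.toFinset, f w, fun w hw m hm => hf w m (le_trans ?_ hm)⟩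
    exact Finset.single_le_sum (f := f) (fun _ _ => Nat.zero_le _) (hfin.mem_toFinset.mpr hw)
  obtain ⟨N, hN⟩ := h1
  filter_upwards [eventually_ge_atTop N] with n hn
  filter_upwards [eventually_ge_atTop N] with m hm
  have h2 : (T.ι z).1 m = z := hN z (T.toGen.mem_reach z) m hm
  rw [h2]
  refine le_trans ?_ hε.le
  refine T.toGen.G_le_const hV.le (T.toGen.closed_reach z) (fun w hw => ?_) z
    (T.toGen.mem_reach z)
  unfold bad
  rw [if_pos (hN w hw n hn)]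

/-- evaluations of `op V Ψ` at `x` and `r n x` are close -/
theorem Tail.op_close (hT : T.Tail) (x : T.Khat) {V : ℝ} (hV : 0 < V) {ε : ℝ} (hε : 0 < ε) :
    ∀ᶠ n in atTop, ∀ Ψ : C(T.Khat, ℝ),
      |T.op hV.le Ψ x - T.op hV.le Ψ (T.r n x)| ≤ ε * ‖Ψ‖ := by
  filter_upwards [hT.all T x hV (show 0 < ε / 2 by positivity)] with n hn Ψ
  have h1 : Tendsto (fun m => |T.op hV.le Ψ (T.r m x) - T.op hV.le Ψ (T.r n (T.r m x))|) atTop
      (𝓝 (|T.op hV.le Ψ x - T.op hV.le Ψ (T.r n x)|)) := by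
    refine Tendsto.abs (Tendsto.sub ?_ ?_)
    · exact ((T.op hV.le Ψ).continuous.tendsto x).comp (T.tendsto_r x)
    · exact (((T.op hV.le Ψ).continuous.comp (T.continuous_r n)).tendsto x).comp (T.tendsto_r x)
  refine le_of_tendsto h1 ?_
  filter_upwards [hn] with m hm
  change |T.op hV.le Ψ (T.ι (x.1 m)) - T.op hV.le Ψ (T.ι (T.tr n (x.1 m)))| ≤ ε * ‖Ψ‖
  rw [op_ι, op_ι, ← T.G_tr hV.le]
  have h2 := congrFun (T.toGen.G_sub hV.le (T.pull Ψ) (fun w => T.pull Ψ (T.tr n w))) (x.1 m)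
  rw [← h2]
  have h3 : ∀ w ∈ (Set.univ : Set S), |T.pull Ψ w - T.pull Ψ (T.tr n w)| ≤
      (2 * ‖Ψ‖) * T.bad n w := by
    intro w _
    unfold bad
    split_ifs with h
    · rw [h, sub_self, abs_zero, mul_zero]
    · have h4 := T.abs_pull_le Ψ w
      have h5 := T.abs_pull_le Ψ (T.tr n w)
      calc _ ≤ |T.pull Ψ w| + |T.pull Ψ (T.tr n w)| := abs_sub _ _
        _ ≤ _ := by linarith
  refine (T.toGen.abs_G_le' hV.le T.toGen.closed_univ h3 _ trivial).trans ?_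
  rw [T.toGen.G_smul hV.le]
  have h6 := mul_le_mul_of_nonneg_left hm (show 0 ≤ 2 * ‖Ψ‖ by positivity)
  linarith

/-- the same for the scales `xx p` -/
theorem Tail.xx_close (hT : T.Tail) (x : T.Khat) (p : ℕ) {ε : ℝ} (hε : 0 < ε) :
    ∀ᶠ n in atTop, ∀ Ψ : C(T.Khat, ℝ), |T.xx p Ψ x - T.xx p Ψ (T.r n x)| ≤ ε * ‖Ψ‖ :=
  hT.op_close T x (V := (1 / 2 : ℝ) ^ p) (by positivity) hε

/-- the same as functionals: `ℓ = ev_x - ev_{r n x}` -/
theorem Tail.functional (hT : T.Tail) (x : T.Khat) (p : ℕ) {ε : ℝ} (hε : 0 < ε) :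
    ∀ᶠ n in atTop, ∀ ℓ : C(T.Khat, ℝ) →L[ℝ] ℝ, (∀ Ψ, ℓ Ψ = Ψ x - Ψ (T.r n x)) →
      ‖ℓ‖ ≤ 2 ∧ ∀ Ψ, |ℓ (T.xx p Ψ)| ≤ ε * ‖Ψ‖ := by
  filter_upwards [hT.xx_close T x p hε] with n hn ℓ hℓ
  refine ⟨ContinuousLinearMap.opNorm_le_bound _ (by norm_num) fun Ψ => ?_, fun Ψ => ?_⟩
  · rw [hℓ, Real.norm_eq_abs]
    calc _ ≤ |Ψ x| + |Ψ (T.r n x)| := abs_sub _ _
      _ ≤ ‖Ψ‖ + ‖Ψ‖ := add_le_add (Ψ.norm_coe_le_norm _) (Ψ.norm_coe_le_norm _)
      _ = 2 * ‖Ψ‖ := by ring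
  · rw [hℓ]
    exact hn Ψ

end Sys

end Pool.CE
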