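import Mathlib
import Pool.Agent.Work.MP_052a41_ce.Interface

set_option autoImplicit false

/-! # Block TSD: the steps and the event `κ` -/

namespace Pool.CE

namespace TSD

open Prog

theorem ev_of_inD (κ : ℕ) : ∀ (z : Prog) (d : ℕ), InD κ d z → z.Ev κ := by
  intro z
  induction z with
  | nil => intro d h; exact h.elim
  | leaf k => intro d h; exact h.1.symm
  | avg κ' l c ih =>
    intro d h
    rcases h with h | ⟨d', _, j, h⟩
    · exact Or.inl h.1.symm
    · exact Or.inr ⟨j, ih j d' h⟩

/-- an event occurs in at most one child -/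
theorem child_unique {κ' l : ℕ} {c : Fin (2 ^ l) → Prog} (hz : Valid (avg κ' l c)) {κ : ℕ}
    {i j : Fin (2 ^ l)} (hi : (c i).Ev κ) (hj : (c j).Ev κ) : i = j := by
  rcases lt_trichotomy i j with h | h | h
  · exact absurd (hz.2.2.2 i j h κ κ hi hj) (lt_irrefl _)
  · exact h
  · exact absurd (hz.2.2.2 j i h κ κ hj hi) (lt_irrefl _)

theorem evi_le_one (κ : ℕ) (z : Prog) : evi κ z ≤ 1 := by
  unfold evi; split_ifs <;> norm_num

theorem evi_nonneg (κ : ℕ) (z : Prog) : 0 ≤ evi κ z := by
  unfold evi; split_ifs <;> norm_num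

theorem evi_eq_one {κ : ℕ} {z : Prog} (h : z.Ev κ) : evi κ z = 1 := by
  unfold evi; rw [if_pos h]

theorem evi_eq_zero {κ : ℕ} {z : Prog} (h : ¬ z.Ev κ) : evi κ z = 0 := by
  unfold evi; rw [if_neg h]

theorem evi_congr {κ : ℕ} {z w : Prog} (h : z.Ev κ ↔ w.Ev κ) : evi κ z = evi κ w := by
  by_cases hz : z.Ev κ
  · rw [evi_eq_one hz, evi_eq_one (h.mp hz)]
  · rw [evi_eq_zero hz, evi_eq_zero fun h' => hz (h.mpr h')]

theorem ev_update {κ κ' l : ℕ} {c : Fin (2 ^ l) → Prog} {j : Fin (2 ^ l)} {w' : Prog}
    (hz : Valid (avg κ' l c)) (hw : w' ∈ steps (c j)) (hk : (c j).Ev κ) :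
    (avg κ' l (Function.update c j w')).Ev κ ↔ w'.Ev κ := by
  have hlt : κ' < κ := hz.2.2.1 j κ hk
  constructor
  · rintro (h | ⟨i, h⟩)
    · omega
    · by_cases hi : i = j
      · subst hi; rwa [Function.update_self] at h
      · rw [Function.update_of_ne hi] at h
        exact absurd (child_unique hz h hk) hi
  · intro h
    exact Or.inr ⟨j, by rwa [Function.update_self]⟩

theorem aop_nonneg_of_top {φ : Prog → ℝ} {z : Prog} (h : ∀ w ∈ steps z, φ w ≤ φ z) :
    0 ≤ Aop steps φ z := by
  unfold Aop
  refine mul_nonneg (by norm_num) (List.sum_nonneg ?_)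
  intro x hx
  rw [List.mem_map] at hx
  obtain ⟨w, hw, rfl⟩ := hx
  exact sub_nonneg.mpr (h w hw)

theorem half_not_both {κ κ' l : ℕ} {c : Fin (2 ^ l) → Prog} (hz : Valid (avg κ' l c))
    {j : Fin (2 ^ l)} (hk : (c j).Ev κ) :
    evi κ (half κ' 0 l c) + evi κ (half κ' 1 l c) ≤ 1 := by
  have hlt : κ' < κ := hz.2.2.1 j κ hk
  by_cases h0 : (half κ' 0 l c).Ev κ
  · by_cases h1 : (half κ' 1 l c).Ev κ
    · exfalso
      cases l with
      | zero => exact h0.elim
      | succ l =>
        rcases h0 with h0 | ⟨i0, h0⟩
        · omega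
        rcases h1 with h1 | ⟨i1, h1⟩
        · omega
        have h2 := child_unique hz h0 h1
        have h3 := congrArg Fin.val h2
        simp only [Fin.val_zero, Fin.val_one] at h3
        omega
    · rw [evi_eq_zero h1, add_zero]; exact evi_le_one _ _
  · rw [evi_eq_zero h0, zero_add]; exact evi_le_one _ _

theorem aop_ge (κ : ℕ) : ∀ (z : Prog) (d : ℕ), Valid z → InD κ d z →
    (d : ℝ) / 2 ≤ Aop steps (evi κ) z := by
  intro z
  induction z with
  | nil => intro d _ h; exact h.elim
  | leaf k =>
    intro d _ h
    have hd : d = 0 := h.2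
    subst hd
    simp [Aop, steps]
  | avg κ' l c ih =>
    intro d hz h
    rcases h with h | ⟨d', hd, j, h⟩
    · obtain ⟨h1, hd⟩ := h
      subst hd
      rw [Nat.cast_zero, zero_div]
      refine aop_nonneg_of_top fun w _ => ?_
      rw [evi_eq_one (show (avg κ' l c).Ev κ from Or.inl h1.symm)]
      exact evi_le_one _ _
    · have hk : (c j).Ev κ := ev_of_inD κ _ _ h
      have hz1 : evi κ (avg κ' l c) = 1 :=
        evi_eq_one (show (avg κ' l c).Ev κ from Or.inr ⟨j, hk⟩)
      rw [Aop_avg, hz1]
      have h1 := half_not_both hz hk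
      have h2 : (d' : ℝ) / 2 ≤
          ∑ i, Aop steps (fun w => evi κ (avg κ' l (Function.update c i w))) (c i) := by
        have h3 : ∀ i, 0 ≤ Aop steps (fun w => evi κ (avg κ' l (Function.update c i w))) (c i) := by
          intro i
          refine aop_nonneg_of_top fun w _ => ?_
          show evi κ (avg κ' l (Function.update c i w)) ≤
            evi κ (avg κ' l (Function.update c i (c i)))
          rw [Function.update_eq_self, hz1]
          exact evi_le_one _ _
        refine le_trans ?_ (Finset.single_le_sum (fun i _ => h3 i) (Finset.mem_univ j))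
        refine le_trans (ih j d' (hz.2.1 j) h) (le_of_eq ?_)
        unfold Aop
        congr 2
        refine List.map_congr_left fun w hw => ?_
        have h4 : evi κ (avg κ' l (Function.update c j (c j))) = evi κ (c j) := by
          rw [Function.update_eq_self, hz1, evi_eq_one hk]
        show evi κ (c j) - evi κ w = evi κ (avg κ' l (Function.update c j (c j))) -
          evi κ (avg κ' l (Function.update c j w))
        rw [h4, evi_congr (ev_update hz hw hk)]
      subst hd
      push_cast
      linarith

theorem inD_steps (κ : ℕ) : ∀ (z : Prog) (d : ℕ), Valid z → InD κ d z →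
    ∀ w ∈ steps z, w.Ev κ → InD κ d w := by
  intro z
  induction z with
  | nil => intro d _ h; exact h.elim
  | leaf k => intro d _ _ w hw; simp [steps] at hw
  | avg κ' l c ih =>
    intro d hz h w hw hev
    rw [mem_steps_avg] at hw
    have key : ∀ ξ : Fin 2, w = half κ' ξ l c → InD κ d w := by
      intro ξ hw
      subst hw
      cases l with
      | zero => exact hev.elim
      | succ l =>
        rcases h with h | ⟨d', hd, j, h⟩
        · exact Or.inl h
        · have hk : (c j).Ev κ := ev_of_inD κ _ _ h
          have hlt : κ' < κ := hz.2.2.1 j κ hk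
          rcases hev with hev | ⟨i, hev⟩
          · omega
          · refine Or.inr ⟨d', hd, i, ?_⟩
            have h5 := child_unique hz hev hk
            beta_reduce
            rw [h5]
            exact h
    rcases hw with hw | hw | ⟨i, w', hw', hw⟩
    · exact key 0 hw
    · exact key 1 hw
    · subst hw
      rcases h with h | ⟨d', hd, j, h⟩
      · exact Or.inl h
      · have hk : (c j).Ev κ := ev_of_inD κ _ _ h
        have hlt : κ' < κ := hz.2.2.1 j κ hk
        refine Or.inr ⟨d', hd, j, ?_⟩
        by_cases hij : i = j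
        · subst hij
          rw [Function.update_self]
          exact ih i d' (hz.2.1 i) h w' hw' ((ev_update hz hw' hk).mp hev)
        · rw [Function.update_of_ne (Ne.symm hij)]
          exact h

end TSD

theorem blk_TSD : Stmt_TSD := by
  intro z κ d hz h
  refine ⟨TSD.inD_steps κ z d hz h, ?_⟩
  have h1 := TSD.aop_ge κ z d hz h
  unfold Aop at h1
  rw [TSD.evi_eq_one (TSD.ev_of_inD κ z d h)] at h1
  have h2 : ∀ l : List Prog, (l.map fun w => 1 - evi κ w).sum =
      (l.length : ℝ) - (l.map (evi κ)).sum := by
    intro l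
    induction l with
    | nil => simp
    | cons a l ih =>
      rw [List.map_cons, List.sum_cons, ih, List.map_cons, List.sum_cons, List.length_cons]
      push_cast
      ring
  rw [h2] at h1
  linarith

end Pool.CE
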