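import Mathlib

/-!
Complemented subspace problem, block C_countable (helper90).
An infinite dimensional reflexive space has no bounded below map into `C(L)`, `L` countable
compact: Baire category in the weakly compact unit ball (Lindenstrauss-Phelps).
-/

set_option autoImplicit false

open Set Filter Topology NormedSpace

namespace Pool.CE

/-- In an infinite dimensional space finitely many functionals have a common kernel vector. -/
theorem exists_common_kernel {Z : Type*} [NormedAddCommGroup Z] [NormedSpace ℝ Z]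
    (hinf : ¬ FiniteDimensional ℝ Z) (I : Finset (StrongDual ℝ Z)) :
    ∃ y : Z, y ≠ 0 ∧ ∀ f ∈ I, f y = 0 := by
  by_contra hcon
  push Not at hcon
  let Φ : Z →ₗ[ℝ] (I → ℝ) := LinearMap.pi fun f => (f.1 : Z →ₗ[ℝ] ℝ)
  have hinj : Function.Injective Φ := by
    rw [injective_iff_map_eq_zero]
    intro y hy
    by_contra hne
    obtain ⟨f, hf, hfy⟩ := hcon y hne
    apply hfy
    have := congrFun hy ⟨f, hf⟩
    simpa [Φ] using this
  exact hinf (Module.Finite.of_injective Φ hinj)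

/-- A weak-* neighbourhood contains all functionals that agree on a suitable finite set. -/
theorem weakDual_nhds_finite {E : Type*} [NormedAddCommGroup E] [NormedSpace ℝ E]
    (ξ : WeakDual ℝ E) (U : Set (WeakDual ℝ E)) (hU : U ∈ 𝓝 ξ) :
    ∃ I : Finset E, ∀ η : WeakDual ℝ E, (∀ x ∈ I, η x = ξ x) → η ∈ U := by
  have hemb : IsInducing ((fun f x => f x) : WeakDual ℝ E → E → ℝ) := ⟨rfl⟩
  rw [hemb.nhds_eq_comap, Filter.mem_comap] at hU
  obtain ⟨V, hV, hVU⟩ := hU
  rw [nhds_pi, Filter.mem_pi'] at hV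
  obtain ⟨I, t, ht, hsub⟩ := hV
  refine ⟨I, fun η hη => hVU ?_⟩
  refine hsub ?_
  intro x hx
  have : η x = ξ x := hη x hx
  change η x ∈ t x
  rw [this]
  exact mem_of_mem_nhds (ht x)

/-- An infinite dimensional reflexive space has no bounded below map into `C(L)`, `L` countable
compact. -/
theorem no_countable {Z : Type*} [NormedAddCommGroup Z] [NormedSpace ℝ Z]
    (hinf : ¬ FiniteDimensional ℝ Z)
    (hrefl : Function.Surjective (NormedSpace.inclusionInDoubleDual ℝ Z))
    {L : Type*} [TopologicalSpace L] [CompactSpace L] [Countable L]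
    (T : Z →L[ℝ] C(L, ℝ)) (c : ℝ) (hc : 0 < c) (hT : ∀ z, c * ‖z‖ ≤ ‖T z‖) : False := by
  classical
  -- the evaluation functionals
  let x : L → StrongDual ℝ Z := fun t => (ContinuousMap.evalCLM ℝ t).comp T
  have hx : ∀ t z, x t z = T z t := fun t z => rfl
  -- the sets of level `r`
  let S : ℝ → Set (WeakDual ℝ (StrongDual ℝ Z)) := fun r => {ξ | ∀ t, |ξ (x t)| ≤ r}
  have hSclosed : ∀ r, IsClosed (S r) := by
    intro r
    have : S r = ⋂ t, {ξ : WeakDual ℝ (StrongDual ℝ Z) | |ξ (x t)| ≤ r} := by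
      ext ξ; simp [S]
    rw [this]
    refine isClosed_iInter fun t => ?_
    exact isClosed_le ((WeakBilin.eval_continuous (topDualPairing ℝ (StrongDual ℝ Z)) (x t)).abs)
      continuous_const
  -- elements of the bidual come from `Z`
  have hJ : ∀ ξ : WeakDual ℝ (StrongDual ℝ Z), ∃ z : Z, ∀ f : StrongDual ℝ Z, ξ f = f z := by
    intro ξ
    obtain ⟨z, hz⟩ := hrefl (WeakDual.toStrongDual ξ)
    refine ⟨z, fun f => ?_⟩
    have : (WeakDual.toStrongDual ξ) f = f z := by
      rw [← hz]; exact NormedSpace.dual_def ℝ Z z f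
    exact this
  let j : Z → WeakDual ℝ (StrongDual ℝ Z) := fun z =>
    StrongDual.toWeakDual (NormedSpace.inclusionInDoubleDual ℝ Z z)
  have hj : ∀ (z : Z) (f : StrongDual ℝ Z), j z f = f z := fun z f =>
    NormedSpace.dual_def ℝ Z z f
  have hSnorm : ∀ (z : Z) (r : ℝ), 0 ≤ r → (∀ t, |T z t| ≤ r) → ‖T z‖ ≤ r := by
    intro z r hr h
    exact (ContinuousMap.norm_le _ hr).2 fun t => by simpa [Real.norm_eq_abs] using h t
  have hBbdd : Bornology.IsBounded (S 1) := by
    refine (WeakDual.isBounded_closedBall (0 : StrongDual ℝ (StrongDual ℝ Z)) (1 / c)).subset ?_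
    intro ξ hξ
    obtain ⟨z, hz⟩ := hJ ξ
    have h1 : ‖T z‖ ≤ 1 := hSnorm z 1 zero_le_one fun t => by
      have := hξ t
      rw [hz, hx] at this
      exact this
    have h2 : ‖z‖ ≤ 1 / c := by
      rw [le_div_iff₀ hc]
      nlinarith [hT z]
    change WeakDual.toStrongDual ξ ∈ Metric.closedBall 0 (1 / c)
    rw [mem_closedBall_zero_iff]
    refine ContinuousLinearMap.opNorm_le_bound _ (by positivity) fun f => ?_
    have : (WeakDual.toStrongDual ξ) f = f z := hz f
    rw [this]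
    calc ‖f z‖ ≤ ‖f‖ * ‖z‖ := f.le_opNorm z
      _ ≤ ‖f‖ * (1 / c) := by gcongr
      _ = 1 / c * ‖f‖ := mul_comm _ _
  have hBcomp : IsCompact (S 1) := WeakDual.isCompact_of_bounded_of_closed hBbdd (hSclosed 1)
  have : CompactSpace (S 1) := isCompact_iff_compactSpace.1 hBcomp
  have hzero : (0 : WeakDual ℝ (StrongDual ℝ Z)) ∈ S 1 := by
    intro t
    change |(0 : ℝ)| ≤ 1
    simp
  have : Nonempty (S 1) := ⟨⟨0, hzero⟩⟩
  -- the closed cover
  let F : L ⊕ ℕ → Set (S 1) := fun i => match i with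
    | Sum.inl t => {ξ | |ξ.1 (x t)| = 1}
    | Sum.inr n => {ξ | ξ.1 ∈ S (1 - 1 / ((n : ℝ) + 2))}
  have hFc : ∀ i, IsClosed (F i) := by
    rintro (t | n)
    · exact isClosed_eq (((WeakBilin.eval_continuous (topDualPairing ℝ (StrongDual ℝ Z))
        (x t)).comp continuous_subtype_val).abs) continuous_const
    · exact (hSclosed _).preimage continuous_subtype_val
  have hFU : ⋃ i, F i = univ := by
    rw [eq_univ_iff_forall]
    rintro ⟨ξ, hξ⟩
    rw [mem_iUnion]
    by_cases h : ∃ t, |ξ (x t)| = 1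
    · obtain ⟨t, ht⟩ := h
      exact ⟨Sum.inl t, ht⟩
    · push Not at h
      obtain ⟨z, hz⟩ := hJ ξ
      have hlt : ‖T z‖ < 1 := by
        rw [ContinuousMap.norm_lt_iff _ zero_lt_one]
        intro t
        have h1 : |ξ (x t)| ≤ 1 := hξ t
        have h2 := lt_of_le_of_ne h1 (h t)
        rw [hz, hx] at h2
        exact h2
      obtain ⟨n, hn⟩ := exists_nat_gt (1 / (1 - ‖T z‖))
      refine ⟨Sum.inr n, fun t => ?_⟩
      have h3 : |ξ (x t)| ≤ ‖T z‖ := by
        rw [hz, hx]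
        exact (T z).norm_coe_le_norm t
      have h4 : 1 / ((n : ℝ) + 2) ≤ 1 - ‖T z‖ := by
        have hpos : 0 < 1 - ‖T z‖ := by linarith
        rw [div_le_iff₀ (by positivity)]
        rw [div_lt_iff₀ hpos] at hn
        nlinarith
      linarith
  obtain ⟨i, hi⟩ := nonempty_interior_of_iUnion_of_closed hFc hFU
  obtain ⟨⟨ξ, hξ⟩, hξi⟩ := hi
  have hnhds : F i ∈ 𝓝 (⟨ξ, hξ⟩ : S 1) := mem_interior_iff_mem_nhds.1 hξi
  rw [nhds_subtype, Filter.mem_comap] at hnhds
  obtain ⟨U, hU, hUF⟩ := hnhds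
  have hξU : ξ ∈ U := mem_of_mem_nhds hU
  rcases i with t | n
  · -- scaling down leaves `F t`
    have hcont : Tendsto (fun s : ℝ => (1 - s) • ξ) (𝓝 0) (𝓝 ξ) := by
      have h1 : Tendsto (fun s : ℝ => (1 - s)) (𝓝 0) (𝓝 1) := by
        have : Tendsto (fun s : ℝ => (1 : ℝ) - s) (𝓝 0) (𝓝 (1 - 0)) :=
          (continuous_const.sub continuous_id).tendsto 0
        simpa using this
      have h2 := h1.smul_const ξ
      simpa using h2
    have hev : ∀ᶠ s : ℝ in 𝓝[>] 0, (1 - s) • ξ ∈ U :=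
      (hcont.mono_left nhdsWithin_le_nhds).eventually hU
    have hev2 : ∀ᶠ s : ℝ in 𝓝[>] 0, s ∈ Ioo (0 : ℝ) 1 := Ioo_mem_nhdsGT zero_lt_one
    obtain ⟨s, hsU, hs⟩ := (hev.and hev2).exists
    have hξt : |ξ (x t)| = 1 := by
      have : (⟨ξ, hξ⟩ : S 1) ∈ F (Sum.inl t) := hUF hξU
      exact this
    have habs : ∀ u, |((1 - s) • ξ) (x u)| = (1 - s) * |ξ (x u)| := by
      intro u
      change |(1 - s) * ξ (x u)| = _
      rw [abs_mul, abs_of_pos (by linarith [hs.2] : (0 : ℝ) < 1 - s)]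
    have hmem : (1 - s) • ξ ∈ S 1 := by
      intro u
      rw [habs]
      have := hξ u
      nlinarith [hs.1, hs.2, abs_nonneg (ξ (x u))]
    have : (⟨(1 - s) • ξ, hmem⟩ : S 1) ∈ F (Sum.inl t) := hUF hsU
    have h5 : |((1 - s) • ξ) (x t)| = 1 := this
    rw [habs, hξt] at h5
    linarith [hs.1]
  · -- a common kernel vector leaves `G n`
    obtain ⟨I, hI⟩ := weakDual_nhds_finite ξ U hU
    obtain ⟨y, hy0, hy⟩ := exists_common_kernel hinf I
    obtain ⟨z, hz⟩ := hJ ξ
    have hlt : ‖T z‖ ≤ 1 - 1 / ((n : ℝ) + 2) := by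
      have hmem : (⟨ξ, hξ⟩ : S 1) ∈ F (Sum.inr n) := hUF hξU
      refine hSnorm z _ ?_ fun t => ?_
      · rw [sub_nonneg, div_le_one (by positivity)]
        have : (0 : ℝ) ≤ n := Nat.cast_nonneg n
        linarith
      · have : |ξ (x t)| ≤ 1 - 1 / ((n : ℝ) + 2) := hmem t
        rw [hz, hx] at this
        exact this
    have hTy : 0 < ‖T y‖ := lt_of_lt_of_le (by have := norm_pos_iff.2 hy0; positivity) (hT y)
    -- intermediate value theorem
    let g : ℝ → ℝ := fun s => ‖T (z + s • y)‖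
    have hg : Continuous g := by fun_prop
    have hg0 : g 0 ≤ 1 := by
      have : g 0 = ‖T z‖ := by simp [g]
      rw [this]
      have : (0 : ℝ) ≤ 1 / ((n : ℝ) + 2) := by positivity
      linarith
    have hg1 : 1 ≤ g (3 / ‖T y‖) := by
      have h1 : ‖(3 / ‖T y‖) • T y‖ = 3 := by
        rw [norm_smul, Real.norm_eq_abs, abs_of_pos (by positivity)]
        field_simp
      have h2 : ‖(3 / ‖T y‖) • T y‖ ≤ ‖T (z + (3 / ‖T y‖) • y)‖ + ‖T z‖ := by
        have : (3 / ‖T y‖) • T y = T (z + (3 / ‖T y‖) • y) - T z := by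
          rw [map_add, map_smul]; abel
        rw [this]
        exact norm_sub_le _ _
      have h3 : ‖T z‖ ≤ 1 := by
        have : (0 : ℝ) ≤ 1 / ((n : ℝ) + 2) := by positivity
        linarith
      change 1 ≤ ‖T (z + (3 / ‖T y‖) • y)‖
      linarith
    obtain ⟨s, -, hs⟩ := intermediate_value_Icc (a := (0 : ℝ)) (b := 3 / ‖T y‖) (by positivity)
      hg.continuousOn ⟨hg0, hg1⟩
    have hs' : ‖T (z + s • y)‖ = 1 := hs
    have hmem1 : j (z + s • y) ∈ S 1 := by
      intro t
      rw [hj, hx]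
      rw [← hs']
      exact (T (z + s • y)).norm_coe_le_norm t
    have hmemU : j (z + s • y) ∈ U := by
      refine hI _ fun f hf => ?_
      rw [hj, hz, map_add, map_smul, hy f hf]
      simp
    have hmemF : (⟨j (z + s • y), hmem1⟩ : S 1) ∈ F (Sum.inr n) := hUF hmemU
    have hle : ‖T (z + s • y)‖ ≤ 1 - 1 / ((n : ℝ) + 2) := by
      refine hSnorm _ _ ?_ fun t => ?_
      · rw [sub_nonneg, div_le_one (by positivity)]
        have : (0 : ℝ) ≤ n := Nat.cast_nonneg n
        linarith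
      · have : |j (z + s • y) (x t)| ≤ 1 - 1 / ((n : ℝ) + 2) := hmemF t
        rw [hj, hx] at this
        exact this
    rw [hs'] at hle
    have : (0 : ℝ) < 1 / ((n : ℝ) + 2) := by positivity
    linarith

end Pool.CE
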