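import Mathlib

/-!
# A space with a lattice norm of growth type does not embed in `C(L)`, `L` countable compact
-/

namespace Pool.Agent.Work.MP_052a41_ce

open Set Filter Topology

/-- a lattice (1-unconditional) norm on `c_00`. -/
structure LatNorm (N : (ℕ →₀ ℝ) → ℝ) : Prop where
  add_le : ∀ a b, N (a + b) ≤ N a + N b
  smul : ∀ (c : ℝ) a, N (c • a) = |c| * N a
  mono : ∀ a b : ℕ →₀ ℝ, (∀ k, |a k| ≤ |b k|) → N a ≤ N b
  eq_zero : ∀ a, N a = 0 → a = 0

/-- the support of `a` is before the support of `b`. -/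
def Before (a b : ℕ →₀ ℝ) : Prop := ∀ k ∈ a.support, ∀ l ∈ b.support, k < l

/-- seminormalised successive vectors have unbounded sums. -/
def Growth (N : (ℕ →₀ ℝ) → ℝ) : Prop :=
  ∀ δ : ℝ, 0 < δ → ∀ b : ℕ → (ℕ →₀ ℝ), (∀ i j, i < j → Before (b i) (b j)) →
    (∀ i, δ ≤ N (b i)) → ∀ M : ℝ, ∃ F : Finset ℕ, M ≤ N (∑ i ∈ F, b i)

namespace LatNorm

variable {N : (ℕ →₀ ℝ) → ℝ} (hN : LatNorm N)
include hN

theorem zero : N 0 = 0 := by
  have := hN.smul 0 0
  simpa using this

theorem nonneg (a : ℕ →₀ ℝ) : 0 ≤ N a := by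
  rw [← hN.zero]
  exact hN.mono _ _ fun k => by simp

theorem pos {a : ℕ →₀ ℝ} (h : a ≠ 0) : 0 < N a :=
  lt_of_le_of_ne (hN.nonneg a) fun h' => h (hN.eq_zero a h'.symm)

end LatNorm

namespace NoEmb

/-- block sequences. -/
def Block (v : ℕ → (ℕ →₀ ℝ)) : Prop := (∀ i j, i < j → Before (v i) (v j)) ∧ ∀ i, v i ≠ 0

theorem Block.le {v : ℕ → (ℕ →₀ ℝ)} (h : Block v) : ∀ i, ∀ k ∈ (v i).support, i ≤ k := by
  intro i
  induction i with
  | zero => intro k _; exact Nat.zero_le k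
  | succ i ih =>
    intro k hk
    obtain ⟨l, hl⟩ := Finsupp.support_nonempty_iff.2 (h.2 i)
    have := ih l hl
    have := h.1 i (i + 1) (Nat.lt_succ_self i) l hl k hk
    omega

theorem Block.tail {v : ℕ → (ℕ →₀ ℝ)} (h : Block v) (m : ℕ) : Block fun i => v (i + m) :=
  ⟨fun i j hij => h.1 _ _ (by omega), fun i => h.2 _⟩

section

variable {L : Type*} [TopologicalSpace L]

/-- small sets. -/
def Small (N : (ℕ →₀ ℝ) → ℝ) (T : (ℕ →₀ ℝ) →ₗ[ℝ] C(L, ℝ)) (E : Set L) : Prop :=
  ∀ v : ℕ → (ℕ →₀ ℝ), Block v → ∀ ε : ℝ, 0 < ε →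
    ∃ z ∈ Submodule.span ℝ (range v), z ≠ 0 ∧ ∀ y ∈ E, |T z y| ≤ ε * N z

variable {N : (ℕ →₀ ℝ) → ℝ} {T : (ℕ →₀ ℝ) →ₗ[ℝ] C(L, ℝ)}

theorem Small.mono {E E' : Set L} (h : Small N T E) (hE : E' ⊆ E) : Small N T E' := by
  intro v hv ε hε
  obtain ⟨z, h1, h2, h3⟩ := h v hv ε hε
  exact ⟨z, h1, h2, fun y hy => h3 y (hE hy)⟩

theorem Small.far {E : Set L} (h : Small N T E) {v : ℕ → (ℕ →₀ ℝ)} (hv : Block v) (m : ℕ)
    {ε : ℝ} (hε : 0 < ε) :
    ∃ z ∈ Submodule.span ℝ (range v), z ≠ 0 ∧ (∀ k ∈ z.support, m ≤ k) ∧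
      ∀ y ∈ E, |T z y| ≤ ε * N z := by
  obtain ⟨z, h1, h2, h3⟩ := h _ (hv.tail m) ε hε
  refine ⟨z, ?_, h2, ?_, h3⟩
  · refine Submodule.span_mono ?_ h1
    rintro _ ⟨i, rfl⟩
    exact ⟨_, rfl⟩
  · have : Submodule.span ℝ (range fun i => v (i + m)) ≤ Finsupp.supported ℝ ℝ {k | m ≤ k} := by
      rw [Submodule.span_le]
      rintro _ ⟨i, rfl⟩
      rw [SetLike.mem_coe, Finsupp.mem_supported]
      intro k hk
      have := hv.le _ k hk
      simp only [mem_ofPred_eq]
      omega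
    have h4 := this h1
    rw [Finsupp.mem_supported] at h4
    exact fun k hk => h4 hk

theorem small_empty : Small N T (∅ : Set L) := by
  intro v hv ε hε
  exact ⟨v 0, Submodule.subset_span ⟨0, rfl⟩, hv.2 0, fun y hy => hy.elim⟩

theorem small_singleton (hN : LatNorm N) (x : L) : Small N T {x} := by
  intro v hv ε hε
  by_cases h0 : T (v 0) x = 0
  · refine ⟨v 0, Submodule.subset_span ⟨0, rfl⟩, hv.2 0, ?_⟩
    rintro y rfl
    rw [h0, abs_zero]
    exact mul_nonneg hε.le (hN.nonneg _)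
  · refine ⟨(T (v 1) x) • v 0 - (T (v 0) x) • v 1, ?_, ?_, ?_⟩
    · exact Submodule.sub_mem _ (Submodule.smul_mem _ _ (Submodule.subset_span ⟨0, rfl⟩))
        (Submodule.smul_mem _ _ (Submodule.subset_span ⟨1, rfl⟩))
    · intro h
      obtain ⟨l, hl⟩ := Finsupp.support_nonempty_iff.2 (hv.2 1)
      have h1 : v 0 l = 0 := by
        by_contra h1
        exact lt_irrefl _ (hv.1 0 1 one_pos l (Finsupp.mem_support_iff.2 h1) l hl)
      have h2 := DFunLike.congr_fun h l
      rw [Finsupp.sub_apply, Finsupp.smul_apply, Finsupp.smul_apply, h1, smul_zero, zero_sub,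
        Finsupp.zero_apply, neg_eq_zero, smul_eq_mul] at h2
      rcases mul_eq_zero.1 h2 with h3 | h3
      · exact h0 h3
      · exact Finsupp.mem_support_iff.1 hl h3
    · rintro y rfl
      have : T ((T (v 1) y) • v 0 - (T (v 0) y) • v 1) y = 0 := by
        rw [map_sub, map_smul, map_smul, ContinuousMap.sub_apply, ContinuousMap.smul_apply,
          ContinuousMap.smul_apply, smul_eq_mul, smul_eq_mul]
        ring
      rw [this, abs_zero]
      exact mul_nonneg hε.le (hN.nonneg _)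

/-- the coordinates of a vector in a block subspace. -/
theorem coeff_le (hN : LatNorm N) {v : ℕ → (ℕ →₀ ℝ)} (hv : ∀ i j, i < j → Before (v i) (v j))
    (a : ℕ →₀ ℝ) (j : ℕ) : |a j| * N (v j) ≤ N (a.sum fun i c => c • v i) := by
  rw [← hN.smul]
  apply hN.mono
  intro k
  by_cases hk : k ∈ (v j).support
  · apply le_of_eq
    congr 1
    rw [Finsupp.sum, Finsupp.finsetSum_apply]
    by_cases hj : j ∈ a.support
    · rw [Finset.sum_eq_single j]
      · intro i _ hij
        have : v i k = 0 := by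
          by_contra h1
          have h1 := Finsupp.mem_support_iff.2 h1
          rcases lt_or_gt_of_ne hij with h | h
          · exact lt_irrefl _ (hv i j h k h1 k hk)
          · exact lt_irrefl _ (hv j i h k hk k h1)
        rw [Finsupp.smul_apply, this, smul_zero]
      · intro h; exact absurd hj h
    · rw [Finsupp.notMem_support_iff] at hj
      rw [hj, zero_smul, Finsupp.zero_apply]
      symm
      apply Finset.sum_eq_zero
      intro i hi
      have hij : i ≠ j := by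
        rintro rfl
        exact Finsupp.mem_support_iff.1 hi hj
      have : v i k = 0 := by
        by_contra h1
        have h1 := Finsupp.mem_support_iff.2 h1
        rcases lt_or_gt_of_ne hij with h | h
        · exact lt_irrefl _ (hv i j h k h1 k hk)
        · exact lt_irrefl _ (hv j i h k hk k h1)
      rw [Finsupp.smul_apply, this, smul_zero]
  · rw [Finsupp.notMem_support_iff] at hk
    rw [Finsupp.smul_apply, hk, smul_zero, abs_zero]
    exact abs_nonneg _

theorem exists_bound (s : Finset ((ℕ →₀ ℝ) × ℝ)) : ∃ m : ℕ, ∀ p ∈ s, ∀ k ∈ p.1.support, k < m := by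
  classical
  refine ⟨(s.biUnion fun p => p.1.support).sup id + 1, fun p hp k hk => ?_⟩
  rw [Nat.lt_succ_iff]
  exact Finset.le_sup (f := id) (Finset.mem_biUnion.2 ⟨p, hp, hk⟩)

theorem exists_tol (s : Finset ((ℕ →₀ ℝ) × ℝ)) (hs : ∀ p ∈ s, 0 < p.2) {ε : ℝ} (hε : 0 < ε) :
    ∃ η : ℝ, 0 < η ∧ η ≤ ε / 2 ∧ ∀ p ∈ s, η ≤ p.2 / 2 := by
  classical
  induction s using Finset.induction_on with
  | empty => exact ⟨ε / 2, by positivity, le_rfl, fun p hp => absurd hp (Finset.notMem_empty _)⟩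
  | insert a s _ ih =>
    obtain ⟨η, h1, h2, h3⟩ := ih fun p hp => hs p (Finset.mem_insert_of_mem hp)
    have ha := hs a (Finset.mem_insert_self _ _)
    refine ⟨min η (a.2 / 2), lt_min h1 (by positivity), (min_le_left _ _).trans h2, ?_⟩
    intro p hp
    rcases Finset.mem_insert.1 hp with rfl | hp
    · exact min_le_right _ _
    · exact (min_le_left _ _).trans (h3 p hp)

theorem tol_le {f : ℕ → (ℕ →₀ ℝ) × ℝ} {ε : ℝ} (h0 : ∀ n, (f n).2 ≤ ε / 2)
    (h : ∀ m n, m < n → (f n).2 ≤ (f m).2 / 2) (n : ℕ) : (f n).2 ≤ ε / 2 / 2 ^ n := by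
  induction n with
  | zero => simpa using h0 0
  | succ n ih =>
    have := h n (n + 1) (Nat.lt_succ_self n)
    rw [pow_succ]
    calc (f (n + 1)).2 ≤ (f n).2 / 2 := this
      _ ≤ (ε / 2 / 2 ^ n) / 2 := by gcongr
      _ = _ := by rw [div_div]

theorem sum_tol_le {ε : ℝ} (hε : 0 < ε) (F : Finset ℕ) : ∑ n ∈ F, ε / 2 / 2 ^ n ≤ ε := by
  have h := summable_geometric_two' ε
  have h2 := tsum_geometric_two' ε
  exact (h.sum_le_tsum F fun i _ => by positivity).trans h2.le

theorem Small.union (hN : LatNorm N) {E₁ E₂ : Set L} (h₁ : Small N T E₁) (h₂ : Small N T E₂) :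
    Small N T (E₁ ∪ E₂) := by
  intro v hv ε hε
  obtain ⟨f, hf1, hf2⟩ := exists_seq_of_forall_finset_exists
    (P := fun p : (ℕ →₀ ℝ) × ℝ => p.1 ∈ Submodule.span ℝ (range v) ∧ p.1 ≠ 0 ∧ 0 < p.2 ∧
      p.2 ≤ ε / 2 ∧ ∀ y ∈ E₁, |T p.1 y| ≤ p.2 * N p.1)
    (r := fun p q => Before p.1 q.1 ∧ q.2 ≤ p.2 / 2) (by
      intro s hs
      obtain ⟨m, hm⟩ := exists_bound s
      obtain ⟨η, h1, h2, h3⟩ := exists_tol s (fun p hp => (hs p hp).2.2.1) hε
      obtain ⟨z, hz1, hz2, hz3, hz4⟩ := h₁.far hv m h1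
      exact ⟨(z, η), ⟨hz1, hz2, h1, h2, hz4⟩, fun p hp =>
        ⟨fun k hk l hl => lt_of_lt_of_le (hm p hp k hk) (hz3 l hl), h3 p hp⟩⟩)
  have hw : Block fun n => (f n).1 := ⟨fun i j hij => (hf2 i j hij).1, fun i => (hf1 i).2.1⟩
  obtain ⟨z, hz1, hz2, hz3⟩ := h₂ _ hw ε hε
  refine ⟨z, ?_, hz2, ?_⟩
  · have : Submodule.span ℝ (range fun n => (f n).1) ≤ Submodule.span ℝ (range v) := by
      rw [Submodule.span_le]
      rintro _ ⟨i, rfl⟩
      exact (hf1 i).1
    exact this hz1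
  · rintro y (hy | hy)
    · obtain ⟨a, ha⟩ := Finsupp.mem_span_range_iff_exists_finsupp.1 hz1
      have h1 : ∀ j, |a j| * N (f j).1 ≤ N z := by
        intro j
        rw [← ha]
        exact coeff_le hN (fun i j hij => (hf2 i j hij).1) a j
      have h2 : T z y = ∑ j ∈ a.support, a j * T (f j).1 y := by
        rw [← ha, Finsupp.sum, map_sum, ContinuousMap.sum_apply]
        refine Finset.sum_congr rfl fun j _ => ?_
        rw [map_smul, ContinuousMap.smul_apply, smul_eq_mul]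
      rw [h2]
      calc |∑ j ∈ a.support, a j * T (f j).1 y| ≤ ∑ j ∈ a.support, |a j * T (f j).1 y| :=
            Finset.abs_sum_le_sum_abs _ _
        _ ≤ ∑ j ∈ a.support, (ε / 2 / 2 ^ j) * N z := by
            refine Finset.sum_le_sum fun j _ => ?_
            rw [abs_mul]
            calc |a j| * |T (f j).1 y| ≤ |a j| * ((f j).2 * N (f j).1) := by
                  gcongr
                  exact (hf1 j).2.2.2.2 y hy
              _ = (f j).2 * (|a j| * N (f j).1) := by ring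
              _ ≤ (f j).2 * N z := by
                  have := (hf1 j).2.2.1
                  gcongr
                  exact h1 j
              _ ≤ (ε / 2 / 2 ^ j) * N z := by
                  have := hN.nonneg z
                  gcongr
                  exact tol_le (fun n => (hf1 n).2.2.2.1) (fun m n hmn => (hf2 m n hmn).2) j
        _ = (∑ j ∈ a.support, ε / 2 / 2 ^ j) * N z := by rw [Finset.sum_mul]
        _ ≤ ε * N z := by
            have := hN.nonneg z
            gcongr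
            exact sum_tol_le hε _
    · exact hz3 y hy

/-- if all closed subsets of `U` avoiding `x` are small, then `U` is small. -/
theorem small_of_punctured (hN : LatNorm N) (hG : Growth N) {C : ℝ} [CompactSpace L]
    (hC : ∀ a, ‖T a‖ ≤ C * N a) {U : Set L} (hU : IsClosed U) (x : L)
    (h : ∀ E ⊆ U, IsClosed E → x ∉ E → Small N T E) : Small N T U := by
  intro v hv ε hε
  obtain ⟨f, hf1, hf2⟩ := exists_seq_of_forall_finset_exists
    (P := fun p : (ℕ →₀ ℝ) × ℝ => p.1 ∈ Submodule.span ℝ (range v) ∧ N p.1 = 1 ∧ 0 < p.2 ∧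
      p.2 ≤ 1 / 2 ∧ |T p.1 x| < p.2)
    (r := fun p q => Before p.1 q.1 ∧ q.2 ≤ p.2 / 2 ∧ ∀ y ∈ U, p.2 ≤ |T p.1 y| →
      |T q.1 y| < q.2) (by
      intro s hs
      obtain ⟨m, hm⟩ := exists_bound s
      obtain ⟨η, h1, h2, h3⟩ := exists_tol s (fun p hp => (hs p hp).2.2.1) one_pos
      have hE : IsClosed (⋃ p ∈ s, {y | y ∈ U ∧ p.2 ≤ |T p.1 y|}) := by
        apply isClosed_biUnion_finset
        intro p _
        exact hU.inter (isClosed_le continuous_const
          (continuous_abs.comp (T p.1).continuous))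
      have hE2 : (⋃ p ∈ s, {y | y ∈ U ∧ p.2 ≤ |T p.1 y|}) ⊆ U := by
        intro y hy
        simp only [mem_iUnion, mem_ofPred_eq] at hy
        obtain ⟨_, _, h4, _⟩ := hy
        exact h4
      have hE3 : x ∉ (⋃ p ∈ s, {y | y ∈ U ∧ p.2 ≤ |T p.1 y|}) := by
        intro hy
        simp only [mem_iUnion, mem_ofPred_eq] at hy
        obtain ⟨p, hp, _, h5⟩ := hy
        exact absurd (hs p hp).2.2.2.2 (not_lt.2 h5)
      obtain ⟨z, hz1, hz2, hz3, hz4⟩ := ((h _ hE2 hE hE3).union hN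
        (small_singleton hN x)).far hv m (half_pos h1)
      have hNz := hN.pos hz2
      have habs : ∀ y, |T z y| ≤ η / 2 * N z → |T ((N z)⁻¹ • z) y| < η := by
        intro y hy
        rw [map_smul, ContinuousMap.smul_apply, smul_eq_mul, abs_mul, abs_of_pos (inv_pos.2 hNz)]
        calc (N z)⁻¹ * |T z y| ≤ (N z)⁻¹ * (η / 2 * N z) := by gcongr
          _ = η / 2 := by field_simp
          _ < η := half_lt_self h1
      refine ⟨((N z)⁻¹ • z, η), ⟨Submodule.smul_mem _ _ hz1, ?_, h1, h2, ?_⟩, fun p hp =>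
        ⟨fun k hk l hl => ?_, h3 p hp, fun y hy hy2 => ?_⟩⟩
      · rw [hN.smul, abs_of_pos (inv_pos.2 hNz), inv_mul_cancel₀ hNz.ne']
      · exact habs x (hz4 x (Or.inr rfl))
      · refine lt_of_lt_of_le (hm p hp k hk) (hz3 l ?_)
        exact Finsupp.support_smul hl
      · apply habs y
        apply hz4
        left
        simp only [mem_iUnion, mem_ofPred_eq]
        exact ⟨p, hp, hy, hy2⟩)
  have hC0 : 0 ≤ C := by
    have h1 := hC (f 0).1
    rw [(hf1 0).2.1, mul_one] at h1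
    exact (norm_nonneg _).trans h1
  have hbd : ∀ (n : ℕ) (y : L), |T (f n).1 y| ≤ C := by
    intro n y
    have h1 := hC (f n).1
    rw [(hf1 n).2.1, mul_one] at h1
    exact ((T (f n).1).norm_coe_le_norm y).trans h1
  have hsum : ∀ (F : Finset ℕ), ∀ y ∈ U, |T (∑ n ∈ F, (f n).1) y| ≤ C + 1 := by
    intro F y hy
    have h1 : T (∑ n ∈ F, (f n).1) y = ∑ n ∈ F, T (f n).1 y := by
      rw [map_sum, ContinuousMap.sum_apply]
    rw [h1]
    have h2 : ∀ n, (f n).2 ≤ 1 / 2 / 2 ^ n :=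
      tol_le (fun n => (hf1 n).2.2.2.1) (fun m n hmn => (hf2 m n hmn).2.1)
    have h3 : ∃ i : ℕ, ∀ n, n ≠ i → |T (f n).1 y| ≤ 1 / 2 / 2 ^ n := by
      by_cases hex : ∃ i, (f i).2 ≤ |T (f i).1 y|
      · classical
        refine ⟨Nat.find hex, fun n hn => ?_⟩
        rcases lt_or_gt_of_ne hn with hlt | hgt
        · exact (not_le.1 (Nat.find_min hex hlt)).le.trans (h2 n)
        · exact ((hf2 _ n hgt).2.2 y hy (Nat.find_spec hex)).le.trans (h2 n)
      · push Not at hex
        exact ⟨0, fun n _ => (hex n).le.trans (h2 n)⟩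
    obtain ⟨i, hi⟩ := h3
    calc |∑ n ∈ F, T (f n).1 y| ≤ ∑ n ∈ F, |T (f n).1 y| := Finset.abs_sum_le_sum_abs _ _
      _ ≤ ∑ n ∈ F, ((if n = i then C else 0) + 1 / 2 / 2 ^ n) := by
          refine Finset.sum_le_sum fun n _ => ?_
          by_cases hn : n = i
          · rw [if_pos hn]
            have := hbd n y
            have h4 : (0 : ℝ) ≤ 1 / 2 / 2 ^ n := by positivity
            linarith
          · rw [if_neg hn, zero_add]
            exact hi n hn
      _ = (∑ n ∈ F, (if n = i then C else 0)) + ∑ n ∈ F, 1 / 2 / 2 ^ n := Finset.sum_add_distrib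
      _ ≤ C + 1 := by
          apply add_le_add
          · rw [Finset.sum_ite_eq']
            split_ifs
            · exact le_rfl
            · exact hC0
          · exact sum_tol_le one_pos F
  obtain ⟨F, hF⟩ := hG 1 one_pos (fun n => (f n).1) (fun i j hij => (hf2 i j hij).1)
    (fun i => (hf1 i).2.1.ge) ((C + 1) / ε)
  have hpos : 0 < (C + 1) / ε := by positivity
  refine ⟨∑ n ∈ F, (f n).1, Submodule.sum_mem _ fun n _ => (hf1 n).1, ?_, ?_⟩
  · intro h0
    rw [h0, hN.zero] at hF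
    exact absurd hF (not_le.2 hpos)
  · intro y hy
    refine (hsum F y hy).trans ?_
    rw [div_le_iff₀ hε] at hF
    linarith [hF]

end

/-- a nonempty countable compact Hausdorff space has an isolated point. -/
theorem exists_isolated (X : Type*) [TopologicalSpace X] [CompactSpace X] [T2Space X]
    [Countable X] [Nonempty X] : ∃ x : X, IsOpen ({x} : Set X) := by
  obtain ⟨x, hx⟩ := nonempty_interior_of_iUnion_of_closed (fun x : X => isClosed_singleton (x := x))
    (by ext x; simp)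
  refine ⟨x, ?_⟩
  obtain ⟨y, hy⟩ := hx
  have h1 := interior_subset hy
  rw [mem_singleton_iff] at h1
  subst h1
  have : interior ({y} : Set X) = {y} :=
    Subset.antisymm interior_subset (singleton_subset_iff.2 hy)
  rw [← this]
  exact isOpen_interior

theorem small_univ {N : (ℕ →₀ ℝ) → ℝ} (hN : LatNorm N) (hG : Growth N) {L : Type*}
    [TopologicalSpace L] [CompactSpace L] [T2Space L] [Countable L]
    (T : (ℕ →₀ ℝ) →ₗ[ℝ] C(L, ℝ)) {C : ℝ} (hC : ∀ a, ‖T a‖ ≤ C * N a) :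
    Small N T (univ : Set L) := by
  let G : Set L := {x | ∃ U ∈ 𝓝 x, Small N T U}
  have hGo : IsOpen G := by
    rw [isOpen_iff_mem_nhds]
    rintro x ⟨U, hU, hS⟩
    obtain ⟨V, hV, hVo, hxV⟩ := mem_nhds_iff.1 hU
    refine mem_nhds_iff.2 ⟨V, fun y hy => ⟨U, mem_nhds_iff.2 ⟨V, hV, hVo, hy⟩, hS⟩, hVo, hxV⟩
  have hsub : ∀ E : Set L, IsClosed E → E ⊆ G → Small N T E := by
    intro E hE hEG
    refine hE.isCompact.induction_on small_empty (fun _ _ h1 h2 => h2.mono h1)
      (fun _ _ h1 h2 => h1.union hN h2) ?_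
    intro x hx
    obtain ⟨U, hU, hS⟩ := hEG hx
    exact ⟨U, mem_nhdsWithin_of_mem_nhds hU, hS⟩
  have hall : G = univ := by
    by_contra hne
    have hne' : (Gᶜ).Nonempty := nonempty_compl.2 hne
    have hcl : IsClosed Gᶜ := hGo.isClosed_compl
    have : CompactSpace (Gᶜ : Set L) := isCompact_iff_compactSpace.1 hcl.isCompact
    have : Nonempty (Gᶜ : Set L) := hne'.to_subtype
    obtain ⟨⟨x, hx⟩, hxo⟩ := exists_isolated (Gᶜ : Set L)
    obtain ⟨W, hWo, hW⟩ := isOpen_induced_iff.1 hxo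
    have hxW : x ∈ W := by
      have : (⟨x, hx⟩ : (Gᶜ : Set L)) ∈ Subtype.val ⁻¹' W := by rw [hW]; rfl
      exact this
    obtain ⟨U, hU1, hU2, hU3⟩ := exists_mem_nhds_isClosed_subset (hWo.mem_nhds hxW)
    apply hx
    refine ⟨U, hU1, small_of_punctured hN hG hC hU2 x ?_⟩
    intro E hEU hEc hxE
    apply hsub E hEc
    intro y hy
    by_contra hyG
    have : (⟨y, hyG⟩ : (Gᶜ : Set L)) ∈ Subtype.val ⁻¹' W := hU3 (hEU hy)
    rw [hW, mem_singleton_iff, Subtype.mk.injEq] at this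
    exact hxE (this ▸ hy)
  exact hsub univ isClosed_univ hall.ge

end NoEmb

/-- A lattice norm on `c_00` with the growth property does not embed in `C(L, ℝ)`, `L` countable
compact Hausdorff. -/
theorem no_embedding {N : (ℕ →₀ ℝ) → ℝ} (hN : LatNorm N) (hG : Growth N) {L : Type*}
    [TopologicalSpace L] [CompactSpace L] [T2Space L] [Countable L]
    (T : (ℕ →₀ ℝ) →ₗ[ℝ] C(L, ℝ)) {C : ℝ} (hC : ∀ a, ‖T a‖ ≤ C * N a) {c : ℝ} (hc : 0 < c)
    (h : ∀ a, c * N a ≤ ‖T a‖) : False := by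
  have hB : NoEmb.Block fun i => Finsupp.single i (1 : ℝ) := by
    refine ⟨fun i j hij k hk l hl => ?_, fun i => by simp⟩
    rw [Finsupp.support_single_ne_zero _ one_ne_zero, Finset.mem_singleton] at hk hl
    omega
  obtain ⟨z, _, h2, h3⟩ := NoEmb.small_univ hN hG T hC _ hB (c / 2) (half_pos hc)
  have h4 : ‖T z‖ ≤ c / 2 * N z := by
    rw [ContinuousMap.norm_le _ (mul_nonneg (half_pos hc).le (hN.nonneg z))]
    intro y
    exact h3 y (mem_univ y)
  have h5 := h z
  have h6 := hN.pos h2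
  nlinarith

end Pool.Agent.Work.MP_052a41_ce
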