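import Mathlib

/-!
# No infinite-dimensional reflexive subspace in `C(L)`, `L` countable compact

The unit ball `B = {z | ‖T z‖ ≤ 1}` is weakly compact, hence a Baire space; it is the union of the
weakly closed sets `{|T z t| = 1}` (`t` in `L`) and `{‖T z‖ ≤ 1 - 1/(m+1)}`, none of which has
interior points.
-/

open Set Topology NormedSpace

namespace Pool.CE

variable {Z : Type*} [NormedAddCommGroup Z] [NormedSpace ℝ Z]

/-- In an infinite dimensional space finitely many functionals have a common nonzero zero. -/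
lemma exists_common_zero (hZ : ¬ FiniteDimensional ℝ Z) (I : Finset (StrongDual ℝ Z)) :
    ∃ u : Z, u ≠ 0 ∧ ∀ g ∈ I, g u = 0 := by
  by_contra hcon
  push Not at hcon
  apply hZ
  let Φ : Z →ₗ[ℝ] (I → ℝ) := LinearMap.pi fun g => (g.1 : Z →ₗ[ℝ] ℝ)
  refine FiniteDimensional.of_injective Φ ?_
  rw [← LinearMap.ker_eq_bot, LinearMap.ker_eq_bot']
  intro u hu
  by_contra hu0
  obtain ⟨g, hg, hgu⟩ := hcon u hu0
  apply hgu
  have := congrFun hu ⟨g, hg⟩
  simpa [Φ] using this

/-- A reflexive space which embeds into `C(L)`, `L` countable compact Hausdorff, is finite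
dimensional. -/
theorem no_reflexive_of_countable {L : Type*} [TopologicalSpace L] [CompactSpace L] [Countable L]
    (hZ : ¬ FiniteDimensional ℝ Z)
    (href : Function.Surjective (NormedSpace.inclusionInDoubleDual ℝ Z))
    (T : Z →L[ℝ] C(L, ℝ)) (c : ℝ) (hc : 0 < c) (hT : ∀ z, c * ‖z‖ ≤ ‖T z‖) : False := by
  classical
  let e : L → StrongDual ℝ Z := fun t => (ContinuousMap.evalCLM ℝ t).comp T
  have he : ∀ t z, e t z = T z t := fun t z => rfl
  let J : Z → WeakDual ℝ (StrongDual ℝ Z) := fun z =>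
    StrongDual.toWeakDual (NormedSpace.inclusionInDoubleDual ℝ Z z)
  have hJ : ∀ z g, J z g = g z := fun z g => rfl
  have hJsurj : ∀ ψ : WeakDual ℝ (StrongDual ℝ Z), ∃ z, J z = ψ := by
    intro ψ
    obtain ⟨z, hz⟩ := href (WeakDual.toStrongDual ψ)
    exact ⟨z, by simp only [J, hz, WeakDual.toWeakDual_toStrongDual]⟩
  let B : Set (WeakDual ℝ (StrongDual ℝ Z)) := {ψ | ∀ t, |ψ (e t)| ≤ 1}
  have hBJ : ∀ z, J z ∈ B ↔ ‖T z‖ ≤ 1 := by
    intro z
    rw [ContinuousMap.norm_le _ zero_le_one]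
    rfl
  have hBclosed : IsClosed B := by
    have : B = ⋂ t, {ψ | |ψ (e t)| ≤ 1} := by ext; simp [B]
    rw [this]
    refine isClosed_iInter fun t => ?_
    exact isClosed_le (continuous_abs.comp (WeakDual.eval_continuous (e t))) continuous_const
  have hBcompact : IsCompact B := by
    refine (WeakDual.isCompact_closedBall (0 : StrongDual ℝ (StrongDual ℝ Z))
      (1 / c)).of_isClosed_subset hBclosed ?_
    intro ψ hψ
    obtain ⟨z, rfl⟩ := hJsurj ψ
    have h1 : ‖T z‖ ≤ 1 := (hBJ z).1 hψ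
    have h2 : ‖z‖ ≤ 1 / c := by
      rw [le_div_iff₀ hc, mul_comm]
      exact (hT z).trans h1
    simp only [mem_preimage, mem_closedBall_zero_iff]
    exact (NormedSpace.double_dual_bound ℝ Z z).trans h2
  have : CompactSpace B := isCompact_iff_compactSpace.1 hBcompact
  have : Nonempty B := ⟨⟨J 0, (hBJ 0).2 (by simp)⟩⟩
  let F : L ⊕ ℕ → Set B := fun i => match i with
    | .inl t => {b | |b.1 (e t)| = 1}
    | .inr m => {b | ∀ t, |b.1 (e t)| ≤ 1 - 1 / ((m : ℝ) + 1)}
  have hev : ∀ t, Continuous fun b : B => |b.1 (e t)| := fun t =>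
    continuous_abs.comp ((WeakDual.eval_continuous (e t)).comp continuous_subtype_val)
  have hF : ∀ i, IsClosed (F i) := by
    intro i
    match i with
    | .inl t => exact isClosed_eq (hev t) continuous_const
    | .inr m =>
      have : F (.inr m) = ⋂ t, {b | |b.1 (e t)| ≤ 1 - 1 / ((m : ℝ) + 1)} := by ext; simp [F]
      rw [this]
      exact isClosed_iInter fun t => isClosed_le (hev t) continuous_const
  have hcover : ⋃ i, F i = univ := by
    rw [eq_univ_iff_forall]
    rintro ⟨ψ, hψ⟩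
    obtain ⟨z, rfl⟩ := hJsurj ψ
    have h1 : ‖T z‖ ≤ 1 := (hBJ z).1 hψ
    rw [mem_iUnion]
    rcases h1.lt_or_eq with h2 | h2
    · obtain ⟨m, hm⟩ := exists_nat_one_div_lt (sub_pos.2 h2)
      refine ⟨.inr m, fun t => ?_⟩
      have h3 : |T z t| ≤ ‖T z‖ := (T z).norm_coe_le_norm t
      show |T z t| ≤ 1 - 1 / ((m : ℝ) + 1)
      linarith
    · have hne : Nonempty L := by
        by_contra hcon
        rw [not_nonempty_iff] at hcon
        have : T z = 0 := by ext t; exact hcon.elim t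
        rw [this, norm_zero] at h2
        exact zero_ne_one h2
      obtain ⟨t, -, ht⟩ := isCompact_univ.exists_isMaxOn (univ_nonempty (α := L))
        ((map_continuous (T z)).abs.continuousOn)
      refine ⟨.inl t, ?_⟩
      show |T z t| = 1
      refine le_antisymm (((T z).norm_coe_le_norm t).trans h1) ?_
      rw [← h2, ContinuousMap.norm_le _ (abs_nonneg _)]
      intro s
      exact ht (mem_univ s)
  obtain ⟨i, b₀, hb₀⟩ := nonempty_interior_of_iUnion_of_closed hF hcover
  match i with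
  | .inl t =>
    let φ : Icc (0 : ℝ) 1 → B := fun r => ⟨r.1 • b₀.1, by
      intro s
      have h1 : (r.1 • b₀.1) (e s) = r.1 * b₀.1 (e s) := rfl
      rw [h1, abs_mul, abs_of_nonneg r.2.1]
      exact mul_le_one₀ r.2.2 (abs_nonneg _) (b₀.2 s)⟩
    have hφ : Continuous φ := by
      refine Continuous.subtype_mk ?_ _
      exact continuous_subtype_val.smul continuous_const
    have h1 : φ ⟨1, by norm_num, le_refl _⟩ = b₀ := by
      apply Subtype.ext
      simp [φ]
    have hopen : IsOpen (φ ⁻¹' interior (F (.inl t))) := isOpen_interior.preimage hφ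
    have hmem : (⟨1, by norm_num, le_refl _⟩ : Icc (0 : ℝ) 1) ∈ φ ⁻¹' interior (F (.inl t)) := by
      rw [mem_preimage, h1]; exact hb₀
    obtain ⟨ε, hε, hball⟩ := Metric.isOpen_iff.1 hopen _ hmem
    let r : Icc (0 : ℝ) 1 := ⟨1 - min (ε / 2) 1, by
      constructor
      · have := min_le_right (ε / 2) 1; linarith
      · have : 0 ≤ min (ε / 2) 1 := le_min (by linarith) zero_le_one
        linarith⟩
    have hr : r ∈ φ ⁻¹' interior (F (.inl t)) := by
      apply hball
      rw [Metric.mem_ball, Subtype.dist_eq, Real.dist_eq]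
      have h2 : 0 < min (ε / 2) 1 := lt_min (by linarith) one_pos
      have h3 := min_le_left (ε / 2) 1
      simp only [r]
      rw [show 1 - min (ε / 2) 1 - 1 = -min (ε / 2) 1 by ring, abs_neg, abs_of_pos h2]
      linarith
    have h2' : φ r ∈ F (.inl t) := interior_subset hr
    have h2 : |(r.1 • b₀.1) (e t)| = 1 := h2'
    have h3 : (r.1 • b₀.1) (e t) = r.1 * b₀.1 (e t) := rfl
    have h4' : b₀ ∈ F (.inl t) := interior_subset hb₀
    have h4 : |b₀.1 (e t)| = 1 := h4'
    rw [h3, abs_mul, h4, mul_one, abs_of_nonneg r.2.1] at h2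
    have h5 : 0 < min (ε / 2) 1 := lt_min (by linarith) one_pos
    simp only [r] at h2
    linarith
  | .inr m =>
    obtain ⟨z₀, hz₀⟩ := hJsurj b₀.1
    obtain ⟨U', hU', hUU'⟩ := isOpen_induced_iff.1 (isOpen_interior (s := F (.inr m)))
    obtain ⟨V, hV, hVU'⟩ := isOpen_induced_iff.1 hU'
    have hb₀V : (fun g => b₀.1 g) ∈ V := by
      have : b₀.1 ∈ U' := by
        have : b₀ ∈ Subtype.val ⁻¹' U' := by rw [hUU']; exact hb₀
        exact this
      rw [← hVU'] at this
      exact this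
    obtain ⟨I, u, hu, hsub⟩ := isOpen_pi_iff.1 hV _ hb₀V
    obtain ⟨w, hw0, hw⟩ := exists_common_zero hZ I
    -- the continuous function `s ↦ ‖T (z₀ + s w)‖` takes the value one
    have hcont : Continuous fun s : ℝ => ‖T (z₀ + s • w)‖ := by fun_prop
    have hw' : 0 < ‖w‖ := norm_pos_iff.2 hw0
    have h0 : ‖T z₀‖ ≤ 1 := by
      rw [← hBJ, hz₀]; exact b₀.2
    obtain ⟨S, hS0, hS1⟩ : ∃ S : ℝ, 0 ≤ S ∧ 1 ≤ ‖T (z₀ + S • w)‖ := by
      refine ⟨(1 / c + ‖z₀‖) / ‖w‖, by positivity, ?_⟩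
      refine le_trans ?_ (hT _)
      have h1 : ‖((1 / c + ‖z₀‖) / ‖w‖) • w‖ = 1 / c + ‖z₀‖ := by
        rw [norm_smul, Real.norm_of_nonneg (by positivity), div_mul_cancel₀ _ hw'.ne']
      have h2 : ‖((1 / c + ‖z₀‖) / ‖w‖) • w‖ ≤ ‖z₀ + ((1 / c + ‖z₀‖) / ‖w‖) • w‖ + ‖z₀‖ := by
        have := norm_sub_le (z₀ + ((1 / c + ‖z₀‖) / ‖w‖) • w) z₀
        rwa [add_sub_cancel_left] at this
      have h3 : 1 / c ≤ ‖z₀ + ((1 / c + ‖z₀‖) / ‖w‖) • w‖ := by linarith
      calc (1 : ℝ) = c * (1 / c) := by field_simp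
        _ ≤ _ := mul_le_mul_of_nonneg_left h3 hc.le
    obtain ⟨s, -, hs⟩ : ∃ s ∈ Icc 0 S, ‖T (z₀ + s • w)‖ = 1 := by
      have := intermediate_value_Icc hS0 (hcont.continuousOn (s := Icc 0 S))
      exact this ⟨by simpa using h0, hS1⟩
    let b₁ : B := ⟨J (z₀ + s • w), (hBJ _).2 hs.le⟩
    have hb₁V : (fun g => b₁.1 g) ∈ V := by
      apply hsub
      intro g hg
      have hg' : g ∈ I := hg
      have h1 : J (z₀ + s • w) g = b₀.1 g := by
        rw [hJ, map_add, map_smul, hw g hg', smul_zero, add_zero, ← hz₀, hJ]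
      show J (z₀ + s • w) g ∈ u g
      rw [h1]
      exact (hu g hg').2
    have hb₁U : b₁.1 ∈ U' := by
      rw [← hVU']
      exact hb₁V
    have hb₁ : b₁ ∈ interior (F (.inr m)) := by
      rw [← hUU']
      exact hb₁U
    have hb₁' : b₁ ∈ F (.inr m) := interior_subset hb₁
    have hlt : ‖T (z₀ + s • w)‖ ≤ 1 - 1 / ((m : ℝ) + 1) := by
      rw [ContinuousMap.norm_le _]
      · exact fun t => hb₁' t
      · rw [sub_nonneg, div_le_one (by positivity)]
        linarith [Nat.cast_nonneg (α := ℝ) m]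
    rw [hs] at hlt
    have : 0 < 1 / ((m : ℝ) + 1) := by positivity
    linarith

end Pool.CE
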