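import Mathlib

/-!
# If the dual of `C(L)` is separable then `L` is countable
-/

open Set Topology NormedSpace

namespace Pool.CE

/-- Evaluation at `t` as an element of the dual of `C(L)`. -/
noncomputable def ev {L : Type*} [TopologicalSpace L] [CompactSpace L] (t : L) :
    StrongDual ℝ C(L, ℝ) := ContinuousMap.evalCLM ℝ t

@[simp] lemma ev_apply {L : Type*} [TopologicalSpace L] [CompactSpace L] (t : L) (f : C(L, ℝ)) :
    ev t f = f t := rfl

lemma dist_ev_ge {L : Type*} [TopologicalSpace L] [CompactSpace L] [T2Space L] {s t : L}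
    (h : s ≠ t) : 1 ≤ dist (ev s) (ev t) := by
  obtain ⟨f, hf0, hf1, hf⟩ := exists_continuous_zero_one_of_isClosed
    (isClosed_singleton (x := t)) (isClosed_singleton (x := s))
    (by rw [disjoint_singleton]; exact h.symm)
  have h1 : ‖f‖ ≤ 1 := by
    rw [ContinuousMap.norm_le _ zero_le_one]
    intro x
    rw [Real.norm_of_nonneg (hf x).1]
    exact (hf x).2
  have h2 : (ev s - ev t) f = 1 := by
    have h3 : f t = 0 := hf0 (mem_singleton t)
    have h4 : f s = 1 := hf1 (mem_singleton s)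
    simp [h3, h4]
  have h5 := (ev s - ev t).le_opNorm f
  rw [h2, norm_one] at h5
  calc (1 : ℝ) ≤ _ := h5
    _ ≤ ‖ev s - ev t‖ := mul_le_of_le_one_right (norm_nonneg _) h1
    _ = dist (ev s) (ev t) := (dist_eq_norm (ev s) (ev t)).symm

/-- `C(L)*` separable implies that `L` is countable. -/
theorem countable_of_separable_dual {L : Type*} [TopologicalSpace L] [CompactSpace L] [T2Space L]
    (h : TopologicalSpace.SeparableSpace (StrongDual ℝ C(L, ℝ))) : Countable L := by
  refine Pairwise.countable_of_isOpen_disjoint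
    (s := fun t : L => Metric.ball (ev t) (1 / 2))
    ?_ (fun t => Metric.isOpen_ball) (fun t => ⟨_, Metric.mem_ball_self (by norm_num)⟩)
  intro s t hst
  refine Metric.ball_disjoint_ball ?_
  have := dist_ev_ge hst
  linarith

/-- Quotients of separable duals: if `E` embeds in `F` and `F*` is separable, so is `E*`. -/
theorem separable_dual_of_embedding {E F : Type*} [NormedAddCommGroup E] [NormedSpace ℝ E]
    [NormedAddCommGroup F] [NormedSpace ℝ F]
    (h : TopologicalSpace.SeparableSpace (StrongDual ℝ F)) (T : E →L[ℝ] F) (c : ℝ) (hc : 0 < c)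
    (hT : ∀ x, c * ‖x‖ ≤ ‖T x‖) : TopologicalSpace.SeparableSpace (StrongDual ℝ E) := by
  -- the adjoint `φ ↦ φ ∘ T` is continuous and onto
  let R : StrongDual ℝ F →L[ℝ] StrongDual ℝ E := ContinuousLinearMap.compL ℝ E F ℝ |>.flip T
  have hR : Function.Surjective R := by
    intro ψ
    have hinj : Function.Injective T := by
      rw [injective_iff_map_eq_zero]
      intro x hx
      have := hT x
      rw [hx, norm_zero] at this
      have h1 : ‖x‖ ≤ 0 := by nlinarith
      exact norm_le_zero_iff.1 h1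
    -- define `ψ ∘ T⁻¹` on the range and extend
    let e : E ≃ₗ[ℝ] LinearMap.range (T : E →ₗ[ℝ] F) :=
      LinearEquiv.ofInjective (T : E →ₗ[ℝ] F) hinj
    have he : ∀ y : LinearMap.range (T : E →ₗ[ℝ] F), T (e.symm y) = y := by
      intro y
      have := e.apply_symm_apply y
      exact congrArg Subtype.val this
    let g₀ : LinearMap.range (T : E →ₗ[ℝ] F) →ₗ[ℝ] ℝ := (ψ : E →ₗ[ℝ] ℝ) ∘ₗ e.symm.toLinearMap
    let g : LinearMap.range (T : E →ₗ[ℝ] F) →L[ℝ] ℝ := g₀.mkContinuous (‖ψ‖ * (1 / c)) (by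
      intro y
      have h1 : ‖g₀ y‖ ≤ ‖ψ‖ * ‖e.symm y‖ := ψ.le_opNorm _
      have h2 : ‖e.symm y‖ ≤ (1 / c) * ‖y‖ := by
        have h3 := hT (e.symm y)
        rw [he] at h3
        rw [one_div, inv_mul_eq_div, le_div_iff₀ hc, mul_comm]
        exact h3
      calc ‖g₀ y‖ ≤ ‖ψ‖ * ‖e.symm y‖ := h1
        _ ≤ ‖ψ‖ * ((1 / c) * ‖y‖) := mul_le_mul_of_nonneg_left h2 (norm_nonneg _)
        _ = _ := by ring)
    obtain ⟨G, hG, -⟩ := exists_extension_norm_eq _ g
    refine ⟨G, ?_⟩
    ext x
    have h4 := hG (e x)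
    have h5 : ((e x : LinearMap.range (T : E →ₗ[ℝ] F)) : F) = T x := rfl
    show G (T x) = ψ x
    rw [← h5, h4]
    show ψ (e.symm (e x)) = ψ x
    rw [e.symm_apply_apply]
  exact hR.denseRange.separableSpace R.continuous

end Pool.CE
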